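import Mathlib

/-!
Definitions for MP_552024_lc, theorem HM (first-order equivalence gives homeomorphic spectra).
Topology: cells, cellular sets, collars.  Geometry: real polyhedral cones, links, topological balls
and spheres all of whose links are topological balls and spheres.
-/

set_option autoImplicit false

namespace Pool.Agent.Work.MP_552024_lc.HM

open Metric Set Topology

/-- Euclidean space. -/
abbrev Eu (n : ℕ) := EuclideanSpace ℝ (Fin n)

/-- The closed unit ball times the unit interval. -/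
def BoxC (n : ℕ) : Set (Eu n × ℝ) := closedBall 0 1 ×ˢ Icc 0 1

/-- The open unit ball times the half open unit interval. -/
def BoxO (n : ℕ) : Set (Eu n × ℝ) := ball 0 1 ×ˢ Ico 0 1

/-- The closed half space. -/
def Half (n : ℕ) : Set (Eu n × ℝ) := {z | 0 ≤ z.2}

section top

/-- `A` lies in an open `n`-cell whose closed cell lies in `V`. -/
def CellIn {X : Type} [TopologicalSpace X] (n : ℕ) (A V : Set X) : Prop :=
  ∃ σ : Eu n → X, ContinuousOn σ (closedBall 0 1) ∧ InjOn σ (closedBall 0 1) ∧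
    IsOpen (σ '' ball 0 1) ∧ A ⊆ σ '' ball 0 1 ∧ σ '' closedBall 0 1 ⊆ V

/-- Cellular sets. -/
def Cellular {X : Type} [TopologicalSpace X] (n : ℕ) (A : Set X) : Prop :=
  ∀ V, IsOpen V → A ⊆ V → CellIn n A V

/-- Each point of `Y` is the point at infinity of a homeomorphism with a compactified space. -/
def PtHom (m : ℕ) (Y : Type) [TopologicalSpace Y] : Prop :=
  ∀ p : Y, ∃ e : OnePoint (Eu m) ≃ₜ Y, e OnePoint.infty = p

/-- The complement of a neighbourhood of `p` can be pushed into a neighbourhood of `x`, with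
fixed germ at `x`. -/
def Squeeze (Y : Type) [TopologicalSpace Y] : Prop :=
  ∀ x p : Y, x ≠ p → ∀ U ∈ 𝓝 x, ∀ P ∈ 𝓝 p, ∃ h : Y ≃ₜ Y, (∀ᶠ y in 𝓝 x, h y = y) ∧
    ∀ y, y ∉ P → h y ∈ U

/-- Charts in the closed half space at the points of `S`. -/
def LocCol {X : Type} [TopologicalSpace X] (n : ℕ) (M S : Set X) : Prop :=
  ∀ p ∈ S, ∃ ψ : Eu n × ℝ → X, ContinuousOn ψ (BoxC n) ∧ InjOn ψ (BoxC n) ∧
    MapsTo ψ (BoxC n) M ∧ ψ (0, 0) = p ∧ (∀ z ∈ BoxC n, ψ z ∈ S ↔ z.2 = 0) ∧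
    ∃ O, IsOpen O ∧ O ∩ M = ψ '' BoxO n

/-- Local collars of `S` in `M`. -/
def LocCol' {X : Type} [TopologicalSpace X] (M S : Set X) : Prop :=
  ∀ p ∈ S, ∃ U : Set X, IsOpen U ∧ p ∈ U ∧ ∃ c : X × ℝ → X,
    ContinuousOn c ((S ∩ closure U) ×ˢ Icc 0 1) ∧ InjOn c ((S ∩ closure U) ×ˢ Icc 0 1) ∧
    MapsTo c ((S ∩ closure U) ×ˢ Icc 0 1) M ∧ (∀ x ∈ S ∩ closure U, c (x, 0) = x) ∧
    (∀ x ∈ S ∩ closure U, ∀ t ∈ Icc (0 : ℝ) 1, c (x, t) ∈ S → t = 0) ∧
    ∃ O, IsOpen O ∧ O ∩ M = c '' ((S ∩ U) ×ˢ Ico 0 1)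

/-- A collar of `S` in `M`. -/
def Collar {X : Type} [TopologicalSpace X] (M S : Set X) : Prop :=
  ∃ c : X × ℝ → X, ContinuousOn c (S ×ˢ Icc 0 1) ∧ InjOn c (S ×ˢ Icc 0 1) ∧
    MapsTo c (S ×ˢ Icc 0 1) M ∧ (∀ x ∈ S, c (x, 0) = x) ∧
    ∃ O, IsOpen O ∧ O ∩ M = c '' (S ×ˢ Ico 0 1)

/-- `M` with an outer collar of height `lam` attached to `S`. -/
def Mp {X : Type} (M S : Set X) (lam : X → ℝ) : Set (X × ℝ) :=
  {p | (p.1 ∈ M ∧ p.2 = 0) ∨ (p.1 ∈ S ∧ -lam p.1 ≤ p.2 ∧ p.2 ≤ 0)}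

/-- `q` maps `M` onto the closed ball, the only nontrivial fibre is over the centre, and `S` is
the preimage of the unit sphere. -/
structure ConeMap {X : Type} [TopologicalSpace X] (n : ℕ) (M S : Set X) (q : X → Eu (n + 1)) :
    Prop where
  cont : ContinuousOn q M
  img : q '' M = closedBall 0 1
  bd : ∀ z ∈ M, ‖q z‖ = 1 ↔ z ∈ S
  inj : ∀ z ∈ M, ∀ z' ∈ M, q z = q z' → z = z' ∨ q z = 0

end top

section hinv

variable {F F' : Type} [NormedAddCommGroup F] [NormedSpace ℝ F] [NormedAddCommGroup F']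
  [NormedSpace ℝ F']

/-- `f` and `g` are mutually inverse positively homogeneous homeomorphisms between `s` and `t`. -/
structure HInv (f : F → F') (g : F' → F) (s : Set F) (t : Set F') : Prop where
  contf : ContinuousOn f s
  contg : ContinuousOn g t
  mapsf : ∀ x ∈ s, f x ∈ t
  mapsg : ∀ y ∈ t, g y ∈ s
  gf : ∀ x ∈ s, g (f x) = x
  fg : ∀ y ∈ t, f (g y) = y
  homf : ∀ x ∈ s, ∀ r : ℝ, 0 ≤ r → r • x ∈ s ∧ f (r • x) = r • f x
  homg : ∀ y ∈ t, ∀ r : ℝ, 0 ≤ r → r • y ∈ t ∧ g (r • y) = r • g y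

/-- The cone over a topological sphere of dimension `n - 1`. -/
def TS (n : ℕ) (T : Set F) : Prop :=
  ∃ (f : F → Eu n) (g : Eu n → F), HInv f g T univ

/-- The cone over a topological ball of dimension `n`, with boundary. -/
def TB (n : ℕ) (C S : Set F) : Prop :=
  S ⊆ C ∧ ∃ (f : F → Eu n × ℝ) (g : Eu n × ℝ → F), HInv f g C (Half n) ∧
    ∀ x ∈ C, (x ∈ S ↔ (f x).2 = 0)

end hinv

section real

variable {F : Type} [NormedAddCommGroup F] [InnerProductSpace ℝ F]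

/-- The closed face of `y` with respect to the set of forms `A`. -/
def faceR (A : Set (F →ₗ[ℝ] ℝ)) (y : F) : Set F :=
  {x | ∀ a ∈ A, a x = 0 ∨ SignType.sign (a x) = SignType.sign (a y)}

/-- Closed polyhedral cone sets. -/
def PolR (s : Set F) : Prop :=
  (0 : F) ∈ s ∧ ∃ A : Set (F →ₗ[ℝ] ℝ), A.Finite ∧ ∀ y ∈ s, faceR A y ⊆ s

/-- The tangent cone. -/
def TgR (x : F) (K : Set F) : Set F :=
  {v | ∃ ε : ℝ, 0 < ε ∧ ∀ s : ℝ, 0 < s → s ≤ ε → x + s • v ∈ K}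

/-- The link of the ray of `x`, a cone in the orthogonal complement of `x`. -/
def Lk (x : F) (K : Set F) : Set F := {v | inner ℝ x v = 0 ∧ v ∈ TgR x K}

/-- The unit vectors of `K`. -/
def sec (K : Set F) : Set F := {x | x ∈ K ∧ ‖x‖ = 1}

/-- The orthogonal complement of `x` in `U`. -/
noncomputable def Uper (U : Submodule ℝ F) (x : F) : Submodule ℝ F := U ⊓ (Submodule.span ℝ {x})ᗮ

/-- Cones over spheres all of whose links are spheres. -/
def HSp : ℕ → Set F → Prop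
  | 0 => fun T => T = {0}
  | n + 1 => fun T => PolR T ∧ TS (n + 1) T ∧ ∀ x ∈ T, x ≠ 0 → HSp n (Lk x T)

/-- Cones over balls all of whose links are spheres or balls. -/
def HBa : ℕ → Set F → Set F → Prop
  | 0 => fun _ _ => False
  | n + 1 => fun C S => PolR C ∧ PolR S ∧ TB n C S ∧ (∀ x ∈ C, x ∉ S → HSp n (Lk x C)) ∧
      ∀ x ∈ S, x ≠ 0 → HBa n (Lk x C) (Lk x S)

end real

end Pool.Agent.Work.MP_552024_lc.HM
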