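import Pool.Agent.Work.MP_552024_lc.HM.Defs
import Pool.Agent.Work.MP_552024_lc.PLS.Dimn

/-!
Definitions for theorem HM: passage from rational polyhedral cones (library PLS) to real ones.
-/

set_option autoImplicit false

namespace Pool.Agent.Work.MP_552024_lc.HM

open Metric Set Topology Pool.Agent.Work.MP_552024_lc.PLS Pool.Agent.MP552024

section

variable {V : Type} [Fintype V]

/-- rational points as points of Euclidean space -/
noncomputable def castE (x : V → ℚ) : EuclideanSpace ℝ V := WithLp.toLp 2 (fun i => (x i : ℝ))

/-- the real closure of a set of rational points -/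
def rl (C : Set (V → ℚ)) : Set (EuclideanSpace ℝ V) := closure (castE '' C)

open Classical in
/-- the real extension of a rational form -/
noncomputable def exR (a : (V → ℚ) →ₗ[ℚ] ℚ) : EuclideanSpace ℝ V →ₗ[ℝ] ℝ where
  toFun z := ∑ i, (a (Pi.single i 1) : ℝ) * z i
  map_add' x y := by simp [mul_add, Finset.sum_add_distrib]
  map_smul' r x := by
    simp only [PiLp.smul_apply, smul_eq_mul, RingHom.id_apply, Finset.mul_sum]
    exact Finset.sum_congr rfl (fun i _ => by ring)

/-- the real sets of `C` and `S` form a cone over a ball, with all links balls or spheres -/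
def HB (k : ℕ) (C S : Set (V → ℚ)) : Prop := Pol C ∧ Pol S ∧ HBa k (rl C) (rl S)

end

end Pool.Agent.Work.MP_552024_lc.HM
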