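import Pool.Agent.Work.MP_552024_lc.HM.StmtsQ
import Pool.Agent.Work.MP_552024_lc.B7
import Pool.Agent.Work.MP_552024_lc.B9
import Pool.Agent.Work.MP_552024_lc.C1
import Pool.Agent.Work.MP_552024_lc.C2

/-! Theorem HM from its parts: the zero cones of the relators are homeomorphic. -/

set_option autoImplicit false

namespace Pool.Agent.Work.MP_552024_lc.HM

open Pool.Agent.MP552024 Pool.Agent.Work.MP_552024_lc.PLS Set

/-- mutually inverse homogeneous homeomorphisms give a homeomorphism of the subtypes -/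
theorem HInv.homeo {F F' : Type} [NormedAddCommGroup F] [NormedSpace ℝ F] [NormedAddCommGroup F']
    [NormedSpace ℝ F'] {f : F → F'} {g : F' → F} {s : Set F} {t : Set F'} (h : HInv f g s t) :
    ∃ e : ↥s ≃ₜ ↥t, ∀ r : ℝ, 0 ≤ r → ∀ x y : ↥s, (y : F) = r • (x : F) →
      (e y : F') = r • (e x : F') := by
  refine ⟨⟨⟨fun x => ⟨f x, h.mapsf x x.2⟩, fun y => ⟨g y, h.mapsg y y.2⟩, fun x => ?_, fun y => ?_⟩,
    ?_, ?_⟩, ?_⟩
  · exact Subtype.ext (h.gf x x.2)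
  · exact Subtype.ext (h.fg y y.2)
  · exact (continuousOn_iff_continuous_restrict.1 h.contf).subtype_mk _
  · exact (continuousOn_iff_continuous_restrict.1 h.contg).subtype_mk _
  · intro r hr x y hy
    show f y = r • f x
    rw [hy]
    exact (h.homf x x.2 r hr).2

/-- Final assembly. -/
theorem final_of
    (hH1 : S_H1)
    (h11 : ∀ (G H : Type) [AddCommGroup G] [Lattice G] [IsOrderedAddMonoid G]
      [AddCommGroup H] [Lattice H] [IsOrderedAddMonoid H] (M : Mdl G) (N : Mdl H),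
      @FirstOrder.Language.completeTheory L2 G (str G) =
        @FirstOrder.Language.completeTheory L2 H (str H) →
      ∃ (f : EuclideanSpace ℝ M.V → EuclideanSpace ℝ N.V)
        (g : EuclideanSpace ℝ N.V → EuclideanSpace ℝ M.V), HInv f g (rl (Qset M)) (rl (Qset N)))
    (h12 : S_Q12) (h13 : S_Q13)
    (G H : Type)
    [AddCommGroup G] [Lattice G] [IsOrderedAddMonoid G]
    [AddCommGroup H] [Lattice H] [IsOrderedAddMonoid H]
    (n : ℕ) (f : (Fin n → ℝ) → ℝ) (hf : f ∈ LP (Fin n)) (ψ : ((Fin n → ℝ) → ℝ) → G)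
    (hP : Pres n f G ψ)
    (m : ℕ) (f' : (Fin m → ℝ) → ℝ) (hf' : f' ∈ LP (Fin m)) (ψ' : ((Fin m → ℝ) → ℝ) → H)
    (hP' : Pres m f' H ψ')
    (hT : @FirstOrder.Language.completeTheory L2 G (str G) =
      @FirstOrder.Language.completeTheory L2 H (str H)) :
    ∃ e : {x : Fin n → ℝ // f x = 0} ≃ₜ {x : Fin m → ℝ // f' x = 0},
      ∀ r : ℝ, 0 ≤ r → ∀ x y : {x : Fin n → ℝ // f x = 0},
        (y : Fin n → ℝ) = r • (x : Fin n → ℝ) → (e y : Fin m → ℝ) = r • (e x : Fin m → ℝ) := by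
  have hlin : S_linall := prfB9 prfB7
  have hq : S_quot := prfC2 prfC1 prfC1b hlin
  obtain ⟨M, t, ht⟩ := hq n f hf G ψ hP
  obtain ⟨N, t', ht'⟩ := hq m f' hf' H ψ' hP'
  obtain ⟨u, v, huv⟩ := h11 G H M N hT
  rw [h12 G M, h12 H N] at huv
  obtain ⟨a, b, hab⟩ := h13 G n f hf ψ hP M t ht
  obtain ⟨a', b', hab'⟩ := h13 H m f' hf' ψ' hP' N t' ht'
  have s1 := (hH1 (EuclideanSpace ℝ M.V) (Fin n → ℝ) (Fin n → ℝ)).1 _ _ _ _ hab
  have s2 := (hH1 (Fin n → ℝ) (EuclideanSpace ℝ M.V) (EuclideanSpace ℝ N.V)).2.1 _ _ _ _ _ _ _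
    s1 huv
  have s3 := (hH1 (Fin n → ℝ) (EuclideanSpace ℝ N.V) (Fin m → ℝ)).2.1 _ _ _ _ _ _ _ s2 hab'
  exact s3.homeo

end Pool.Agent.Work.MP_552024_lc.HM
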