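import Pool.Agent.Work.MP_552024_lc.HM.Stmts

/-!
Block HM, item H1: basic operations with homogeneous homeomorphisms.
-/

set_option autoImplicit false

namespace Pool.Agent.Work.MP_552024_lc.HM

open Metric Set Topology

namespace IH1

variable {F F' F'' : Type} [NormedAddCommGroup F] [NormedSpace ℝ F]
  [NormedAddCommGroup F'] [NormedSpace ℝ F'] [NormedAddCommGroup F''] [NormedSpace ℝ F'']

theorem inv {f : F → F'} {g : F' → F} {s : Set F} {t : Set F'} (h : HInv f g s t) : HInv g f t s :=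
  ⟨h.contg, h.contf, h.mapsg, h.mapsf, h.fg, h.gf, h.homg, h.homf⟩

theorem comp {f : F → F'} {g : F' → F} {f' : F' → F''} {g' : F'' → F'} {s : Set F} {t : Set F'} {u : Set F''}
    (h : HInv f g s t) (h' : HInv f' g' t u) : HInv (f' ∘ f) (g ∘ g') s u where
  contf := h'.contf.comp h.contf h.mapsf
  contg := h.contg.comp h'.contg h'.mapsg
  mapsf := fun x hx => h'.mapsf _ (h.mapsf x hx)
  mapsg := fun y hy => h.mapsg _ (h'.mapsg y hy)
  gf := fun x hx => by
    show g (g' (f' (f x))) = x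
    rw [h'.gf _ (h.mapsf x hx), h.gf x hx]
  fg := fun y hy => by
    show f' (f (g (g' y))) = y
    rw [h.fg _ (h'.mapsg y hy), h'.fg y hy]
  homf := fun x hx r hr => by
    obtain ⟨h1, h2⟩ := h.homf x hx r hr
    obtain ⟨h3, h4⟩ := h'.homf (f x) (h.mapsf x hx) r hr
    refine ⟨h1, ?_⟩
    show f' (f (r • x)) = r • f' (f x)
    rw [h2, h4]
  homg := fun y hy r hr => by
    obtain ⟨h1, h2⟩ := h'.homg y hy r hr
    obtain ⟨h3, h4⟩ := h.homg (g' y) (h'.mapsg y hy) r hr
    refine ⟨h1, ?_⟩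
    show g (g' (r • y)) = r • g (g' y)
    rw [h2, h4]

theorem restr {f : F → F'} {g : F' → F} {s s' : Set F} {t t' : Set F'} (h : HInv f g s t) (hs : s' ⊆ s)
    (ht : t' ⊆ t) (hst : ∀ x ∈ s, x ∈ s' ↔ f x ∈ t') (hom : ∀ x ∈ s', ∀ r : ℝ, 0 ≤ r → r • x ∈ s') :
    HInv f g s' t' where
  contf := h.contf.mono hs
  contg := h.contg.mono ht
  mapsf := fun x hx => (hst x (hs hx)).1 hx
  mapsg := fun y hy => (hst (g y) (h.mapsg y (ht hy))).2 (by rw [h.fg y (ht hy)]; exact hy)
  gf := fun x hx => h.gf x (hs hx)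
  fg := fun y hy => h.fg y (ht hy)
  homf := fun x hx r hr => ⟨hom x hx r hr, (h.homf x (hs hx) r hr).2⟩
  homg := fun y hy r hr => by
    refine ⟨?_, (h.homg y (ht hy) r hr).2⟩
    have h1 : g y ∈ s' := (hst (g y) (h.mapsg y (ht hy))).2 (by rw [h.fg y (ht hy)]; exact hy)
    have h2 := hom (g y) h1 r hr
    have h3 := (hst _ (hs h2)).1 h2
    rw [(h.homf (g y) (hs h1) r hr).2, h.fg y (ht hy)] at h3
    exact h3

theorem lin (e : F ≃L[ℝ] F') : HInv e e.symm univ univ where
  contf := e.continuous.continuousOn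
  contg := e.symm.continuous.continuousOn
  mapsf := fun x _ => mem_univ _
  mapsg := fun y _ => mem_univ _
  gf := fun x _ => e.symm_apply_apply x
  fg := fun y _ => e.apply_symm_apply y
  homf := fun x _ r _ => ⟨mem_univ _, map_smul e r x⟩
  homg := fun y _ r _ => ⟨mem_univ _, map_smul e.symm r y⟩

end IH1

theorem pr_H1 : S_H1 := by
  intro F F' F'' _ _ _ _ _ _
  exact ⟨fun f g s t h => IH1.inv h, fun f g f' g' s t u h h' => IH1.comp h h',
    fun f g s s' t t' h hs ht hst hom => IH1.restr h hs ht hst hom, fun e => IH1.lin e⟩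

end Pool.Agent.Work.MP_552024_lc.HM
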