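import Pool.Agent.Work.MP_552024_lc.HM.Stmts

/-!
Item H2: pasting homogeneous homeomorphisms along closed sets.
-/

set_option autoImplicit false

namespace Pool.Agent.Work.MP_552024_lc.HM

open Metric Set Topology

namespace IH2

open Classical in
/-- the pasted map -/
noncomputable def pst {A B : Type} (s : Set A) (f f' : A → B) (x : A) : B :=
  if x ∈ s then f x else f' x

theorem pst_left {A B : Type} {s : Set A} {f f' : A → B} {x : A} (h : x ∈ s) :
    pst s f f' x = f x := by
  unfold pst; rw [if_pos h]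

theorem pst_right {A B : Type} {s s' : Set A} {f f' : A → B}
    (hag : ∀ x ∈ s, x ∈ s' → f x = f' x) {x : A} (h : x ∈ s') :
    pst s f f' x = f' x := by
  by_cases hx : x ∈ s
  · rw [pst_left hx]; exact hag x hx h
  · unfold pst; rw [if_neg hx]

theorem pst_cont {A B : Type} [TopologicalSpace A] [TopologicalSpace B] {s s' : Set A}
    {f f' : A → B} (hag : ∀ x ∈ s, x ∈ s' → f x = f' x) (hf : ContinuousOn f s)
    (hf' : ContinuousOn f' s') (hs : IsClosed s) (hs' : IsClosed s') :
    ContinuousOn (pst s f f') (s ∪ s') := by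
  have h1 : ContinuousOn (pst s f f') s := hf.congr (fun x hx => pst_left hx)
  have h2 : ContinuousOn (pst s f f') s' := hf'.congr (fun x hx => pst_right hag hx)
  exact ContinuousOn.union_of_isClosed h1 h2 hs hs'

end IH2

open IH2

theorem pr_H2 : S_H2 := by
  intro F F' _ _ _ _ f f' g g' s s' t t' h h' hs hs' ht ht' hagf hagg
  refine ⟨pst s f f', pst t g g', ?_, fun x hx => pst_left hx, fun x hx => pst_right hagf hx,
    fun y hy => pst_left hy, fun y hy => pst_right hagg hy⟩
  refine ⟨pst_cont hagf h.contf h'.contf hs hs', pst_cont hagg h.contg h'.contg ht ht',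
    ?_, ?_, ?_, ?_, ?_, ?_⟩
  · rintro x (hx | hx)
    · rw [pst_left hx]; exact Or.inl (h.mapsf x hx)
    · rw [pst_right hagf hx]; exact Or.inr (h'.mapsf x hx)
  · rintro y (hy | hy)
    · rw [pst_left hy]; exact Or.inl (h.mapsg y hy)
    · rw [pst_right hagg hy]; exact Or.inr (h'.mapsg y hy)
  · rintro x (hx | hx)
    · rw [pst_left hx, pst_left (h.mapsf x hx)]; exact h.gf x hx
    · rw [pst_right hagf hx, pst_right hagg (h'.mapsf x hx)]; exact h'.gf x hx
  · rintro y (hy | hy)
    · rw [pst_left hy, pst_left (h.mapsg y hy)]; exact h.fg y hy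
    · rw [pst_right hagg hy, pst_right hagf (h'.mapsg y hy)]; exact h'.fg y hy
  · rintro x (hx | hx) r hr
    · obtain ⟨h1, h2⟩ := h.homf x hx r hr
      exact ⟨Or.inl h1, by rw [pst_left h1, pst_left hx]; exact h2⟩
    · obtain ⟨h1, h2⟩ := h'.homf x hx r hr
      exact ⟨Or.inr h1, by rw [pst_right hagf h1, pst_right hagf hx]; exact h2⟩
  · rintro y (hy | hy) r hr
    · obtain ⟨h1, h2⟩ := h.homg y hy r hr
      exact ⟨Or.inl h1, by rw [pst_left h1, pst_left hy]; exact h2⟩
    · obtain ⟨h1, h2⟩ := h'.homg y hy r hr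
      exact ⟨Or.inr h1, by rw [pst_right hagg h1, pst_right hagg hy]; exact h2⟩

end Pool.Agent.Work.MP_552024_lc.HM
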