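import Pool.Agent.Work.MP_552024_lc.HM.Stmts

/-!
# H3: balls, their boundaries and the extension of homogeneous homeomorphisms
-/

set_option autoImplicit false

namespace Pool.Agent.Work.MP_552024_lc.HM

open Metric Set Topology

namespace IH3

section
variable {F F' F'' : Type} [NormedAddCommGroup F] [NormedSpace ℝ F] [NormedAddCommGroup F']
  [NormedSpace ℝ F'] [NormedAddCommGroup F''] [NormedSpace ℝ F'']

theorem symm {f : F → F'} {g : F' → F} {s : Set F} {t : Set F'} (h : HInv f g s t) :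
    HInv g f t s :=
  ⟨h.contg, h.contf, h.mapsg, h.mapsf, h.fg, h.gf, h.homg, h.homf⟩

theorem comp {f : F → F'} {g : F' → F} {f' : F' → F''} {g' : F'' → F'} {s : Set F} {t : Set F'}
    {r : Set F''} (h : HInv f g s t) (h' : HInv f' g' t r) : HInv (f' ∘ f) (g ∘ g') s r where
  contf := h'.contf.comp h.contf h.mapsf
  contg := h.contg.comp h'.contg h'.mapsg
  mapsf := fun x hx => h'.mapsf _ (h.mapsf _ hx)
  mapsg := fun y hy => h.mapsg _ (h'.mapsg _ hy)
  gf := fun x hx => by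
    rw [Function.comp_apply, Function.comp_apply, h'.gf _ (h.mapsf _ hx), h.gf _ hx]
  fg := fun y hy => by
    rw [Function.comp_apply, Function.comp_apply, h.fg _ (h'.mapsg _ hy), h'.fg _ hy]
  homf := fun x hx c hc => ⟨(h.homf x hx c hc).1, by
    rw [Function.comp_apply, Function.comp_apply, (h.homf x hx c hc).2,
      (h'.homf _ (h.mapsf _ hx) c hc).2]⟩
  homg := fun y hy c hc => ⟨(h'.homg y hy c hc).1, by
    rw [Function.comp_apply, Function.comp_apply, (h'.homg y hy c hc).2,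
      (h.homg _ (h'.mapsg _ hy) c hc).2]⟩

/-- The boundary of a ball is a sphere. -/
theorem bdry {n : ℕ} {C S : Set F} {u : F → Eu n × ℝ} {v : Eu n × ℝ → F} (hSC : S ⊆ C)
    (h : HInv u v C (Half n)) (hS : ∀ x ∈ C, (x ∈ S ↔ (u x).2 = 0)) :
    HInv (fun x => (u x).1) (fun z => v (z, 0)) S univ := by
  have hz : ∀ z : Eu n, ((z, (0 : ℝ)) : Eu n × ℝ) ∈ Half n := fun z => le_refl (0 : ℝ)
  have hx0 : ∀ x ∈ S, u x = ((u x).1, (0 : ℝ)) := fun x hx =>
    Prod.ext rfl ((hS x (hSC hx)).1 hx)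
  refine ⟨?_, ?_, fun _ _ => mem_univ _, ?_, ?_, ?_, ?_, ?_⟩
  · exact continuous_fst.comp_continuousOn (h.contf.mono hSC)
  · exact h.contg.comp (by fun_prop) fun z _ => hz z
  · intro z _
    refine (hS _ (h.mapsg _ (hz z))).2 ?_
    rw [h.fg _ (hz z)]
  · intro x hx
    rw [← hx0 x hx, h.gf x (hSC hx)]
  · intro z _
    change (u (v (z, 0))).1 = z
    rw [h.fg _ (hz z)]
  · intro x hx r hr
    obtain ⟨h1, h2⟩ := h.homf x (hSC hx) r hr
    refine ⟨(hS _ h1).2 ?_, ?_⟩
    · rw [h2, hx0 x hx]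
      simp
    · change (u (r • x)).1 = r • (u x).1
      rw [h2]
      rfl
  · intro z _ r hr
    refine ⟨mem_univ _, ?_⟩
    obtain ⟨_, h2⟩ := h.homg _ (hz z) r hr
    change v (r • z, 0) = r • v (z, 0)
    rw [← h2]
    congr 1
    exact Prod.ext rfl (by simp)

/-- The extension `(z, t) ↦ (φ z, t)`. -/
theorem prodId {n : ℕ} {φ ψ : Eu n → Eu n} (h : HInv φ ψ univ univ) :
    HInv (fun z : Eu n × ℝ => (φ z.1, z.2)) (fun z : Eu n × ℝ => (ψ z.1, z.2)) (Half n) (Half n) := by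
  have c1 : Continuous φ := continuousOn_univ.1 h.contf
  have c2 : Continuous ψ := continuousOn_univ.1 h.contg
  refine ⟨by fun_prop, by fun_prop, fun x hx => hx, fun x hx => hx, ?_, ?_, ?_, ?_⟩
  · intro x _
    exact Prod.ext (h.gf _ (mem_univ _)) rfl
  · intro x _
    exact Prod.ext (h.fg _ (mem_univ _)) rfl
  · intro x hx r hr
    refine ⟨mul_nonneg hr hx, Prod.ext ?_ rfl⟩
    exact (h.homf x.1 (mem_univ _) r hr).2
  · intro x hx r hr
    refine ⟨mul_nonneg hr hx, Prod.ext ?_ rfl⟩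
    exact (h.homg x.1 (mem_univ _) r hr).2

end

end IH3

open IH3

theorem pr_H3 : S_H3 := by
  intro F F' _ _ _ _ n C S hB
  obtain ⟨hSC, u, v, huv, hS⟩ := hB
  refine ⟨⟨_, _, bdry hSC huv hS⟩, ?_, ?_⟩
  · intro f g C' S' hfg hS'C' hff
    refine ⟨hS'C', u ∘ g, f ∘ v, comp (symm hfg) huv, fun y hy => ?_⟩
    rw [Function.comp_apply, ← hS _ (hfg.mapsg _ hy), hff _ (hfg.mapsg _ hy), hfg.fg _ hy]
  · intro f g C' S' hB' hfg
    obtain ⟨hSC', u', v', huv', hS'⟩ := hB'
    have h1 := bdry hSC huv hS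
    have h2 := bdry hSC' huv' hS'
    have h3 := comp (comp (symm h1) hfg) h2
    have h4 := prodId h3
    have h5 := comp (comp huv h4) (symm huv')
    refine ⟨_, _, h5, ?_, ?_, ?_⟩
    · intro x hx
      have hx0 : u x = ((u x).1, (0 : ℝ)) := Prod.ext rfl ((hS x (hSC hx)).1 hx)
      have e1 : v ((u x).1, 0) = x := h1.gf x hx
      have e2 : v' ((u' (f x)).1, 0) = f x := h2.gf _ (hfg.mapsf _ hx)
      simp only [Function.comp_apply]
      rw [e1, (hS x (hSC hx)).1 hx, e2]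
    · intro y hy
      have e1 : v' ((u' y).1, 0) = y := h2.gf y hy
      have e2 : v ((u (g y)).1, 0) = g y := h1.gf _ (hfg.mapsg _ hy)
      simp only [Function.comp_apply]
      rw [e1, (hS' y (hSC' hy)).1 hy, e2]
    · intro x hx
      rw [hS x hx, hS' _ (h5.mapsf x hx)]
      have h6 := huv'.fg _ (h4.mapsf _ (huv.mapsf _ hx))
      simp only [Function.comp_apply] at h6 ⊢
      rw [h6]

end Pool.Agent.Work.MP_552024_lc.HM
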