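import Pool.Agent.Work.MP_552024_lc.HM.Stmts

/-!
Item H4: the union of two balls with the same boundary is a sphere.
-/

set_option autoImplicit false

namespace Pool.Agent.Work.MP_552024_lc.HM

open Metric Set Topology

namespace IH4

/-- The reflection in the boundary of the half space. -/
def rf (n : ℕ) (z : Eu n × ℝ) : Eu n × ℝ := (z.1, -z.2)

/-- The lower half space. -/
def Hm (n : ℕ) : Set (Eu n × ℝ) := {z | z.2 ≤ 0}

/-- The boundary of the half space. -/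
def B0 (n : ℕ) : Set (Eu n × ℝ) := {z | z.2 = 0}

theorem continuous_rf (n : ℕ) : Continuous (rf n) := by
  unfold rf
  fun_prop

theorem rf_rf (n : ℕ) (z : Eu n × ℝ) : rf n (rf n z) = z := by
  simp [rf]

theorem rf_smul (n : ℕ) (z : Eu n × ℝ) (r : ℝ) : rf n (r • z) = r • rf n z := by
  simp [rf, Prod.smul_mk]

theorem hinv_rf (n : ℕ) : HInv (rf n) (rf n) (Hm n) (Half n) where
  contf := (continuous_rf n).continuousOn
  contg := (continuous_rf n).continuousOn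
  mapsf := fun x hx => by
    have h : x.2 ≤ 0 := hx
    show 0 ≤ -x.2
    linarith
  mapsg := fun y hy => by
    have h : 0 ≤ y.2 := hy
    show -y.2 ≤ 0
    linarith
  gf := fun x _ => rf_rf n x
  fg := fun x _ => rf_rf n x
  homf := fun x hx r hr => by
    have h : x.2 ≤ 0 := hx
    refine ⟨?_, rf_smul n x r⟩
    show r * x.2 ≤ 0
    nlinarith
  homg := fun y hy r hr => by
    have h : 0 ≤ y.2 := hy
    refine ⟨?_, rf_smul n y r⟩
    show 0 ≤ r * y.2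
    positivity

theorem tb_Hm (n : ℕ) : TB n (Hm n) (B0 n) := by
  refine ⟨fun z hz => ?_, rf n, rf n, hinv_rf n, fun x _ => ?_⟩
  · have h : z.2 = 0 := hz
    show z.2 ≤ 0
    exact h.le
  · show x.2 = 0 ↔ -x.2 = 0
    exact neg_eq_zero.symm

theorem isClosed_Half (n : ℕ) : IsClosed (Half n) :=
  isClosed_le continuous_const continuous_snd

theorem isClosed_Hm (n : ℕ) : IsClosed (Hm n) :=
  isClosed_le continuous_snd continuous_const

theorem half_union (n : ℕ) : Half n ∪ Hm n = univ := by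
  ext z
  simp only [mem_union, mem_univ, iff_true]
  exact le_total 0 z.2

theorem exists_equiv (n : ℕ) : Nonempty ((Eu n × ℝ) ≃L[ℝ] Eu (n + 1)) := by
  refine ⟨ContinuousLinearEquiv.ofFinrankEq ?_⟩
  rw [Module.finrank_prod, finrank_euclideanSpace_fin, finrank_euclideanSpace_fin,
    Module.finrank_self]

end IH4

open IH4 in
theorem pr_H4 : S_H4 := by
  intro h1 h2 h3 F _ _ n C₁ C₂ S hT₁ hT₂ hS hc₁ hc₂
  obtain ⟨hS₁, f₁, g₁, hf₁, hb₁⟩ := hT₁
  have hres : HInv f₁ g₁ S (B0 n) := by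
    refine (h1 F (Eu n × ℝ) (Eu (n + 1))).2.2.1 f₁ g₁ C₁ S (Half n) (B0 n) hf₁ hS₁ ?_ hb₁ ?_
    · intro z hz
      have h : z.2 = 0 := hz
      show 0 ≤ z.2
      exact h.ge
    · intro x hx r hr
      have hh := hf₁.homf x (hS₁ hx) r hr
      rw [hb₁ _ hh.1, hh.2]
      have h : (f₁ x).2 = 0 := (hb₁ x (hS₁ hx)).1 hx
      simp [h]
  obtain ⟨Φ, Ψ, hΦ, hΦS, hΨB, hΦb⟩ :=
    (h3 F (Eu n × ℝ) n C₂ S hT₂).2.2 f₁ g₁ (Hm n) (B0 n) (tb_Hm n) hres
  obtain ⟨P, Q, hP, -⟩ := h2 F (Eu n × ℝ) f₁ Φ g₁ Ψ C₁ C₂ (Half n) (Hm n) hf₁ hΦ hc₁ hc₂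
    (isClosed_Half n) (isClosed_Hm n)
    (fun x hx hx' => (hΦS x (hS ▸ ⟨hx, hx'⟩)).symm)
    (fun y hy hy' => (hΨB y (le_antisymm hy' hy)).symm)
  rw [half_union] at hP
  obtain ⟨e⟩ := exists_equiv n
  have he := (h1 (Eu n × ℝ) (Eu (n + 1)) F).2.2.2 e
  exact ⟨_, _, (h1 F (Eu n × ℝ) (Eu (n + 1))).2.1 P Q e e.symm (C₁ ∪ C₂) univ univ hP he⟩

end Pool.Agent.Work.MP_552024_lc.HM
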