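import Pool.Agent.Work.MP_552024_lc.HM.Stmts

/-!
# Item H5 of the block HM (helper71): union of two balls along a ball in the boundary
-/

set_option autoImplicit false

namespace Pool.Agent.Work.MP_552024_lc.HM

open Metric Set Topology

namespace IH5

section
variable {F E E' : Type} [NormedAddCommGroup F] [NormedSpace ℝ F] [NormedAddCommGroup E]
  [NormedSpace ℝ E] [NormedAddCommGroup E'] [NormedSpace ℝ E']

theorem hinv_lin (h1 : S_H1) (e : E ≃L[ℝ] E') (s : Set E) (t : Set E')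
    (hst : ∀ x, x ∈ s ↔ e x ∈ t) (hs : ∀ x ∈ s, ∀ r : ℝ, 0 ≤ r → r • x ∈ s) :
    HInv e e.symm s t := by
  obtain ⟨_, _, h3, h4⟩ := h1 E E' E'
  exact h3 e e.symm univ s univ t (h4 e) (subset_univ _) (subset_univ _) (fun x _ => hst x) hs

theorem comp (h1 : S_H1) {f : F → E} {g : E → F} {f' : E → E'} {g' : E' → E} {s : Set F}
    {t : Set E} {u : Set E'} (h : HInv f g s t) (h' : HInv f' g' t u) :
    HInv (f' ∘ f) (g ∘ g') s u := (h1 F E E').2.1 f g f' g' s t u h h'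

theorem hinv_id {s : Set F} (hs : ∀ x ∈ s, ∀ r : ℝ, 0 ≤ r → r • x ∈ s) :
    HInv (fun x : F => x) (fun x : F => x) s s where
  contf := continuousOn_id
  contg := continuousOn_id
  mapsf _ hx := hx
  mapsg _ hx := hx
  gf _ _ := rfl
  fg _ _ := rfl
  homf x hx r hr := ⟨hs x hx r hr, rfl⟩
  homg x hx r hr := ⟨hs x hx r hr, rfl⟩

theorem TBmk (h1 : S_H1) {n : ℕ} {C S : Set F} {f : F → E} {g : E → F} {D : Set E}
    (e : E ≃L[ℝ] Eu n × ℝ) (h : HInv f g C D) (hD : ∀ z, z ∈ D ↔ 0 ≤ (e z).2) (hS : S ⊆ C)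
    (hS' : ∀ x ∈ C, (x ∈ S ↔ (e (f x)).2 = 0)) : TB n C S := by
  refine ⟨hS, e ∘ f, g ∘ e.symm, ?_, hS'⟩
  have hD' : HInv e e.symm D (Half n) := hinv_lin h1 e D (Half n) hD (fun x hx r hr => by
    rw [hD] at hx ⊢
    rw [map_smul]
    exact mul_nonneg hr hx)
  exact comp h1 h hD'

theorem TBstd (h1 : S_H1) {n : ℕ} (e : E ≃L[ℝ] Eu n × ℝ) {D S : Set E}
    (hD : ∀ z, z ∈ D ↔ 0 ≤ (e z).2) (hS : ∀ z, z ∈ S ↔ (e z).2 = 0) : TB n D S := by
  refine TBmk h1 e (hinv_id (s := D) ?_) hD ?_ (fun x _ => hS x)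
  · intro x hx r hr
    rw [hD] at hx ⊢
    rw [map_smul]
    exact mul_nonneg hr hx
  · intro x hx
    rw [hS] at hx
    rw [hD, hx]

end

/-- `Eu (n+1)` and `Eu n × ℝ` -/
noncomputable def L (n : ℕ) : Eu (n + 1) ≃L[ℝ] Eu n × ℝ :=
  ContinuousLinearEquiv.ofFinrankEq (by simp)

/-- reflection of the last coordinate -/
noncomputable def e1 (n : ℕ) : (Eu n × ℝ) ≃L[ℝ] Eu n × ℝ where
  toFun z := (z.1, -z.2)
  map_add' x y := by
    ext1
    · rfl
    · exact neg_add _ _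
  map_smul' r x := by
    ext1
    · rfl
    · exact (mul_neg r x.2).symm
  invFun z := (z.1, -z.2)
  left_inv z := by simp
  right_inv z := by simp
  continuous_toFun := by fun_prop
  continuous_invFun := by fun_prop

/-- the half space with the last coordinate -/
noncomputable def e2 (n : ℕ) : ((Eu n × ℝ) × ℝ) ≃L[ℝ] Eu (n + 1) × ℝ where
  toFun z := ((L n).symm z.1, z.2)
  map_add' x y := by
    ext1
    · exact map_add (L n).symm x.1 y.1
    · rfl
  map_smul' r x := by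
    ext1
    · exact map_smul (L n).symm r x.1
    · rfl
  invFun w := (L n w.1, w.2)
  left_inv z := by simp
  right_inv z := by simp
  continuous_toFun := by fun_prop
  continuous_invFun := by fun_prop

/-- the half space with the middle coordinate -/
noncomputable def e3 (n : ℕ) : ((Eu n × ℝ) × ℝ) ≃L[ℝ] Eu (n + 1) × ℝ where
  toFun z := ((L n).symm (z.1.1, z.2), z.1.2)
  map_add' x y := by
    ext1
    · exact map_add (L n).symm (x.1.1, x.2) (y.1.1, y.2)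
    · rfl
  map_smul' r x := by
    ext1
    · exact map_smul (L n).symm r (x.1.1, x.2)
    · rfl
  invFun w := (((L n w.1).1, w.2), (L n w.1).2)
  left_inv z := by simp
  right_inv z := by simp
  continuous_toFun := by fun_prop
  continuous_invFun := by fun_prop

/-- the quadrants -/
def Quad (n : ℕ) (ε : ℝ) : Set ((Eu n × ℝ) × ℝ) := {z | 0 ≤ z.1.2 ∧ 0 ≤ ε * z.2}

/-- the half space -/
def HG (n : ℕ) : Set ((Eu n × ℝ) × ℝ) := {z | 0 ≤ z.2}

/-- the piecewise linear map -/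
noncomputable def kp (n : ℕ) (ε : ℝ) (z : (Eu n × ℝ) × ℝ) : (Eu n × ℝ) × ℝ :=
  ((z.1.1, z.2 + max z.1.2 0), ε * (z.2 + max (-z.1.2) 0))

/-- its inverse -/
noncomputable def kpi (n : ℕ) (ε : ℝ) (z : (Eu n × ℝ) × ℝ) : (Eu n × ℝ) × ℝ :=
  ((z.1.1, z.1.2 - ε * z.2), min z.1.2 (ε * z.2))

theorem max_hom (r s : ℝ) (hr : 0 ≤ r) : max (r * s) 0 = r * max s 0 := by
  rw [mul_max_of_nonneg _ _ hr, mul_zero]

theorem kp_inv (n : ℕ) (ε : ℝ) (hε : ε * ε = 1) :
    HInv (kp n ε) (kpi n ε) (HG n) (Quad n ε) where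
  contf := by
    unfold kp
    fun_prop
  contg := by
    unfold kpi
    fun_prop
  mapsf z hz := by
    have hz' : 0 ≤ z.2 := hz
    refine ⟨?_, ?_⟩
    · exact add_nonneg hz' (le_max_right _ _)
    · change 0 ≤ ε * (ε * (z.2 + max (-z.1.2) 0))
      rw [← mul_assoc, hε, one_mul]
      exact add_nonneg hz' (le_max_right _ _)
  mapsg z hz := le_min hz.1 hz.2
  gf z hz := by
    have hz' : 0 ≤ z.2 := hz
    obtain ⟨⟨a, s⟩, t⟩ := z
    change ((a, (t + max s 0) - ε * (ε * (t + max (-s) 0))),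
      min (t + max s 0) (ε * (ε * (t + max (-s) 0)))) = ((a, s), t)
    rw [← mul_assoc, hε, one_mul]
    rcases le_total 0 s with h | h
    · rw [max_eq_left h, max_eq_right (by linarith : -s ≤ 0), add_zero,
        min_eq_right (by linarith), add_sub_cancel_left]
    · rw [max_eq_right h, max_eq_left (by linarith : 0 ≤ -s), add_zero,
        min_eq_left (by linarith)]
      have : t - (t + -s) = s := by ring
      rw [this]
  fg z hz := by
    obtain ⟨⟨a, p⟩, q⟩ := z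
    have hp : 0 ≤ p := hz.1
    have hq : 0 ≤ ε * q := hz.2
    change ((a, min p (ε * q) + max (p - ε * q) 0),
      ε * (min p (ε * q) + max (-(p - ε * q)) 0)) = ((a, p), q)
    have hq' : ε * (ε * q) = q := by rw [← mul_assoc, hε, one_mul]
    rcases le_total p (ε * q) with h | h
    · rw [min_eq_left h, max_eq_right (by linarith : p - ε * q ≤ 0),
        max_eq_left (by linarith : 0 ≤ -(p - ε * q)), add_zero]
      have : p + -(p - ε * q) = ε * q := by ring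
      rw [this, hq']
    · rw [min_eq_right h, max_eq_left (by linarith : 0 ≤ p - ε * q),
        max_eq_right (by linarith : -(p - ε * q) ≤ 0), add_zero, hq']
      have : ε * q + (p - ε * q) = p := by ring
      rw [this]
  homf z hz r hr := by
    have hz' : 0 ≤ z.2 := hz
    refine ⟨mul_nonneg hr hz', ?_⟩
    obtain ⟨⟨a, s⟩, t⟩ := z
    change ((r • a, r * t + max (r * s) 0), ε * (r * t + max (-(r * s)) 0)) =
      ((r • a, r * (t + max s 0)), r * (ε * (t + max (-s) 0)))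
    rw [max_hom r s hr, ← mul_neg, max_hom r (-s) hr]
    congr 1
    · congr 1
      ring
    · ring
  homg z hz r hr := by
    obtain ⟨⟨a, p⟩, q⟩ := z
    have hp : 0 ≤ p := hz.1
    have hq : 0 ≤ ε * q := hz.2
    refine ⟨⟨mul_nonneg hr hp, ?_⟩, ?_⟩
    · change 0 ≤ ε * (r * q)
      have : ε * (r * q) = r * (ε * q) := by ring
      rw [this]
      exact mul_nonneg hr hq
    · change ((r • a, r * p - ε * (r * q)), min (r * p) (ε * (r * q))) =
        ((r • a, r * (p - ε * q)), r * min p (ε * q))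
      have : ε * (r * q) = r * (ε * q) := by ring
      rw [this, mul_min_of_nonneg _ _ hr, mul_sub]

section
variable {F : Type} [NormedAddCommGroup F] [NormedSpace ℝ F]

theorem bdry (h1 : S_H1) (h2 : S_H2) (h3 : S_H3) {n : ℕ} {W V T : Set F} {fW : F → Eu n × ℝ}
    {gW : Eu n × ℝ → F} (hW : HInv fW gW W (Half n)) (hTW : T ⊆ W)
    (hT : ∀ x ∈ W, (x ∈ T ↔ (fW x).2 = 0)) (hV : TB n V T) (hWV : W ∩ V = T)
    (cW : IsClosed W) (cV : IsClosed V) :
    ∃ (u : F → Eu n × ℝ) (ui : Eu n × ℝ → F), HInv u ui (W ∪ V) univ ∧ (∀ x ∈ W, u x = fW x) ∧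
      (∀ z : Eu n × ℝ, 0 ≤ z.2 → ui z = gW z) ∧ ∀ x ∈ W ∪ V, (x ∈ V ↔ (u x).2 ≤ 0) := by
  set N : Set (Eu n × ℝ) := {z | z.2 ≤ 0} with hN
  set Z : Set (Eu n × ℝ) := {z | z.2 = 0} with hZ
  have hNZ : TB n N Z := by
    refine TBstd h1 (e1 n) (fun z => ?_) (fun z => ?_)
    · change z.2 ≤ 0 ↔ 0 ≤ -z.2
      exact neg_nonneg.symm
    · change z.2 = 0 ↔ -z.2 = 0
      exact neg_eq_zero.symm
  have hTZ : HInv fW gW T Z := by
    refine (h1 F (Eu n × ℝ) F).2.2.1 fW gW W T (Half n) Z hW hTW ?_ hT ?_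
    · intro z hz
      have hz' : z.2 = 0 := hz
      exact hz'.ge
    · intro x hx r hr
      have hxW := hTW hx
      obtain ⟨a1, a2⟩ := hW.homf x hxW r hr
      rw [hT _ a1, a2]
      have a3 := (hT x hxW).1 hx
      change r * (fW x).2 = 0
      rw [a3, mul_zero]
  obtain ⟨Φ, Ψ, b1, b2, b3, _⟩ := (h3 F (Eu n × ℝ) n V T hV).2.2 fW gW N Z hNZ hTZ
  have cH : IsClosed (Half n) := isClosed_le continuous_const continuous_snd
  have cN : IsClosed N := isClosed_le continuous_snd continuous_const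
  have hag1 : ∀ x ∈ W, x ∈ V → fW x = Φ x := by
    intro x hx hx'
    have hxT : x ∈ T := by rw [← hWV]; exact ⟨hx, hx'⟩
    exact (b2 x hxT).symm
  have hag2 : ∀ z ∈ Half n, z ∈ N → gW z = Ψ z := by
    intro z hz hz'
    have hz0 : z ∈ Z := le_antisymm hz' hz
    exact (b3 z hz0).symm
  obtain ⟨u, ui, d1, d2, d3, d4, _⟩ :=
    h2 F (Eu n × ℝ) fW Φ gW Ψ W V (Half n) N hW b1 cW cV cH cN hag1 hag2
  have hun : Half n ∪ N = univ := by
    ext z
    simp only [mem_univ, iff_true]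
    exact le_total 0 z.2
  rw [hun] at d1
  refine ⟨u, ui, d1, d2, fun z hz => d4 z hz, fun x hx => ⟨fun hxV => ?_, fun h => ?_⟩⟩
  · rw [d3 x hxV]
    exact b1.mapsf x hxV
  · rcases hx with hx | hx
    · rw [d2 x hx] at h
      have h0 : (fW x).2 = 0 := le_antisymm h (hW.mapsf x hx)
      have hxT := (hT x hx).2 h0
      rw [← hWV] at hxT
      exact hxT.2
    · exact hx

theorem halfball (h1 : S_H1) (h2 : S_H2) (h3 : S_H3) {n : ℕ} {B W V T : Set F}
    {fW : F → Eu n × ℝ} {gW : Eu n × ℝ → F} (hB : TB (n + 1) B (W ∪ V))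
    (hW : HInv fW gW W (Half n)) (hTW : T ⊆ W)
    (hT : ∀ x ∈ W, (x ∈ T ↔ (fW x).2 = 0)) (hV : TB n V T) (hWV : W ∩ V = T)
    (cW : IsClosed W) (cV : IsClosed V) (ε : ℝ) (hε : ε * ε = 1) :
    ∃ (Φ : F → (Eu n × ℝ) × ℝ) (Ψ : (Eu n × ℝ) × ℝ → F), HInv Φ Ψ B (Quad n ε) ∧
      (∀ x ∈ W, Φ x = (fW x, 0)) ∧ (∀ z : Eu n × ℝ, 0 ≤ z.2 → Ψ (z, 0) = gW z) ∧
      ∀ x ∈ B, (x ∈ V ↔ (Φ x).1.2 = 0) := by
  obtain ⟨u, ui, hu, hu1, hu2, hu3⟩ := bdry h1 h2 h3 hW hTW hT hV hWV cW cV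
  set ZG : Set ((Eu n × ℝ) × ℝ) := {z | z.2 = 0} with hZG
  have hstd : TB (n + 1) (HG n) ZG :=
    TBstd h1 (e2 n) (fun z => Iff.rfl) (fun z => Iff.rfl)
  have hb : HInv (fun x => (u x, (0 : ℝ))) (fun z : (Eu n × ℝ) × ℝ => ui z.1) (W ∪ V) ZG := by
    refine ⟨?_, ?_, ?_, ?_, ?_, ?_, ?_, ?_⟩
    · exact hu.contf.prodMk continuousOn_const
    · exact hu.contg.comp continuous_fst.continuousOn (fun z _ => mem_univ _)
    · intro x _
      rfl
    · intro z _
      exact hu.mapsg z.1 (mem_univ _)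
    · intro x hx
      exact hu.gf x hx
    · intro z hz
      have hz' : z.2 = 0 := hz
      change (u (ui z.1), (0 : ℝ)) = z
      rw [hu.fg z.1 (mem_univ _), ← hz']
    · intro x hx r hr
      obtain ⟨a1, a2⟩ := hu.homf x hx r hr
      refine ⟨a1, ?_⟩
      change (u (r • x), (0 : ℝ)) = r • (u x, (0 : ℝ))
      rw [a2]
      change (r • u x, (0 : ℝ)) = (r • u x, r * 0)
      rw [mul_zero]
    · intro z hz r hr
      have hz' : z.2 = 0 := hz
      refine ⟨?_, (hu.homg z.1 (mem_univ _) r hr).2⟩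
      change r * z.2 = 0
      rw [hz', mul_zero]
  obtain ⟨ΦB, ΨB, b1, b2, b3, b4⟩ :=
    (h3 F ((Eu n × ℝ) × ℝ) (n + 1) B (W ∪ V) hB).2.2 _ _ (HG n) ZG hstd hb
  refine ⟨kp n ε ∘ ΦB, ΨB ∘ kpi n ε, comp h1 b1 (kp_inv n ε hε), ?_, ?_, ?_⟩
  · intro x hx
    have e0 : ΦB x = (u x, 0) := b2 x (Or.inl hx)
    have e1' : 0 ≤ (fW x).2 := hW.mapsf x hx
    change kp n ε (ΦB x) = (fW x, 0)
    rw [e0, hu1 x hx]
    change (((fW x).1, 0 + max (fW x).2 0), ε * (0 + max (-(fW x).2) 0)) = (fW x, 0)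
    rw [max_eq_left e1', max_eq_right (by linarith : -(fW x).2 ≤ 0), zero_add, zero_add, mul_zero]
  · intro z hz
    change ΨB (kpi n ε (z, 0)) = gW z
    have e0 : kpi n ε (z, 0) = (z, 0) := by
      change ((z.1, z.2 - ε * 0), min z.2 (ε * 0)) = (z, 0)
      rw [mul_zero, sub_zero, min_eq_right hz]
    rw [e0]
    have e1' : ΨB (z, 0) = ui z := b3 (z, 0) rfl
    rw [e1', hu2 z hz]
  · intro x hx
    change x ∈ V ↔ (ΦB x).2 + max (ΦB x).1.2 0 = 0
    constructor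
    · intro hxV
      have e0 : ΦB x = (u x, 0) := b2 x (Or.inr hxV)
      have e1' := (hu3 x (Or.inr hxV)).1 hxV
      rw [e0]
      change 0 + max (u x).2 0 = 0
      rw [max_eq_right e1', zero_add]
    · intro h
      have t0 : 0 ≤ (ΦB x).2 := b1.mapsf x hx
      have m0 : 0 ≤ max (ΦB x).1.2 0 := le_max_right _ _
      have t1 : (ΦB x).2 = 0 := by linarith
      have m1 : max (ΦB x).1.2 0 = 0 := by linarith
      have s1 : (ΦB x).1.2 ≤ 0 := by
        rw [← m1]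
        exact le_max_left _ _
      have hxWV : x ∈ W ∪ V := (b4 x hx).2 t1
      have e0 : ΦB x = (u x, 0) := b2 x hxWV
      rw [e0] at s1
      exact (hu3 x hxWV).2 s1

end

end IH5

open IH5 in
theorem pr_H5 : S_H5 := by
  intro h1 h2 h3 F _ _ n B X W V V' T hB hX hWT hVT hVT' hWV hWV' hBX cB cX cW cV cV'
  obtain ⟨hTW, fW, gW, hW, hT⟩ := hWT
  obtain ⟨Φ1, Ψ1, a1, a2, a3, a4⟩ :=
    halfball h1 h2 h3 hB hW hTW hT hVT hWV cW cV 1 (by norm_num)
  obtain ⟨Φ2, Ψ2, b1, b2, b3, b4⟩ :=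
    halfball h1 h2 h3 hX hW hTW hT hVT' hWV' cW cV' (-1) (by norm_num)
  have cQ : ∀ ε : ℝ, IsClosed (Quad n ε) := by
    intro ε
    have e1' : IsClosed {z : (Eu n × ℝ) × ℝ | 0 ≤ z.1.2} :=
      isClosed_le continuous_const (by fun_prop)
    have e2' : IsClosed {z : (Eu n × ℝ) × ℝ | 0 ≤ ε * z.2} :=
      isClosed_le continuous_const (by fun_prop)
    exact e1'.inter e2'
  have hag1 : ∀ x ∈ B, x ∈ X → Φ1 x = Φ2 x := by
    intro x hx hx'
    have hxW : x ∈ W := by rw [← hBX]; exact ⟨hx, hx'⟩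
    rw [a2 x hxW, b2 x hxW]
  have hag2 : ∀ z ∈ Quad n 1, z ∈ Quad n (-1) → Ψ1 z = Ψ2 z := by
    intro z hz hz'
    have q1 : 0 ≤ 1 * z.2 := hz.2
    have q2 : 0 ≤ -1 * z.2 := hz'.2
    have q3 : z.2 = 0 := by linarith
    have q4 : z = (z.1, 0) := by rw [← q3]
    rw [q4, a3 z.1 hz.1, b3 z.1 hz.1]
  obtain ⟨Φ, Ψ, d1, d2, d3, _, _⟩ := h2 F ((Eu n × ℝ) × ℝ) Φ1 Φ2 Ψ1 Ψ2 B X (Quad n 1)
    (Quad n (-1)) a1 b1 cB cX (cQ 1) (cQ (-1)) hag1 hag2
  have hVB : V ⊆ B := fun x hx => hB.1 (Or.inr hx)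
  have hVX : V' ⊆ X := fun x hx => hX.1 (Or.inr hx)
  have hTV : T ⊆ V := by rw [← hWV]; exact inter_subset_right
  have hTV' : T ⊆ V' := by rw [← hWV']; exact inter_subset_right
  refine TBmk h1 (e3 n) d1 ?_ (union_subset_union hVB hVX) ?_
  · intro z
    change (0 ≤ z.1.2 ∧ 0 ≤ 1 * z.2) ∨ (0 ≤ z.1.2 ∧ 0 ≤ -1 * z.2) ↔ 0 ≤ z.1.2
    constructor
    · rintro (h | h)
      · exact h.1
      · exact h.1
    · intro h
      rcases le_total 0 z.2 with h' | h'
      · exact Or.inl ⟨h, by linarith⟩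
      · exact Or.inr ⟨h, by linarith⟩
  · intro x hx
    change x ∈ V ∪ V' ↔ (Φ x).1.2 = 0
    rcases hx with hx | hx
    · rw [d2 x hx, ← a4 x hx]
      constructor
      · rintro (h | h)
        · exact h
        · have hxW : x ∈ W := by rw [← hBX]; exact ⟨hx, hVX h⟩
          exact hTV (by rw [← hWV']; exact ⟨hxW, h⟩)
      · exact fun h => Or.inl h
    · rw [d3 x hx, ← b4 x hx]
      constructor
      · rintro (h | h)
        · have hxW : x ∈ W := by rw [← hBX]; exact ⟨hVB h, hx⟩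
          exact hTV' (by rw [← hWV]; exact ⟨hxW, h⟩)
        · exact h
      · exact fun h => Or.inr h

end Pool.Agent.Work.MP_552024_lc.HM
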