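import Pool.Agent.Work.MP_552024_lc.HM.Stmts

/-!
# MP_552024_lc, block HM, item H6 (helper90)
The unit vectors of a cone over a sphere.
-/

set_option autoImplicit false

namespace Pool.Agent.Work.MP_552024_lc.HM

open Metric Set Topology

namespace IH6

variable {F F' : Type} [NormedAddCommGroup F] [NormedSpace ℝ F] [NormedAddCommGroup F']
  [NormedSpace ℝ F']

/-- normalisation of a homogeneous map -/
noncomputable def nrm (f : F → F') (x : F) : F' := ‖f x‖⁻¹ • f x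

lemma f_ne {f : F → F'} {g : F' → F} {s : Set F} {t : Set F'} (h : HInv f g s t) {x : F}
    (hx : x ∈ s) (hx0 : x ≠ 0) : f x ≠ 0 := by
  intro h0
  have h1 := h.gf x hx
  have h2 := h.mapsf x hx
  rw [h0] at h1 h2
  have h3 := (h.homg 0 h2 0 le_rfl).2
  rw [zero_smul, zero_smul] at h3
  exact hx0 (h1.symm.trans h3)

lemma norm_nrm {f : F → F'} {x : F} (h : f x ≠ 0) : ‖nrm f x‖ = 1 := by
  unfold nrm
  rw [norm_smul, norm_inv, norm_norm]
  exact inv_mul_cancel₀ (norm_ne_zero_iff.2 h)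

lemma mem_nrm {f : F → F'} {g : F' → F} {s : Set F} {t : Set F'} (h : HInv f g s t) {x : F}
    (hx : x ∈ s) : nrm f x ∈ t :=
  (h.homg (f x) (h.mapsf x hx) _ (inv_nonneg.2 (norm_nonneg _))).1

lemma nrm_nrm {f : F → F'} {g : F' → F} {s : Set F} {t : Set F'} (h : HInv f g s t) {x : F}
    (hx : x ∈ s) (hx1 : ‖x‖ = 1) : nrm g (nrm f x) = x := by
  have hx0 : x ≠ 0 := by
    rintro rfl
    rw [norm_zero] at hx1
    exact zero_ne_one hx1
  have h1 : f x ≠ 0 := f_ne h hx hx0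
  have h2 : g (nrm f x) = ‖f x‖⁻¹ • x := by
    unfold nrm
    rw [(h.homg (f x) (h.mapsf x hx) _ (inv_nonneg.2 (norm_nonneg _))).2, h.gf x hx]
  have h3 : ‖g (nrm f x)‖ = ‖f x‖⁻¹ := by
    rw [h2, norm_smul, hx1, mul_one, norm_inv, norm_norm]
  show ‖g (nrm f x)‖⁻¹ • g (nrm f x) = x
  rw [h3, h2, inv_inv, smul_smul, mul_inv_cancel₀ (norm_ne_zero_iff.2 h1), one_smul]

lemma swap {f : F → F'} {g : F' → F} {s : Set F} {t : Set F'} (h : HInv f g s t) :
    HInv g f t s :=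
  ⟨h.contg, h.contf, h.mapsg, h.mapsf, h.fg, h.gf, h.homg, h.homf⟩

lemma cont {f : F → F'} {g : F' → F} {s : Set F} {t : Set F'} (h : HInv f g s t) :
    ContinuousOn (nrm f) {x | x ∈ s ∧ ‖x‖ = 1} := by
  have h1 : ContinuousOn f {x | x ∈ s ∧ ‖x‖ = 1} := h.contf.mono fun x hx => hx.1
  refine (h1.norm.inv₀ ?_).smul h1
  intro x hx
  refine norm_ne_zero_iff.2 (f_ne h hx.1 ?_)
  rintro rfl
  have h2 := hx.2
  rw [norm_zero] at h2
  exact zero_ne_one h2

/-- the homeomorphism of the unit vectors -/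
noncomputable def homeo {f : F → F'} {g : F' → F} {s : Set F} {t : Set F'} (h : HInv f g s t) :
    ↥{x | x ∈ s ∧ ‖x‖ = 1} ≃ₜ ↥{y | y ∈ t ∧ ‖y‖ = 1} where
  toFun x := ⟨nrm f x, mem_nrm h x.2.1, norm_nrm (f_ne h x.2.1 (by
    intro h0
    have h2 := x.2.2
    rw [h0, norm_zero] at h2
    exact zero_ne_one h2))⟩
  invFun y := ⟨nrm g y, mem_nrm (swap h) y.2.1, norm_nrm (f_ne (swap h) y.2.1 (by
    intro h0
    have h2 := y.2.2
    rw [h0, norm_zero] at h2
    exact zero_ne_one h2))⟩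
  left_inv x := Subtype.ext (nrm_nrm h x.2.1 x.2.2)
  right_inv y := Subtype.ext (nrm_nrm (swap h) y.2.1 y.2.2)
  continuous_toFun := Continuous.subtype_mk (continuousOn_iff_continuous_domRestrict.1 (cont h)) _
  continuous_invFun :=
    Continuous.subtype_mk (continuousOn_iff_continuous_domRestrict.1 (cont (swap h))) _

end IH6

theorem pr_H6 : S_H6 := by
  intro F _ _ n T hT
  obtain ⟨f, g, h⟩ := hT
  have e1 : sec T = {x | x ∈ T ∧ ‖x‖ = 1} := rfl
  have e2 : {y : Eu n | y ∈ (univ : Set (Eu n)) ∧ ‖y‖ = 1} = sphere (0 : Eu n) 1 := by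
    ext y
    simp
  exact ⟨(IH6.homeo h).trans (Homeomorph.setCongr e2)⟩

end Pool.Agent.Work.MP_552024_lc.HM
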