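import Pool.Agent.Work.MP_552024_lc.HM.Stmts

/-!
Item H7 (by helper84): from a homeomorphism of the unit vectors with a closed ball to a homogeneous
homeomorphism with the half space.
-/

set_option autoImplicit false

namespace Pool.Agent.Work.MP_552024_lc.HM

open Metric Set Topology Filter

namespace IH7

variable {F : Type} [NormedAddCommGroup F] [InnerProductSpace ℝ F] {n : ℕ} {C : Set F}

open Classical in
/-- extension of the homeomorphism by zero -/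
noncomputable def ph (φ : ↥(sec C) ≃ₜ ↥(closedBall (0 : Eu n) 1)) (x : F) : Eu n :=
  if h : x ∈ sec C then (φ ⟨x, h⟩ : Eu n) else 0

open Classical in
/-- extension of the inverse by zero -/
noncomputable def ps (φ : ↥(sec C) ≃ₜ ↥(closedBall (0 : Eu n) 1)) (v : Eu n) : F :=
  if h : v ∈ closedBall (0 : Eu n) 1 then (φ.symm ⟨v, h⟩ : F) else 0

variable (φ : ↥(sec C) ≃ₜ ↥(closedBall (0 : Eu n) 1))

theorem ph_mem {x : F} (h : x ∈ sec C) : ph φ x = (φ ⟨x, h⟩ : Eu n) := dif_pos h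

theorem ps_mem {v : Eu n} (h : v ∈ closedBall (0 : Eu n) 1) : ps φ v = (φ.symm ⟨v, h⟩ : F) := dif_pos h

theorem ph_le (x : F) : ‖ph φ x‖ ≤ 1 := by
  by_cases h : x ∈ sec C
  · rw [ph_mem φ h]
    have h2 := (φ ⟨x, h⟩).2
    rwa [mem_closedBall_zero_iff] at h2
  · unfold ph
    rw [dif_neg h, norm_zero]
    exact zero_le_one

theorem ps_sec {v : Eu n} (h : v ∈ closedBall (0 : Eu n) 1) : ps φ v ∈ sec C := by
  rw [ps_mem φ h]
  exact (φ.symm ⟨v, h⟩).2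

theorem ps_le (v : Eu n) : ‖ps φ v‖ ≤ 1 := by
  by_cases h : v ∈ closedBall (0 : Eu n) 1
  · exact (ps_sec φ h).2.le
  · unfold ps
    rw [dif_neg h, norm_zero]
    exact zero_le_one

theorem ph_ball (x : F) : ph φ x ∈ closedBall (0 : Eu n) 1 := by
  rw [mem_closedBall_zero_iff]
  exact ph_le φ x

theorem ps_ph {x : F} (h : x ∈ sec C) : ps φ (ph φ x) = x := by
  rw [ps_mem φ (ph_ball φ x)]
  have h1 : (⟨ph φ x, ph_ball φ x⟩ : ↥(closedBall (0 : Eu n) 1)) = φ ⟨x, h⟩ :=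
    Subtype.ext (ph_mem φ h)
  rw [h1, Homeomorph.symm_apply_apply]

theorem ph_ps {v : Eu n} (h : v ∈ closedBall (0 : Eu n) 1) : ph φ (ps φ v) = v := by
  rw [ph_mem φ (ps_sec φ h)]
  have h1 : (⟨ps φ v, ps_sec φ h⟩ : ↥(sec C)) = φ.symm ⟨v, h⟩ := Subtype.ext (ps_mem φ h)
  rw [h1, Homeomorph.apply_symm_apply]

theorem ph_cont : ContinuousOn (ph φ) (sec C) := by
  rw [continuousOn_iff_continuous_domRestrict]
  have h : (sec C).domRestrict (ph φ) = fun x => (φ x : Eu n) := by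
    funext x
    exact ph_mem φ x.2
  rw [h]
  exact continuous_subtype_val.comp φ.continuous

theorem ps_cont : ContinuousOn (ps φ) (closedBall (0 : Eu n) 1) := by
  rw [continuousOn_iff_continuous_domRestrict]
  have h : (closedBall (0 : Eu n) 1).domRestrict (ps φ) = fun x => (φ.symm x : F) := by
    funext x
    exact ps_mem φ x.2
  rw [h]
  exact continuous_subtype_val.comp φ.symm.continuous

/-- the homogeneous map -/
noncomputable def ff (x : F) : Eu n × ℝ :=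
  (‖x‖ • ph φ (‖x‖⁻¹ • x), ‖x‖ * (1 - ‖ph φ (‖x‖⁻¹ • x)‖))

/-- the inverse map -/
noncomputable def gg (z : Eu n × ℝ) : F :=
  (‖z.1‖ + z.2) • ps φ ((‖z.1‖ + z.2)⁻¹ • z.1)

theorem ff_zero : ff φ (0 : F) = 0 := by
  unfold ff
  simp

theorem gg_zero : gg φ (0 : Eu n × ℝ) = 0 := by
  unfold gg
  simp

theorem unit_norm {x : F} (hx : x ≠ 0) : ‖‖x‖⁻¹ • x‖ = 1 := by
  rw [norm_smul, norm_inv, norm_norm]
  exact inv_mul_cancel₀ (norm_ne_zero_iff.2 hx)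

theorem unit_sec (hC : ∀ x ∈ C, ∀ r : ℝ, 0 ≤ r → r • x ∈ C) {x : F} (h : x ∈ C) (hx : x ≠ 0) :
    ‖x‖⁻¹ • x ∈ sec C :=
  ⟨hC x h _ (by positivity), unit_norm hx⟩

theorem half_r {z : Eu n × ℝ} (hz : z ∈ Half n) (h0 : z ≠ 0) : 0 < ‖z.1‖ + z.2 := by
  have h2 : 0 ≤ z.2 := hz
  rcases h2.lt_or_eq with h | h
  · have := norm_nonneg z.1
    linarith
  · have h1 : z.1 ≠ 0 := fun h3 => h0 (Prod.ext h3 h.symm)
    have := norm_pos_iff.2 h1
    linarith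

theorem half_v {z : Eu n × ℝ} (hz : z ∈ Half n) (h0 : z ≠ 0) :
    (‖z.1‖ + z.2)⁻¹ • z.1 ∈ closedBall (0 : Eu n) 1 := by
  have h2 : 0 ≤ z.2 := hz
  have hr := half_r hz h0
  rw [mem_closedBall_zero_iff, norm_smul, norm_inv, Real.norm_of_nonneg hr.le, inv_mul_le_iff₀ hr]
  linarith

theorem norm_ff (x : F) : ‖ff φ x‖ ≤ ‖x‖ := by
  unfold ff
  have h1 := ph_le φ (‖x‖⁻¹ • x)
  have h0 := norm_nonneg (ph φ (‖x‖⁻¹ • x))
  have hx := norm_nonneg x
  rw [Prod.norm_def]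
  apply max_le
  · rw [norm_smul, norm_norm]
    exact mul_le_of_le_one_right hx h1
  · rw [norm_mul, norm_norm]
    apply mul_le_of_le_one_right hx
    rw [Real.norm_eq_abs, abs_le]
    constructor <;> linarith

theorem norm_gg (z : Eu n × ℝ) : ‖gg φ z‖ ≤ ‖z‖ + ‖z‖ := by
  unfold gg
  rw [norm_smul]
  calc ‖‖z.1‖ + z.2‖ * ‖ps φ ((‖z.1‖ + z.2)⁻¹ • z.1)‖
      ≤ ‖‖z.1‖ + z.2‖ := mul_le_of_le_one_right (norm_nonneg _) (ps_le φ _)
    _ ≤ ‖‖z.1‖‖ + ‖z.2‖ := norm_add_le _ _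
    _ ≤ ‖z‖ + ‖z‖ := by
        rw [norm_norm]
        exact add_le_add (norm_fst_le z) (norm_snd_le z)

theorem cont_ff (hC : ∀ x ∈ C, ∀ r : ℝ, 0 ≤ r → r • x ∈ C) : ContinuousOn (ff φ) C := by
  intro x hx
  by_cases h0 : x = 0
  · subst h0
    have h1 : Tendsto (fun y : F => ‖y‖) (𝓝[C] 0) (𝓝 0) := by
      have h2 : Tendsto (fun y : F => ‖y‖) (𝓝 0) (𝓝 ‖(0 : F)‖) := continuous_norm.tendsto 0
      rw [norm_zero] at h2
      exact h2.mono_left nhdsWithin_le_nhds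
    unfold ContinuousWithinAt
    rw [ff_zero]
    exact squeeze_zero_norm (fun y => norm_ff φ y) h1
  · have hu : ContinuousWithinAt (fun y : F => ‖y‖⁻¹ • y) (C \ {0}) x :=
      ((continuous_norm.continuousAt.inv₀ (norm_ne_zero_iff.2 h0)).smul continuousAt_id).continuousWithinAt
    have hm : MapsTo (fun y : F => ‖y‖⁻¹ • y) (C \ {0}) (sec C) :=
      fun y hy => unit_sec hC hy.1 hy.2
    have hp : ContinuousWithinAt (fun y : F => ph φ (‖y‖⁻¹ • y)) (C \ {0}) x :=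
      ContinuousWithinAt.comp (g := ph φ) (f := fun y : F => ‖y‖⁻¹ • y) (t := sec C)
        ((ph_cont φ) _ (unit_sec hC hx h0)) hu hm
    have hn : ContinuousWithinAt (fun y : F => ‖y‖) (C \ {0}) x := continuous_norm.continuousWithinAt
    have hf : ContinuousWithinAt (ff φ) (C \ {0}) x :=
      (hn.smul hp).prodMk (hn.mul (continuousWithinAt_const.sub hp.norm))
    refine hf.mono_of_mem_nhdsWithin ?_
    have h3 : ({0}ᶜ : Set F) ∈ 𝓝 x := isOpen_compl_singleton.mem_nhds h0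
    filter_upwards [self_mem_nhdsWithin, mem_nhdsWithin_of_mem_nhds h3] with y hy1 hy2
    exact ⟨hy1, hy2⟩

theorem cont_gg : ContinuousOn (gg φ) (Half n) := by
  intro z hz
  by_cases h0 : z = 0
  · subst h0
    have h1 : Tendsto (fun y : Eu n × ℝ => ‖y‖ + ‖y‖) (𝓝[Half n] 0) (𝓝 0) := by
      have h2 : Tendsto (fun y : Eu n × ℝ => ‖y‖ + ‖y‖) (𝓝 0) (𝓝 (‖(0 : Eu n × ℝ)‖ + ‖(0 : Eu n × ℝ)‖)) :=
        (continuous_norm.add continuous_norm).tendsto 0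
      rw [norm_zero, add_zero] at h2
      exact h2.mono_left nhdsWithin_le_nhds
    unfold ContinuousWithinAt
    rw [gg_zero]
    exact squeeze_zero_norm (fun y => norm_gg φ y) h1
  · have hr := half_r hz h0
    have hc : Continuous (fun y : Eu n × ℝ => ‖y.1‖ + y.2) := by fun_prop
    have hu : ContinuousWithinAt (fun y : Eu n × ℝ => (‖y.1‖ + y.2)⁻¹ • y.1) (Half n \ {0}) z :=
      ((hc.continuousAt.inv₀ hr.ne').smul continuousAt_fst).continuousWithinAt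
    have hm : MapsTo (fun y : Eu n × ℝ => (‖y.1‖ + y.2)⁻¹ • y.1) (Half n \ {0}) (closedBall (0 : Eu n) 1) :=
      fun y hy => half_v hy.1 hy.2
    have hp : ContinuousWithinAt (fun y : Eu n × ℝ => ps φ ((‖y.1‖ + y.2)⁻¹ • y.1)) (Half n \ {0}) z :=
      ContinuousWithinAt.comp (g := ps φ) (f := fun y : Eu n × ℝ => (‖y.1‖ + y.2)⁻¹ • y.1)
        (t := closedBall (0 : Eu n) 1) ((ps_cont φ) _ (half_v hz h0)) hu hm
    have hf : ContinuousWithinAt (gg φ) (Half n \ {0}) z :=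
      (hc.continuousWithinAt).smul hp
    refine hf.mono_of_mem_nhdsWithin ?_
    have h3 : ({0}ᶜ : Set (Eu n × ℝ)) ∈ 𝓝 z := isOpen_compl_singleton.mem_nhds h0
    filter_upwards [self_mem_nhdsWithin, mem_nhdsWithin_of_mem_nhds h3] with y hy1 hy2
    exact ⟨hy1, hy2⟩

theorem maps_f (x : F) : ff φ x ∈ Half n := by
  have h1 := ph_le φ (‖x‖⁻¹ • x)
  have hx := norm_nonneg x
  show 0 ≤ ‖x‖ * (1 - ‖ph φ (‖x‖⁻¹ • x)‖)
  exact mul_nonneg hx (by linarith)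

theorem maps_g (hC : ∀ x ∈ C, ∀ r : ℝ, 0 ≤ r → r • x ∈ C) (h0C : (0 : F) ∈ C) {z : Eu n × ℝ}
    (hz : z ∈ Half n) : gg φ z ∈ C := by
  by_cases h0 : z = 0
  · subst h0
    rw [gg_zero]
    exact h0C
  · exact hC _ (ps_sec φ (half_v hz h0)).1 _ (half_r hz h0).le

theorem gf (hC : ∀ x ∈ C, ∀ r : ℝ, 0 ≤ r → r • x ∈ C) {x : F} (hx : x ∈ C) : gg φ (ff φ x) = x := by
  by_cases h0 : x = 0
  · subst h0
    rw [ff_zero, gg_zero]
  · have hn : ‖x‖ ≠ 0 := norm_ne_zero_iff.2 h0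
    have hr : ‖(ff φ x).1‖ + (ff φ x).2 = ‖x‖ := by
      show ‖‖x‖ • ph φ (‖x‖⁻¹ • x)‖ + ‖x‖ * (1 - ‖ph φ (‖x‖⁻¹ • x)‖) = ‖x‖
      rw [norm_smul, norm_norm]
      ring
    unfold gg
    rw [hr]
    have h1 : ‖x‖⁻¹ • (ff φ x).1 = ph φ (‖x‖⁻¹ • x) := by
      show ‖x‖⁻¹ • (‖x‖ • ph φ (‖x‖⁻¹ • x)) = _
      rw [inv_smul_smul₀ hn]
    rw [h1, ps_ph φ (unit_sec hC hx h0), smul_inv_smul₀ hn]

theorem fg {z : Eu n × ℝ} (hz : z ∈ Half n) : ff φ (gg φ z) = z := by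
  by_cases h0 : z = 0
  · subst h0
    rw [gg_zero, ff_zero]
  · have hr := half_r hz h0
    have hv := half_v hz h0
    have hs := ps_sec φ hv
    have hn : ‖gg φ z‖ = ‖z.1‖ + z.2 := by
      unfold gg
      rw [norm_smul, hs.2, mul_one, Real.norm_of_nonneg hr.le]
    have hu : ‖gg φ z‖⁻¹ • gg φ z = ps φ ((‖z.1‖ + z.2)⁻¹ • z.1) := by
      rw [hn]
      unfold gg
      rw [inv_smul_smul₀ hr.ne']
    unfold ff
    rw [hu, hn, ph_ps φ hv]
    apply Prod.ext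
    · show (‖z.1‖ + z.2) • (‖z.1‖ + z.2)⁻¹ • z.1 = z.1
      rw [smul_inv_smul₀ hr.ne']
    · show (‖z.1‖ + z.2) * (1 - ‖(‖z.1‖ + z.2)⁻¹ • z.1‖) = z.2
      rw [norm_smul, norm_inv, Real.norm_of_nonneg hr.le, mul_sub, mul_inv_cancel_left₀ hr.ne']
      ring

theorem homf (x : F) {r : ℝ} (hr : 0 ≤ r) : ff φ (r • x) = r • ff φ x := by
  rcases hr.lt_or_eq with h | h
  · have h1 : ‖r • x‖ = r * ‖x‖ := by
      rw [norm_smul, Real.norm_of_nonneg hr]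
    have h2 : ‖r • x‖⁻¹ • (r • x) = ‖x‖⁻¹ • x := by
      rw [h1, smul_smul]
      congr 1
      rw [mul_inv, mul_right_comm, inv_mul_cancel₀ h.ne', one_mul]
    unfold ff
    rw [h2, h1]
    apply Prod.ext
    · show (r * ‖x‖) • _ = r • (‖x‖ • _)
      rw [smul_smul]
    · show (r * ‖x‖) * _ = r • (‖x‖ * _)
      rw [smul_eq_mul, mul_assoc]
  · subst h
    rw [zero_smul, zero_smul, ff_zero]

theorem homg (z : Eu n × ℝ) {r : ℝ} (hr : 0 ≤ r) : gg φ (r • z) = r • gg φ z := by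
  rcases hr.lt_or_eq with h | h
  · have h1 : ‖(r • z).1‖ + (r • z).2 = r * (‖z.1‖ + z.2) := by
      show ‖r • z.1‖ + r * z.2 = _
      rw [norm_smul, Real.norm_of_nonneg hr]
      ring
    have h2 : (r * (‖z.1‖ + z.2))⁻¹ • (r • z).1 = (‖z.1‖ + z.2)⁻¹ • z.1 := by
      show (r * (‖z.1‖ + z.2))⁻¹ • (r • z.1) = _
      rw [smul_smul]
      congr 1
      rw [mul_inv, mul_right_comm, inv_mul_cancel₀ h.ne', one_mul]
    unfold gg
    rw [h1, h2, smul_smul]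
  · subst h
    rw [zero_smul, zero_smul, gg_zero]

end IH7

open IH7 in
theorem pr_H7 : S_H7 := by
  intro F _ _ n C S hSC h0S hC hS φ hφ
  have h0C : (0 : F) ∈ C := hSC h0S
  refine ⟨hSC, ff φ, gg φ, ⟨cont_ff φ hC, cont_gg φ, fun x _ => maps_f φ x,
    fun z hz => maps_g φ hC h0C hz, fun x hx => gf φ hC hx, fun z hz => fg φ hz,
    fun x hx r hr => ⟨hC x hx r hr, homf φ x hr⟩, fun z hz r hr => ⟨?_, homg φ z hr⟩⟩, ?_⟩
  · have h2 : 0 ≤ z.2 := hz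
    show 0 ≤ r * z.2
    positivity
  · intro x hx
    by_cases h0 : x = 0
    · subst h0
      rw [ff_zero]
      exact ⟨fun _ => rfl, fun _ => h0S⟩
    · have hn : ‖x‖ ≠ 0 := norm_ne_zero_iff.2 h0
      have hu := unit_sec hC hx h0
      have h1 : (x ∈ S ↔ ‖x‖⁻¹ • x ∈ S) := by
        constructor
        · intro h
          exact hS x h _ (by positivity)
        · intro h
          have h2 := hS _ h ‖x‖ (norm_nonneg x)
          rwa [smul_inv_smul₀ hn] at h2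
      have h2 := hφ ⟨‖x‖⁻¹ • x, hu⟩
      rw [h1, h2, ← ph_mem φ hu]
      show _ ↔ ‖x‖ * (1 - ‖ph φ (‖x‖⁻¹ • x)‖) = 0
      rw [mul_eq_zero, or_iff_right hn, sub_eq_zero]
      exact eq_comm

end Pool.Agent.Work.MP_552024_lc.HM
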