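import Pool.Agent.Work.MP_552024_lc.HM.StmtsQ

/-! MP_552024_lc, block HM, item Q1: rational points in the cells of a rational arrangement. -/

set_option autoImplicit false

namespace Pool.Agent.Work.MP_552024_lc.HM

open Metric Set Topology Pool.Agent.Work.MP_552024_lc.PLS Pool.Agent.MP552024

namespace IQ1

variable {V : Type} [Fintype V]

open Classical in
theorem exR_apply (a : (V → ℚ) →ₗ[ℚ] ℚ) (z : EuclideanSpace ℝ V) :
    exR a z = ∑ i, (a (Pi.single i 1) : ℝ) * z i := rfl

open Classical in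
theorem form_apply (a : (V → ℚ) →ₗ[ℚ] ℚ) (y : V → ℚ) :
    a y = ∑ i, a (Pi.single i 1) * y i := by
  have h : y = ∑ i, y i • (Pi.single i (1 : ℚ) : V → ℚ) := by
    funext j
    rw [Finset.sum_apply, Finset.sum_eq_single j]
    · simp
    · intro b _ hb
      rw [Pi.smul_apply, Pi.single_eq_of_ne hb.symm, smul_zero]
    · intro h
      exact absurd (Finset.mem_univ j) h
  conv_lhs => rw [h]
  rw [map_sum]
  refine Finset.sum_congr rfl fun i _ => ?_
  rw [map_smul, smul_eq_mul, mul_comm]

theorem exR_castE (a : (V → ℚ) →ₗ[ℚ] ℚ) (y : V → ℚ) : exR a (castE y) = (a y : ℝ) := by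
  classical
  rw [exR_apply, form_apply a y]
  push_cast
  rfl

/-- the signs of a rational number and of its real cast -/
theorem sign_cast (q : ℚ) : SignType.sign ((q : ℚ) : ℝ) = SignType.sign q := by
  rcases lt_trichotomy q 0 with h | h | h
  · rw [sign_neg h, sign_neg (by exact_mod_cast h)]
  · rw [h, Rat.cast_zero, sign_zero, sign_zero]
  · rw [sign_pos h, sign_pos (by exact_mod_cast h)]

/-- a real vector is a combination of rational vectors with coefficients independent over `ℚ` -/
theorem decomp (z : EuclideanSpace ℝ V) : ∃ (d : ℕ) (β : Fin d → ℝ) (y : Fin d → V → ℚ),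
    LinearIndependent ℚ β ∧ ∀ i, z i = ∑ j, β j * (y j i : ℝ) := by
  classical
  set W : Submodule ℚ ℝ := Submodule.span ℚ (Set.range fun i => z i) with hW
  have : FiniteDimensional ℚ W := FiniteDimensional.span_of_finite ℚ (Set.finite_range _)
  let b := Module.finBasis ℚ W
  refine ⟨Module.finrank ℚ W, fun j => (b j : ℝ),
    fun j i => b.repr ⟨z i, Submodule.subset_span ⟨i, rfl⟩⟩ j, ?_, ?_⟩
  · exact b.linearIndependent.map' W.subtype (Submodule.ker_subtype W)
  · intro i
    have h := b.sum_repr ⟨z i, Submodule.subset_span ⟨i, rfl⟩⟩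
    have h2 := congrArg (fun w : W => (w : ℝ)) h
    simp only [Submodule.coe_sum, Submodule.coe_smul] at h2
    rw [← h2]
    refine Finset.sum_congr rfl fun j _ => ?_
    rw [Rat.smul_def, mul_comm]

theorem main (A : Set ((V → ℚ) →ₗ[ℚ] ℚ)) (hA : A.Finite) (z : EuclideanSpace ℝ V) (δ : ℝ)
    (hδ : 0 < δ) :
    ∃ y : V → ℚ, ‖castE y - z‖ < δ ∧ ∀ a ∈ A, SignType.sign (a y) = SignType.sign (exR a z) := by
  classical
  obtain ⟨d, β, y, hβ, hz⟩ := decomp z
  -- the forms vanishing at `z` vanish at the `y j`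
  have hzero : ∀ a : (V → ℚ) →ₗ[ℚ] ℚ, exR a z = 0 → ∀ j, a (y j) = 0 := by
    intro a ha
    have h1 : ∑ j, (a (y j)) • β j = 0 := by
      rw [exR_apply] at ha
      rw [← ha]
      have h2 : ∀ i, (a (Pi.single i 1) : ℝ) * z i
          = ∑ j, (a (Pi.single i 1) : ℝ) * (β j * (y j i : ℝ)) := by
        intro i
        rw [hz i, Finset.mul_sum]
      rw [Finset.sum_congr rfl fun i _ => h2 i, Finset.sum_comm]
      refine Finset.sum_congr rfl fun j _ => ?_
      rw [Rat.smul_def, form_apply a (y j)]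
      push_cast
      rw [Finset.sum_mul]
      refine Finset.sum_congr rfl fun i _ => ?_
      ring
    exact Fintype.linearIndependent_iff.1 hβ _ h1
  set Φ : (Fin d → ℝ) → EuclideanSpace ℝ V := fun q => ∑ j, q j • castE (y j) with hΦ
  have hΦc : Continuous Φ := by
    refine continuous_finsetSum _ fun j _ => ?_
    exact (continuous_apply j).smul continuous_const
  have hΦz : Φ β = z := by
    ext i
    rw [hz i]
    simp only [hΦ, WithLp.ofLp_sum, WithLp.ofLp_smul, Finset.sum_apply, Pi.smul_apply, smul_eq_mul]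
    rfl
  have hcont : ∀ a : (V → ℚ) →ₗ[ℚ] ℚ, Continuous (exR a) := fun a =>
    (exR a).continuous_of_finiteDimensional
  have ev1 : ∀ᶠ x in 𝓝 z, ‖x - z‖ < δ := by
    have : ∀ᶠ x in 𝓝 z, x ∈ ball z δ := ball_mem_nhds z hδ
    filter_upwards [this] with x hx
    rw [mem_ball, dist_eq_norm] at hx
    exact hx
  have ev2 : ∀ᶠ x in 𝓝 z, ∀ a ∈ A, exR a z ≠ 0 →
      SignType.sign (exR a x) = SignType.sign (exR a z) := by
    rw [Filter.eventually_all_finite hA]
    intro a _
    rcases lt_trichotomy (exR a z) 0 with h | h | h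
    · have h1 : ∀ᶠ x in 𝓝 z, exR a x < 0 := (hcont a).continuousAt.eventually_lt continuousAt_const h
      filter_upwards [h1] with x hx _
      rw [sign_neg hx, sign_neg h]
    · exact Filter.Eventually.of_forall fun x hx => absurd h hx
    · have h1 : ∀ᶠ x in 𝓝 z, 0 < exR a x := continuousAt_const.eventually_lt (hcont a).continuousAt h
      filter_upwards [h1] with x hx _
      rw [sign_pos hx, sign_pos h]
  have ev3 : ∀ᶠ q in 𝓝 β, ‖Φ q - z‖ < δ ∧ ∀ a ∈ A, exR a z ≠ 0 →
      SignType.sign (exR a (Φ q)) = SignType.sign (exR a z) := by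
    have h1 : Filter.Tendsto Φ (𝓝 β) (𝓝 z) := by
      have := hΦc.tendsto β
      rwa [hΦz] at this
    exact h1.eventually (ev1.and ev2)
  have hdense : DenseRange (fun q : Fin d → ℚ => fun j => ((q j : ℚ) : ℝ)) := by
    exact DenseRange.piMap fun _ => Rat.denseRange_cast
  obtain ⟨q, hq1, hq2⟩ := hdense.mem_nhds ev3
  have hcast : castE (∑ j, q j • y j) = Φ (fun j => ((q j : ℚ) : ℝ)) := by
    ext i
    simp only [hΦ, castE, WithLp.ofLp_sum, WithLp.ofLp_smul, Finset.sum_apply, Pi.smul_apply,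
      smul_eq_mul]
    push_cast
    rfl
  refine ⟨∑ j, q j • y j, ?_, fun a ha => ?_⟩
  · rw [hcast]
    exact hq1
  · by_cases h0 : exR a z = 0
    · rw [h0, map_sum, sign_zero]
      have : ∑ j, a (q j • y j) = 0 := by
        refine Finset.sum_eq_zero fun j _ => ?_
        rw [map_smul, hzero a h0 j, smul_zero]
      rw [this, sign_zero]
    · have h1 := hq2 a ha h0
      rw [← hcast, exR_castE, sign_cast] at h1
      exact h1

end IQ1

open IQ1 in
theorem pr_Q1 : S_Q1 := by
  intro V _
  exact ⟨fun a y => exR_castE a y, fun A hA z δ hδ => main A hA z δ hδ⟩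

end Pool.Agent.Work.MP_552024_lc.HM
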