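import Pool.Agent.Work.MP_552024_lc.HM.StmtsQ

/-!
Item Q10: comparison of cell systems by homogeneous homeomorphisms.
-/

set_option autoImplicit false

namespace Pool.Agent.Work.MP_552024_lc.HM

open Metric Set Topology Pool.Agent.Work.MP_552024_lc.PLS Pool.Agent.MP552024

namespace IQ10

section

variable {F : Type} [NormedAddCommGroup F] [NormedSpace ℝ F]
variable {F' : Type} [NormedAddCommGroup F'] [NormedSpace ℝ F']

/-- A system of closed sets indexed by a finite poset. -/
structure RC {ι : Type} [PartialOrder ι] (i0 : ι) (c : ι → Set F) : Prop where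
  clo : ∀ i, IsClosed (c i)
  zero : c i0 = {0}
  inter : ∀ i j, c i ∩ c j = ⋃ k ∈ {k | k ≤ i ∧ k ≤ j}, c k
  hom : ∀ i, ∀ x ∈ c i, ∀ r : ℝ, 0 ≤ r → r • x ∈ c i

theorem RC.mono {ι : Type} [PartialOrder ι] {i0 : ι} {c : ι → Set F} (h : RC i0 c) {i j : ι}
    (hij : i ≤ j) : c i ⊆ c j := by
  intro x hx
  have h1 : x ∈ ⋃ k ∈ {k | k ≤ j ∧ k ≤ j}, c k := Set.mem_biUnion (x := i) ⟨hij, hij⟩ hx
  rw [← h.inter j j] at h1
  exact h1.1

theorem RC.closed_biUnion {ι : Type} [PartialOrder ι] {i0 : ι} {c : ι → Set F} (h : RC i0 c)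
    (s : Finset ι) : IsClosed (⋃ i ∈ s, c i) :=
  s.finite_toSet.isClosed_biUnion fun i _ => h.clo i

theorem assembleR (h1 : S_H1) (h2 : S_H2) (h3 : S_H3) {ι : Type} [PartialOrder ι] [Finite ι]
    {i0 : ι} (hi0 : ∀ i, i0 ≤ i) {c : ι → Set F} {c' : ι → Set F'} (h : RC i0 c) (h' : RC i0 c')
    (hcell : ∀ i, i ≠ i0 → ∃ n, TB n (c i) (⋃ k ∈ {k | k < i}, c k) ∧
      TB n (c' i) (⋃ k ∈ {k | k < i}, c' k)) :
    ∃ (f : F → F') (g : F' → F), HInv f g (⋃ i, c i) (⋃ i, c' i) := by
  classical
  have : Fintype ι := Fintype.ofFinite ι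
  have key : ∀ n, ∀ s : Finset ι, s.card = n → IsLowerSet (s : Set ι) → i0 ∈ s →
      ∃ f : F → F', ∃ g : F' → F, HInv f g (⋃ i ∈ s, c i) (⋃ i ∈ s, c' i) ∧
        ∀ i ∈ s, ∀ x ∈ ⋃ i ∈ s, c i, (x ∈ c i ↔ f x ∈ c' i) := by
    intro n
    induction n with
    | zero =>
      intro s hs _ h0
      rw [Finset.card_eq_zero] at hs
      rw [hs] at h0
      exact absurd h0 (Finset.notMem_empty _)
    | succ n ih =>
      intro s hs hlow h0
      by_cases hone : s = {i0}
      · subst hone
        have e1 : (⋃ i ∈ ({i0} : Finset ι), c i) = {0} := by simp [h.zero]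
        have e2 : (⋃ i ∈ ({i0} : Finset ι), c' i) = {0} := by simp [h'.zero]
        rw [e1, e2]
        refine ⟨fun _ => 0, fun _ => 0, ⟨continuousOn_const, continuousOn_const,
          fun _ _ => rfl, fun _ _ => rfl, fun x hx => ?_, fun x hx => ?_, fun x hx r _ => ?_,
          fun x hx r _ => ?_⟩, ?_⟩
        · rw [Set.mem_singleton_iff.1 hx]
        · rw [Set.mem_singleton_iff.1 hx]
        · rw [Set.mem_singleton_iff.1 hx, smul_zero, smul_zero]
          exact ⟨rfl, rfl⟩
        · rw [Set.mem_singleton_iff.1 hx, smul_zero, smul_zero]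
          exact ⟨rfl, rfl⟩
        · intro i hi x hx
          rw [Finset.mem_singleton] at hi
          subst hi
          rw [h.zero, h'.zero]
          constructor
          · intro _; rfl
          · intro _; exact hx
      · -- a maximal element of s
        obtain ⟨m, hm⟩ : ∃ m, Maximal (fun x => x ∈ s) m := s.exists_maximal ⟨i0, h0⟩
        have hms : m ∈ s := hm.1
        have hmax : ∀ j ∈ s, m ≤ j → j = m := fun j hj hmj => le_antisymm (hm.2 hj hmj) hmj
        have hm0 : m ≠ i0 := by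
          rintro rfl
          apply hone
          ext j
          rw [Finset.mem_singleton]
          exact ⟨fun hj => hmax j hj (hi0 j), fun hj => hj ▸ h0⟩
        set s' := s.erase m with hs'
        have hs'c : s'.card = n := by rw [hs', Finset.card_erase_of_mem hms, hs]; rfl
        have hs'low : IsLowerSet (s' : Set ι) := by
          intro a b hba ha
          rw [Finset.mem_coe, hs', Finset.mem_erase] at ha ⊢
          refine ⟨?_, hlow hba ha.2⟩
          rintro rfl
          exact ha.1 (hmax a ha.2 hba)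
        have h0' : i0 ∈ s' := Finset.mem_erase.2 ⟨hm0.symm, h0⟩
        obtain ⟨f, g, hfg, hiff⟩ := ih s' hs'c hs'low h0'
        -- boundaries
        have hlt : ∀ k, k < m → k ∈ s' := fun k hk =>
          Finset.mem_erase.2 ⟨hk.ne, hlow hk.le hms⟩
        have hbd : ∀ x, x ∈ (⋃ i ∈ s', c i) → (x ∈ c m ↔ x ∈ ⋃ k ∈ {k | k < m}, c k) := by
          intro x hx
          constructor
          · intro hxm
            obtain ⟨i, hi, hxi⟩ := Set.mem_iUnion₂.1 hx
            have h1 : x ∈ c m ∩ c i := ⟨hxm, hxi⟩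
            rw [h.inter m i] at h1
            obtain ⟨k, hk, hxk⟩ := Set.mem_iUnion₂.1 h1
            refine Set.mem_biUnion (x := k) ?_ hxk
            refine lt_of_le_of_ne hk.1 ?_
            rintro rfl
            have h2 := Finset.mem_erase.1 hi
            exact h2.1 (hmax i h2.2 hk.2)
          · intro hx'
            obtain ⟨k, hk, hxk⟩ := Set.mem_iUnion₂.1 hx'
            exact h.mono (le_of_lt hk) hxk
        have hbd' : ∀ x, x ∈ (⋃ i ∈ s', c' i) → (x ∈ c' m ↔ x ∈ ⋃ k ∈ {k | k < m}, c' k) := by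
          intro x hx
          constructor
          · intro hxm
            obtain ⟨i, hi, hxi⟩ := Set.mem_iUnion₂.1 hx
            have h1 : x ∈ c' m ∩ c' i := ⟨hxm, hxi⟩
            rw [h'.inter m i] at h1
            obtain ⟨k, hk, hxk⟩ := Set.mem_iUnion₂.1 h1
            refine Set.mem_biUnion (x := k) ?_ hxk
            refine lt_of_le_of_ne hk.1 ?_
            rintro rfl
            have h2 := Finset.mem_erase.1 hi
            exact h2.1 (hmax i h2.2 hk.2)
          · intro hx'
            obtain ⟨k, hk, hxk⟩ := Set.mem_iUnion₂.1 hx'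
            exact h'.mono (le_of_lt hk) hxk
        have hsub : (⋃ k ∈ {k | k < m}, c k) ⊆ ⋃ i ∈ s', c i := by
          intro x hx
          obtain ⟨k, hk, hxk⟩ := Set.mem_iUnion₂.1 hx
          exact Set.mem_biUnion (hlt k hk) hxk
        have hsub' : (⋃ k ∈ {k | k < m}, c' k) ⊆ ⋃ i ∈ s', c' i := by
          intro x hx
          obtain ⟨k, hk, hxk⟩ := Set.mem_iUnion₂.1 hx
          exact Set.mem_biUnion (hlt k hk) hxk
        have hr : HInv f g (⋃ k ∈ {k | k < m}, c k) (⋃ k ∈ {k | k < m}, c' k) := by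
          refine (h1 F F' F).2.2.1 f g _ _ _ _ hfg hsub hsub' ?_ ?_
          · intro x hx
            constructor
            · intro hx'
              obtain ⟨k, hk, hxk⟩ := Set.mem_iUnion₂.1 hx'
              exact Set.mem_biUnion (x := k) hk ((hiff k (hlt k hk) x hx).1 hxk)
            · intro hx'
              obtain ⟨k, hk, hxk⟩ := Set.mem_iUnion₂.1 hx'
              exact Set.mem_biUnion (x := k) hk ((hiff k (hlt k hk) x hx).2 hxk)
          · intro x hx r hr
            obtain ⟨k, hk, hxk⟩ := Set.mem_iUnion₂.1 hx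
            exact Set.mem_biUnion (x := k) hk (h.hom k x hxk r hr)
        obtain ⟨dm, hb, hb'⟩ := hcell m hm0
        obtain ⟨Φ, Ψ, hΦ, hΦ1, hΨ1, hΦ2⟩ := (h3 F F' dm _ _ hb).2.2 f g _ _ hb' hr
        obtain ⟨G₁, G₂, hFG, hF1, hF2, hG1, hG2⟩ := h2 F F' f Φ g Ψ _ _ _ _ hfg hΦ
          (h.closed_biUnion s') (h.clo m) (h'.closed_biUnion s') (h'.clo m)
          (fun x hx hxm => (hΦ1 x ((hbd x hx).1 hxm)).symm)
          (fun y hy hym => (hΨ1 y ((hbd' y hy).1 hym)).symm)
        have eU : (⋃ i ∈ s, c i) = (⋃ i ∈ s', c i) ∪ c m := by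
          ext x
          simp only [Set.mem_iUnion, Set.mem_union, exists_prop]
          constructor
          · rintro ⟨i, hi, hx⟩
            by_cases him : i = m
            · exact Or.inr (him ▸ hx)
            · exact Or.inl ⟨i, Finset.mem_erase.2 ⟨him, hi⟩, hx⟩
          · rintro (⟨i, hi, hx⟩ | hx)
            · exact ⟨i, (Finset.mem_erase.1 hi).2, hx⟩
            · exact ⟨m, hms, hx⟩
        have eU' : (⋃ i ∈ s, c' i) = (⋃ i ∈ s', c' i) ∪ c' m := by
          ext x
          simp only [Set.mem_iUnion, Set.mem_union, exists_prop]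
          constructor
          · rintro ⟨i, hi, hx⟩
            by_cases him : i = m
            · exact Or.inr (him ▸ hx)
            · exact Or.inl ⟨i, Finset.mem_erase.2 ⟨him, hi⟩, hx⟩
          · rintro (⟨i, hi, hx⟩ | hx)
            · exact ⟨i, (Finset.mem_erase.1 hi).2, hx⟩
            · exact ⟨m, hms, hx⟩
        refine ⟨G₁, G₂, by rw [eU, eU']; exact hFG, ?_⟩
        -- the equivalences
        have hmain : ∀ i ∈ s, ∀ x ∈ (⋃ i ∈ s', c i), (x ∈ c i ↔ G₁ x ∈ c' i) := by
          intro i hi x hx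
          rw [hF1 x hx]
          by_cases him : i = m
          · rw [him, hbd x hx, hbd' (f x) (hfg.mapsf x hx)]
            constructor
            · intro hx'
              exact hr.mapsf x hx'
            · intro hx'
              obtain ⟨k, hk, hxk⟩ := Set.mem_iUnion₂.1 hx'
              exact Set.mem_biUnion (x := k) hk ((hiff k (hlt k hk) x hx).2 hxk)
          · exact hiff i (Finset.mem_erase.2 ⟨him, hi⟩) x hx
        intro i hi x hx
        rw [eU] at hx
        by_cases hx' : x ∈ ⋃ i ∈ s', c i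
        · exact hmain i hi x hx'
        · have hxm : x ∈ c m := hx.resolve_left hx'
          by_cases him : i = m
          · rw [him]
            exact ⟨fun _ => by rw [hF2 x hxm]; exact hΦ.mapsf x hxm, fun _ => hxm⟩
          · have his' : i ∈ s' := Finset.mem_erase.2 ⟨him, hi⟩
            constructor
            · intro hxi
              exact absurd (Set.mem_biUnion (x := i) his' hxi) hx'
            · intro hFx
              exfalso
              rw [hF2 x hxm] at hFx
              have h1 : Φ x ∈ ⋃ i ∈ s', c' i := Set.mem_biUnion (x := i) his' hFx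
              have h2 := (hbd' _ h1).1 (hΦ.mapsf x hxm)
              exact hx' (hsub ((hΦ2 x hxm).2 h2))
  obtain ⟨f, g, hfg, _⟩ := key _ Finset.univ rfl (by
    rw [Finset.coe_univ]; exact isLowerSet_univ) (Finset.mem_univ _)
  refine ⟨f, g, ?_⟩
  simpa using hfg

end

section

variable {V : Type} [Fintype V]

theorem rl_biUnion {ι : Type} [Finite ι] (s : Set ι) (c : ι → Set (V → ℚ)) :
    rl (⋃ k ∈ s, c k) = ⋃ k ∈ s, rl (c k) := by
  unfold rl
  rw [Set.image_iUnion₂]
  exact s.toFinite.closure_biUnion _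

theorem rl_iUnion {ι : Type} [Finite ι] (c : ι → Set (V → ℚ)) :
    rl (⋃ k, c k) = ⋃ k, rl (c k) := by
  unfold rl
  rw [Set.image_iUnion]
  exact closure_iUnion_of_finite _

theorem hba_tb {F : Type} [NormedAddCommGroup F] [InnerProductSpace ℝ F] {k : ℕ} (hk : k ≠ 0)
    {C S : Set F} (h : HBa k C S) : TB (k - 1) C S := by
  obtain ⟨n, rfl⟩ := Nat.exists_eq_succ_of_ne_zero hk
  exact h.2.2.1

theorem rc_of_cells (hq : C_Q2) {ι : Type} [PartialOrder ι] [Finite ι] {i0 : ι} {d : ι → ℕ}
    {c : ι → Set (V → ℚ)} (h : Cells i0 d (fun k => HB k) c) :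
    RC i0 (fun i => rl (c i)) ∧ ∀ i, i ≠ i0 → TB (d i - 1) (rl (c i)) (⋃ k ∈ {k | k < i}, rl (c k)) := by
  obtain ⟨-, -, -, -, hint, hzero, -⟩ := hq V
  have hcell : ∀ i, i ≠ i0 → TB (d i - 1) (rl (c i)) (⋃ k ∈ {k | k < i}, rl (c k)) := by
    intro i hi
    obtain ⟨hd, hb⟩ := h.cell i hi
    have h1 := hba_tb hd hb.2.2
    rw [rl_biUnion] at h1
    exact h1
  refine ⟨⟨fun i => isClosed_closure, ?_, ?_, ?_⟩, hcell⟩
  · show rl (c i0) = {0}
    rw [h.zero, hzero]
  · intro i j
    show rl (c i) ∩ rl (c j) = ⋃ k ∈ {k | k ≤ i ∧ k ≤ j}, rl (c k)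
    rw [← hint _ _ (h.pol i) (h.pol j), h.inter i j, rl_biUnion]
  · intro i x hx r hr
    by_cases hi : i = i0
    · have hx' : x ∈ rl (c i) := hx
      rw [hi, h.zero, hzero, Set.mem_singleton_iff] at hx'
      show r • x ∈ rl (c i)
      rw [hx', smul_zero, hi, h.zero, hzero]
      rfl
    · obtain ⟨-, f, g, hfg, -⟩ := hcell i hi
      exact (hfg.homf x hx r hr).1

end

end IQ10

open IQ10 in
theorem pr_Q10 : S_Q10 := by
  intro h1 h2 h3 hq V W _ _ ι _ _ i0 d c c' hi0 h h'
  obtain ⟨a1, a2⟩ := rc_of_cells hq h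
  obtain ⟨b1, b2⟩ := rc_of_cells hq h'
  obtain ⟨f, g, hfg⟩ := assembleR h1 h2 h3 hi0 a1 b1 (fun i hi => ⟨d i - 1, a2 i hi, b2 i hi⟩)
  refine ⟨f, g, ?_⟩
  rw [rl_iUnion, rl_iUnion]
  exact hfg

end Pool.Agent.Work.MP_552024_lc.HM
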