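import Pool.Agent.Work.MP_552024_lc.HM.StmtsQ

/-!
# MP_552024_lc, block HM, item Q11 (helper48)

Elementary equivalence and real models.
-/

set_option autoImplicit false

namespace Pool.Agent.Work.MP_552024_lc.HM

open Metric Set Topology Pool.Agent.Work.MP_552024_lc.PLS Pool.Agent.MP552024

theorem pr_Q11 : S_Q11 := by
  intro hB hAs G H _ _ _ _ _ _ M N hT
  obtain ⟨ι, _, _, i0, dd, c, hi0, hc, hcQ⟩ := exists_cells (pol_Qset M)
  have hcs : ∀ i, c i ⊆ Qset M := fun i => by rw [← hcQ]; exact Set.subset_iUnion c i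
  have hBB : Cells i0 dd (fun k => BB k) c := by
    refine ⟨hc.pol, hc.zero, hc.inter, fun i hi => ?_⟩
    obtain ⟨h1, h2⟩ := hc.cell i hi
    refine ⟨h1, ?_⟩
    obtain ⟨k, hk⟩ : ∃ k, dd i = k + 1 := ⟨dd i - 1, by omega⟩
    rw [hk] at h2 ⊢
    exact BB_of_ball k h2
  obtain ⟨c', hc', hC', hQ'⟩ := transfer hT M N (LD.cells i0 hi0 dd)
    ⟨c, ⟨pol_Qset M, fun i => ⟨hc.pol i, hcs i⟩⟩, hBB, hcQ.ge⟩
  have hH : Cells i0 dd (fun k => HB k) c := by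
    refine ⟨hBB.pol, hBB.zero, hBB.inter, fun i hi => ?_⟩
    obtain ⟨h1, h2⟩ := hBB.cell i hi
    refine ⟨h1, ?_⟩
    obtain ⟨k, hk⟩ : ∃ k, dd i = k + 1 := ⟨dd i - 1, by omega⟩
    rw [hk] at h2 ⊢
    exact hB _ _ _ _ h2
  have hH' : Cells i0 dd (fun k => HB k) c' := by
    refine ⟨hC'.pol, hC'.zero, hC'.inter, fun i hi => ?_⟩
    obtain ⟨h1, h2⟩ := hC'.cell i hi
    refine ⟨h1, ?_⟩
    obtain ⟨k, hk⟩ : ∃ k, dd i = k + 1 := ⟨dd i - 1, by omega⟩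
    rw [hk] at h2 ⊢
    exact hB _ _ _ _ h2
  have hU : ⋃ i, c' i = Qset N := subset_antisymm (Set.iUnion_subset (fun i => (hc'.2 i).2)) hQ'
  obtain ⟨f, g, hfg⟩ := hAs M.V N.V ι i0 dd c c' hi0 hH hH'
  rw [hcQ, hU] at hfg
  exact ⟨f, g, hfg⟩

end Pool.Agent.Work.MP_552024_lc.HM
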