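import Pool.Agent.Work.MP_552024_lc.HM.StmtsQ

/-! Proof of `S_Q12`: the real closure of the rational points of the realisation. -/

set_option autoImplicit false

namespace Pool.Agent.Work.MP_552024_lc.HM

open Metric Set Topology Pool.Agent.Work.MP_552024_lc.PLS Pool.Agent.MP552024

namespace IQ12

/-- nonnegative reals are limits of nonnegative rationals, with zero approximated by zero -/
theorem approx (r : ℝ) (hr : 0 ≤ r) (n : ℕ) :
    ∃ q : ℚ, |(q : ℝ) - r| ≤ 1 / ((n : ℝ) + 1) ∧ 0 ≤ (q : ℝ) ∧ (r = 0 → q = 0) := by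
  have hn : (0 : ℝ) < 1 / ((n : ℝ) + 1) := Nat.one_div_pos_of_nat
  by_cases h : r = 0
  · subst h
    exact ⟨0, by simpa using hn.le, by simp, fun _ => rfl⟩
  · obtain ⟨q, h1, h2⟩ := exists_rat_btwn (lt_add_of_pos_right r hn)
    refine ⟨q, ?_, hr.trans h1.le, fun h0 => absurd h0 h⟩
    rw [abs_le]
    constructor <;> linarith

end IQ12

theorem pr_Q12 : S_Q12 := by
  intro G _ _ M
  apply Subset.antisymm
  · intro z hz
    have hz' := _root_.mem_closure_iff.1 hz
    have h0 : ∀ i, 0 ≤ z i := by
      intro i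
      by_contra hi
      rw [not_le] at hi
      obtain ⟨w, hw1, x, hx, rfl⟩ := hz' {w : EuclideanSpace ℝ M.V | w i < 0}
        (isOpen_lt (by fun_prop) continuous_const) hi
      have h1 : (castE x) i < 0 := hw1
      have h2 : 0 ≤ (x i : ℝ) := hx.1 i
      exact absurd h2 (not_le.2 h1)
    refine ⟨h0, ?_⟩
    obtain ⟨w, hw1, x, hx, rfl⟩ := hz' {w : EuclideanSpace ℝ M.V | ∀ i, z i ≠ 0 → 0 < w i}
      (by
        have : {w : EuclideanSpace ℝ M.V | ∀ i, z i ≠ 0 → 0 < w i} =
            ⋂ i : M.V, {w : EuclideanSpace ℝ M.V | z i ≠ 0 → 0 < w i} := by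
          ext w
          simp
        rw [this]
        apply isOpen_iInter_of_finite
        intro i
        by_cases hi : z i = 0
        · simp [hi]
        · simp only [ne_eq, hi, not_false_eq_true, forall_true_left]
          exact isOpen_lt continuous_const (by fun_prop))
      (fun i hi => lt_of_le_of_ne (h0 i) (Ne.symm hi))
    refine M.Δ.down _ _ (fun i hi => ?_) hx.2
    have h1 : 0 < (castE x) i := hw1 i hi
    exact h1.ne'
  · intro z hz
    have hz0 : ∀ i, 0 ≤ z i := fun i => hz.1 i
    choose q hq1 hq2 hq3 using fun (n : ℕ) (i : M.V) => IQ12.approx (z i) (hz0 i) n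
    have hlim : Filter.Tendsto (fun n => castE (q n)) Filter.atTop (𝓝 z) := by
      have h1 : Filter.Tendsto (fun n => (fun i => (q n i : ℝ))) Filter.atTop
          (𝓝 (WithLp.ofLp z)) := by
        rw [tendsto_pi_nhds]
        intro i
        rw [tendsto_iff_dist_tendsto_zero]
        refine squeeze_zero (fun _ => dist_nonneg) (fun n => ?_)
          tendsto_one_div_add_atTop_nhds_zero_nat
        rw [Real.dist_eq]
        exact hq1 n i
      have h2 := ((PiLp.continuous_toLp 2 (fun _ : M.V => ℝ)).tendsto (WithLp.ofLp z)).comp h1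
      exact h2
    refine mem_closure_of_tendsto hlim (Filter.Eventually.of_forall fun n => ⟨q n, ?_, rfl⟩)
    refine ⟨fun i => hq2 n i, M.Δ.down _ _ (fun i hi => ?_) hz.2⟩
    intro h0
    exact hi (by simp [castR, hq3 n i h0])

end Pool.Agent.Work.MP_552024_lc.HM
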