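import Pool.Agent.Work.MP_552024_lc.HM.StmtsQ

/-!
Theorem HM, item Q2 (helper85): real closures of closed rational polyhedral sets.
-/

set_option autoImplicit false

namespace Pool.Agent.Work.MP_552024_lc.HM

open Metric Set Topology Pool.Agent.Work.MP_552024_lc.PLS Pool.Agent.MP552024

namespace IQ2

variable {V : Type} [Fintype V]

theorem castE_zero : castE (0 : V → ℚ) = 0 := by
  unfold castE
  ext i
  simp

theorem sign_cast (q : ℚ) : SignType.sign (q : ℝ) = SignType.sign q := by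
  rcases lt_trichotomy q 0 with h | h | h
  · rw [sign_neg h, sign_neg (by exact_mod_cast h : (q : ℝ) < 0)]
  · rw [h]
    simp
  · rw [sign_pos h, sign_pos (by exact_mod_cast h : (0 : ℝ) < q)]

theorem sign_of_mul {s t : ℝ} (h : 0 < s * t) : SignType.sign s = SignType.sign t := by
  rcases lt_trichotomy t 0 with ht | ht | ht
  · have hs : s < 0 := by
      by_contra hs
      exact absurd h (not_lt.2 (mul_nonpos_of_nonneg_of_nonpos (not_lt.1 hs) ht.le))
    rw [sign_neg ht, sign_neg hs]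
  · rw [ht, mul_zero] at h
    exact absurd h (lt_irrefl _)
  · have hs : 0 < s := by
      by_contra hs
      exact absurd h (not_lt.2 (mul_nonpos_of_nonpos_of_nonneg (not_lt.1 hs) ht.le))
    rw [sign_pos ht, sign_pos hs]

theorem near (A : Set ((V → ℚ) →ₗ[ℚ] ℚ)) (hA : A.Finite) (z : EuclideanSpace ℝ V) :
    ∀ᶠ w in 𝓝 z, ∀ a ∈ A, exR a z ≠ 0 → SignType.sign (exR a w) = SignType.sign (exR a z) := by
  rw [Filter.eventually_all_finite hA]
  intro a _
  by_cases h : exR a z = 0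
  · exact Filter.Eventually.of_forall fun w h' => absurd h h'
  · have hc : Continuous fun w : EuclideanSpace ℝ V => exR a w * exR a z :=
      ((exR a).continuous_of_finiteDimensional).mul continuous_const
    have hpos : 0 < exR a z * exR a z := mul_self_pos.2 h
    filter_upwards [hc.continuousAt.eventually (lt_mem_nhds hpos)] with w hw _
    exact sign_of_mul hw

/-- a rational point with the signs of `z` -/
theorem pt (h1 : S_Q1) (A : Set ((V → ℚ) →ₗ[ℚ] ℚ)) (hA : A.Finite) (z : EuclideanSpace ℝ V) :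
    ∃ y : V → ℚ, ∀ a ∈ A, SignType.sign (a y) = SignType.sign (exR a z) := by
  obtain ⟨y, -, hy⟩ := (h1 V).2 A hA z 1 one_pos
  exact ⟨y, hy⟩

theorem i1 (h1 : S_Q1) (C : Set (V → ℚ)) (A : Set ((V → ℚ) →ₗ[ℚ] ℚ)) (hA : A.Finite)
    (hC : ∀ y ∈ C, face A y ⊆ C) (z : EuclideanSpace ℝ V) :
    z ∈ rl C ↔ ∃ y ∈ C, ∀ a ∈ A, SignType.sign (exR a z) = SignType.sign (a y) := by
  constructor
  · intro hz
    obtain ⟨w, hw1, hw2⟩ := (mem_closure_iff_frequently.1 hz).and_eventually (near A hA z) |>.exists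
    obtain ⟨u, hu, rfl⟩ := hw1
    obtain ⟨y, hy⟩ := pt h1 A hA z
    refine ⟨y, hC u hu fun a ha => ?_, fun a ha => (hy a ha).symm⟩
    by_cases h : exR a z = 0
    · left
      have h2 := hy a ha
      rw [h, sign_zero] at h2
      exact sign_eq_zero_iff.1 h2
    · right
      rw [hy a ha, ← hw2 a ha h, (h1 V).1, sign_cast]
  · rintro ⟨y, hy, hyz⟩
    rw [rl, Metric.mem_closure_iff]
    intro δ hδ
    obtain ⟨y', hd, hs⟩ := (h1 V).2 A hA z δ hδ
    refine ⟨castE y', ⟨y', hC y hy fun a ha => ?_, rfl⟩, ?_⟩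
    · right
      rw [hs a ha, hyz a ha]
    · rw [dist_comm, dist_eq_norm]
      exact hd

end IQ2

open IQ2 in
theorem pr_Q2 : S_Q2 := by
  intro h1 V _
  have m : ∀ C D : Set (V → ℚ), C ⊆ D → rl C ⊆ rl D := fun C D h => closure_mono (image_mono h)
  refine ⟨fun C A hA hC z => i1 h1 C A hA hC z, fun C hC => ?_, fun C hC x => ?_, fun C D => ?_,
    fun C D hC hD => ?_, ?_, m⟩
  · obtain ⟨h0, A, hA, hf⟩ := hC
    refine ⟨subset_closure ⟨0, h0, castE_zero⟩, exR '' A, hA.image _, fun z hz w hw => ?_⟩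
    obtain ⟨y, hy, hyz⟩ := (i1 h1 C A hA hf z).1 hz
    obtain ⟨u, hu⟩ := pt h1 A hA w
    refine (i1 h1 C A hA hf w).2 ⟨u, hf y hy fun a ha => ?_, fun a ha => (hu a ha).symm⟩
    rcases hw (exR a) ⟨a, ha, rfl⟩ with h | h
    · left
      have h2 := hu a ha
      rw [h, sign_zero] at h2
      exact sign_eq_zero_iff.1 h2
    · right
      rw [hu a ha, h, hyz a ha]
  · obtain ⟨h0, A, hA, hf⟩ := hC
    constructor
    · intro hx
      obtain ⟨y, hy, hyx⟩ := (i1 h1 C A hA hf _).1 hx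
      refine hf y hy fun a ha => ?_
      right
      have h2 := hyx a ha
      rw [(h1 V).1, sign_cast] at h2
      exact h2
    · intro hx
      exact subset_closure ⟨x, hx, rfl⟩
  · rw [rl, image_union, closure_union]
    rfl
  · refine Subset.antisymm (subset_inter (m _ _ inter_subset_left) (m _ _ inter_subset_right)) ?_
    rintro z ⟨hzC, hzD⟩
    obtain ⟨-, A, hA, hf⟩ := hC
    obtain ⟨-, B, hB, hg⟩ := hD
    have hAB : (A ∪ B).Finite := hA.union hB
    obtain ⟨y, hy, hyz⟩ := (i1 h1 C A hA hf z).1 hzC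
    obtain ⟨y', hy', hyz'⟩ := (i1 h1 D B hB hg z).1 hzD
    obtain ⟨u, hu⟩ := pt h1 (A ∪ B) hAB z
    refine (i1 h1 (C ∩ D) (A ∪ B) hAB (fun x hx => subset_inter ?_ ?_) z).2
      ⟨u, ⟨hf y hy fun a ha => Or.inr ?_, hg y' hy' fun a ha => Or.inr ?_⟩,
        fun a ha => (hu a ha).symm⟩
    · exact Subset.trans (fun w hw a ha => hw a (Or.inl ha)) (hf x hx.1)
    · exact Subset.trans (fun w hw a ha => hw a (Or.inr ha)) (hg x hx.2)
    · rw [hu a (Or.inl ha), hyz a ha]
    · rw [hu a (Or.inr ha), hyz' a ha]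
  · rw [rl, image_singleton, castE_zero, closure_singleton]

end Pool.Agent.Work.MP_552024_lc.HM
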