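import Pool.Agent.Work.MP_552024_lc.HM.StmtsQ

/-!
# Item Q3 of the block HM: the real closure of a rational subspace is a real subspace
-/

set_option autoImplicit false

namespace Pool.Agent.Work.MP_552024_lc.HM

open Metric Set Topology

namespace IQ3

variable {V : Type} [Fintype V]

theorem castE_add (x y : V → ℚ) : castE (x + y) = castE x + castE y := by
  unfold castE
  ext i
  simp

theorem castE_smul (q : ℚ) (x : V → ℚ) : castE (q • x) = (q : ℝ) • castE x := by
  unfold castE
  ext i
  simp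

theorem castE_zero : castE (0 : V → ℚ) = 0 := by
  unfold castE
  ext i
  simp

end IQ3

open IQ3 in
theorem pr_Q3 : S_Q3 := by
  intro V _ L
  have hadd : ∀ a ∈ rl (L : Set (V → ℚ)), ∀ b ∈ rl (L : Set (V → ℚ)),
      a + b ∈ rl (L : Set (V → ℚ)) := by
    intro a ha b hb
    refine map_mem_closure₂ continuous_add ha hb ?_
    rintro _ ⟨x, hx, rfl⟩ _ ⟨y, hy, rfl⟩
    exact ⟨x + y, L.add_mem hx hy, castE_add x y⟩
  have hq : ∀ (q : ℚ), ∀ a ∈ rl (L : Set (V → ℚ)), (q : ℝ) • a ∈ rl (L : Set (V → ℚ)) := by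
    intro q a ha
    refine map_mem_closure (continuous_const_smul (q : ℝ)) ha ?_
    rintro _ ⟨x, hx, rfl⟩
    exact ⟨q • x, L.smul_mem q hx, castE_smul q x⟩
  have hr : ∀ (r : ℝ), ∀ a ∈ rl (L : Set (V → ℚ)), r • a ∈ rl (L : Set (V → ℚ)) := by
    intro r a ha
    have hcl : IsClosed {s : ℝ | s • a ∈ rl (L : Set (V → ℚ))} :=
      isClosed_closure.preimage (continuous_id.smul continuous_const)
    exact (Rat.denseRange_cast (𝕜 := ℝ)).induction_on (p := fun s : ℝ =>
      s • a ∈ rl (L : Set (V → ℚ))) r hcl (fun q => hq q a ha)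
  refine ⟨{ carrier := rl (L : Set (V → ℚ))
            add_mem' := fun {a b} ha hb => hadd a ha b hb
            zero_mem' := ?_
            smul_mem' := fun r a ha => hr r a ha }, rfl⟩
  exact subset_closure ⟨0, L.zero_mem, castE_zero⟩

end Pool.Agent.Work.MP_552024_lc.HM
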