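import Pool.Agent.Work.MP_552024_lc.HM.StmtsQ

/-!
Item Q4 of the block HM: the union lemma for `HB`.
-/

set_option autoImplicit false

namespace Pool.Agent.Work.MP_552024_lc.HM

open Metric Set Topology Pool.Agent.Work.MP_552024_lc.PLS Pool.Agent.MP552024

theorem pr_Q4 : S_Q4 := by
  intro hR16 hQ2 V _ k B X W U U' T hB hX hW hU hU' hWU hWU' hBX
  obtain ⟨-, -, -, hun, hint, -, -⟩ := hQ2 V
  obtain ⟨hB1, -, hB3⟩ := hB
  obtain ⟨hX1, -, hX3⟩ := hX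
  obtain ⟨hW1, -, hW3⟩ := hW
  obtain ⟨hU1, -, hU3⟩ := hU
  obtain ⟨hU'1, -, hU'3⟩ := hU'
  rw [hun] at hB3 hX3
  refine ⟨hB1.union hX1, hU1.union hU'1, ?_⟩
  rw [hun, hun]
  refine (hR16 (EuclideanSpace ℝ V) k).2 (rl B) (rl X) (rl W) (rl U) (rl U') (rl T) hB3 hX3 hW3 hU3
    hU'3 ?_ ?_ ?_
  · rw [← hint W U hW1 hU1, hWU]
  · rw [← hint W U' hW1 hU'1, hWU']
  · rw [← hint B X hB1 hX1, hBX]

end Pool.Agent.Work.MP_552024_lc.HM
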