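import Pool.Agent.Work.MP_552024_lc.HM.StmtsQ

/-!
Item Q5 of the block HM: the last cells.
-/

set_option autoImplicit false

namespace Pool.Agent.Work.MP_552024_lc.HM

open Metric Set Topology Pool.Agent.Work.MP_552024_lc.PLS Pool.Agent.MP552024

namespace IQ5

/-- the intersection of finitely many halfspaces unions -/
theorem pol_neg_union {E : Type} [AddCommGroup E] [Module ℚ E] [FiniteDimensional ℚ E]
    (𝓑 : Set (E →ₗ[ℚ] ℚ)) (hB : 𝓑.Finite) (z : E) (L : Set E) (hL : Pol L)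
    (hne : ∃ a ∈ 𝓑, a z ≠ 0) :
    Pol {x | x ∈ L ∧ ∃ a ∈ 𝓑, a z ≠ 0 ∧ a z * a x ≤ 0} := by
  set B' : Set (E →ₗ[ℚ] ℚ) := {a ∈ 𝓑 | a z ≠ 0} with hB'
  have hB'f : B'.Finite := hB.subset (fun a ha => ha.1)
  have hfin : Finite B' := hB'f
  have hnon : Nonempty B' := by
    obtain ⟨a, ha, h0⟩ := hne
    exact ⟨⟨a, ha, h0⟩⟩
  have h2 : Pol (⋃ b : B', {u | 0 ≤ (-((b : E →ₗ[ℚ] ℚ) z • (b : E →ₗ[ℚ] ℚ))) u}) :=
    pol_iUnion (fun b => pol_halfspace _)
  have h3 := hL.inter h2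
  have h4 : {x | x ∈ L ∧ ∃ a ∈ 𝓑, a z ≠ 0 ∧ a z * a x ≤ 0} =
      L ∩ ⋃ b : B', {u | 0 ≤ (-((b : E →ₗ[ℚ] ℚ) z • (b : E →ₗ[ℚ] ℚ))) u} := by
    ext x
    constructor
    · rintro ⟨hx, a, ha, h0, hle⟩
      refine ⟨hx, ?_⟩
      rw [Set.mem_iUnion]
      refine ⟨⟨a, ha, h0⟩, ?_⟩
      show 0 ≤ -(a z * a x)
      linarith
    · rintro ⟨hx, hu⟩
      rw [Set.mem_iUnion] at hu
      obtain ⟨⟨a, ha, h0⟩, hb⟩ := hu
      have hb : 0 ≤ -(a z * a x) := hb
      exact ⟨hx, a, ha, h0, by linarith⟩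
  rw [h4]
  exact h3

end IQ5

theorem pr_Q5 : S_Q5 := by
  intro hR9 hR15 hR16 hQ2 hQ3 V _ k C 𝓑 hC hB hCB hpt F M hF hM hMA hD
  obtain ⟨-, hPolR, hmemrl, hunion, hinter, -, hmono⟩ := hQ2 V
  obtain ⟨z, hzM, hzF⟩ := hM.nonempty
  have hzC : z ∈ C := hM.sub hzM
  have hz0 : z ≠ 0 := fun h => hzF (h ▸ hF.1)
  -- `z` lies in a maximal face
  have hmax : ∀ y ∈ C, z ∈ face 𝓑 y → SameSign 𝓑 z y := by
    intro y hy hzy
    by_contra hns
    exact hzF (hMA ⟨hzM, hzC, y, hy, hzy, hns⟩)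
  have hK : ∀ x ∈ M \ F, SameSign 𝓑 x z := by
    have hP2 : Pol {x | x ∈ C ∧ ¬ SameSign 𝓑 x z} := by
      refine ⟨⟨hC.1, fun h => hz0 (hpt z fun a ha => ?_)⟩, 𝓑, hB, ?_⟩
      · have := h a ha
        rw [map_zero, sign_zero, eq_comm, sign_eq_zero_iff] at this
        exact this
      · rintro x ⟨hx, hns⟩ x' hx'
        refine ⟨hCB x hx hx', fun hs => hns ?_⟩
        exact (hmax x hx (face_trans hs.symm.mem_face hx')).symm
    have hdis : ∀ x ∈ M \ F, x ∈ face 𝓑 z → x ∉ {x | x ∈ C ∧ ¬ SameSign 𝓑 x z} := by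
      rintro x ⟨hxM, hxF⟩ hxz ⟨hxC, hns⟩
      exact hxF (hMA ⟨hxM, hxC, z, hzC, hxz, hns⟩)
    rcases hM.conn.2 _ _ (pol_face hB z) hP2 (by
      intro x hx
      by_cases h1 : SameSign 𝓑 x z
      · exact Or.inl h1.mem_face
      · exact Or.inr ⟨hM.sub hx.1, h1⟩) hdis with h1 | h1
    · intro x hx
      by_contra hns
      exact hdis x hx (h1 hx) ⟨hM.sub hx.1, hns⟩
    · exact absurd (fun _ _ => rfl) (h1 ⟨hzM, hzF⟩).2
  have hKs : M \ F ⊆ face 𝓑 z := fun x hx => (hK x hx).mem_face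
  have hMs : M ⊆ face 𝓑 z := by
    rw [← hM.cl_eq]; exact (pol_face hB z).cl_subset hKs
  -- the span
  let L : Submodule ℚ (V → ℚ) :=
    { carrier := {x | ∀ a ∈ 𝓑, a z = 0 → a x = 0}
      add_mem' := by
        intro x y hx hy a ha h0
        rw [map_add, hx a ha h0, hy a ha h0, add_zero]
      zero_mem' := fun a _ _ => map_zero a
      smul_mem' := by
        intro c x hx a ha h0
        rw [map_smul, hx a ha h0, smul_zero] }
  have hfL : ∀ x ∈ face 𝓑 z, x ∈ (L : Set (V → ℚ)) := by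
    intro x hx a ha h0
    rcases hx a ha with h1 | h1
    · exact h1
    · rw [h0, sign_zero, sign_eq_zero_iff] at h1; exact h1
  have hLp : Pol (L : Set (V → ℚ)) := by
    refine ⟨L.zero_mem, 𝓑, hB, ?_⟩
    intro y hy x hx a ha h0
    have h1 : a y = 0 := hy a ha h0
    rcases hx a ha with h2 | h2
    · exact h2
    · rw [h1, sign_zero, sign_eq_zero_iff] at h2; exact h2
  obtain ⟨a₀, ha₀, ha₀z⟩ : ∃ a ∈ 𝓑, a z ≠ 0 := by
    by_contra hcon
    push Not at hcon
    exact hz0 (hpt z hcon)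
  -- the complement is closed
  set N : Set (V → ℚ) := (L : Set (V → ℚ)) \ (M \ F) with hN
  have hNp : Pol N := by
    have hR : Pol ((C ∩ F) ∪ cl (C \ (F ∪ M))) :=
      (hC.inter hF).union (hC.con.diff (hF.con.union hM.pol.con)).pol_cl
    have h1 := (pol_face hB z).inter hR
    have h2 := IQ5.pol_neg_union 𝓑 hB z (L : Set (V → ℚ)) hLp ⟨a₀, ha₀, ha₀z⟩
    have h3 := h1.union h2
    have h4 : N = face 𝓑 z ∩ ((C ∩ F) ∪ cl (C \ (F ∪ M))) ∪
        {x | x ∈ (L : Set (V → ℚ)) ∧ ∃ a ∈ 𝓑, a z ≠ 0 ∧ a z * a x ≤ 0} := by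
      ext u
      constructor
      · rintro ⟨huL, hu⟩
        by_cases hs : SameSign 𝓑 u z
        · left
          refine ⟨hs.mem_face, ?_⟩
          by_contra hn
          apply hu
          have huC : u ∈ C := hCB z hzC hs.mem_face
          have h3 : u ∉ F := fun h4 => hn (Or.inl ⟨huC, h4⟩)
          refine ⟨?_, h3⟩
          by_contra h4
          apply hn
          right
          apply subset_cl
          refine ⟨huC, ?_⟩
          rintro (h5 | h5)
          · exact h3 h5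
          · exact h4 h5
        · right
          have : ∃ a ∈ 𝓑, ¬ (SignType.sign (a u) = SignType.sign (a z)) := by
            by_contra hcon
            push Not at hcon
            exact hs hcon
          obtain ⟨a, ha, hne⟩ := this
          have h0 : a z ≠ 0 := by
            intro h0
            apply hne
            rw [h0, huL a ha h0]
          refine ⟨huL, a, ha, h0, ?_⟩
          have := mt (mul_pos_iff_sign h0).1 hne
          linarith
      · rintro (⟨hz1, hu⟩ | ⟨huL, a, ha, h0, hle⟩)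
        · refine ⟨hfL u hz1, fun huK => ?_⟩
          rcases hu with hu | hu
          · exact huK.2 hu.2
          · exact hM.not_mem_cl huK.1 huK.2 hu
        · refine ⟨huL, fun huK => ?_⟩
          have h5 : 0 < a z * a u := (mul_pos_iff_sign h0).2 (hK u huK a ha)
          linarith
    rw [h4]
    exact h3
  have hML : M ⊆ (L : Set (V → ℚ)) := fun x hx => hfL x (hMs hx)
  have hMN : M ∪ N = (L : Set (V → ℚ)) := by
    ext x
    constructor
    · rintro (hx | hx)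
      · exact hML hx
      · exact hx.1
    · intro hx
      by_cases hxM : x ∈ M
      · exact Or.inl hxM
      · exact Or.inr ⟨hx, fun h => hxM h.1⟩
  have hMiN : M ∩ N = M ∩ F := by
    ext x
    constructor
    · rintro ⟨hxM, hxL, hx⟩
      refine ⟨hxM, ?_⟩
      by_contra hxF
      exact hx ⟨hxM, hxF⟩
    · rintro ⟨hxM, hxF⟩
      exact ⟨hxM, hML hxM, fun h => h.2 hxF⟩
  obtain ⟨U, hU⟩ := hQ3 V L
  obtain ⟨D₁, D₂, hD₁, hD₂, hMF, hb1, hb2⟩ := hD
  have hcup : rl M ∪ rl N = (U : Set (EuclideanSpace ℝ V)) := by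
    rw [← hunion, hMN, hU]
  have hcap : rl M ∩ rl N = rl (M ∩ F) := by
    rw [← hinter M N hM.pol hNp, hMiN]
  have hsph : HSp (k + 1) (rl M ∩ rl N) := by
    rw [hcap, hMF, hunion]
    exact (hR16 _ k).1 (rl D₁) (rl D₂) (rl (D₁ ∩ D₂)) hb1.2.2 hb2.2.2
      (hinter D₁ D₂ hD₁ hD₂).symm
  have hMne : rl M ≠ (U : Set (EuclideanSpace ℝ V)) := by
    intro heq
    have h1 : castE (-z) ∈ rl M := by
      rw [heq, hU, hmemrl _ hLp]
      exact L.neg_mem (hML hzM)
    rw [hmemrl _ hM.pol] at h1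
    apply ha₀z
    rcases hMs h1 a₀ ha₀ with h2 | h2
    · rw [map_neg, neg_eq_zero] at h2; exact h2
    · rw [map_neg, Left.sign_neg] at h2
      rcases lt_trichotomy (a₀ z) 0 with h3 | h3 | h3
      · rw [sign_neg h3] at h2; exact absurd h2 (by decide)
      · exact h3
      · rw [sign_pos h3] at h2; exact absurd h2 (by decide)
  have hNne : rl N ≠ (U : Set (EuclideanSpace ℝ V)) := by
    intro heq
    have h1 : castE z ∈ rl N := by
      rw [heq, hU, hmemrl _ hLp]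
      exact hML hzM
    rw [hmemrl _ hNp] at h1
    exact h1.2 ⟨hzM, hzF⟩
  have hfr := hR9 _ (k + 1) U (rl M) (rl N) (hPolR M hM.pol) (hPolR N hNp) hcup hsph hMne hNne
  have hfin := hR15 _ (k + 1) U (rl M) (rl N) hfr (hPolR M hM.pol) (hPolR N hNp) hcup hsph
    hMne hNne
  rw [hcap] at hfin
  exact ⟨hM.pol, hM.pol.inter hF, hfin⟩

end Pool.Agent.Work.MP_552024_lc.HM
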