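import Pool.Agent.Work.MP_552024_lc.HM.StmtsQ

/-! Treelike decompositions (item Q7 of theorem HM), the proof of `lev_ball`. -/

set_option autoImplicit false

namespace Pool.Agent.Work.MP_552024_lc.HM

open Pool.Agent.Work.MP_552024_lc.PLS

theorem pr_Q7 : S_Q7 := by
  intro h6 E _ _ _ β0 β1 hU C A hC hfin j
  induction j with
  | zero =>
    intro F hF hL M hM
    obtain ⟨h1, h2⟩ := hL M hM
    exact hfin F M hF hM h1 h2
  | succ j ih =>
    rintro F hF ⟨G, hG, hGC, hgood, hL⟩ M hM
    refine h6 E β0 β1 hU M C F G hF hG hM (hgood M hM) ?_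
    intro m hm
    exact ih (F ∪ G) (hF.union hG) hL m (comp_comp hC hF hG hM hm)

end Pool.Agent.Work.MP_552024_lc.HM
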