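import Pool.Agent.Work.MP_552024_lc.HM.StmtsQ

/-!
Item Q8: one-dimensional cells.
-/

set_option autoImplicit false

namespace Pool.Agent.Work.MP_552024_lc.HM

open Metric Set Topology Pool.Agent.Work.MP_552024_lc.PLS Pool.Agent.MP552024

namespace IQ8

/-- A set satisfying the one-dimensional formula is a ray. -/
theorem ray_of_BB {E : Type} [AddCommGroup E] [Module ℚ E] [FiniteDimensional ℚ E]
    {C S : Set E} (h : BB 1 C S) :
    S = {0} ∧ Pol C ∧ ∃ v ∈ C, v ≠ 0 ∧ ∀ x ∈ C, ∃ r : ℚ, 0 ≤ r ∧ x = r • v := by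
  obtain ⟨rfl, hC, hne, hmin⟩ := h
  have h1 : ∃ v ∈ C, v ≠ 0 := by
    by_contra hcon
    push Not at hcon
    apply hne
    ext x; exact ⟨fun hx => hcon x hx, fun hx => by rw [Set.mem_singleton_iff.1 hx]; exact hC.1⟩
  obtain ⟨v, hv, hv0⟩ := h1
  obtain ⟨ℓ, hℓ⟩ : ∃ ℓ : E →ₗ[ℚ] ℚ, ℓ v = 1 := by
    obtain ⟨ℓ', hℓ'⟩ : ∃ ℓ' : E →ₗ[ℚ] ℚ, ℓ' v ≠ 0 := by
      by_contra hcon
      push Not at hcon
      exact hv0 ((Module.forall_dual_apply_eq_zero_iff ℚ v).1 hcon)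
    exact ⟨(ℓ' v)⁻¹ • ℓ', by rw [LinearMap.smul_apply, smul_eq_mul, inv_mul_cancel₀ hℓ']⟩
  set R : Set E := {x | 0 ≤ ℓ x} ∩ {x | x - ℓ x • v = 0} with hR
  have hRp : Pol R := by
    refine (pol_halfspace ℓ).inter ?_
    have := (plOn_linear (LinearMap.id - ℓ.smulRight v : E →ₗ[ℚ] E) Set.univ).pol_preimage
      pol_univ pol_zero
    convert this using 1
    ext x; simp
  have hRC : R ⊆ C := by
    rintro x ⟨hx0, hx⟩
    have hx : x - ℓ x • v = 0 := hx
    have hx0 : 0 ≤ ℓ x := hx0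
    have hx' : x = ℓ x • v := sub_eq_zero.1 hx
    obtain ⟨_, A, _, hA⟩ := hC
    apply hA v hv
    intro a _
    rcases hx0.eq_or_lt with h0 | h0
    · left; rw [hx', ← h0, zero_smul, map_zero]
    · right; rw [hx', map_smul, smul_eq_mul, sign_mul, sign_pos h0, one_mul]
  have hvR : v ∈ R := ⟨by show 0 ≤ ℓ v; rw [hℓ]; exact zero_le_one, by
    show v - ℓ v • v = 0
    rw [hℓ, one_smul, sub_self]⟩
  have hRC' : R = C := by
    rcases hmin R hRp hRC with h2 | h2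
    · rw [h2] at hvR; exact absurd hvR hv0
    · exact h2
  refine ⟨rfl, hC, v, hv, hv0, fun x hx => ?_⟩
  rw [← hRC'] at hx
  exact ⟨ℓ x, hx.1, sub_eq_zero.1 hx.2⟩

section real

variable {F : Type} [NormedAddCommGroup F] [InnerProductSpace ℝ F]

/-- The closed ray of a vector. -/
def rayR (w : F) : Set F :=
  {x | 0 ≤ inner ℝ w x ∧ (inner ℝ w w : ℝ) • x = (inner ℝ w x : ℝ) • w}

lemma isClosed_rayR (w : F) : IsClosed (rayR w) := by
  have h1 : IsClosed {x : F | 0 ≤ (inner ℝ w x : ℝ)} :=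
    isClosed_le continuous_const (by fun_prop)
  have h2 : IsClosed {x : F | (inner ℝ w w : ℝ) • x = (inner ℝ w x : ℝ) • w} :=
    isClosed_eq (by fun_prop) (by fun_prop)
  exact h1.inter h2

lemma mem_rayR {w : F} (hw : w ≠ 0) (x : F) : x ∈ rayR w ↔ ∃ r : ℝ, 0 ≤ r ∧ x = r • w := by
  have hp : (0 : ℝ) < inner ℝ w w := real_inner_self_pos.2 hw
  constructor
  · rintro ⟨h1, h2⟩
    refine ⟨(inner ℝ w x : ℝ) / inner ℝ w w, div_nonneg h1 hp.le, ?_⟩
    rw [div_eq_inv_mul, mul_smul, ← h2, smul_smul, inv_mul_cancel₀ hp.ne', one_smul]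
  · rintro ⟨r, hr, rfl⟩
    refine ⟨?_, ?_⟩
    · rw [inner_smul_right]
      exact mul_nonneg hr hp.le
    · rw [inner_smul_right, smul_smul, mul_comm]

lemma tb_ray {w : F} (hw : w ≠ 0) : TB 0 (rayR w) ({0} : Set F) := by
  have hp : (0 : ℝ) < inner ℝ w w := real_inner_self_pos.2 hw
  refine ⟨?_, fun x => (0, (inner ℝ w x : ℝ) / inner ℝ w w), fun y => y.2 • w, ?_, ?_⟩
  · rintro x hx
    rw [mem_singleton_iff.1 hx, mem_rayR hw]
    exact ⟨0, le_rfl, (zero_smul ℝ w).symm⟩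
  · refine ⟨?_, ?_, ?_, ?_, ?_, ?_, ?_, ?_⟩
    · apply Continuous.continuousOn
      fun_prop
    · apply Continuous.continuousOn
      fun_prop
    · intro x hx
      exact div_nonneg hx.1 hp.le
    · intro y hy
      rw [mem_rayR hw]
      exact ⟨y.2, hy, rfl⟩
    · intro x hx
      obtain ⟨r, hr, rfl⟩ := (mem_rayR hw x).1 hx
      show ((inner ℝ w (r • w) : ℝ) / inner ℝ w w) • w = r • w
      rw [inner_smul_right, mul_div_assoc, div_self hp.ne', mul_one]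
    · intro y _
      refine Prod.ext (Subsingleton.elim _ _) ?_
      show (inner ℝ w (y.2 • w) : ℝ) / inner ℝ w w = y.2
      rw [inner_smul_right, mul_div_assoc, div_self hp.ne', mul_one]
    · intro x hx r hr
      refine ⟨?_, Prod.ext (Subsingleton.elim _ _) ?_⟩
      · obtain ⟨t, ht, rfl⟩ := (mem_rayR hw x).1 hx
        rw [mem_rayR hw]
        exact ⟨r * t, mul_nonneg hr ht, by rw [mul_smul]⟩
      · show (inner ℝ w (r • x) : ℝ) / inner ℝ w w = r * ((inner ℝ w x : ℝ) / inner ℝ w w)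
        rw [inner_smul_right, mul_div_assoc]
    · intro y hy r hr
      refine ⟨?_, ?_⟩
      · show 0 ≤ r * y.2
        exact mul_nonneg hr hy
      · show (r * y.2) • w = r • y.2 • w
        rw [mul_smul]
  · intro x hx
    obtain ⟨r, hr, rfl⟩ := (mem_rayR hw x).1 hx
    show r • w ∈ ({0} : Set F) ↔ (inner ℝ w (r • w) : ℝ) / inner ℝ w w = 0
    rw [inner_smul_right, mul_div_assoc, div_self hp.ne', mul_one, mem_singleton_iff,
      smul_eq_zero]
    exact ⟨fun h => h.resolve_right hw, Or.inl⟩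

lemma lk_ray {w : F} (hw : w ≠ 0) {x : F} (hx : x ∈ rayR w) (hx0 : x ≠ 0) :
    Lk x (rayR w) = {0} := by
  ext v
  rw [mem_singleton_iff]
  constructor
  · rintro ⟨h1, ε, hε, h2⟩
    obtain ⟨r, hr, rfl⟩ := (mem_rayR hw x).1 hx
    obtain ⟨t, ht, h3⟩ := (mem_rayR hw _).1 (h2 ε hε le_rfl)
    have h4 : ε • v = (t - r) • w := by rw [sub_smul, ← h3, add_sub_cancel_left]
    have h5 : inner ℝ (r • w) (ε • v) = 0 := by rw [inner_smul_right, h1, mul_zero]
    rw [h4, inner_smul_left, inner_smul_right] at h5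
    have hr0 : r ≠ 0 := fun h => hx0 (by rw [h, zero_smul])
    have hp : (inner ℝ w w : ℝ) ≠ 0 := (real_inner_self_pos.2 hw).ne'
    have h6 : t - r = 0 := by
      rcases mul_eq_zero.1 h5 with h | h
      · exact absurd h hr0
      · exact (mul_eq_zero.1 h).resolve_right hp
    rw [h6, zero_smul] at h4
    exact (smul_eq_zero.1 h4).resolve_left hε.ne'
  · rintro rfl
    refine ⟨inner_zero_right x, 1, one_pos, fun s _ _ => ?_⟩
    rw [smul_zero, add_zero]
    exact hx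

end real

lemma castE_smul {V : Type} [Fintype V] (r : ℚ) (v : V → ℚ) :
    castE (r • v) = (r : ℝ) • castE v := by
  ext i
  simp [castE]

lemma castE_ne {V : Type} [Fintype V] {v : V → ℚ} (hv : v ≠ 0) : castE v ≠ 0 := by
  intro h
  apply hv
  funext i
  have h1 : (castE v) i = (0 : EuclideanSpace ℝ V) i := by rw [h]
  have h2 : ((v i : ℚ) : ℝ) = 0 := h1
  exact_mod_cast h2

lemma rl_ray {V : Type} [Fintype V] {C : Set (V → ℚ)} {v : V → ℚ} (hP : PolR (rl C)) (hv : v ∈ C)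
    (hv0 : v ≠ 0) (h : ∀ x ∈ C, ∃ r : ℚ, 0 ≤ r ∧ x = r • v) : rl C = rayR (castE v) := by
  have hw := castE_ne hv0
  apply subset_antisymm
  · apply closure_minimal _ (isClosed_rayR _)
    rintro _ ⟨x, hx, rfl⟩
    obtain ⟨r, hr, rfl⟩ := h x hx
    rw [mem_rayR hw, castE_smul]
    exact ⟨r, by exact_mod_cast hr, rfl⟩
  · intro x hx
    obtain ⟨r, hr, rfl⟩ := (mem_rayR hw x).1 hx
    obtain ⟨_, A, _, hA⟩ := hP
    apply hA (castE v) (subset_closure ⟨v, hv, rfl⟩)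
    intro a _
    rcases hr.eq_or_lt with h0 | h0
    · left; rw [← h0, zero_smul, map_zero]
    · right; rw [map_smul, smul_eq_mul, sign_mul, sign_pos h0, one_mul]

end IQ8

theorem pr_Q8 : S_Q8 := by
  intro hQ2 V _ C S h
  obtain ⟨rfl, hC, v, hv, hv0, hr⟩ := IQ8.ray_of_BB h
  obtain ⟨-, h2, -, -, -, h6, -⟩ := hQ2 V
  have hP := h2 C hC
  have hP0 : PolR (rl ({0} : Set (V → ℚ))) := h2 _ pol_zero
  have hw := IQ8.castE_ne hv0
  refine ⟨hC, pol_zero, hP, hP0, ?_, ?_, ?_⟩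
  · rw [IQ8.rl_ray hP hv hv0 hr, h6]
    exact IQ8.tb_ray hw
  · intro x hx hx0
    rw [h6, mem_singleton_iff] at hx0
    rw [IQ8.rl_ray hP hv hv0 hr] at hx ⊢
    exact IQ8.lk_ray hw hx hx0
  · intro x hx hx0
    rw [h6, mem_singleton_iff] at hx
    exact absurd hx hx0

end Pool.Agent.Work.MP_552024_lc.HM
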