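import Pool.Agent.Work.MP_552024_lc.HM.StmtsQ

/-!
# Item Q9: cells satisfying the formula are balls with all links balls or spheres
-/

set_option autoImplicit false

namespace Pool.Agent.Work.MP_552024_lc.HM

open Metric Set Topology Pool.Agent.Work.MP_552024_lc.PLS Pool.Agent.MP552024

theorem pr_Q9 : S_Q9 := by
  intro hUL hfin hQ6 hQ7 hone V _ k
  induction k with
  | zero => intro C S h; exact hone V C S h
  | succ k ih =>
    intro C S h
    obtain ⟨hC, hS, hSC, hcomp, hlev⟩ := h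
    obtain ⟨_, A₀, hA₀, hCA₀⟩ := id hC
    obtain ⟨A₁, hA₁, hpt₁⟩ := exists_pointed (V → ℚ)
    have hB : (A₀ ∪ A₁).Finite := hA₀.union hA₁
    have hCB : ∀ y ∈ C, face (A₀ ∪ A₁) y ⊆ C := fun y hy =>
      (face_anti Set.subset_union_left y).trans (hCA₀ y hy)
    have hpt : ∀ x : V → ℚ, (∀ a ∈ A₀ ∪ A₁, a x = 0) → x = 0 := fun x hx =>
      hpt₁ x (fun a ha => hx a (Or.inr ha))
    have hne : ∃ y ∈ C, y ≠ 0 := by
      obtain ⟨y, hy, hyS⟩ := hcomp.nonempty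
      exact ⟨y, hy, fun h0 => hyS (h0 ▸ hS.1)⟩
    have hL := hlev (Skel C (A₀ ∪ A₁)) (pol_skel hC hB hCB hpt hne) (fun x hx => hx.1)
      (cl_skel hC hB hCB)
    have hL' := hL.mono (fun C' S' h' => ih C' S' h')
    have h1 := hQ7 hQ6 (V → ℚ) (HB (k + 1)) (HB (k + 2)) (hUL V k) C (Skel C (A₀ ∪ A₁)) hC
      (fun F M hF hM hMA hD => hfin V k C (A₀ ∪ A₁) hC hB hCB hpt F M hF hM hMA hD)
      (k + 1) S hS hL' C hcomp
    rwa [Set.inter_eq_right.2 hSC] at h1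

end Pool.Agent.Work.MP_552024_lc.HM
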