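import Pool.Agent.Work.MP_552024_lc.HM.Stmts

/-! MP_552024_lc, block HM, item R1 (helper12): elementary facts on real polyhedral cone sets. -/

set_option autoImplicit false

namespace Pool.Agent.Work.MP_552024_lc.HM

open Metric Set Topology

namespace IR1

variable {F : Type} [NormedAddCommGroup F] [InnerProductSpace ℝ F]

theorem faceR_self (A : Set (F →ₗ[ℝ] ℝ)) (y : F) : y ∈ faceR A y := fun _ _ => Or.inr rfl

theorem faceR_anti {A B : Set (F →ₗ[ℝ] ℝ)} (h : A ⊆ B) (y : F) : faceR B y ⊆ faceR A y :=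
  fun _ hx a ha => hx a (h ha)

theorem faceR_smul (A : Set (F →ₗ[ℝ] ℝ)) (y : F) {r : ℝ} (hr : 0 ≤ r) : r • y ∈ faceR A y := by
  intro a _
  rcases hr.eq_or_lt with h | h
  · left
    rw [← h, zero_smul, map_zero]
  · right
    rw [map_smul, smul_eq_mul, sign_mul, sign_pos h, one_mul]

theorem closed_one [FiniteDimensional ℝ F] (a : F →ₗ[ℝ] ℝ) (s : SignType) :
    IsClosed {x : F | a x = 0 ∨ SignType.sign (a x) = s} := by
  have hc : Continuous a := a.continuous_of_finiteDimensional
  rcases s with _ | _ | _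
  · have e : {x : F | a x = 0 ∨ SignType.sign (a x) = SignType.zero} = {x | a x = 0} := by
      ext x
      simp only [mem_ofPred_eq]
      constructor
      · rintro (h | h)
        · exact h
        · exact sign_eq_zero_iff.1 h
      · exact Or.inl
    rw [e]
    exact isClosed_eq hc continuous_const
  · have e : {x : F | a x = 0 ∨ SignType.sign (a x) = SignType.neg} = {x | a x ≤ 0} := by
      ext x
      simp only [mem_ofPred_eq]
      constructor
      · rintro (h | h)
        · exact h.le
        · exact (sign_eq_neg_one_iff.1 h).le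
      · intro h
        rcases h.eq_or_lt with h | h
        · exact Or.inl h
        · exact Or.inr (sign_eq_neg_one_iff.2 h)
    rw [e]
    exact isClosed_le hc continuous_const
  · have e : {x : F | a x = 0 ∨ SignType.sign (a x) = SignType.pos} = {x | 0 ≤ a x} := by
      ext x
      simp only [mem_ofPred_eq]
      constructor
      · rintro (h | h)
        · exact h.ge
        · exact (sign_eq_one_iff.1 h).le
      · intro h
        rcases h.eq_or_lt with h | h
        · exact Or.inl h.symm
        · exact Or.inr (sign_eq_one_iff.2 h)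
    rw [e]
    exact isClosed_le continuous_const hc

theorem faceR_closed [FiniteDimensional ℝ F] (A : Set (F →ₗ[ℝ] ℝ)) (y : F) :
    IsClosed (faceR A y) := by
  have e : faceR A y = ⋂ a ∈ A, {x : F | a x = 0 ∨ SignType.sign (a x) = SignType.sign (a y)} := by
    ext x
    simp only [faceR, mem_ofPred_eq, mem_iInter]
  rw [e]
  exact isClosed_biInter (fun a _ => closed_one a _)

theorem polR_closed [FiniteDimensional ℝ F] {K : Set F} (hK : PolR K) : IsClosed K := by
  obtain ⟨-, A, hA, h⟩ := hK
  have := hA.fintype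
  let ph : (A → SignType) → Set F := fun s =>
    {x | ∀ a : A, (a : F →ₗ[ℝ] ℝ) x = 0 ∨ SignType.sign ((a : F →ₗ[ℝ] ℝ) x) = s a}
  have hph : ∀ y : F, faceR A y = ph (fun a => SignType.sign ((a : F →ₗ[ℝ] ℝ) y)) := by
    intro y
    ext x
    simp only [faceR, mem_ofPred_eq, ph, Subtype.forall]
  have e : K = ⋃ s ∈ {s : A → SignType | ∃ y ∈ K, s = fun a : A => SignType.sign ((a : F →ₗ[ℝ] ℝ) y)},
      ph s := by
    ext x
    simp only [mem_iUnion, mem_ofPred_eq, exists_prop]
    constructor
    · intro hx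
      refine ⟨_, ⟨x, hx, rfl⟩, ?_⟩
      rw [← hph]
      exact faceR_self A x
    · rintro ⟨s, ⟨y, hy, rfl⟩, hs⟩
      rw [← hph] at hs
      exact h y hy hs
  rw [e]
  refine Set.Finite.isClosed_biUnion (Set.toFinite _) (fun s hs => ?_)
  obtain ⟨y, -, rfl⟩ := hs
  rw [← hph]
  exact faceR_closed A y

theorem polR_sub [FiniteDimensional ℝ F] (U : Submodule ℝ F) : PolR (U : Set F) := by
  refine ⟨U.zero_mem, Set.range (fun i => ((Module.finBasis ℝ (F ⧸ U)).coord i).comp U.mkQ),
    Set.finite_range _, fun y hy x hx => ?_⟩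
  have hy' : U.mkQ y = 0 := by
    rw [Submodule.mkQ_apply]
    exact (Submodule.Quotient.mk_eq_zero U).2 hy
  have hx' : U.mkQ x = 0 := by
    apply (Module.finBasis ℝ (F ⧸ U)).ext_elem
    intro i
    have h1 := hx _ ⟨i, rfl⟩
    simp only [LinearMap.comp_apply, hy', map_zero, sign_zero, Module.Basis.coord_apply] at h1
    rw [map_zero, Finsupp.zero_apply]
    rcases h1 with h1 | h1
    · exact h1
    · exact sign_eq_zero_iff.1 h1
  rw [Submodule.mkQ_apply] at hx'
  exact (Submodule.Quotient.mk_eq_zero U).1 hx'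

end IR1

/-- ITEM R1 -/
theorem pr_R1 : S_R1 := by
  intro F _ _ _
  refine ⟨?_, ?_, ?_, ?_, ?_, ?_⟩
  · rintro K L ⟨hK0, A, hA, hK⟩ ⟨hL0, B, hB, hL⟩
    refine ⟨⟨Or.inl hK0, A ∪ B, hA.union hB, ?_⟩, ⟨⟨hK0, hL0⟩, A ∪ B, hA.union hB, ?_⟩⟩
    · rintro y (hy | hy)
      · exact fun x hx => Or.inl (hK y hy (IR1.faceR_anti subset_union_left y hx))
      · exact fun x hx => Or.inr (hL y hy (IR1.faceR_anti subset_union_right y hx))
    · rintro y ⟨hy1, hy2⟩ x hx
      exact ⟨hK y hy1 (IR1.faceR_anti subset_union_left y hx),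
        hL y hy2 (IR1.faceR_anti subset_union_right y hx)⟩
  · exact fun K hK => IR1.polR_closed hK
  · rintro K ⟨-, A, -, hK⟩ x hx r hr
    exact hK x hx (IR1.faceR_smul A x hr)
  · have h := IR1.polR_sub (⊥ : Submodule ℝ F)
    rwa [Submodule.bot_coe] at h
  · exact IR1.polR_sub
  · intro l
    refine ⟨⟨?_, {l}, Set.finite_singleton l, ?_⟩, ⟨?_, {l}, Set.finite_singleton l, ?_⟩⟩
    · show (0 : ℝ) ≤ l 0
      rw [map_zero]
    · intro y hy x hx
      have hy' : (0 : ℝ) ≤ l y := hy
      show (0 : ℝ) ≤ l x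
      rcases hx l rfl with h | h
      · exact h.ge
      · rcases hy'.eq_or_lt with h0 | h0
        · rw [← h0, sign_zero] at h
          exact (sign_eq_zero_iff.1 h).ge
        · rw [sign_pos h0] at h
          exact (sign_eq_one_iff.1 h).le
    · show l 0 = 0
      exact map_zero l
    · intro y hy x hx
      have hy' : l y = 0 := hy
      show l x = 0
      rcases hx l rfl with h | h
      · exact h
      · rw [hy', sign_zero] at h
        exact sign_eq_zero_iff.1 h

end Pool.Agent.Work.MP_552024_lc.HM
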