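import Pool.Agent.Work.MP_552024_lc.HM.Stmts

/-!
Item R10: the one dimensional case (two rays of a line).
-/

set_option autoImplicit false

namespace Pool.Agent.Work.MP_552024_lc.HM

open Metric Set Topology

namespace IR10

variable {F : Type} [NormedAddCommGroup F] [InnerProductSpace ℝ F]

/-- a ray is the cone over a ball of dimension zero -/
theorem tb_ray (e : F) (he : ‖e‖ = 1) (M : Set F) (hM : ∀ x, x ∈ M ↔ ∃ r : ℝ, 0 ≤ r ∧ x = r • e) :
    TB 0 M ({0} : Set F) := by
  have h0M : (0 : F) ∈ M := (hM 0).2 ⟨0, le_refl _, by simp⟩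
  refine ⟨by simpa using h0M, fun x => (0, ‖x‖), fun z => z.2 • e, ?_, ?_⟩
  · refine
      { contf := ?_
        contg := ?_
        mapsf := ?_
        mapsg := ?_
        gf := ?_
        fg := ?_
        homf := ?_
        homg := ?_ }
    · exact (continuous_const.prodMk continuous_norm).continuousOn
    · exact (continuous_snd.smul continuous_const).continuousOn
    · intro x _
      exact norm_nonneg x
    · rintro ⟨z, t⟩ ht
      exact (hM _).2 ⟨t, ht, rfl⟩
    · intro x hx
      obtain ⟨r, hr, rfl⟩ := (hM x).1 hx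
      show ‖r • e‖ • e = r • e
      rw [norm_smul, he, mul_one, Real.norm_of_nonneg hr]
    · rintro ⟨z, t⟩ ht
      have ht' : 0 ≤ t := ht
      show ((0 : Eu 0), ‖t • e‖) = (z, t)
      rw [norm_smul, he, mul_one, Real.norm_of_nonneg ht']
      exact Prod.ext (Subsingleton.elim _ _) rfl
    · intro x hx r hr
      obtain ⟨s, hs, rfl⟩ := (hM x).1 hx
      refine ⟨(hM _).2 ⟨r * s, mul_nonneg hr hs, by rw [mul_smul]⟩, ?_⟩
      refine Prod.ext (Subsingleton.elim _ _) ?_
      show ‖r • s • e‖ = r * ‖s • e‖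
      rw [norm_smul, Real.norm_of_nonneg hr]
    · rintro ⟨z, t⟩ ht r hr
      have ht' : 0 ≤ t := ht
      refine ⟨mul_nonneg hr ht', ?_⟩
      show (r * t) • e = r • t • e
      rw [mul_smul]
  · intro x _
    show x = 0 ↔ ‖x‖ = 0
    exact norm_eq_zero.symm

end IR10

open IR10 in
theorem pr_R10 : S_R10 := by
  intro hR1 F _ _ _ U M M' hU hPM hPM' hun hint hMU hM'U
  obtain ⟨-, -, hcone, hP0, -, -⟩ := hR1 F
  have hMsub : M ⊆ (U : Set F) := by rw [← hun]; exact subset_union_left
  have hM'sub : M' ⊆ (U : Set F) := by rw [← hun]; exact subset_union_right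
  have h0 : (0 : F) ∈ M ∩ M' := by rw [hint]; rfl
  -- a vector in M outside M'
  obtain ⟨u, huU, huM'⟩ : ∃ u, u ∈ (U : Set F) ∧ u ∉ M' := by
    by_contra hcon
    push Not at hcon
    exact hM'U (Subset.antisymm hM'sub hcon)
  obtain ⟨w, hwU, hwM⟩ : ∃ w, w ∈ (U : Set F) ∧ w ∉ M := by
    by_contra hcon
    push Not at hcon
    exact hMU (Subset.antisymm hMsub hcon)
  have huM : u ∈ M := by
    have : u ∈ M ∪ M' := by rw [hun]; exact huU
    exact this.resolve_right huM'
  have hwM' : w ∈ M' := by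
    have : w ∈ M ∪ M' := by rw [hun]; exact hwU
    exact this.resolve_left hwM
  have hu0 : u ≠ 0 := by
    rintro rfl
    exact huM' h0.2
  have hnu : 0 < ‖u‖ := norm_pos_iff.2 hu0
  obtain ⟨e, he_def⟩ : ∃ e : F, e = ‖u‖⁻¹ • u := ⟨_, rfl⟩
  have he : ‖e‖ = 1 := by
    rw [he_def, norm_smul, norm_inv, norm_norm, inv_mul_cancel₀ hnu.ne']
  have heM : e ∈ M := by
    rw [he_def]
    exact hcone M hPM u huM _ (by positivity)
  have heU : e ∈ U := hMsub heM
  have he0 : e ≠ 0 := by
    intro h
    rw [h, norm_zero] at he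
    exact zero_ne_one he
  have hspan : ∀ x ∈ U, ∃ c : ℝ, x = c • e := by
    intro x hx
    have he0' : (⟨e, heU⟩ : U) ≠ 0 := by
      intro h
      exact he0 (congrArg Subtype.val h)
    obtain ⟨c, hc⟩ := (finrank_eq_one_iff_of_nonzero' (⟨e, heU⟩ : U) he0').1 hU ⟨x, hx⟩
    exact ⟨c, (congrArg Subtype.val hc).symm⟩
  obtain ⟨c, hc⟩ := hspan w hwU
  have hc0 : c < 0 := by
    by_contra hcon
    apply hwM
    rw [hc]
    exact hcone M hPM e heM c (not_lt.1 hcon)
  have hneg : ∀ r : ℝ, r < 0 → r • e ∈ M' := by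
    intro r hr
    have h1 : r • e = (r / c) • w := by
      rw [hc, smul_smul, div_mul_cancel₀ _ hc0.ne]
    rw [h1]
    exact hcone M' hPM' w hwM' _ (div_nonneg_of_nonpos hr.le hc0.le)
  have hM : ∀ x, x ∈ M ↔ ∃ r : ℝ, 0 ≤ r ∧ x = r • e := by
    intro x
    constructor
    · intro hx
      obtain ⟨r, rfl⟩ := hspan x (hMsub hx)
      refine ⟨r, ?_, rfl⟩
      by_contra hcon
      have hr : r < 0 := not_le.1 hcon
      have h1 : r • e ∈ M ∩ M' := ⟨hx, hneg r hr⟩
      rw [hint] at h1
      have h2 : r • e = 0 := h1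
      rcases smul_eq_zero.1 h2 with h | h
      · exact hr.ne h
      · exact he0 h
    · rintro ⟨r, hr, rfl⟩
      exact hcone M hPM e heM r hr
  refine ⟨hPM, hP0, tb_ray e he M hM, ?_, ?_⟩
  · intro x hx hx0
    have hx0' : x ≠ 0 := hx0
    show Lk x M = {0}
    apply Subset.antisymm
    · rintro v ⟨hv1, ε, hε, hv2⟩
      have h1 : x + ε • v ∈ U := hMsub (hv2 ε hε le_rfl)
      have h2 : ε • v ∈ U := by
        have := U.sub_mem h1 (hMsub hx)
        simpa using this
      have h3 : v ∈ U := by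
        have := U.smul_mem ε⁻¹ h2
        rwa [smul_smul, inv_mul_cancel₀ hε.ne', one_smul] at this
      obtain ⟨a, ha⟩ := hspan v h3
      obtain ⟨r, hr, hxr⟩ := (hM x).1 hx
      have hr0 : r ≠ 0 := by
        rintro rfl
        exact hx0' (by rw [hxr, zero_smul])
      rw [hxr, ha, real_inner_smul_left, real_inner_smul_right, real_inner_self_eq_norm_sq, he]
        at hv1
      have h4 : a = 0 := by
        have : r * a = 0 := by linarith
        exact (mul_eq_zero.1 this).resolve_left hr0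
      show v = 0
      rw [ha, h4, zero_smul]
    · intro v hv
      have hv0 : v = 0 := hv
      subst hv0
      refine ⟨inner_zero_right _, 1, one_pos, fun s _ _ => ?_⟩
      rw [smul_zero, add_zero]
      exact hx
  · intro x hx hx0
    exact absurd hx hx0

end Pool.Agent.Work.MP_552024_lc.HM
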