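import Pool.Agent.Work.MP_552024_lc.HM.Stmts

/-!
# Item R11 of the block HM: the unit sphere of a subspace
-/

set_option autoImplicit false

namespace Pool.Agent.Work.MP_552024_lc.HM

open Metric Set Topology

namespace IR11

variable {F : Type} [NormedAddCommGroup F] [InnerProductSpace ℝ F]

/-- An isometry between a subspace and a Euclidean space gives a homeomorphism of spheres. -/
noncomputable def secHomeo (U : Submodule ℝ F) (m : ℕ) (φ : U ≃ₗᵢ[ℝ] Eu m) :
    ↥(sec (U : Set F)) ≃ₜ ↥(sphere (0 : Eu m) 1) where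
  toFun x := ⟨φ ⟨x.1, x.2.1⟩, by
    rw [mem_sphere_zero_iff_norm, φ.norm_map]
    exact x.2.2⟩
  invFun y := ⟨((φ.symm y.1 : U) : F), (φ.symm y.1).2, by
    have h : ‖φ.symm y.1‖ = 1 := by
      rw [φ.symm.norm_map]
      exact mem_sphere_zero_iff_norm.1 y.2
    exact h⟩
  left_inv x := by
    apply Subtype.ext
    change ((φ.symm (φ ⟨x.1, x.2.1⟩) : U) : F) = x.1
    rw [φ.symm_apply_apply]
  right_inv y := by
    apply Subtype.ext
    change φ ⟨((φ.symm y.1 : U) : F), _⟩ = y.1
    exact φ.apply_symm_apply y.1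
  continuous_toFun := by
    refine Continuous.subtype_mk ?_ _
    exact φ.continuous.comp (Continuous.subtype_mk continuous_subtype_val _)
  continuous_invFun := by
    refine Continuous.subtype_mk ?_ _
    exact continuous_subtype_val.comp (φ.symm.continuous.comp continuous_subtype_val)

end IR11

theorem pr_R11 : S_R11 := by
  intro F _ _ _ U m hm
  subst hm
  exact ⟨IR11.secHomeo U _ (stdOrthonormalBasis ℝ U).repr⟩

end Pool.Agent.Work.MP_552024_lc.HM
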