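import Pool.Agent.Work.MP_552024_lc.HM.Stmts

set_option autoImplicit false

namespace Pool.Agent.Work.MP_552024_lc.HM

open Metric Set Topology

namespace IR12

variable {F : Type} [NormedAddCommGroup F] [InnerProductSpace ℝ F]

/-- the projective chart at `x` -/
noncomputable def vv (x y : F) : F := (inner ℝ x y : ℝ)⁻¹ • y - x

theorem vv_orth {x y : F} (hx : ‖x‖ = 1) (hy : 0 < (inner ℝ x y : ℝ)) :
    (inner ℝ x (vv x y) : ℝ) = 0 := by
  unfold vv
  rw [inner_sub_right, inner_smul_right, real_inner_self_eq_norm_sq, hx,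
    inv_mul_cancel₀ hy.ne']
  norm_num

theorem norm_pos_of {x v : F} (hx : ‖x‖ = 1) (hv : (inner ℝ x v : ℝ) = 0) : 0 < ‖x + v‖ := by
  rw [norm_pos_iff]
  intro h
  have h1 : (inner ℝ x (x + v) : ℝ) = 0 := by rw [h, inner_zero_right]
  rw [inner_add_right, real_inner_self_eq_norm_sq, hx, hv] at h1
  norm_num at h1

theorem inner_x {x v : F} (hx : ‖x‖ = 1) (hv : (inner ℝ x v : ℝ) = 0) :
    (inner ℝ x (x + v) : ℝ) = 1 := by
  rw [inner_add_right, real_inner_self_eq_norm_sq, hx, hv]; norm_num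

theorem inner_nrm {x v : F} (hx : ‖x‖ = 1) (hv : (inner ℝ x v : ℝ) = 0) :
    (inner ℝ x (‖x + v‖⁻¹ • (x + v)) : ℝ) = ‖x + v‖⁻¹ := by
  rw [inner_smul_right, inner_x hx hv, mul_one]

theorem vv_nrm {x v : F} (hx : ‖x‖ = 1) (hv : (inner ℝ x v : ℝ) = 0) :
    vv x (‖x + v‖⁻¹ • (x + v)) = v := by
  unfold vv
  rw [inner_nrm hx hv, inv_inv, smul_smul, mul_inv_cancel₀ (norm_pos_of hx hv).ne', one_smul]
  abel

theorem vv_cont (x : F) : ContinuousOn (vv x) {y | 0 < (inner ℝ x y : ℝ)} := by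
  unfold vv
  refine ContinuousOn.sub ?_ continuousOn_const
  refine ContinuousOn.smul (ContinuousOn.inv₀ ?_ ?_) continuousOn_id
  · exact (continuous_const.inner continuous_id).continuousOn
  · intro y hy; exact ne_of_gt hy

theorem nrm_vv {x y : F} (hy : 0 < (inner ℝ x y : ℝ)) (h1 : ‖y‖ = 1) :
    ‖x + vv x y‖⁻¹ • (x + vv x y) = y := by
  have e : x + vv x y = (inner ℝ x y : ℝ)⁻¹ • y := by unfold vv; abel
  rw [e, norm_smul, h1, mul_one, Real.norm_eq_abs, abs_of_pos (inv_pos.2 hy), inv_inv, smul_smul,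
    mul_inv_cancel₀ hy.ne', one_smul]

theorem isCompact_BoxC (n : ℕ) : IsCompact (BoxC n) :=
  (isCompact_closedBall _ _).prod isCompact_Icc

theorem BoxC_sub (n : ℕ) : BoxC n ⊆ Half n := by
  intro z hz
  exact hz.2.1

theorem BoxO_sub (n : ℕ) : BoxO n ⊆ BoxC n := by
  intro z hz
  exact ⟨ball_subset_closedBall hz.1, Ico_subset_Icc_self hz.2⟩

end IR12

theorem pr_R12 : S_R12 := by
  intro hR1 hR2 hR3 F _ _ _ n M S hM hS hSM hTB x hxS
  obtain ⟨-, -, hR1c, -, -, -⟩ := hR1 F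
  have hx1 : ‖x‖ = 1 := hxS.2
  obtain ⟨-, f, g, hfg, hbd⟩ := hTB x hxS.1 hx1
  obtain ⟨εM, hεM, hMloc⟩ := hR2 F M hM x
  obtain ⟨εS, hεS, hSloc⟩ := hR2 F S hS x
  have hTM : ∀ v ∈ TgR x M, ∀ r : ℝ, 0 < r → r • v ∈ TgR x M :=
    (hR3 F M M x hM hM).2.2.2.2.1
  have hTS : ∀ v ∈ TgR x S, ∀ r : ℝ, 0 < r → r • v ∈ TgR x S :=
    (hR3 F S S x hS hS).2.2.2.2.1
  -- the radius
  set ε0 := min εM εS with hε0
  have hε0pos : 0 < ε0 := lt_min hεM hεS
  -- bound of `g` on the box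
  obtain ⟨B, hB⟩ : ∃ B : ℝ, ∀ z ∈ BoxC n, ‖g z‖ ≤ B := by
    have hc : ContinuousOn g (BoxC n) := hfg.contg.mono (IR12.BoxC_sub n)
    obtain ⟨B, hB⟩ := (IR12.isCompact_BoxC n).exists_bound_of_continuousOn hc
    exact ⟨B, hB⟩
  have hB0 : 0 ≤ B := (norm_nonneg _).trans (hB (0, 0) ⟨mem_closedBall_self zero_le_one,
    ⟨le_refl _, zero_le_one⟩⟩)
  obtain ⟨ε, hε, hεB⟩ : ∃ ε : ℝ, 0 < ε ∧ ∀ z ∈ BoxC n, ‖ε • g z‖ < ε0 := by
    refine ⟨ε0 / (B + 1), by positivity, fun z hz => ?_⟩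
    rw [norm_smul, Real.norm_eq_abs, abs_of_pos (by positivity)]
    have h1 := hB z hz
    have h2 : ‖g z‖ < B + 1 := by linarith
    calc ε0 / (B + 1) * ‖g z‖ < ε0 / (B + 1) * (B + 1) := by
          exact mul_lt_mul_of_pos_left h2 (by positivity)
      _ = ε0 := by field_simp
  -- properties of `g`
  have hgL : ∀ z ∈ BoxC n, g z ∈ Lk x M := fun z hz => hfg.mapsg z (IR12.BoxC_sub n hz)
  have hgo : ∀ z ∈ BoxC n, (inner ℝ x (ε • g z) : ℝ) = 0 := fun z hz => by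
    rw [inner_smul_right, (hgL z hz).1, mul_zero]
  have hgM : ∀ z ∈ BoxC n, x + ε • g z ∈ M := fun z hz =>
    (hMloc (ε • g z) ((hεB z hz).trans_le (min_le_left _ _))).2 (hTM _ (hgL z hz).2 ε hε)
  have hg0 : g (0, 0) = 0 := by
    have h := (hfg.homg (0, 0) (show (0 : ℝ) ≤ 0 from le_refl _) 0 (le_refl _)).2
    rw [zero_smul, zero_smul] at h
    exact h
  have hfgz : ∀ z ∈ BoxC n, f (g z) = z := fun z hz => hfg.fg z (IR12.BoxC_sub n hz)
  refine ⟨fun z => ‖x + ε • g z‖⁻¹ • (x + ε • g z), ?_, ?_, ?_, ?_, ?_, ?_⟩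
  · -- continuity
    have hc : ContinuousOn (fun z => x + ε • g z) (BoxC n) :=
      continuousOn_const.add ((hfg.contg.mono (IR12.BoxC_sub n)).const_smul ε)
    refine ContinuousOn.smul (ContinuousOn.inv₀ hc.norm ?_) hc
    intro z hz
    exact (IR12.norm_pos_of hx1 (hgo z hz)).ne'
  · -- injectivity
    intro z hz z' hz' h
    have h1 := congrArg (IR12.vv x) h
    simp only at h1
    rw [IR12.vv_nrm hx1 (hgo z hz), IR12.vv_nrm hx1 (hgo z' hz')] at h1
    have h2 : g z = g z' := smul_right_injective F hε.ne' h1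
    rw [← hfgz z hz, ← hfgz z' hz', h2]
  · -- values in the section of `M`
    intro z hz
    refine ⟨hR1c M hM _ (hgM z hz) _ (by positivity), ?_⟩
    rw [norm_smul, norm_inv, norm_norm, inv_mul_cancel₀ (IR12.norm_pos_of hx1 (hgo z hz)).ne']
  · -- the base point
    simp only [hg0, smul_zero, add_zero, hx1, inv_one, one_smul]
  · -- the boundary
    intro z hz
    have hn := IR12.norm_pos_of hx1 (hgo z hz)
    have e1 : (‖x + ε • g z‖⁻¹ • (x + ε • g z) ∈ sec S) ↔ x + ε • g z ∈ S := by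
      constructor
      · intro h
        have := hR1c S hS _ h.1 ‖x + ε • g z‖ hn.le
        rwa [smul_smul, mul_inv_cancel₀ hn.ne', one_smul] at this
      · intro h
        refine ⟨hR1c S hS _ h _ (by positivity), ?_⟩
        rw [norm_smul, norm_inv, norm_norm, inv_mul_cancel₀ hn.ne']
    have e2 : x + ε • g z ∈ S ↔ g z ∈ Lk x S := by
      rw [hSloc (ε • g z) ((hεB z hz).trans_le (min_le_right _ _))]
      constructor
      · intro h
        refine ⟨(hgL z hz).1, ?_⟩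
        have := hTS _ h ε⁻¹ (inv_pos.2 hε)
        rwa [smul_smul, inv_mul_cancel₀ hε.ne', one_smul] at this
      · intro h
        exact hTS _ h.2 ε hε
    rw [e1, e2, hbd (g z) (hgL z hz), hfgz z hz]
  · -- the open set
    obtain ⟨O1, hO1, hO1'⟩ := (_root_.continuousOn_iff'.1 hfg.contf)
      ((ball (0 : Eu n) 1) ×ˢ Iio (1 : ℝ)) (isOpen_ball.prod isOpen_Iio)
    refine ⟨{y | 0 < (inner ℝ x y : ℝ)} ∩ (IR12.vv x) ⁻¹' (ball 0 ε0 ∩ (fun v => ε⁻¹ • v) ⁻¹' O1),
      ?_, ?_⟩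
    · refine (IR12.vv_cont x).isOpen_inter_preimage ?_ ?_
      · exact isOpen_lt continuous_const (continuous_const.inner continuous_id)
      · exact isOpen_ball.inter (hO1.preimage (continuous_const_smul _))
    · ext y
      constructor
      · rintro ⟨⟨hy0, hyb, hyO⟩, hyM, hy1⟩
        have hv := IR12.vv_orth hx1 hy0
        have hvn : ‖IR12.vv x y‖ < ε0 := by simpa using hyb
        have hxv : x + IR12.vv x y ∈ M := by
          have e : x + IR12.vv x y = (inner ℝ x y : ℝ)⁻¹ • y := by unfold IR12.vv; abel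
          rw [e]
          exact hR1c M hM _ hyM _ (inv_nonneg.2 hy0.le)
        have hvT : IR12.vv x y ∈ TgR x M :=
          (hMloc _ (hvn.trans_le (min_le_left _ _))).1 hxv
        have hw : ε⁻¹ • IR12.vv x y ∈ Lk x M := by
          refine ⟨?_, hTM _ hvT _ (inv_pos.2 hε)⟩
          rw [inner_smul_right, hv, mul_zero]
        have hfw : f (ε⁻¹ • IR12.vv x y) ∈ (ball (0 : Eu n) 1) ×ˢ Iio (1 : ℝ) := by
          have : ε⁻¹ • IR12.vv x y ∈ f ⁻¹' ((ball (0 : Eu n) 1) ×ˢ Iio (1 : ℝ)) ∩ Lk x M := by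
            rw [hO1']
            exact ⟨hyO, hw⟩
          exact this.1
        have hfh : 0 ≤ (f (ε⁻¹ • IR12.vv x y)).2 := hfg.mapsf _ hw
        refine ⟨f (ε⁻¹ • IR12.vv x y), ⟨hfw.1, ⟨hfh, hfw.2⟩⟩, ?_⟩
        simp only
        rw [hfg.gf _ hw, smul_smul, mul_inv_cancel₀ hε.ne', one_smul]
        exact IR12.nrm_vv hy0 hy1
      · rintro ⟨z, hz, rfl⟩
        have hzC := IR12.BoxO_sub n hz
        have hn := IR12.norm_pos_of hx1 (hgo z hzC)
        refine ⟨⟨?_, ?_, ?_⟩, ?_, ?_⟩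
        · show 0 < (inner ℝ x (‖x + ε • g z‖⁻¹ • (x + ε • g z)) : ℝ)
          rw [IR12.inner_nrm hx1 (hgo z hzC)]
          positivity
        · show IR12.vv x (‖x + ε • g z‖⁻¹ • (x + ε • g z)) ∈ ball 0 ε0
          rw [IR12.vv_nrm hx1 (hgo z hzC)]
          simpa using hεB z hzC
        · show ε⁻¹ • IR12.vv x (‖x + ε • g z‖⁻¹ • (x + ε • g z)) ∈ O1
          rw [IR12.vv_nrm hx1 (hgo z hzC), smul_smul, inv_mul_cancel₀ hε.ne', one_smul]
          have : g z ∈ O1 ∩ Lk x M := by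
            rw [← hO1']
            refine ⟨?_, hgL z hzC⟩
            rw [mem_preimage, hfgz z hzC]
            exact ⟨hz.1, hz.2.2⟩
          exact this.1
        · exact hR1c M hM _ (hgM z hzC) _ (by positivity)
        · simp only
          rw [norm_smul, norm_inv, norm_norm, inv_mul_cancel₀ hn.ne']

end Pool.Agent.Work.MP_552024_lc.HM
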