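import Pool.Agent.Work.MP_552024_lc.HM.Stmts

/-!
Item R13 of the block HM: charts in a subset.
-/

set_option autoImplicit false

namespace Pool.Agent.Work.MP_552024_lc.HM

open Metric Set Topology

theorem pr_R13 : S_R13 := by
  intro F _ n Z M S hMZ hSM hL p hp
  obtain ⟨ψ, h1, h2, h3, h4, h5, O, hO, hOM⟩ := hL (p : F) hp
  classical
  have hkey : ∃ ψ' : Eu n × ℝ → ↥Z, ∀ z, ψ z ∈ Z → ((ψ' z : ↥Z) : F) = ψ z := by
    refine ⟨fun z => if h : ψ z ∈ Z then ⟨ψ z, h⟩ else p, fun z hz => ?_⟩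
    simp only [dif_pos hz]
  obtain ⟨ψ', hψ'⟩ := hkey
  have hval : ∀ z ∈ BoxC n, ((ψ' z : ↥Z) : F) = ψ z := fun z hz => hψ' z (hMZ (h3 hz))
  have hOC : BoxO n ⊆ BoxC n := by
    rintro z ⟨hz1, hz2⟩
    exact ⟨ball_subset_closedBall hz1, Ico_subset_Icc_self hz2⟩
  have h0 : ((0 : Eu n), (0 : ℝ)) ∈ BoxC n :=
    ⟨mem_closedBall_self zero_le_one, ⟨le_rfl, zero_le_one⟩⟩
  refine ⟨ψ', ?_, ?_, ?_, ?_, ?_, (fun z : ↥Z => (z : F)) ⁻¹' O, hO.preimage continuous_subtype_val, ?_⟩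
  · rw [IsInducing.subtypeVal.continuousOn_iff]
    exact h1.congr hval
  · intro z hz w hw hzw
    apply h2 hz hw
    rw [← hval z hz, ← hval w hw, hzw]
  · intro z hz
    show ((ψ' z : ↥Z) : F) ∈ M
    rw [hval z hz]
    exact h3 hz
  · apply Subtype.ext
    rw [hval _ h0, h4]
  · intro z hz
    show ((ψ' z : ↥Z) : F) ∈ S ↔ _
    rw [hval z hz]
    exact h5 z hz
  · ext w
    constructor
    · rintro ⟨hw1, hw2⟩
      have h6 : (w : F) ∈ ψ '' BoxO n := by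
        rw [← hOM]
        exact ⟨hw1, hw2⟩
      obtain ⟨z, hz, hzw⟩ := h6
      refine ⟨z, hz, Subtype.ext ?_⟩
      rw [hval z (hOC hz), hzw]
    · rintro ⟨z, hz, rfl⟩
      have h6 : ψ z ∈ O ∩ M := by
        rw [hOM]
        exact ⟨z, hz, rfl⟩
      refine ⟨?_, ?_⟩
      · show ((ψ' z : ↥Z) : F) ∈ O
        rw [hval z (hOC hz)]
        exact h6.1
      · show ((ψ' z : ↥Z) : F) ∈ M
        rw [hval z (hOC hz)]
        exact h6.2

end Pool.Agent.Work.MP_552024_lc.HM
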