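import Pool.Agent.Work.MP_552024_lc.HM.Stmts

/-!
Item R14 of the block HM: the topological Schoenflies step.
-/

set_option autoImplicit false

namespace Pool.Agent.Work.MP_552024_lc.HM

open Metric Set Topology

namespace IR14

/-- a subset of `Z`, as a subset of `F` and as a subset of `Z` -/
def emb {F : Type} [TopologicalSpace F] (Z M : Set F) (h : M ⊆ Z) :
    ↥((fun z : ↥Z => (z : F)) ⁻¹' M) ≃ₜ ↥M where
  toFun x := ⟨x.1.1, x.2⟩
  invFun y := ⟨⟨y.1, h y.2⟩, y.2⟩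
  left_inv _ := rfl
  right_inv _ := rfl
  continuous_toFun := (continuous_subtype_val.comp continuous_subtype_val).subtype_mk _
  continuous_invFun := (continuous_subtype_val.subtype_mk _).subtype_mk _

end IR14

theorem pr_R14 : S_R14 := by
  intro hBrown hH6 hH7 hR1 hR11 hR12 hR13 F _ _ _ n U M M' hU hM hM' hMM hTS hlk
  obtain ⟨hR1a, hR1b, hR1c, -, -, -⟩ := hR1 F
  have hS : PolR (M ∩ M') := (hR1a M M' hM hM').2
  have hMU : M ⊆ U := by
    rw [← hMM]
    exact subset_union_left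
  have hMU' : M' ⊆ U := by
    rw [← hMM]
    exact subset_union_right
  obtain ⟨eX⟩ := hR11 F U (n + 2) hU
  have : CompactSpace ↥(sec (U : Set F)) := eX.symm.compactSpace
  have hsM : sec M ⊆ sec (U : Set F) := fun x hx => ⟨hMU hx.1, hx.2⟩
  have hsM' : sec M' ⊆ sec (U : Set F) := fun x hx => ⟨hMU' hx.1, hx.2⟩
  have hsS : sec (M ∩ M') ⊆ sec M := fun x hx => ⟨hx.1.1, hx.2⟩
  have hsS' : sec (M ∩ M') ⊆ sec M' := fun x hx => ⟨hx.1.2, hx.2⟩
  have hL1 : LocCol n (sec M) (sec (M ∩ M')) :=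
    hR12 F n M (M ∩ M') hM hS inter_subset_left (fun x hx hx1 => (hlk x hx hx1).1)
  have hL2 : LocCol n (sec M') (sec (M ∩ M')) :=
    hR12 F n M' (M ∩ M') hM' hS inter_subset_right (fun x hx hx1 => (hlk x hx hx1).2)
  have hL1' := hR13 F n (sec (U : Set F)) (sec M) (sec (M ∩ M')) hsM hsS hL1
  have hL2' := hR13 F n (sec (U : Set F)) (sec M') (sec (M ∩ M')) hsM' hsS' hL2
  have hint : ((fun z : ↥(sec (U : Set F)) => (z : F)) ⁻¹' (sec M)) ∩
      ((fun z : ↥(sec (U : Set F)) => (z : F)) ⁻¹' (sec M'))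
      = (fun z : ↥(sec (U : Set F)) => (z : F)) ⁻¹' (sec (M ∩ M')) := by
    ext z
    constructor
    · rintro ⟨h1, h2⟩
      exact ⟨⟨h1.1, h2.1⟩, h1.2⟩
    · rintro ⟨⟨h1, h2⟩, h3⟩
      exact ⟨⟨h1, h3⟩, ⟨h2, h3⟩⟩
  have hun : ((fun z : ↥(sec (U : Set F)) => (z : F)) ⁻¹' (sec M)) ∪
      ((fun z : ↥(sec (U : Set F)) => (z : F)) ⁻¹' (sec M')) = univ := by
    ext z
    simp only [mem_union, mem_preimage, mem_univ, iff_true]
    have h1 : (z : F) ∈ M ∪ M' := by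
      rw [hMM]
      exact z.2.1
    rcases h1 with h1 | h1
    · exact Or.inl ⟨h1, z.2.2⟩
    · exact Or.inr ⟨h1, z.2.2⟩
  have hclosed : ∀ K : Set F, PolR K →
      IsClosed ((fun z : ↥(sec (U : Set F)) => (z : F)) ⁻¹' (sec K)) := by
    intro K hK
    have h1 : IsClosed (sec K) := by
      have h2 : sec K = K ∩ {x : F | ‖x‖ = 1} := rfl
      rw [h2]
      exact (hR1b K hK).inter (isClosed_eq continuous_norm continuous_const)
    exact h1.preimage continuous_subtype_val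
  obtain ⟨eS⟩ := hH6 F (n + 1) (M ∩ M') hTS
  have eS' : ↥(((fun z : ↥(sec (U : Set F)) => (z : F)) ⁻¹' (sec M)) ∩
      ((fun z : ↥(sec (U : Set F)) => (z : F)) ⁻¹' (sec M'))) ≃ₜ ↥(sphere (0 : Eu (n + 1)) 1) :=
    ((Homeomorph.setCongr hint).trans
      (IR14.emb (sec (U : Set F)) (sec (M ∩ M')) (hsS.trans hsM))).trans eS
  obtain ⟨φ, hφ⟩ := hBrown n ↥(sec (U : Set F)) eX
    ((fun z : ↥(sec (U : Set F)) => (z : F)) ⁻¹' (sec M))
    ((fun z : ↥(sec (U : Set F)) => (z : F)) ⁻¹' (sec M')) (hclosed M hM) (hclosed M' hM') hun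
    eS' (by rw [hint]; exact hL1') (by rw [hint]; exact hL2')
  refine hH7 F (n + 1) M (M ∩ M') inter_subset_left hS.1 (hR1c M hM) (hR1c _ hS)
    ((IR14.emb (sec (U : Set F)) (sec M) hsM).symm.trans φ) ?_
  intro x
  have h1 := hφ ((IR14.emb (sec (U : Set F)) (sec M) hsM).symm x)
  rw [Homeomorph.trans_apply, ← h1]
  constructor
  · intro h
    exact ⟨h.2, x.2.2⟩
  · intro h
    exact ⟨x.2.1, h.1⟩

end Pool.Agent.Work.MP_552024_lc.HM
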