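import Pool.Agent.Work.MP_552024_lc.HM.Stmts

/-!
Item R15 of the block HM: the Schoenflies theorem for the recursive notions.
-/

set_option autoImplicit false

namespace Pool.Agent.Work.MP_552024_lc.HM

open Metric Set Topology

theorem pr_R15 : S_R15 := by
  intro hR1 hR4 _ hR6 hR8 hR10 hR14 F _ _ _ n
  obtain ⟨hR1a, -, -, -, -, -⟩ := hR1 F
  induction n with
  | zero =>
    intro U M M' hU hM hM' hMM hS hne hne'
    have h0 : M ∩ M' = {0} := hS
    rw [h0]
    exact hR10 F U M M' hU hM hM' hMM h0 hne hne'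
  | succ n ih =>
    intro U M M' hU hM hM' hMM hS hne hne'
    have hMU : M ⊆ U := by
      rw [← hMM]
      exact subset_union_left
    have hMU' : M' ⊆ U := by
      rw [← hMM]
      exact subset_union_right
    have hMM' : M' ∪ M = U := by rw [union_comm]; exact hMM
    have hS' : HSp (n + 1) (M' ∩ M) := by rw [inter_comm]; exact hS
    obtain ⟨hSP, hSTS, hSlk⟩ := hS
    have hU0 : (0 : F) ∈ M ∩ M' := ⟨hM.1, hM'.1⟩
    have hlk : ∀ x ∈ M ∩ M', x ≠ 0 → HBa (n + 1) (Lk x M) (Lk x (M ∩ M')) ∧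
        HBa (n + 1) (Lk x M') (Lk x (M ∩ M')) := by
      intro x hx hx0
      have hxU : x ∈ U := hMU hx.1
      obtain ⟨h1, h2, -, h4, -, h6, -, h8⟩ := hR4 F M M' x hM hM'
      obtain ⟨-, -, -, h4', -, -, -, -⟩ := hR4 F M' M x hM' hM
      have hun : Lk x M ∪ Lk x M' = Uper U x := by
        rw [← h1, hMM]
        exact h6 U hxU
      have hun' : Lk x M' ∪ Lk x M = Uper U x := by
        rw [union_comm]; exact hun
      have hin : Lk x M ∩ Lk x M' = Lk x (M ∩ M') := h2.symm
      have hin' : Lk x M' ∩ Lk x M = Lk x (M ∩ M') := by rw [inter_comm]; exact hin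
      have hd : Module.finrank ℝ (Uper U x) = n + 1 := by
        have := h8 U hxU hx0
        omega
      have ha : Lk x M ≠ Uper U x :=
        hR8 F (n + 1) U M M' hU hM hM' hMM ⟨hSP, hSTS, hSlk⟩ hne hne' x hx hx0
      have hb : Lk x M' ≠ Uper U x :=
        hR8 F (n + 1) U M' M hU hM' hM hMM' hS' hne' hne x ⟨hx.2, hx.1⟩ hx0
      have hc : HSp n (Lk x M ∩ Lk x M') := by
        rw [hin]; exact hSlk x hx hx0
      have hc' : HSp n (Lk x M' ∩ Lk x M) := by
        rw [hin']; exact hSlk x hx hx0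
      have k1 := ih (Uper U x) (Lk x M) (Lk x M') hd (h4 hx.1) (h4' hx.2) hun hc ha hb
      have k2 := ih (Uper U x) (Lk x M') (Lk x M) hd (h4' hx.2) (h4 hx.1) hun' hc' hb ha
      rw [hin] at k1
      rw [hin'] at k2
      exact ⟨k1, k2⟩
    refine ⟨hM, hSP, ?_, ?_, fun x hx hx0 => (hlk x hx hx0).1⟩
    · refine hR14 F n U M M' hU hM hM' hMM hSTS ?_
      intro x hx hx1
      have hx0 : x ≠ 0 := by
        rintro rfl
        rw [norm_zero] at hx1
        exact zero_ne_one hx1
      obtain ⟨k1, k2⟩ := hlk x hx hx0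
      exact ⟨k1.2.2.1, k2.2.2.1⟩
    · intro x hx hxS
      have hxM' : x ∉ M' := fun h => hxS ⟨hx, h⟩
      have hx0 : x ≠ 0 := by
        rintro rfl
        exact hxM' hM'.1
      have hxU : x ∈ U := hMU hx
      obtain ⟨h1, -, -, -, -, h6, -, h8⟩ := hR4 F M M' x hM hM'
      obtain ⟨-, -, h3, -, -, -, -, -⟩ := hR4 F M' M x hM' hM
      have he : Lk x M = Uper U x := by
        have h := h6 U hxU
        rw [← hMM, h1, h3 hxM', union_empty] at h
        exact h
      rw [he]
      refine (hR6 F (Uper U x) (n + 1)).2 ?_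
      have := h8 U hxU hx0
      omega

end Pool.Agent.Work.MP_552024_lc.HM
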