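import Pool.Agent.Work.MP_552024_lc.HM.Stmts

/-! MP_552024_lc, block HM, item R16: gluing for the recursive notions.  Author: helper24. -/

set_option autoImplicit false

namespace Pool.Agent.Work.MP_552024_lc.HM

open Metric Set Topology

namespace IR16

section

variable {F : Type} [NormedAddCommGroup F] [InnerProductSpace ℝ F]

theorem hba_succ (n : ℕ) (C S : Set F) : HBa (n + 1) C S ↔ PolR C ∧ PolR S ∧ TB n C S ∧
    (∀ x ∈ C, x ∉ S → HSp n (Lk x C)) ∧ ∀ x ∈ S, x ≠ 0 → HBa n (Lk x C) (Lk x S) := Iff.rfl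

theorem hsp_succ (n : ℕ) (T : Set F) : HSp (n + 1) T ↔ PolR T ∧ TS (n + 1) T ∧
    ∀ x ∈ T, x ≠ 0 → HSp n (Lk x T) := Iff.rfl

theorem hba_zero (C S : Set F) : ¬ HBa 0 C S := fun h => h

end

section

variable {F : Type} [NormedAddCommGroup F] [InnerProductSpace ℝ F] [FiniteDimensional ℝ F]

theorem one (h1 : S_R1) (h4 : S_R4)
    (g1 : ∀ (F : Type) [NormedAddCommGroup F] [NormedSpace ℝ F]
      (n : ℕ) (C₁ C₂ S : Set F), TB n C₁ S → TB n C₂ S → C₁ ∩ C₂ = S → IsClosed C₁ → IsClosed C₂ →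
      TS (n + 1) (C₁ ∪ C₂)) (n : ℕ) :
    ∀ C₁ C₂ S : Set F, HBa (n + 1) C₁ S → HBa (n + 1) C₂ S → C₁ ∩ C₂ = S →
      HSp (n + 1) (C₁ ∪ C₂) := by
  induction n with
  | zero =>
    intro C₁ C₂ S hC₁ hC₂ hS
    rw [hba_succ] at hC₁ hC₂
    obtain ⟨p1, pS, t1, s1, b1⟩ := hC₁
    obtain ⟨p2, -, t2, s2, b2⟩ := hC₂
    rw [hsp_succ]
    refine ⟨((h1 F).1 _ _ p1 p2).1, g1 F 0 C₁ C₂ S t1 t2 hS ((h1 F).2.1 _ p1) ((h1 F).2.1 _ p2), ?_⟩
    intro x hx hx0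
    rw [(h4 F C₁ C₂ x p1 p2).1]
    by_cases hxS : x ∈ S
    · exact (b1 x hxS hx0).elim
    rcases hx with hx | hx
    · have hx2 : x ∉ C₂ := fun h => hxS (hS ▸ ⟨hx, h⟩)
      rw [(h4 F C₂ C₁ x p2 p1).2.2.1 hx2, Set.union_empty]
      exact s1 x hx hxS
    · have hx1 : x ∉ C₁ := fun h => hxS (hS ▸ ⟨h, hx⟩)
      rw [(h4 F C₁ C₂ x p1 p2).2.2.1 hx1, Set.empty_union]
      exact s2 x hx hxS
  | succ m ih =>
    intro C₁ C₂ S hC₁ hC₂ hS
    rw [hba_succ] at hC₁ hC₂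
    obtain ⟨p1, pS, t1, s1, b1⟩ := hC₁
    obtain ⟨p2, -, t2, s2, b2⟩ := hC₂
    rw [hsp_succ]
    refine ⟨((h1 F).1 _ _ p1 p2).1, g1 F (m + 1) C₁ C₂ S t1 t2 hS ((h1 F).2.1 _ p1)
      ((h1 F).2.1 _ p2), ?_⟩
    intro x hx hx0
    rw [(h4 F C₁ C₂ x p1 p2).1]
    by_cases hxS : x ∈ S
    · refine ih _ _ (Lk x S) (b1 x hxS hx0) (b2 x hxS hx0) ?_
      rw [← (h4 F C₁ C₂ x p1 p2).2.1, hS]
    rcases hx with hx | hx
    · have hx2 : x ∉ C₂ := fun h => hxS (hS ▸ ⟨hx, h⟩)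
      rw [(h4 F C₂ C₁ x p2 p1).2.2.1 hx2, Set.union_empty]
      exact s1 x hx hxS
    · have hx1 : x ∉ C₁ := fun h => hxS (hS ▸ ⟨h, hx⟩)
      rw [(h4 F C₁ C₂ x p1 p2).2.2.1 hx1, Set.empty_union]
      exact s2 x hx hxS

/-- one step of (2) -/
theorem step (h1 : S_R1) (h4 : S_R4)
    (g2 : ∀ (F : Type) [NormedAddCommGroup F] [NormedSpace ℝ F]
      (n : ℕ) (B X W V V' T : Set F), TB (n + 1) B (W ∪ V) → TB (n + 1) X (W ∪ V') → TB n W T →
      TB n V T → TB n V' T → W ∩ V = T → W ∩ V' = T → B ∩ X = W → IsClosed B → IsClosed X →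
      IsClosed W → IsClosed V → IsClosed V' → TB (n + 1) (B ∪ X) (V ∪ V')) (n : ℕ)
    (one : ∀ C₁ C₂ S : Set F, HBa (n + 1) C₁ S → HBa (n + 1) C₂ S → C₁ ∩ C₂ = S →
      HSp (n + 1) (C₁ ∪ C₂))
    (ih : ∀ X Y W X' Y' T : Set F, HBa (n + 1) X (W ∪ X') → HBa (n + 1) Y (W ∪ Y') →
      HBa n W T → HBa n X' T → HBa n Y' T → W ∩ X' = T → W ∩ Y' = T → X ∩ Y = W →
      HBa (n + 1) (X ∪ Y) (X' ∪ Y')) :
    ∀ X Y W X' Y' T : Set F, HBa (n + 2) X (W ∪ X') → HBa (n + 2) Y (W ∪ Y') → HBa (n + 1) W T →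
      HBa (n + 1) X' T → HBa (n + 1) Y' T → W ∩ X' = T → W ∩ Y' = T → X ∩ Y = W →
      HBa (n + 2) (X ∪ Y) (X' ∪ Y') := by
  intro X Y W X' Y' T hX hY hW hX' hY' hWX hWY hXY
  rw [hba_succ] at hX hY hW hX' hY'
  obtain ⟨pX, -, tX, sX, bX⟩ := hX
  obtain ⟨pY, -, tY, sY, bY⟩ := hY
  obtain ⟨pW, pT, tW, sW, bW⟩ := hW
  obtain ⟨pX', -, tX', sX', bX'⟩ := hX'
  obtain ⟨pY', -, tY', sY', bY'⟩ := hY'
  have cl : ∀ K : Set F, PolR K → IsClosed K := (h1 F).2.1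
  have U : ∀ (K L : Set F) (x : F), PolR K → PolR L → Lk x (K ∪ L) = Lk x K ∪ Lk x L :=
    fun K L x hK hL => (h4 F K L x hK hL).1
  have I : ∀ (K L : Set F) (x : F), PolR K → PolR L → Lk x (K ∩ L) = Lk x K ∩ Lk x L :=
    fun K L x hK hL => (h4 F K L x hK hL).2.1
  have E : ∀ (K : Set F) (x : F), PolR K → x ∉ K → Lk x K = ∅ :=
    fun K x hK hx => (h4 F K K x hK hK).2.2.1 hx
  rw [hba_succ]
  refine ⟨((h1 F).1 _ _ pX pY).1, ((h1 F).1 _ _ pX' pY').1,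
    g2 F n X Y W X' Y' T tX tY tW tX' tY' hWX hWY hXY (cl _ pX) (cl _ pY) (cl _ pW) (cl _ pX')
      (cl _ pY'), ?_, ?_⟩
  · intro x hx hxn
    rw [U X Y x pX pY]
    have hxX' : x ∉ X' := fun h => hxn (Or.inl h)
    have hxY' : x ∉ Y' := fun h => hxn (Or.inr h)
    by_cases hxX : x ∈ X
    · by_cases hxY : x ∈ Y
      · have hxW : x ∈ W := hXY ▸ ⟨hxX, hxY⟩
        have hx0 : x ≠ 0 := fun h => hxX' (h ▸ pX'.1)
        have e1 := bX x (Or.inl hxW) hx0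
        rw [U W X' x pW pX', E X' x pX' hxX', Set.union_empty] at e1
        have e2 := bY x (Or.inl hxW) hx0
        rw [U W Y' x pW pY', E Y' x pY' hxY', Set.union_empty] at e2
        refine one _ _ _ e1 e2 ?_
        rw [← I X Y x pX pY, hXY]
      · have hxW : x ∉ W := fun h => hxY (hXY ▸ h : x ∈ X ∩ Y).2
        rw [E Y x pY hxY, Set.union_empty]
        exact sX x hxX (fun h => h.elim hxW hxX')
    · have hxY : x ∈ Y := hx.resolve_left hxX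
      have hxW : x ∉ W := fun h => hxX (hXY ▸ h : x ∈ X ∩ Y).1
      rw [E X x pX hxX, Set.empty_union]
      exact sY x hxY (fun h => h.elim hxW hxY')
  · intro x hx hx0
    rw [U X Y x pX pY, U X' Y' x pX' pY']
    have sX' : X' ⊆ X := fun z hz => tX.1 (Or.inr hz)
    have sY' : Y' ⊆ Y := fun z hz => tY.1 (Or.inr hz)
    by_cases hxW : x ∈ W
    · have hxT : x ∈ T := by
        rcases hx with h | h
        · exact hWX ▸ ⟨hxW, h⟩
        · exact hWY ▸ ⟨hxW, h⟩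
      have e1 := bX x (Or.inl hxW) hx0
      rw [U W X' x pW pX'] at e1
      have e2 := bY x (Or.inl hxW) hx0
      rw [U W Y' x pW pY'] at e2
      refine ih _ _ (Lk x W) _ _ (Lk x T) e1 e2 (bW x hxT hx0) (bX' x hxT hx0) (bY' x hxT hx0)
        ?_ ?_ ?_
      · rw [← I W X' x pW pX', hWX]
      · rw [← I W Y' x pW pY', hWY]
      · rw [← I X Y x pX pY, hXY]
    · rcases hx with h | h
      · have hxY : x ∉ Y := fun h' => hxW (hXY ▸ ⟨sX' h, h'⟩)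
        have hxY' : x ∉ Y' := fun h' => hxY (sY' h')
        have e1 := bX x (Or.inr h) hx0
        rw [U W X' x pW pX', E W x pW hxW, Set.empty_union] at e1
        rw [E Y x pY hxY, E Y' x pY' hxY', Set.union_empty, Set.union_empty]
        exact e1
      · have hxX : x ∉ X := fun h' => hxW (hXY ▸ ⟨h', sY' h⟩)
        have hxX' : x ∉ X' := fun h' => hxX (sX' h')
        have e1 := bY x (Or.inr h) hx0
        rw [U W Y' x pW pY', E W x pW hxW, Set.empty_union] at e1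
        rw [E X x pX hxX, E X' x pX' hxX', Set.empty_union, Set.empty_union]
        exact e1

end

end IR16

theorem pr_R16 : S_R16 := by
  intro h1 h4 g1 g2 F _ _ _ n
  refine ⟨IR16.one h1 h4 g1 n, ?_⟩
  induction n with
  | zero =>
    exact IR16.step h1 h4 g2 0 (IR16.one h1 h4 g1 0) (fun _ _ _ _ _ _ _ _ hW => (hW : False).elim)
  | succ m ih =>
    exact IR16.step h1 h4 g2 (m + 1) (IR16.one h1 h4 g1 (m + 1)) ih

end Pool.Agent.Work.MP_552024_lc.HM
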