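import Pool.Agent.Work.MP_552024_lc.HM.Stmts

set_option autoImplicit false

namespace Pool.Agent.Work.MP_552024_lc.HM

open Metric Set Topology

namespace IR2

/-- signs along a short segment -/
theorem sign_seg (c d s : ℝ) (h : c ≠ 0 → |d| < |c|) (hs : 0 < s) (hs1 : s ≤ 1) :
    SignType.sign (c + s * d) = SignType.sign (c + d) := by
  rcases lt_trichotomy c 0 with hc | hc | hc
  · have h1 := h hc.ne
    rw [abs_of_neg hc] at h1
    have h2 : d < -c := lt_of_le_of_lt (le_abs_self d) h1
    have h3 : c + d < 0 := by linarith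
    have h4 : c + s * d < 0 := by
      rcases le_or_gt d 0 with hd | hd
      · nlinarith [mul_nonneg hs.le (neg_nonneg.mpr hd)]
      · nlinarith
    rw [sign_neg h3, sign_neg h4]
  · subst hc
    rw [zero_add, zero_add]
    rcases lt_trichotomy d 0 with hd | hd | hd
    · rw [sign_neg hd, sign_neg (mul_neg_of_pos_of_neg hs hd)]
    · rw [hd, mul_zero]
    · rw [sign_pos hd, sign_pos (mul_pos hs hd)]
  · have h1 := h hc.ne'
    rw [abs_of_pos hc] at h1
    have h2 : -d < c := lt_of_le_of_lt (neg_le_abs d) h1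
    have h3 : 0 < c + d := by linarith
    have h4 : 0 < c + s * d := by
      rcases le_or_gt d 0 with hd | hd
      · nlinarith
      · nlinarith [mul_pos hs hd]
    rw [sign_pos h3, sign_pos h4]

end IR2

theorem pr_R2 : S_R2 := by
  intro F _ _ _ K hK x
  obtain ⟨_, A, hA, hf⟩ := hK
  have h1 : ∀ᶠ v : F in 𝓝 0, ∀ a ∈ A, (a x ≠ 0 → |a v| < |a x|) := by
    rw [Filter.eventually_all_finite hA]
    intro a _
    by_cases hax : a x = 0
    · exact Filter.Eventually.of_forall fun v h => absurd hax h
    · have hc : Continuous fun v : F => |a v| :=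
        (LinearMap.continuous_of_finiteDimensional a).abs
      have h2 : Filter.Tendsto (fun v : F => |a v|) (𝓝 0) (𝓝 |a 0|) := hc.tendsto 0
      rw [map_zero, abs_zero] at h2
      filter_upwards [h2.eventually (gt_mem_nhds (abs_pos.mpr hax))] with v hv _
      exact hv
  obtain ⟨ε, hε, hb⟩ := Metric.eventually_nhds_iff.mp h1
  refine ⟨ε, hε, fun v hv => ?_⟩
  have hv' := hb (show dist v 0 < ε by rwa [dist_zero_right])
  have key : ∀ s : ℝ, 0 < s → s ≤ 1 → ∀ a ∈ A,
      SignType.sign (a (x + s • v)) = SignType.sign (a (x + v)) := by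
    intro s hs hs1 a ha
    rw [a.map_add, a.map_add, a.map_smul, smul_eq_mul]
    exact IR2.sign_seg (a x) (a v) s (hv' a ha) hs hs1
  constructor
  · intro h
    exact ⟨1, one_pos, fun s hs hs1 => hf _ h fun a ha => Or.inr (key s hs hs1 a ha)⟩
  · rintro ⟨δ, hδ, h⟩
    have hs : 0 < min δ 1 := lt_min hδ one_pos
    exact hf _ (h _ hs (min_le_left _ _)) fun a ha =>
      Or.inr (key _ hs (min_le_right _ _) a ha).symm

end Pool.Agent.Work.MP_552024_lc.HM
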