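import Pool.Agent.Work.MP_552024_lc.HM.Stmts

/-!
Block HM of MP_552024_lc, item R3 (helper72): tangent cones of polyhedral cone sets.
-/

set_option autoImplicit false

namespace Pool.Agent.Work.MP_552024_lc.HM

open Metric Set Topology Filter

namespace IR3

section
variable {F : Type} [NormedAddCommGroup F] [InnerProductSpace ℝ F]

theorem mem_TgR_iff (x v : F) (K : Set F) :
    v ∈ TgR x K ↔ ∀ᶠ s in 𝓝[>] (0 : ℝ), x + s • v ∈ K := by
  rw [Filter.Eventually, mem_nhdsGT_iff_exists_Ioc_subset]
  constructor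
  · rintro ⟨ε, hε, h⟩
    exact ⟨ε, hε, fun s hs => h s hs.1 hs.2⟩
  · rintro ⟨ε, hε, h⟩
    exact ⟨ε, hε, fun s h1 h2 => h ⟨h1, h2⟩⟩

open Classical in
/-- The sign of a form near `x` in direction `v`. -/
theorem sign_ev (a : F →ₗ[ℝ] ℝ) (x v : F) :
    ∀ᶠ s in 𝓝[>] (0 : ℝ), SignType.sign (a (x + s • v)) =
      if a x = 0 then SignType.sign (a v) else SignType.sign (a x) := by
  have e : ∀ s : ℝ, a (x + s • v) = a x + s * a v := by
    intro s
    rw [map_add, map_smul, smul_eq_mul]
  have hc : Tendsto (fun s : ℝ => a x + s * a v) (𝓝[>] 0) (𝓝 (a x)) := by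
    have h1 : Continuous (fun s : ℝ => a x + s * a v) := by fun_prop
    have h2 := h1.tendsto 0
    simp only [zero_mul, add_zero] at h2
    exact h2.mono_left nhdsWithin_le_nhds
  by_cases h : a x = 0
  · filter_upwards [self_mem_nhdsWithin] with s hs
    rw [if_pos h, e, h, zero_add, sign_mul, sign_pos (show (0 : ℝ) < s from hs), one_mul]
  · rcases lt_or_gt_of_ne h with hn | hp
    · filter_upwards [hc.eventually_lt_const hn] with s hs
      rw [if_neg h, e, sign_neg hs, sign_neg hn]
    · filter_upwards [hc.eventually_const_lt hp] with s hs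
      rw [if_neg h, e, sign_pos hs, sign_pos hp]

theorem ev_all {A : Set (F →ₗ[ℝ] ℝ)} (hA : A.Finite) {p : (F →ₗ[ℝ] ℝ) → ℝ → Prop}
    (h : ∀ a ∈ A, ∀ᶠ s in 𝓝[>] (0 : ℝ), p a s) : ∀ᶠ s in 𝓝[>] (0 : ℝ), ∀ a ∈ A, p a s :=
  (eventually_all_finite hA).2 h

/-- Positive multiples. -/
theorem smul_mem {K : Set F} (hK : PolR K) {y : F} (hy : y ∈ K) {r : ℝ} (hr : 0 ≤ r) :
    r • y ∈ K := by
  obtain ⟨-, A, -, h⟩ := hK
  refine h y hy ?_
  intro a _
  rw [map_smul, smul_eq_mul]
  rcases hr.eq_or_lt with h0 | h0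
  · left
    rw [← h0, zero_mul]
  · right
    rw [sign_mul, sign_pos h0, one_mul]

theorem smul_mem_iff {K : Set F} (hK : PolR K) (y : F) {r : ℝ} (hr : 0 < r) :
    r • y ∈ K ↔ y ∈ K := by
  constructor
  · intro h
    have h1 := smul_mem hK h (r := r⁻¹) (by positivity)
    rwa [smul_smul, inv_mul_cancel₀ hr.ne', one_smul] at h1
  · intro h
    exact smul_mem hK h hr.le

/-- If `w` is in the closed face of `v` relative to `x` then it is tangent when `v` is. -/
theorem tg_of_face {K : Set F} {A : Set (F →ₗ[ℝ] ℝ)} (hA : A.Finite)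
    (h : ∀ y ∈ K, faceR A y ⊆ K) (x v w : F) (hv : v ∈ TgR x K)
    (hw : ∀ a ∈ A, a x = 0 → a w = 0 ∨ SignType.sign (a w) = SignType.sign (a v)) :
    w ∈ TgR x K := by
  classical
  rw [mem_TgR_iff] at hv ⊢
  have h1 := ev_all hA (p := fun a s => SignType.sign (a (x + s • v)) =
    if a x = 0 then SignType.sign (a v) else SignType.sign (a x)) (fun a _ => sign_ev a x v)
  have h2 := ev_all hA (p := fun a s => SignType.sign (a (x + s • w)) =
    if a x = 0 then SignType.sign (a w) else SignType.sign (a x)) (fun a _ => sign_ev a x w)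
  filter_upwards [hv, h1, h2] with s hs h3 h4
  refine h _ hs ?_
  intro a ha
  have h5 := h3 a ha
  have h6 := h4 a ha
  by_cases h0 : a x = 0
  · rw [if_pos h0] at h5 h6
    rcases hw a ha h0 with h7 | h7
    · left
      rw [map_add, map_smul, h0, h7, smul_zero, add_zero]
    · right
      rw [h5, h6, h7]
  · rw [if_neg h0] at h5 h6
    right
    rw [h5, h6]

/-- Membership for small `s` is constant. -/
theorem tg_or {K : Set F} (hK : PolR K) (x v : F) :
    (∀ᶠ s in 𝓝[>] (0 : ℝ), x + s • v ∈ K) ∨ (∀ᶠ s in 𝓝[>] (0 : ℝ), x + s • v ∉ K) := by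
  classical
  obtain ⟨-, A, hA, h⟩ := hK
  have h1 := ev_all hA (p := fun a s => SignType.sign (a (x + s • v)) =
    if a x = 0 then SignType.sign (a v) else SignType.sign (a x)) (fun a _ => sign_ev a x v)
  by_cases hex : ∃ s : ℝ, (∀ a ∈ A, SignType.sign (a (x + s • v)) =
    if a x = 0 then SignType.sign (a v) else SignType.sign (a x)) ∧ x + s • v ∈ K
  · obtain ⟨t, ht, htK⟩ := hex
    left
    filter_upwards [h1] with s hs
    refine h _ htK (fun a ha => ?_)
    right
    rw [hs a ha, ht a ha]
  · right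
    push Not at hex
    filter_upwards [h1] with s hs
    exact hex s hs

end

end IR3

open IR3 in
theorem pr_R3 : S_R3 := by
  intro F _ _ _ K L x hK hL
  refine ⟨?_, ?_, ?_, ?_, ?_, ?_, ?_, ?_⟩
  · ext v
    rw [mem_union, mem_TgR_iff, mem_TgR_iff, mem_TgR_iff]
    constructor
    · intro h
      rcases tg_or hK x v with h1 | h1
      · exact Or.inl h1
      · right
        filter_upwards [h, h1] with s hs h2
        exact hs.resolve_left h2
    · rintro (h | h)
      · exact h.mono fun s hs => Or.inl hs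
      · exact h.mono fun s hs => Or.inr hs
  · ext v
    rw [mem_inter_iff, mem_TgR_iff, mem_TgR_iff, mem_TgR_iff, ← Filter.eventually_and]
    rfl
  · intro hx
    rw [Set.eq_empty_iff_forall_notMem]
    intro v hv
    obtain ⟨-, A, hA, h⟩ := hK
    have h0 : (0 : F) ∈ TgR x K := by
      refine tg_of_face hA h x v 0 hv (fun a _ _ => ?_)
      left
      exact map_zero a
    rw [mem_TgR_iff] at h0
    obtain ⟨s, hs⟩ := h0.exists
    rw [smul_zero, add_zero] at hs
    exact hx hs
  · intro hx
    obtain ⟨-, A, hA, h⟩ := hK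
    refine ⟨?_, A, hA, fun v hv w hw => ?_⟩
    · rw [mem_TgR_iff]
      refine Filter.Eventually.of_forall (fun s => ?_)
      rw [smul_zero, add_zero]
      exact hx
    · exact tg_of_face hA h x v w hv (fun a ha _ => hw a ha)
  · intro v hv r hr
    obtain ⟨-, A, hA, h⟩ := hK
    refine tg_of_face hA h x v (r • v) hv (fun a _ _ => ?_)
    right
    rw [map_smul, smul_eq_mul, sign_mul, sign_pos hr, one_mul]
  · intro v hv c
    obtain ⟨-, A, hA, h⟩ := hK
    refine tg_of_face hA h x v (v + c • x) hv (fun a _ h0 => ?_)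
    right
    rw [map_add, map_smul, h0, smul_zero, add_zero]
  · intro r hr
    ext v
    constructor
    · rintro ⟨ε, hε, h⟩
      refine ⟨ε / r, by positivity, fun s h1 h2 => ?_⟩
      have h3 := h (r * s) (by positivity) (by
        rw [le_div_iff₀ hr] at h2
        linarith)
      have e : r • x + (r * s) • v = r • (x + s • v) := by
        rw [smul_add, smul_smul]
      rw [e, smul_mem_iff hK _ hr] at h3
      exact h3
    · rintro ⟨ε, hε, h⟩
      refine ⟨r * ε, by positivity, fun s h1 h2 => ?_⟩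
      have h3 := h (s / r) (by positivity) (by
        rw [div_le_iff₀ hr]
        linarith)
      have e : r • x + s • v = r • (x + (s / r) • v) := by
        rw [smul_add, smul_smul, mul_div_cancel₀ _ hr.ne']
      rw [e, smul_mem_iff hK _ hr]
      exact h3
  · intro U hx
    ext v
    constructor
    · rintro ⟨ε, hε, h⟩
      have h1 := h ε hε le_rfl
      have h2 : ε • v ∈ U := by
        have h3 := U.sub_mem h1 hx
        rwa [add_sub_cancel_left] at h3
      exact (U.smul_mem_iff hε.ne').1 h2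
    · intro hv
      exact ⟨1, one_pos, fun s _ _ => U.add_mem hx (U.smul_mem s hv)⟩

end Pool.Agent.Work.MP_552024_lc.HM
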