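import Pool.Agent.Work.MP_552024_lc.HM.Stmts

/-!
Item R4: links of real polyhedral cones (unions, intersections, polyhedrality, scaling, subspaces).
-/

set_option autoImplicit false

namespace Pool.Agent.Work.MP_552024_lc.HM

open Metric Set Topology

namespace IR4

/-- The sign of `p + s q` for small positive `s`. -/
noncomputable def ls (p q : ℝ) : SignType :=
  if p = 0 then SignType.sign q else SignType.sign p

lemma sign_small (p q : ℝ) :
    ∀ᶠ s in 𝓝[>] (0 : ℝ), SignType.sign (p + s * q) = ls p q := by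
  unfold ls
  rcases lt_trichotomy p 0 with hp | hp | hp
  · rw [if_neg hp.ne, sign_neg hp]
    have hc : Filter.Tendsto (fun s : ℝ => p + s * q) (𝓝[>] (0 : ℝ)) (𝓝 (p + 0 * q)) := by
      apply Filter.Tendsto.mono_left _ nhdsWithin_le_nhds
      exact Continuous.tendsto (by fun_prop) 0
    rw [zero_mul, add_zero] at hc
    filter_upwards [hc.eventually (gt_mem_nhds hp)] with s hs
    exact sign_neg hs
  · subst hp
    rw [if_pos rfl]
    filter_upwards [self_mem_nhdsWithin] with s hs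
    rw [zero_add, sign_mul, sign_pos (show (0 : ℝ) < s from hs), one_mul]
  · rw [if_neg hp.ne', sign_pos hp]
    have hc : Filter.Tendsto (fun s : ℝ => p + s * q) (𝓝[>] (0 : ℝ)) (𝓝 (p + 0 * q)) := by
      apply Filter.Tendsto.mono_left _ nhdsWithin_le_nhds
      exact Continuous.tendsto (by fun_prop) 0
    rw [zero_mul, add_zero] at hc
    filter_upwards [hc.eventually (lt_mem_nhds hp)] with s hs
    exact sign_pos hs

variable {F : Type} [NormedAddCommGroup F] [InnerProductSpace ℝ F]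

lemma signs_small {A : Set (F →ₗ[ℝ] ℝ)} (hA : A.Finite) (x v : F) :
    ∀ᶠ s in 𝓝[>] (0 : ℝ), ∀ a ∈ A, SignType.sign (a (x + s • v)) = ls (a x) (a v) := by
  rw [Filter.eventually_all_finite hA]
  intro a _
  filter_upwards [sign_small (a x) (a v)] with s hs
  rw [map_add, map_smul, smul_eq_mul]
  exact hs

lemma tg_iff (x v : F) (K : Set F) :
    v ∈ TgR x K ↔ ∀ᶠ s in 𝓝[>] (0 : ℝ), x + s • v ∈ K := by
  constructor
  · rintro ⟨ε, hε, h⟩
    filter_upwards [Ioc_mem_nhdsGT hε] with s hs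
    exact h s hs.1 hs.2
  · intro h
    obtain ⟨ε, hε, hs⟩ := (mem_nhdsGT_iff_exists_Ioc_subset).1 h
    exact ⟨ε, hε, fun s h1 h2 => hs ⟨h1, h2⟩⟩

lemma tg_freq {K : Set F} (hK : PolR K) {x v : F}
    (h : ∃ᶠ s in 𝓝[>] (0 : ℝ), x + s • v ∈ K) : v ∈ TgR x K := by
  obtain ⟨_, A, hA, hf⟩ := hK
  rw [tg_iff]
  have hs := signs_small hA x v
  obtain ⟨s0, h0, h0'⟩ := (h.and_eventually hs).exists
  filter_upwards [hs] with s h1
  refine hf _ h0 ?_
  intro a ha
  right
  rw [h1 a ha, h0' a ha]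

lemma tg_mono {K L : Set F} (h : K ⊆ L) (x : F) : TgR x K ⊆ TgR x L := by
  rintro v ⟨ε, hε, hv⟩
  exact ⟨ε, hε, fun s h1 h2 => h (hv s h1 h2)⟩

lemma lk_mono {K L : Set F} (h : K ⊆ L) (x : F) : Lk x K ⊆ Lk x L :=
  fun _ hv => ⟨hv.1, tg_mono h x hv.2⟩

lemma lk_union {K L : Set F} (hK : PolR K) (hL : PolR L) (x : F) :
    Lk x (K ∪ L) = Lk x K ∪ Lk x L := by
  apply subset_antisymm
  · rintro v ⟨h1, h2⟩
    rw [tg_iff] at h2
    have h3 : ∃ᶠ s in 𝓝[>] (0 : ℝ), x + s • v ∈ K ∨ x + s • v ∈ L := h2.frequently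
    rcases Filter.frequently_or_distrib.1 h3 with h | h
    · exact Or.inl ⟨h1, tg_freq hK h⟩
    · exact Or.inr ⟨h1, tg_freq hL h⟩
  · exact union_subset (lk_mono subset_union_left x) (lk_mono subset_union_right x)

lemma lk_inter (K L : Set F) (x : F) : Lk x (K ∩ L) = Lk x K ∩ Lk x L := by
  apply subset_antisymm
  · exact subset_inter (lk_mono inter_subset_left x) (lk_mono inter_subset_right x)
  · rintro v ⟨⟨h1, h2⟩, -, h3⟩
    refine ⟨h1, ?_⟩
    rw [tg_iff] at h2 h3 ⊢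
    filter_upwards [h2, h3] with s h4 h5
    exact ⟨h4, h5⟩

lemma mem_of_tg {K : Set F} (hK : PolR K) {x v : F} (h : v ∈ TgR x K) : x ∈ K := by
  obtain ⟨_, A, hA, hf⟩ := hK
  rw [tg_iff] at h
  obtain ⟨s, h1, h2⟩ := (h.and (signs_small hA x v)).exists
  refine hf _ h1 ?_
  intro a ha
  rw [h2 a ha]
  unfold ls
  by_cases hx : a x = 0
  · exact Or.inl hx
  · right
    rw [if_neg hx]

lemma lk_polR {K : Set F} (hK : PolR K) {x : F} (hx : x ∈ K) : PolR (Lk x K) := by
  obtain ⟨_, A, hA, hf⟩ := hK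
  refine ⟨⟨inner_zero_right x, 1, one_pos, fun s _ _ => by simpa using hx⟩,
    insert (innerₛₗ ℝ x) A, hA.insert _, ?_⟩
  rintro v ⟨h1, h2⟩ v' hv'
  refine ⟨?_, ?_⟩
  · have h3 := hv' (innerₛₗ ℝ x) (mem_insert _ _)
    rw [innerₛₗ_apply_apply, innerₛₗ_apply_apply, h1, sign_zero] at h3
    rcases h3 with h3 | h3
    · exact h3
    · exact sign_eq_zero_iff.1 h3
  · rw [tg_iff] at h2 ⊢
    filter_upwards [h2, signs_small hA x v, signs_small hA x v'] with s h3 h4 h5
    refine hf _ h3 ?_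
    intro a ha
    have h6 := hv' a (mem_insert_of_mem _ ha)
    have h7 := h5 a ha
    rw [h4 a ha]
    rw [h5 a ha]
    unfold ls at h7 ⊢
    by_cases hax : a x = 0
    · rw [if_pos hax] at h7 ⊢
      rcases h6 with h6 | h6
      · left
        rw [h6, sign_zero] at h7
        exact sign_eq_zero_iff.1 h7
      · right
        rw [if_pos hax]
        exact h6
    · right
      rw [if_neg hax, if_neg hax]

lemma smul_mem_of_polR {K : Set F} (hK : PolR K) {y : F} (hy : y ∈ K) {r : ℝ} (hr : 0 < r) :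
    r • y ∈ K := by
  obtain ⟨_, A, hA, hf⟩ := hK
  refine hf _ hy ?_
  intro a _
  right
  rw [map_smul, smul_eq_mul, sign_mul, sign_pos hr, one_mul]

lemma tg_smul {K : Set F} (hK : PolR K) {x v : F} (h : v ∈ TgR x K) {r : ℝ} (hr : 0 < r) :
    v ∈ TgR (r • x) K := by
  obtain ⟨ε, hε, h⟩ := h
  refine ⟨r * ε, mul_pos hr hε, fun s h1 h2 => ?_⟩
  have h3 : x + (s / r) • v ∈ K := h (s / r) (div_pos h1 hr) (by rwa [div_le_iff₀' hr])
  have h4 := smul_mem_of_polR hK h3 hr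
  rwa [smul_add, smul_smul, mul_div_cancel₀ _ hr.ne'] at h4

lemma lk_smul {K : Set F} (hK : PolR K) (x : F) {r : ℝ} (hr : 0 < r) :
    Lk (r • x) K = Lk x K := by
  apply subset_antisymm
  · rintro v ⟨h1, h2⟩
    refine ⟨?_, ?_⟩
    · rw [inner_smul_left] at h1
      rcases mul_eq_zero.1 h1 with h | h
      · exact absurd h hr.ne'
      · exact h
    · have h3 := tg_smul hK h2 (inv_pos.2 hr)
      rwa [smul_smul, inv_mul_cancel₀ hr.ne', one_smul] at h3
  · rintro v ⟨h1, h2⟩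
    refine ⟨?_, tg_smul hK h2 hr⟩
    rw [inner_smul_left, h1, mul_zero]

lemma lk_sub (U : Submodule ℝ F) {x : F} (hx : x ∈ U) : Lk x (U : Set F) = Uper U x := by
  ext v
  unfold Uper
  rw [SetLike.mem_coe, Submodule.mem_inf, Submodule.mem_orthogonal_singleton_iff_inner_right]
  constructor
  · rintro ⟨h1, ε, hε, h⟩
    refine ⟨?_, h1⟩
    have h2 : x + ε • v ∈ U := h ε hε le_rfl
    have h3 : ε • v ∈ U := (U.add_mem_iff_right hx).1 h2
    exact (U.smul_mem_iff hε.ne').1 h3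
  · rintro ⟨h1, h2⟩
    exact ⟨h2, 1, one_pos, fun s _ _ => U.add_mem hx (U.smul_mem s h1)⟩

lemma finrank_uper [FiniteDimensional ℝ F] (U : Submodule ℝ F) {x : F} (hx : x ∈ U)
    (h0 : x ≠ 0) : Module.finrank ℝ (Uper U x) + 1 = Module.finrank ℝ U := by
  have h1 : Submodule.span ℝ {x} ≤ U := by
    rw [Submodule.span_singleton_le_iff_mem]
    exact hx
  have h2 := Submodule.finrank_add_inf_finrank_orthogonal h1
  rw [finrank_span_singleton h0, inf_comm] at h2
  unfold Uper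
  omega

end IR4

theorem pr_R4 : S_R4 := by
  intro F _ _ _ K L x hK hL
  refine ⟨IR4.lk_union hK hL x, IR4.lk_inter K L x, ?_, fun hx => IR4.lk_polR hK hx,
    fun r hr => IR4.lk_smul hK x hr, fun U hx => IR4.lk_sub U hx, ?_,
    fun U hx h0 => IR4.finrank_uper U hx h0⟩
  · intro hx
    rw [eq_empty_iff_forall_notMem]
    rintro v ⟨_, h⟩
    exact hx (IR4.mem_of_tg hK h)
  · intro U hx hKU
    rw [← IR4.lk_sub U hx]
    exact IR4.lk_mono hKU x

end Pool.Agent.Work.MP_552024_lc.HM
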