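import Pool.Agent.Work.MP_552024_lc.HM.Stmts

/-!
# Item R5 of the block HM: interior points and links
-/

set_option autoImplicit false

namespace Pool.Agent.Work.MP_552024_lc.HM

open Metric Set Topology

namespace IR5

variable {F : Type} [NormedAddCommGroup F] [InnerProductSpace ℝ F]

lemma smul_mem {K : Set F} (hK : PolR K) {y : F} (hy : y ∈ K) {r : ℝ} (hr : 0 < r) :
    r • y ∈ K := by
  obtain ⟨_, A, _, hA⟩ := hK
  refine hA y hy ?_
  intro a _
  right
  rw [map_smul, smul_eq_mul, sign_mul, sign_pos hr, one_mul]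

lemma local_conic [FiniteDimensional ℝ F] {K : Set F} (hK : PolR K) (x : F) :
    ∃ ε : ℝ, 0 < ε ∧ ∀ v : F, ‖v‖ < ε → (x + v ∈ K ↔ v ∈ TgR x K) := by
  obtain ⟨_, A, hAf, hA⟩ := hK
  have h1 : ∀ᶠ y in 𝓝 x, ∀ a ∈ A, a x ≠ 0 → SignType.sign (a y) = SignType.sign (a x) := by
    rw [Filter.eventually_all_finite hAf]
    intro a _
    by_cases ha : a x = 0
    · exact Filter.Eventually.of_forall (fun y h => absurd ha h)
    · have hc : ContinuousAt a x := (LinearMap.continuous_of_finiteDimensional a).continuousAt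
      rcases lt_or_gt_of_ne ha with h | h
      · filter_upwards [hc.preimage_mem_nhds (Iio_mem_nhds h)] with y hy _
        rw [sign_neg (show a y < 0 from hy), sign_neg h]
      · filter_upwards [hc.preimage_mem_nhds (Ioi_mem_nhds h)] with y hy _
        rw [sign_pos (show 0 < a y from hy), sign_pos h]
  obtain ⟨ε, hε, hball⟩ := Metric.eventually_nhds_iff_ball.1 h1
  have h2 : ∀ v : F, ‖v‖ < ε → ∀ s : ℝ, 0 < s → s ≤ 1 → ∀ a ∈ A,
      SignType.sign (a (x + s • v)) = SignType.sign (a (x + v)) := by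
    intro v hv s hs0 hs1 a ha
    by_cases hax : a x = 0
    · rw [map_add a, map_add a, hax, zero_add, zero_add, map_smul a, smul_eq_mul, sign_mul,
        sign_pos hs0, one_mul]
    · have h3 : x + s • v ∈ ball x ε := by
        rw [mem_ball_iff_norm, add_sub_cancel_left, norm_smul, Real.norm_of_nonneg hs0.le]
        nlinarith [norm_nonneg v]
      have h4 : x + v ∈ ball x ε := by
        rw [mem_ball_iff_norm, add_sub_cancel_left]
        exact hv
      rw [hball _ h3 a ha hax, hball _ h4 a ha hax]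
  refine ⟨ε, hε, fun v hv => ⟨fun hK => ?_, fun hT => ?_⟩⟩
  · refine ⟨1, one_pos, fun s hs0 hs1 => hA _ hK (fun a ha => Or.inr (h2 v hv s hs0 hs1 a ha))⟩
  · obtain ⟨δ, hδ, h⟩ := hT
    have hs0 : 0 < min δ 1 := lt_min hδ one_pos
    refine hA _ (h (min δ 1) hs0 (min_le_left _ _)) (fun a ha => Or.inr ?_)
    exact (h2 v hv _ hs0 (min_le_right _ _) a ha).symm

lemma tg_add {K : Set F} (hK : PolR K) {x v : F} (hv : v ∈ TgR x K) (c : ℝ) :
    v + c • x ∈ TgR x K := by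
  obtain ⟨ε, hε, h⟩ := hv
  have hc : 0 < |c| + 1 := by positivity
  refine ⟨min (ε / 2) (1 / (2 * (|c| + 1))), lt_min (by positivity) (by positivity), ?_⟩
  intro s hs0 hs
  have h1 : s ≤ ε / 2 := hs.trans (min_le_left _ _)
  have h2 : s ≤ 1 / (2 * (|c| + 1)) := hs.trans (min_le_right _ _)
  have h3 : s * (2 * (|c| + 1)) ≤ 1 := by rwa [le_div_iff₀ (by positivity)] at h2
  have h4 : -(s * |c|) ≤ s * c := by
    have := neg_abs_le c
    nlinarith
  have h5 : 1 / 2 ≤ 1 + s * c := by nlinarith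
  have h6 : 0 < 1 + s * c := by linarith
  have h7 : s / (1 + s * c) ≤ ε := by
    rw [div_le_iff₀ h6]
    nlinarith
  have h8 := smul_mem hK (h (s / (1 + s * c)) (by positivity) h7) h6
  have h9 : (1 + s * c) • (x + (s / (1 + s * c)) • v) = x + s • (v + c • x) := by
    rw [smul_add, smul_smul, mul_div_cancel₀ _ h6.ne', add_smul, one_smul, smul_add, smul_smul]
    abel
  rwa [h9] at h8

lemma lk_sub {M : Set F} {U : Submodule ℝ F} {x : F} (hMU : M ⊆ U) (hx : x ∈ U) {v : F}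
    (hv : v ∈ Lk x M) : v ∈ Uper U x := by
  obtain ⟨h1, ε, hε, h2⟩ := hv
  have h3 : x + ε • v ∈ U := hMU (h2 ε hε le_rfl)
  have h4 : ε • v ∈ U := by simpa using U.sub_mem h3 hx
  have h5 : v ∈ U := by
    have := U.smul_mem ε⁻¹ h4
    rwa [smul_smul, inv_mul_cancel₀ hε.ne', one_smul] at this
  exact ⟨h5, Submodule.mem_orthogonal_singleton_iff_inner_right.2 h1⟩

lemma mem_uper {U : Submodule ℝ F} {x v : F} : v ∈ Uper U x ↔ v ∈ U ∧ inner ℝ x v = 0 := by
  rw [Uper, Submodule.mem_inf, Submodule.mem_orthogonal_singleton_iff_inner_right]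

end IR5

open IR5 in
theorem pr_R5 : S_R5 := by
  intro F _ _ _ M U x hM hMU hxU hx0
  obtain ⟨ε, hε, hloc⟩ := local_conic hM x
  refine ⟨⟨fun h => ?_, fun h => ?_⟩, ε, hε, ?_⟩
  · rw [mem_nhdsWithin_iff]
    refine ⟨ε, hε, ?_⟩
    rintro y ⟨hy, hyU⟩
    have h1 : ‖y - x‖ < ε := mem_ball_iff_norm.1 hy
    have h2 : y - x ∈ U := U.sub_mem hyU hxU
    have h3 : x + (y - x) = y := by abel
    rw [← h3]
    refine (hloc _ h1).2 ?_
    have hxx : (inner ℝ x x : ℝ) ≠ 0 := inner_self_ne_zero.2 hx0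
    have h4 : y - x - (inner ℝ x (y - x) / inner ℝ x x : ℝ) • x ∈ Uper U x := by
      refine mem_uper.2 ⟨U.sub_mem h2 (U.smul_mem _ hxU), ?_⟩
      rw [inner_sub_right, inner_smul_right, div_mul_cancel₀ _ hxx, sub_self]
    have h5 : y - x - (inner ℝ x (y - x) / inner ℝ x x : ℝ) • x ∈ Lk x M := by
      rw [h]
      exact h4
    have h6 := tg_add hM h5.2 (inner ℝ x (y - x) / inner ℝ x x : ℝ)
    rwa [sub_add_cancel] at h6
  · obtain ⟨δ, hδ, hδM⟩ := mem_nhdsWithin_iff.1 h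
    ext v
    refine ⟨fun hv => lk_sub hMU hxU hv, fun hv => ?_⟩
    obtain ⟨hvU, hvx⟩ := mem_uper.1 hv
    refine ⟨hvx, δ / (2 * (‖v‖ + 1)), by positivity, fun s hs0 hs => ?_⟩
    refine hδM ⟨?_, U.add_mem hxU (U.smul_mem _ hvU)⟩
    rw [mem_ball_iff_norm, add_sub_cancel_left, norm_smul, Real.norm_of_nonneg hs0.le]
    have h1 : s * (2 * (‖v‖ + 1)) ≤ δ := by rwa [le_div_iff₀ (by positivity)] at hs
    nlinarith [norm_nonneg v]
  · intro v hv hvε hMv
    obtain ⟨hvU, hvx⟩ := mem_uper.1 hv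
    obtain ⟨δ, hδ, hδM⟩ := mem_nhdsWithin_iff.1 hMv
    rw [mem_nhdsWithin_iff]
    refine ⟨min δ (ε - ‖v‖), lt_min hδ (by linarith), ?_⟩
    rintro w ⟨hw, hwU⟩
    obtain ⟨hwU', hwx⟩ := mem_uper.1 hwU
    have h1 : ‖w - v‖ < min δ (ε - ‖v‖) := mem_ball_iff_norm.1 hw
    have h2 : ‖w‖ < ε := by
      have h3 : ‖w‖ ≤ ‖w - v‖ + ‖v‖ := by
        have := norm_add_le (w - v) v
        rwa [sub_add_cancel] at this
      have h4 := h1.trans_le (min_le_right _ _)
      linarith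
    refine ⟨hwx, (hloc w h2).1 (hδM ⟨?_, U.add_mem hxU hwU'⟩)⟩
    rw [mem_ball_iff_norm, add_sub_add_left_eq_sub]
    exact h1.trans_le (min_le_left _ _)

end Pool.Agent.Work.MP_552024_lc.HM
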