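import Pool.Agent.Work.MP_552024_lc.HM.Stmts

/-!
# R6: linear subspaces and the recursive notion of sphere
-/

set_option autoImplicit false

namespace Pool.Agent.Work.MP_552024_lc.HM

open Metric Set Topology

namespace IR6

variable {F : Type} [NormedAddCommGroup F] [InnerProductSpace ℝ F] [FiniteDimensional ℝ F]

theorem ts_of_finrank (U : Submodule ℝ F) (n : ℕ) (h : Module.finrank ℝ U = n) :
    TS n (U : Set F) := by
  have h1 : Module.finrank ℝ U = Module.finrank ℝ (Eu n) := by
    rw [h, finrank_euclideanSpace, Fintype.card_fin]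
  let e : U ≃L[ℝ] Eu n := ContinuousLinearEquiv.ofFinrankEq h1
  have hproj : ∀ (x : F) (hx : x ∈ U), U.orthogonalProjection x = ⟨x, hx⟩ := fun x hx =>
    Submodule.orthogonalProjection_mem_subspace_eq_self (⟨x, hx⟩ : U)
  refine ⟨fun x => e (U.orthogonalProjection x), fun y => ((e.symm y : U) : F), ?_⟩
  refine ⟨?_, ?_, fun _ _ => mem_univ _, fun y _ => (e.symm y).2, ?_, ?_, ?_, ?_⟩
  · exact (e.continuous.comp U.orthogonalProjection.continuous).continuousOn
  · exact (continuous_subtype_val.comp e.symm.continuous).continuousOn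
  · intro x hx
    show ((e.symm (e (U.orthogonalProjection x)) : U) : F) = x
    rw [e.symm_apply_apply, hproj x hx]
  · intro y _
    show e (U.orthogonalProjection ((e.symm y : U) : F)) = y
    rw [Submodule.orthogonalProjection_mem_subspace_eq_self, e.apply_symm_apply]
  · intro x hx r _
    refine ⟨U.smul_mem r hx, ?_⟩
    show e (U.orthogonalProjection (r • x)) = r • e (U.orthogonalProjection x)
    rw [map_smul, map_smul]
  · intro y _ r _
    refine ⟨mem_univ _, ?_⟩
    show ((e.symm (r • y) : U) : F) = r • ((e.symm y : U) : F)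
    rw [map_smul, Submodule.coe_smul]

omit [FiniteDimensional ℝ F] in
theorem exists_ne_zero (U : Submodule ℝ F) (n : ℕ) (h : TS (n + 1) (U : Set F)) :
    ∃ x ∈ U, x ≠ 0 := by
  obtain ⟨f, g, hfg⟩ := h
  obtain ⟨y, hy⟩ := exists_ne (0 : Eu (n + 1))
  refine ⟨g y, hfg.mapsg y (mem_univ y), fun h0 => hy ?_⟩
  have h1 := hfg.fg y (mem_univ y)
  rw [h0] at h1
  have h2 := (hfg.homf 0 U.zero_mem 0 le_rfl).2
  rw [zero_smul, zero_smul] at h2
  rw [← h1, h2]

end IR6

open IR6 in
theorem pr_R6 : S_R6 := by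
  intro hR1 hR4 F _ _ _ U n
  have hpol : ∀ V : Submodule ℝ F, PolR (V : Set F) := (hR1 F).2.2.2.2.1
  induction n generalizing U with
  | zero =>
    rw [Submodule.finrank_eq_zero]
    show (U : Set F) = {0} ↔ U = ⊥
    constructor
    · intro h
      exact SetLike.coe_injective (by rw [h, Submodule.bot_coe])
    · rintro rfl
      exact Submodule.bot_coe
  | succ n ih =>
    have hLk : ∀ x ∈ U, Lk x (U : Set F) = Uper U x := fun x hx =>
      (hR4 F (U : Set F) (U : Set F) x (hpol U) (hpol U)).2.2.2.2.2.1 U hx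
    have hdim : ∀ x ∈ U, x ≠ 0 → Module.finrank ℝ (Uper U x) + 1 = Module.finrank ℝ U :=
      fun x hx hx0 =>
        (hR4 F (U : Set F) (U : Set F) x (hpol U) (hpol U)).2.2.2.2.2.2.2 U hx hx0
    constructor
    · rintro ⟨_, h2, h3⟩
      obtain ⟨x, hx, hx0⟩ := exists_ne_zero U n h2
      have h4 := h3 x hx hx0
      rw [hLk x hx] at h4
      rw [← hdim x hx hx0, (ih (Uper U x)).1 h4]
    · intro h
      refine ⟨hpol U, ts_of_finrank U (n + 1) h, fun x hx hx0 => ?_⟩
      rw [hLk x hx]
      have h4 := hdim x hx hx0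
      exact (ih (Uper U x)).2 (by omega)

end Pool.Agent.Work.MP_552024_lc.HM
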