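import Pool.Agent.Work.MP_552024_lc.HM.Stmts

/-! MP_552024_lc, block HM, item R7: spheres inside subspaces. -/

set_option autoImplicit false

namespace Pool.Agent.Work.MP_552024_lc.HM

open Metric Set Topology

namespace IR7

section hinv

variable {F : Type} [NormedAddCommGroup F] [NormedSpace ℝ F]

/-- `f 0 = 0` -/
theorem f_zero {n : ℕ} {T : Set F} {f : F → Eu n} {g : Eu n → F} (h : HInv f g T univ)
    (h0 : (0 : F) ∈ T) : f 0 = 0 := by
  have h1 := (h.homf 0 h0 0 le_rfl).2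
  rw [zero_smul, zero_smul] at h1
  exact h1

/-- `f x ≠ 0` for `x ≠ 0` -/
theorem f_ne {n : ℕ} {T : Set F} {f : F → Eu n} {g : Eu n → F} (h : HInv f g T univ)
    (h0 : (0 : F) ∈ T) {x : F} (hx : x ∈ T) (hx0 : x ≠ 0) : f x ≠ 0 := by
  intro hf
  apply hx0
  have h1 := h.gf x hx
  have h2 := h.gf 0 h0
  rw [f_zero h h0] at h2
  rw [hf, h2] at h1
  exact h1.symm

/-- a nonzero point -/
theorem exists_nz {n : ℕ} {T : Set F} (h : TS (n + 1) T) (h0 : (0 : F) ∈ T) :
    ∃ x ∈ T, x ≠ 0 := by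
  obtain ⟨f, g, h⟩ := h
  obtain ⟨y, hy⟩ := exists_ne (0 : Eu (n + 1))
  refine ⟨g y, h.mapsg y (mem_univ _), fun hg => hy ?_⟩
  have h1 := h.fg y (mem_univ _)
  rw [hg, f_zero h h0] at h1
  exact h1.symm

/-- a point that is not a nonnegative multiple of `x` -/
theorem exists_opp {n : ℕ} {T : Set F} (h : TS n T) (h0 : (0 : F) ∈ T) {x : F} (hx : x ∈ T)
    (hx0 : x ≠ 0) : ∃ x' ∈ T, ∀ c : ℝ, 0 ≤ c → x' ≠ c • x := by
  obtain ⟨f, g, h⟩ := h
  refine ⟨g (-f x), h.mapsg _ (mem_univ _), fun c hc he => ?_⟩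
  have h1 := h.fg (-f x) (mem_univ _)
  rw [he, (h.homf x hx c hc).2] at h1
  have h2 : (c + 1) • f x = 0 := by
    rw [add_smul, one_smul, h1]
    exact neg_add_cancel _
  rcases smul_eq_zero.1 h2 with h3 | h3
  · linarith
  · exact f_ne h h0 hx hx0 h3

end hinv

section real

variable {F : Type} [NormedAddCommGroup F] [InnerProductSpace ℝ F]

/-- case of a line -/
theorem line {T : Set F} (U : Submodule ℝ F) (hU : Module.finrank ℝ U = 1) (hT : T ⊆ U)
    (h0 : (0 : F) ∈ T) (hc : ∀ x ∈ T, ∀ r : ℝ, 0 ≤ r → r • x ∈ T) {n : ℕ} (h : TS n T) {x : F}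
    (hx : x ∈ T) (hx0 : x ≠ 0) : T = U := by
  refine Subset.antisymm hT fun u hu => ?_
  obtain ⟨x', hx', hne⟩ := exists_opp h h0 hx hx0
  have hne0 : (⟨x, hT hx⟩ : U) ≠ 0 := fun h => hx0 (congrArg Subtype.val h)
  have key := (finrank_eq_one_iff_of_nonzero' (⟨x, hT hx⟩ : U) hne0).1 hU
  obtain ⟨t, ht⟩ := key ⟨u, hu⟩
  obtain ⟨c, hcx⟩ := key ⟨x', hT hx'⟩
  have ht' : t • x = u := congrArg Subtype.val ht
  have hc' : c • x = x' := congrArg Subtype.val hcx
  rcases le_or_gt 0 t with htp | htn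
  · rw [← ht']
    exact hc x hx t htp
  · have hcn : c < 0 := by
      by_contra hcc
      exact hne c (not_lt.1 hcc) hc'.symm
    have h1 : (t / c) • x' = u := by
      rw [← hc', smul_smul, div_mul_cancel₀ _ hcn.ne, ht']
    rw [← h1]
    exact hc x' hx' _ (div_nonneg_of_nonpos htn.le hcn.le)

/-- case of dimension at least two -/
theorem conn {T : Set F} (U : Submodule ℝ F) (hU : 1 < Module.finrank ℝ U) (hT : T ⊆ U)
    (h0 : (0 : F) ∈ T) (hcl : IsClosed T) (hnh : ∀ x ∈ T, x ≠ 0 → T ∈ 𝓝[(U : Set F)] x) {x : F}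
    (hx : x ∈ T) (hx0 : x ≠ 0) : T = U := by
  refine Subset.antisymm hT fun u hu => ?_
  by_cases hu0 : u = 0
  · rw [hu0]
    exact h0
  have hrk : 1 < Module.rank ℝ U := by
    have := Module.lt_rank_of_lt_finrank hU
    rwa [Nat.cast_one] at this
  have hpc : IsPreconnected ({0}ᶜ : Set U) :=
    (isConnected_compl_singleton_of_one_lt_rank hrk 0).isPreconnected
  set T' : Set U := (fun v : U => (v : F)) ⁻¹' T with hT'
  have hcl' : IsClosed T' := hcl.preimage continuous_subtype_val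
  have hop : IsOpen (T' ∩ {0}ᶜ) := by
    rw [isOpen_iff_mem_nhds]
    rintro ⟨v, hv⟩ ⟨hvT, hv0⟩
    have hv0' : v ≠ 0 := fun h => hv0 (Subtype.ext h)
    refine Filter.inter_mem ?_ (isOpen_compl_singleton.mem_nhds hv0)
    have h1 := hnh v hvT hv0'
    exact preimage_coe_mem_nhds_subtype.2 h1
  have hne0 : (⟨x, hT hx⟩ : U) ≠ 0 := fun h => hx0 (congrArg Subtype.val h)
  have hsub : ({0}ᶜ : Set U) ⊆ T' ∩ {0}ᶜ := by
    refine IsPreconnected.subset_left_of_subset_union hop hcl'.isOpen_compl ?_ ?_ ?_ hpc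
    · rw [Set.disjoint_left]
      rintro v ⟨h1, -⟩ h2
      exact h2 h1
    · intro v hv
      by_cases h : v ∈ T'
      · exact Or.inl ⟨h, hv⟩
      · exact Or.inr h
    · exact ⟨⟨x, hT hx⟩, hne0, hx, hne0⟩
  have hune : (⟨u, hu⟩ : U) ≠ 0 := fun h => hu0 (congrArg Subtype.val h)
  exact (hsub hune).1

end real

end IR7

open IR7 in
theorem pr_R7 : S_R7 := by
  intro r1 r4 r5 F _ _ _ U n T
  induction n generalizing U T with
  | zero =>
    intro hT hTU
    refine ⟨Nat.zero_le _, fun hU => ?_⟩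
    have h1 : U = ⊥ := Submodule.finrank_eq_zero.1 hU
    have h2 : T = {0} := hT
    rw [h1, h2]
    rfl
  | succ n ih =>
    intro hT hTU
    obtain ⟨hP, hTS, hL⟩ := hT
    have h0 : (0 : F) ∈ T := hP.1
    obtain ⟨x, hx, hx0⟩ := IR7.exists_nz hTS h0
    have key : ∀ x ∈ T, x ≠ 0 → n ≤ Module.finrank ℝ (Uper U x) ∧
        (Module.finrank ℝ (Uper U x) = n → Lk x T = Uper U x) := fun x hx hx0 =>
      ih (Uper U x) (Lk x T) (hL x hx hx0) ((r4 F T T x hP hP).2.2.2.2.2.2.1 U (hTU hx) hTU)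
    have hfr : ∀ x ∈ T, x ≠ 0 → Module.finrank ℝ (Uper U x) + 1 = Module.finrank ℝ U :=
      fun x hx hx0 => (r4 F T T x hP hP).2.2.2.2.2.2.2 U (hTU hx) hx0
    refine ⟨?_, fun hU => ?_⟩
    · have h1 := (key x hx hx0).1
      have h2 := hfr x hx hx0
      omega
    · have hnh : ∀ x ∈ T, x ≠ 0 → T ∈ 𝓝[(U : Set F)] x := by
        intro x hx hx0
        have h1 := hfr x hx hx0
        have h2 := (key x hx hx0).2 (by omega)
        exact (r5 F T U x hP hTU (hTU hx) hx0).1.1 h2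
      obtain ⟨-, s2, s3, -⟩ := r1 F
      rcases Nat.eq_zero_or_pos n with hn | hn
      · subst hn
        exact line U hU hTU h0 (s3 T hP) hTS hx hx0
      · exact conn U (by omega) hTU h0 (s2 T hP) hnh hx hx0

end Pool.Agent.Work.MP_552024_lc.HM
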