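import Pool.Agent.Work.MP_552024_lc.HM.Stmts

/-!
Item R9: the dimension of a space separated by a sphere.
-/

set_option autoImplicit false

namespace Pool.Agent.Work.MP_552024_lc.HM

open Metric Set Topology

namespace IR9

variable {F : Type} [NormedAddCommGroup F] [InnerProductSpace ℝ F] [FiniteDimensional ℝ F]

/-- a subspace of dimension at least two minus the origin is connected -/
theorem conn (U : Submodule ℝ F) (h : 2 ≤ Module.finrank ℝ U) :
    IsPreconnected ((U : Set F) \ {0}) := by
  have h1 : 1 < Module.rank ℝ U := by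
    rw [← Module.finrank_eq_rank]
    exact_mod_cast h
  have h2 : IsPreconnected ({(0 : U)}ᶜ : Set U) :=
    (isConnected_compl_singleton_of_one_lt_rank h1 0).isPreconnected
  have h3 := h2.image (fun z : U => (z : F)) continuous_subtype_val.continuousOn
  have h4 : (fun z : U => (z : F)) '' ({(0 : U)}ᶜ : Set U) = (U : Set F) \ {0} := by
    ext y
    constructor
    · rintro ⟨z, hz, rfl⟩
      refine ⟨z.2, fun h0 => hz ?_⟩
      exact Subtype.ext h0
    · rintro ⟨hy, hy0⟩
      refine ⟨⟨y, hy⟩, fun h0 => hy0 ?_, rfl⟩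
      exact congrArg Subtype.val h0
  rwa [h4] at h3

/-- the largest open set whose trace on `U` is contained in `M` -/
def inn (U M : Set F) : Set F := ⋃₀ {O | IsOpen O ∧ O ∩ U ⊆ M}

omit [InnerProductSpace ℝ F] [FiniteDimensional ℝ F] in
theorem isOpen_inn (U M : Set F) : IsOpen (inn U M) := isOpen_sUnion fun _ h => h.1

omit [InnerProductSpace ℝ F] [FiniteDimensional ℝ F] in
theorem mem_inn (U M : Set F) (y : F) : y ∈ inn U M ↔ M ∈ 𝓝[U] y := by
  rw [mem_nhdsWithin]
  constructor
  · rintro ⟨O, ⟨h1, h2⟩, h3⟩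
    exact ⟨O, h1, h3, h2⟩
  · rintro ⟨O, h1, h2, h3⟩
    exact ⟨O, ⟨h1, h3⟩, h2⟩

end IR9

open IR9 in
theorem pr_R9 : S_R9 := by
  intro h1 h4 h5 h6 h7 F _ _ _ n
  obtain ⟨hR1a, hR1b, -, -, -, -⟩ := h1 F
  induction n with
  | zero =>
    intro U M M' hM hM' hU hS hMU hMU'
    have hS0 : M ∩ M' = {0} := hS
    have hsub : M ⊆ (U : Set F) := hU ▸ subset_union_left
    have hsub' : M' ⊆ (U : Set F) := hU ▸ subset_union_right
    obtain ⟨y, hyU, hyM⟩ : ∃ y ∈ (U : Set F), y ∉ M := by
      by_contra h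
      push Not at h
      exact hMU (Subset.antisymm hsub h)
    obtain ⟨z, hzU, hzM⟩ : ∃ z ∈ (U : Set F), z ∉ M' := by
      by_contra h
      push Not at h
      exact hMU' (Subset.antisymm hsub' h)
    have hy0 : y ≠ 0 := fun h => hyM (h ▸ hM.1)
    have hz0 : z ≠ 0 := fun h => hzM (h ▸ hM'.1)
    have hyM' : y ∈ M' := by
      have : y ∈ M ∪ M' := hU ▸ hyU
      exact this.resolve_left hyM
    have hzM2 : z ∈ M := by
      have : z ∈ M ∪ M' := hU ▸ hzU
      exact this.resolve_right hzM
    have hlt : Module.finrank ℝ U < 2 := by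
      by_contra hge
      have hc := conn U (not_lt.1 hge)
      rw [isPreconnected_closed_iff] at hc
      obtain ⟨w, ⟨-, hw0⟩, hw⟩ := hc M M' (hR1b M hM) (hR1b M' hM')
        (fun w hw => hU ▸ hw.1) ⟨z, ⟨hzU, hz0⟩, hzM2⟩ ⟨y, ⟨hyU, hy0⟩, hyM'⟩
      rw [hS0] at hw
      exact hw0 hw
    have hpos : Module.finrank ℝ U ≠ 0 := by
      intro h0
      have hbot : U = ⊥ := Submodule.finrank_eq_zero.1 h0
      rw [hbot] at hyU
      exact hy0 ((Submodule.mem_bot ℝ).1 hyU)
    omega
  | succ n ih =>
    intro U M M' hM hM' hU hS hMU hMU'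
    have hsub : M ⊆ (U : Set F) := hU ▸ subset_union_left
    have hsub' : M' ⊆ (U : Set F) := hU ▸ subset_union_right
    have hSp : PolR (M ∩ M') := (hR1a M M' hM hM').2
    have hSU : M ∩ M' ⊆ (U : Set F) := inter_subset_left.trans hsub
    have hSne : M ∩ M' ≠ (U : Set F) := by
      intro h
      exact hMU (Subset.antisymm hsub (h ▸ inter_subset_left))
    obtain ⟨hle, heq⟩ := h7 F U (n + 1) (M ∩ M') hS hSU
    obtain ⟨-, -, hlk⟩ := hS
    by_cases hA : ∃ x ∈ M ∩ M', x ≠ 0 ∧ Lk x M ≠ Uper U x ∧ Lk x M' ≠ Uper U x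
    · obtain ⟨x, hx, hx0, hxM, hxM'⟩ := hA
      obtain ⟨hu, hi, -, hp, -, hUU, -, hdim⟩ := h4 F M M' x hM hM'
      obtain ⟨-, -, -, hp', -, -, -, -⟩ := h4 F M' M x hM' hM
      have hxU : x ∈ U := hSU hx
      have h8 : Lk x M ∪ Lk x M' = Uper U x := by
        rw [← hu, hU]
        exact hUU U hxU
      have h9 : HSp n (Lk x M ∩ Lk x M') := by
        rw [← hi]
        exact hlk x hx hx0
      have h10 := ih (Uper U x) (Lk x M) (Lk x M') (hp hx.1) (hp' hx.2) h8 h9 hxM hxM'
      have h11 := hdim U hxU hx0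
      omega
    · exfalso
      push Not at hA
      -- every nonzero point of `U` is interior to `M` or `M'`
      have hcov : (U : Set F) \ {0} ⊆ inn U M ∪ inn U M' := by
        rintro y ⟨hyU, hy0⟩
        by_cases hyM : y ∈ M
        · by_cases hyM' : y ∈ M'
          · by_cases hL : Lk y M = Uper U y
            · left
              rw [mem_inn]
              exact (h5 F M U y hM hsub hyU hy0).1.1 hL
            · right
              rw [mem_inn]
              exact (h5 F M' U y hM' hsub' hyU hy0).1.1 (hA y ⟨hyM, hyM'⟩ hy0 hL)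
          · left
            refine ⟨M'ᶜ, ⟨(hR1b M' hM').isOpen_compl, ?_⟩, hyM'⟩
            rintro w ⟨hw, hwU⟩
            have : w ∈ M ∪ M' := hU ▸ hwU
            exact this.resolve_right hw
        · right
          refine ⟨Mᶜ, ⟨(hR1b M hM).isOpen_compl, ?_⟩, hyM⟩
          rintro w ⟨hw, hwU⟩
          have : w ∈ M ∪ M' := hU ▸ hwU
          exact this.resolve_left hw
      have hno : ∀ y ∈ (U : Set F) \ {0}, y ∈ inn U M → y ∈ inn U M' → False := by
        rintro y ⟨hyU, hy0⟩ hy hy'
        rw [mem_inn] at hy hy'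
        have h8 : M ∩ M' ∈ 𝓝[(U : Set F)] y := Filter.inter_mem hy hy'
        have h9 : y ∈ M ∩ M' := mem_of_mem_nhdsWithin hyU h8
        have h10 : Lk y (M ∩ M') = Uper U y := (h5 F (M ∩ M') U y hSp hSU hyU hy0).1.2 h8
        have h11 : HSp n (Uper U y : Set F) := by
          rw [← h10]
          exact hlk y h9 hy0
        have h12 := (h6 F (Uper U y) n).1 h11
        have h13 := (h4 F M M' y hM hM').2.2.2.2.2.2.2 U hyU hy0
        exact hSne (heq (by omega))
      by_cases h2 : 2 ≤ Module.finrank ℝ U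
      · have hc := conn U h2 (inn U M) (inn U M') (isOpen_inn _ _) (isOpen_inn _ _) hcov
        have hnn : ¬ ((U : Set F) \ {0} ∩ (inn U M ∩ inn U M')).Nonempty := by
          rintro ⟨y, hy, hy1, hy2⟩
          exact hno y hy hy1 hy2
        by_cases hne : ((U : Set F) \ {0} ∩ inn U M).Nonempty
        · have hne' : ¬ ((U : Set F) \ {0} ∩ inn U M').Nonempty := fun h => hnn (hc hne h)
          apply hMU
          refine Subset.antisymm hsub fun y hyU => ?_
          by_cases hy0 : y = 0
          · rw [hy0]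
            exact hM.1
          · have hy1 : y ∈ inn U M := (hcov ⟨hyU, hy0⟩).resolve_right
              (fun h => hne' ⟨y, ⟨hyU, hy0⟩, h⟩)
            rw [mem_inn] at hy1
            exact mem_of_mem_nhdsWithin hyU hy1
        · apply hMU'
          refine Subset.antisymm hsub' fun y hyU => ?_
          by_cases hy0 : y = 0
          · rw [hy0]
            exact hM'.1
          · have hy1 : y ∈ inn U M' := (hcov ⟨hyU, hy0⟩).resolve_left
              (fun h => hne ⟨y, ⟨hyU, hy0⟩, h⟩)
            rw [mem_inn] at hy1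
            exact mem_of_mem_nhdsWithin hyU hy1
      · exact hSne (heq (by omega))

end Pool.Agent.Work.MP_552024_lc.HM
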