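import Pool.Agent.Work.MP_552024_lc.HM.Stmts
import Pool.Agent.Work.MP_552024_lc.HM.I_R7
import Pool.Agent.Work.MP_552024_lc.HM.I_R9

/-!
Item R8: two-sidedness.
-/

set_option autoImplicit false

namespace Pool.Agent.Work.MP_552024_lc.HM

open Metric Set Topology

namespace IR8

variable {F : Type} [NormedAddCommGroup F] [InnerProductSpace ℝ F] [FiniteDimensional ℝ F]

omit [FiniteDimensional ℝ F] in
/-- points of `M` outside `M'` are interior -/
theorem inn_of_not_mem {U : Submodule ℝ F} {M M' : Set F} (hU : M ∪ M' = U)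
    (hcl : IsClosed M') {y : F} (hy : y ∉ M') : y ∈ IR9.inn (U : Set F) M := by
  refine ⟨M'ᶜ, ⟨hcl.isOpen_compl, ?_⟩, hy⟩
  rintro w ⟨hw, hwU⟩
  have : w ∈ M ∪ M' := hU ▸ hwU
  exact this.resolve_right hw

omit [FiniteDimensional ℝ F] in
theorem mem_of_inn {U M : Set F} {y : F} (hy : y ∈ IR9.inn U M) (hyU : y ∈ U) : y ∈ M := by
  rw [IR9.mem_inn] at hy
  exact mem_of_mem_nhdsWithin hyU hy

/-- a set open and closed in a connected part -/
theorem fill {U : Submodule ℝ F} {M C : Set F} (hC : IsPreconnected C) (hCU : C ⊆ U)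
    (hcl : IsClosed M) (hin : ∀ y ∈ C, y ∈ M → y ∈ IR9.inn (U : Set F) M) {x : F} (hx : x ∈ C)
    (hxM : x ∈ M) : C ⊆ M := by
  by_contra hcon
  obtain ⟨z, hz, hzM⟩ := Set.not_subset.1 hcon
  obtain ⟨w, hw, hw1, hw2⟩ := hC (IR9.inn (U : Set F) M) Mᶜ (IR9.isOpen_inn _ _)
    hcl.isOpen_compl (fun y hy => by
      by_cases h : y ∈ M
      · exact Or.inl (hin y hy h)
      · exact Or.inr h) ⟨x, hx, hin x hx hxM⟩ ⟨z, hz, hzM⟩
  exact hw2 (mem_of_inn hw1 (hCU hw))

/-- the plane case -/
theorem two_rays {T0 : Set F} (hTS : TS 1 T0) (h0 : (0 : F) ∈ T0) {x0 : F} (hx0 : x0 ∈ T0)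
    (hne : x0 ≠ 0) : ∃ x' ∈ T0, x' ≠ 0 ∧ (∀ r : ℝ, 0 ≤ r → x0 ≠ r • x') ∧
      (∀ r : ℝ, 0 ≤ r → r • x' ∈ T0) ∧
      ∀ y ∈ T0, (∃ r : ℝ, 0 ≤ r ∧ y = r • x') ∨ ∃ r : ℝ, 0 < r ∧ y = r • x0 := by
  obtain ⟨f, g, h⟩ := hTS
  have hf0 : f x0 ≠ 0 := IR7.f_ne h h0 hx0 hne
  have hfr : Module.finrank ℝ (Eu 1) = 1 := by simp
  have key := (finrank_eq_one_iff_of_nonzero' (f x0) hf0).1 hfr
  have hx' : g (-f x0) ∈ T0 := h.mapsg _ (mem_univ _)
  have hfx' : f (g (-f x0)) = -f x0 := h.fg _ (mem_univ _)
  refine ⟨g (-f x0), hx', ?_, ?_, ?_, ?_⟩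
  · intro h1
    rw [h1, IR7.f_zero h h0] at hfx'
    exact hf0 (neg_eq_zero.1 hfx'.symm)
  · intro r hr h1
    have h2 := congrArg f h1
    rw [(h.homf _ hx' r hr).2, hfx', smul_neg] at h2
    have h3 : (1 + r) • f x0 = 0 := by
      rw [add_smul, one_smul]
      nth_rewrite 1 [h2]
      exact neg_add_cancel _
    rcases smul_eq_zero.1 h3 with h4 | h4
    · linarith
    · exact hf0 h4
  · intro r hr
    exact (h.homf _ hx' r hr).1
  · intro y hy
    obtain ⟨c, hc⟩ := key (f y)
    rcases lt_or_ge 0 c with hc0 | hc0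
    · right
      refine ⟨c, hc0, ?_⟩
      have h1 := h.gf y hy
      rw [← hc, ← (h.homf x0 hx0 c hc0.le).2, h.gf _ (h.homf x0 hx0 c hc0.le).1] at h1
      exact h1.symm
    · left
      refine ⟨-c, by linarith, ?_⟩
      have h1 := h.gf y hy
      have h2 : f y = f ((-c) • g (-f x0)) := by
        rw [(h.homf _ hx' (-c) (by linarith)).2, hfx', ← hc]
        simp
      rw [h2, h.gf _ (h.homf _ hx' (-c) (by linarith)).1] at h1
      exact h1.symm

omit [FiniteDimensional ℝ F] in
theorem conn_slit (U : Submodule ℝ F) {x' : F} (hx' : x' ∈ U) (hne : x' ≠ 0) :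
    IsPreconnected ((U : Set F) \ {y | ∃ r : ℝ, 0 ≤ r ∧ y = r • x'}) := by
  have hstar : StarConvex ℝ (-x') ((U : Set F) \ {y | ∃ r : ℝ, 0 ≤ r ∧ y = r • x'}) := by
    intro y hy a b ha hb hab
    refine ⟨?_, ?_⟩
    · exact U.add_mem (U.smul_mem a (U.neg_mem hx')) (U.smul_mem b hy.1)
    · rintro ⟨r, hr, h⟩
      rcases hb.eq_or_lt with hb0 | hb0
      · rw [← hb0, zero_smul, add_zero, smul_neg] at h
        have ha1 : a = 1 := by linarith
        rw [ha1, one_smul] at h
        have h3 : (1 + r) • x' = 0 := by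
          rw [add_smul, one_smul, ← h]
          exact add_neg_cancel _
        rcases smul_eq_zero.1 h3 with h4 | h4
        · linarith
        · exact hne h4
      · apply hy.2
        refine ⟨(r + a) / b, by positivity, ?_⟩
        have h2 : b • y = (r + a) • x' := by
          rw [add_smul, ← h, smul_neg]
          abel
        rw [div_eq_inv_mul, mul_smul, ← h2, smul_smul, inv_mul_cancel₀ hb0.ne', one_smul]
  refine (StarConvex.isPathConnected hstar ⟨U.neg_mem hx', ?_⟩).isConnected.isPreconnected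
  rintro ⟨r, hr, h⟩
  have h3 : (1 + r) • x' = 0 := by
    rw [add_smul, one_smul, ← h]
    exact add_neg_cancel _
  rcases smul_eq_zero.1 h3 with h4 | h4
  · linarith
  · exact hne h4

omit [FiniteDimensional ℝ F] in
theorem conn_sph {n : ℕ} {T0 : Set F} (hTS : TS (n + 2) T0) (h0 : (0 : F) ∈ T0) :
    IsPreconnected (T0 \ {0}) := by
  obtain ⟨f, g, h⟩ := hTS
  have h1 : 1 < Module.rank ℝ (Eu (n + 2)) := by
    rw [← Module.finrank_eq_rank]
    simp only [finrank_euclideanSpace, Fintype.card_fin]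
    exact_mod_cast (by omega : 1 < n + 2)
  have h2 : IsPreconnected ({(0 : Eu (n + 2))}ᶜ : Set (Eu (n + 2))) :=
    (isConnected_compl_singleton_of_one_lt_rank h1 0).isPreconnected
  have h3 := h2.image g (h.contg.mono (subset_univ _))
  have hg0 : g 0 = 0 := by
    have := h.gf 0 h0
    rwa [IR7.f_zero h h0] at this
  have h4 : g '' ({(0 : Eu (n + 2))}ᶜ : Set (Eu (n + 2))) = T0 \ {0} := by
    ext y
    constructor
    · rintro ⟨z, hz, rfl⟩
      refine ⟨h.mapsg z (mem_univ _), fun hy0 => hz ?_⟩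
      have h5 := h.fg z (mem_univ _)
      rw [mem_singleton_iff.1 hy0, IR7.f_zero h h0] at h5
      exact h5.symm
    · rintro ⟨hy, hy0⟩
      exact ⟨f y, fun hf => IR7.f_ne h h0 hy hy0 hf, h.gf y hy⟩
  rwa [h4] at h3

end IR8

open IR8 IR9 in
theorem pr_R8 : S_R8 := by
  intro h1 h2 h3 h4 h5 h6 F _ _ _ n
  obtain ⟨hR1a, hR1b, hR1c, -, -, -⟩ := h1 F
  induction n with
  | zero =>
    intro U M M' _ _ _ _ hS _ _ x hx hx0
    have hS0 : M ∩ M' = {0} := hS
    rw [hS0] at hx
    exact absurd hx hx0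
  | succ n ih =>
    intro U M M' hdimU hM hM' hU hS hMU hMU' x0 hx0 hx0ne hLk
    have hsub : M ⊆ (U : Set F) := hU ▸ subset_union_left
    have hsub' : M' ⊆ (U : Set F) := hU ▸ subset_union_right
    have hSp : PolR (M ∩ M') := (hR1a M M' hM hM').2
    have hSU : M ∩ M' ⊆ (U : Set F) := inter_subset_left.trans hsub
    obtain ⟨-, hTS, hlk⟩ := hS
    have hx0U : x0 ∈ U := hSU hx0
    have hx0inn : x0 ∈ inn (U : Set F) M := by
      rw [mem_inn]
      exact (h5 F M U x0 hM hsub hx0U hx0ne).1.1 hLk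
    -- homogeneity
    have hscale : ∀ y ∈ U, y ≠ 0 → ∀ c : ℝ, 0 < c → (c • y ∈ inn (U : Set F) M ↔
        y ∈ inn (U : Set F) M) := by
      intro y hyU hy0 c hc
      rw [mem_inn, mem_inn, ← (h5 F M U y hM hsub hyU hy0).1,
        ← (h5 F M U (c • y) hM hsub (U.smul_mem c hyU) (smul_ne_zero hc.ne' hy0)).1]
      have e1 : Lk (c • y) M = Lk y M := (h4 F M M' y hM hM').2.2.2.2.1 c hc
      have e2 : Lk (c • y) (U : Set F) = Lk y (U : Set F) := by
        have hUp : PolR (U : Set F) := (h1 F).2.2.2.2.1 U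
        exact (h4 F (U : Set F) M' y hUp hM').2.2.2.2.1 c hc
      have e3 : Lk y (U : Set F) = Uper U y := (h4 F M M' y hM hM').2.2.2.2.2.1 U hyU
      have e4 : Lk (c • y) (U : Set F) = Uper U (c • y) :=
        (h4 F M M' (c • y) hM hM').2.2.2.2.2.1 U (U.smul_mem c hyU)
      rw [e1, ← e4, e2, e3]
    rcases Nat.eq_zero_or_pos n with hn | hn
    · subst hn
      obtain ⟨x', hx'S, hx'0, hx'1, hx'2, hx'3⟩ := two_rays hTS hSp.1 hx0 hx0ne
      have hsubR : (U : Set F) \ {y | ∃ r : ℝ, 0 ≤ r ∧ y = r • x'} ⊆ M := by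
        refine fill (conn_slit U (hSU hx'S) hx'0) sdiff_subset (hR1b M hM) ?_
          (x := x0) ⟨hx0U, ?_⟩ hx0.1
        · rintro y ⟨hyU, hyR⟩ hyM
          by_cases hyM' : y ∈ M'
          · rcases hx'3 y ⟨hyM, hyM'⟩ with h | ⟨r, hr, rfl⟩
            · exact absurd h hyR
            · exact (hscale x0 hx0U hx0ne r hr).2 hx0inn
          · exact inn_of_not_mem hU (hR1b M' hM') hyM'
        · rintro ⟨r, hr, h⟩
          exact hx'1 r hr h
      apply hMU
      refine Subset.antisymm hsub fun y hyU => ?_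
      by_cases hyR : ∃ r : ℝ, 0 ≤ r ∧ y = r • x'
      · obtain ⟨r, hr, rfl⟩ := hyR
        exact (hx'2 r hr).1
      · exact hsubR ⟨hyU, hyR⟩
    · obtain ⟨k, rfl⟩ : ∃ k, n = k + 1 := ⟨n - 1, by omega⟩
      have hcS := conn_sph hTS hSp.1
      -- every nonzero point of the sphere is interior to `M`
      have hall : (M ∩ M') \ {0} ⊆ inn (U : Set F) M := by
        set O' : Set F := ⋃₀ {O | IsOpen O ∧ ∀ y ∈ O, y ∈ (M ∩ M') \ {0} →
          y ∉ inn (U : Set F) M} with hO'
        have hO'o : IsOpen O' := isOpen_sUnion fun _ h => h.1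
        have hcov : (M ∩ M') \ {0} ⊆ inn (U : Set F) M ∪ O' := by
          rintro x ⟨hx, hxne⟩
          by_cases hxi : x ∈ inn (U : Set F) M
          · exact Or.inl hxi
          right
          have hxU : x ∈ U := hSU hx
          have hxne' : x ≠ 0 := hxne
          have hLx : Lk x M ≠ Uper U x := by
            intro h
            apply hxi
            rw [mem_inn]
            exact (h5 F M U x hM hsub hxU hxne').1.1 h
          by_cases hLx' : Lk x M' = Uper U x
          · -- `M'` is a neighbourhood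
            refine ⟨inn (U : Set F) M', ⟨isOpen_inn _ _, ?_⟩, ?_⟩
            · rintro y hy ⟨hyS, hy0⟩ hyi
              have hyU : y ∈ U := hSU hyS
              rw [mem_inn] at hy hyi
              have h8 : M ∩ M' ∈ 𝓝[(U : Set F)] y := Filter.inter_mem hyi hy
              have h10 : Lk y (M ∩ M') = Uper U y := (h5 F (M ∩ M') U y hSp hSU hyU hy0).1.2 h8
              have h11 : HSp (k + 1) (Uper U y : Set F) := by
                rw [← h10]
                exact hlk y hyS hy0
              have h12 := (h6 F (Uper U y) (k + 1)).1 h11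
              have h13 := (h4 F M M' y hM hM').2.2.2.2.2.2.2 U hyU hy0
              omega
            · rw [mem_inn]
              exact (h5 F M' U x hM' hsub' hxU hxne').1.1 hLx'
          · -- induction hypothesis
            obtain ⟨hu, hi, -, hp, -, hUU, -, hdim⟩ := h4 F M M' x hM hM'
            obtain ⟨-, -, -, hp', -, -, -, -⟩ := h4 F M' M x hM' hM
            have g8 : Lk x M ∪ Lk x M' = Uper U x := by
              rw [← hu, hU]
              exact hUU U hxU
            have g9 : HSp (k + 1) (Lk x M ∩ Lk x M') := by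
              rw [← hi]
              exact hlk x hx hxne'
            have g11 := hdim U hxU hxne'
            have g10 := ih (Uper U x) (Lk x M) (Lk x M') (by omega) (hp hx.1) (hp' hx.2) g8 g9
              hLx hLx'
            have hsubL : Lk x M ⊆ (Uper U x : Set F) := g8 ▸ subset_union_left
            obtain ⟨ε₁, hε₁, hA⟩ := (h5 F M U x hM hsub hxU hxne').2
            obtain ⟨ε₂, hε₂, hB⟩ := h2 F (M ∩ M') hSp x
            have hxx : inner ℝ x x ≠ (0 : ℝ) := inner_self_ne_zero.2 hxne'
            -- the coordinates near `x`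
            let c : F → ℝ := fun y => inner ℝ x y / inner ℝ x x
            have hc : Continuous c := by
              show Continuous fun y => inner ℝ x y / inner ℝ x x
              fun_prop
            have hcx : c x = 1 := div_self hxx
            have hev : ∀ᶠ y in 𝓝 x, 0 < c y ∧ ‖(c y)⁻¹ • y - x‖ < min ε₁ ε₂ := by
              have t1 : Filter.Tendsto c (𝓝 x) (𝓝 1) := hcx ▸ hc.continuousAt
              have t2 : Filter.Tendsto (fun y => ‖(c y)⁻¹ • y - x‖) (𝓝 x) (𝓝 0) := by
                have t3 : Filter.Tendsto (fun y => (c y)⁻¹ • y - x) (𝓝 x) (𝓝 (((1 : ℝ))⁻¹ • x - x)) :=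
                  ((t1.inv₀ one_ne_zero).smul Filter.tendsto_id).sub tendsto_const_nhds
                rw [inv_one, one_smul, sub_self] at t3
                simpa using t3.norm
              exact (t1.eventually (lt_mem_nhds one_pos)).and
                (t2.eventually (gt_mem_nhds (lt_min hε₁ hε₂)))
            obtain ⟨O, hOsub, hOo, hxO⟩ := _root_.mem_nhds_iff.1 hev
            refine ⟨O, ⟨hOo, ?_⟩, hxO⟩
            rintro y hyO ⟨hyS, hy0⟩ hyi
            obtain ⟨hcpos, hvn⟩ := hOsub hyO
            have hyU : y ∈ U := hSU hyS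
            have hcinv : 0 < (c y)⁻¹ := inv_pos.2 hcpos
            set v : F := (c y)⁻¹ • y - x with hv
            have hxv : x + v = (c y)⁻¹ • y := by rw [hv]; abel
            have hvU : v ∈ U := U.sub_mem (U.smul_mem _ hyU) hxU
            have hvx : inner ℝ x v = (0 : ℝ) := by
              rw [hv, inner_sub_right, inner_smul_right]
              show (inner ℝ x y / inner ℝ x x)⁻¹ * inner ℝ x y - inner ℝ x x = 0
              have hxy : inner ℝ x y ≠ (0 : ℝ) := by
                intro h
                have : c y = 0 := by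
                  show inner ℝ x y / inner ℝ x x = 0
                  rw [h, zero_div]
                linarith
              field_simp
              ring
            have hvUper : v ∈ Uper U x := by
              refine ⟨hvU, ?_⟩
              exact (Submodule.mem_orthogonal_singleton_iff_inner_right).2 hvx
            have hxvS : x + v ∈ M ∩ M' := by
              rw [hxv]
              exact hR1c _ hSp y hyS _ hcinv.le
            have hxvi : x + v ∈ inn (U : Set F) M := by
              rw [hxv]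
              exact (hscale y hyU hy0 _ hcinv).2 hyi
            by_cases hv0 : v = 0
            · rw [hv0, add_zero] at hxvi
              exact hxi hxvi
            · have hvL : v ∈ Lk x M ∩ Lk x M' := by
                rw [← hi]
                exact ⟨hvx, (hB v (hvn.trans_le (min_le_right _ _))).1 hxvS⟩
              rw [mem_inn] at hxvi
              have h20 := hA v hvUper (hvn.trans_le (min_le_left _ _)) hxvi
              refine g10 v hvL hv0 ?_
              exact (h5 F (Lk x M) (Uper U x) v (hp hx.1) hsubL hvUper hv0).1.2 h20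
        intro z hz
        rcases hcov hz with h | h
        · exact h
        · exfalso
          obtain ⟨w, hw, hw1, hw2⟩ := hcS (inn (U : Set F) M) O' (isOpen_inn _ _) hO'o hcov
            ⟨x0, ⟨hx0, hx0ne⟩, hx0inn⟩ ⟨z, hz, h⟩
          obtain ⟨O, ⟨_, hO⟩, hwO⟩ := hw2
          exact hO w hwO hw hw1
      have hcU := IR9.conn U (by omega)
      have hfull : (U : Set F) \ {0} ⊆ M := by
        refine fill hcU sdiff_subset (hR1b M hM) ?_ (x := x0) ⟨hx0U, hx0ne⟩ hx0.1
        rintro y ⟨hyU, hy0⟩ hyM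
        by_cases hyM' : y ∈ M'
        · exact hall ⟨⟨hyM, hyM'⟩, hy0⟩
        · exact inn_of_not_mem hU (hR1b M' hM') hyM'
      apply hMU
      refine Subset.antisymm hsub fun y hyU => ?_
      by_cases hy0 : y = 0
      · rw [hy0]; exact hM.1
      · exact hfull ⟨hyU, hy0⟩

end Pool.Agent.Work.MP_552024_lc.HM
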