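import Pool.Agent.Work.MP_552024_lc.HM.Stmts

/-! Item T1 (helper10): half space charts give local collars. -/

set_option autoImplicit false

namespace Pool.Agent.Work.MP_552024_lc.HM

open Metric Set Topology

namespace IT1

theorem compact_box (n : ℕ) : IsCompact (BoxC n) :=
  (isCompact_closedBall 0 1).prod isCompact_Icc

theorem box_sub (n : ℕ) : BoxO n ⊆ BoxC n :=
  prod_mono ball_subset_closedBall Ico_subset_Icc_self

end IT1

theorem pr_T1 : S_T1 := by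
  classical
  intro X _ n M S hSM hL p hp
  obtain ⟨ψ, hc, hinj, hmaps, h0, hS, O, hO, hOM⟩ := hL p hp
  have hpO : p ∈ O ∩ M := by
    rw [hOM]
    refine ⟨(0, 0), ⟨by simp, by simp⟩, h0⟩
  obtain ⟨r, hr, hrO⟩ := Metric.nhds_basis_closedBall.mem_iff.mp (hO.mem_nhds hpO.1)
  let inv : X → Eu n × ℝ := Function.invFunOn ψ (BoxC n)
  have hinv : ∀ z ∈ BoxC n, inv (ψ z) = z := fun z hz => hinj.leftInvOn_invFunOn hz
  have hcinv : ContinuousOn inv (ψ '' BoxC n) := by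
    rw [continuousOn_iff_isClosed]
    intro t ht
    refine ⟨ψ '' (BoxC n ∩ t), ?_, ?_⟩
    · exact (((IT1.compact_box n).inter_right ht).image_of_continuousOn
        (hc.mono inter_subset_left)).isClosed
    · ext y
      constructor
      · rintro ⟨h1, z, hz, rfl⟩
        have h2 : inv (ψ z) ∈ t := h1
        rw [hinv z hz] at h2
        exact ⟨⟨z, ⟨hz, h2⟩, rfl⟩, ⟨z, hz, rfl⟩⟩
      · rintro ⟨⟨z, ⟨hz, h2⟩, rfl⟩, h3⟩
        refine ⟨?_, h3⟩
        change inv (ψ z) ∈ t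
        rw [hinv z hz]; exact h2
  have hcl : closure (ball p r) ⊆ closedBall p r := closure_ball_subset_closedBall
  have hx : ∀ x ∈ S ∩ closure (ball p r), ∃ z ∈ BoxO n, ψ z = x ∧ inv x = z ∧ z.2 = 0 := by
    rintro x ⟨hxS, hxU⟩
    have h1 : x ∈ O ∩ M := ⟨hrO (hcl hxU), hSM hxS⟩
    rw [hOM] at h1
    obtain ⟨z, hz, rfl⟩ := h1
    exact ⟨z, hz, rfl, hinv z (IT1.box_sub n hz), (hS z (IT1.box_sub n hz)).mp hxS⟩
  have hmap : ∀ q ∈ (S ∩ closure (ball p r)) ×ˢ Icc (0 : ℝ) 1,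
      ((inv q.1).1, q.2) ∈ BoxC n := by
    rintro ⟨x, t⟩ ⟨h1, h2⟩
    obtain ⟨z, hz, -, h3, -⟩ := hx x h1
    refine ⟨?_, h2⟩
    simp only [h3]
    exact (IT1.box_sub n hz).1
  refine ⟨ball p r, isOpen_ball, mem_ball_self hr, fun q => ψ ((inv q.1).1, q.2), ?_, ?_, ?_, ?_,
    ?_, ?_⟩
  · -- continuity
    apply hc.comp _ hmap
    apply ContinuousOn.prodMk
    · apply continuous_fst.comp_continuousOn
      apply hcinv.comp continuousOn_fst
      rintro ⟨x, t⟩ ⟨h1, -⟩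
      obtain ⟨z, hz, h3, -, -⟩ := hx x h1
      exact ⟨z, IT1.box_sub n hz, h3⟩
    · exact continuousOn_snd
  · -- injectivity
    rintro ⟨x, t⟩ h1 ⟨x', t'⟩ h1' h
    have h2 := hinj (hmap _ h1) (hmap _ h1') h
    obtain ⟨z, hz, h3, h4, h5⟩ := hx x h1.1
    obtain ⟨z', hz', h3', h4', h5'⟩ := hx x' h1'.1
    simp only [h4, h4', Prod.mk.injEq] at h2
    have h6 : z = z' := Prod.ext h2.1 (by rw [h5, h5'])
    have h7 : x = x' := by rw [← h3, ← h3', h6]
    exact Prod.ext h7 h2.2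
  · intro q hq
    exact hmaps (hmap q hq)
  · intro x h1
    obtain ⟨z, hz, h3, h4, h5⟩ := hx x h1
    simp only [h4]
    rw [← h5, Prod.mk.eta, h3]
  · intro x h1 t ht h2
    exact (hS _ (hmap (x, t) ⟨h1, ht⟩)).mp h2
  · -- the open part
    let N : Set (Eu n × ℝ) := {z | z ∈ BoxO n ∧ ψ (z.1, 0) ∈ ball p r}
    have hz0 : ∀ z ∈ BoxC n, (z.1, (0 : ℝ)) ∈ BoxC n := fun z hz => ⟨hz.1, by simp⟩
    have hNc : IsClosed (BoxC n \ N) := by
      have h1 : BoxC n \ N = (BoxC n ∩ (ball (0 : Eu n) 1 ×ˢ Iio (1 : ℝ))ᶜ) ∪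
          (BoxC n ∩ (fun z : Eu n × ℝ => ψ (z.1, 0)) ⁻¹' (ball p r)ᶜ) := by
        ext z
        constructor
        · rintro ⟨hz, hzN⟩
          by_cases h2 : z ∈ BoxO n
          · right
            refine ⟨hz, fun h3 => hzN ⟨h2, h3⟩⟩
          · left
            refine ⟨hz, fun h3 => h2 ⟨h3.1, hz.2.1, h3.2⟩⟩
        · rintro (⟨hz, h2⟩ | ⟨hz, h2⟩)
          · exact ⟨hz, fun h3 => h2 ⟨h3.1.1, h3.1.2.2⟩⟩
          · exact ⟨hz, fun h3 => h2 h3.2⟩
      rw [h1]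
      apply IsClosed.union
      · exact (IT1.compact_box n).isClosed.inter (isOpen_ball.prod isOpen_Iio).isClosed_compl
      · apply ContinuousOn.preimage_isClosed_of_isClosed _ (IT1.compact_box n).isClosed
          isOpen_ball.isClosed_compl
        exact hc.comp (by fun_prop) hz0
    have hK : IsClosed (ψ '' (BoxC n \ N)) :=
      (((IT1.compact_box n).of_isClosed_subset hNc diff_subset).image_of_continuousOn
        (hc.mono diff_subset)).isClosed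
    refine ⟨O \ ψ '' (BoxC n \ N), hO.sdiff hK, ?_⟩
    ext y
    constructor
    · rintro ⟨⟨hyO, hyK⟩, hyM⟩
      have h1 : y ∈ O ∩ M := ⟨hyO, hyM⟩
      rw [hOM] at h1
      obtain ⟨z, hz, rfl⟩ := h1
      have hzN : z ∈ N := by
        by_contra h2
        exact hyK ⟨z, ⟨IT1.box_sub n hz, h2⟩, rfl⟩
      refine ⟨(ψ (z.1, 0), z.2), ⟨⟨?_, hzN.2⟩, hz.2⟩, ?_⟩
      · exact (hS _ (hz0 z (IT1.box_sub n hz))).mpr rfl
      · simp only
        rw [hinv _ (hz0 z (IT1.box_sub n hz))]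
    · rintro ⟨⟨x, t⟩, ⟨⟨hxS, hxU⟩, ht⟩, rfl⟩
      obtain ⟨z, hz, h3, h4, h5⟩ := hx x ⟨hxS, subset_closure hxU⟩
      simp only [h4]
      have h6 : (z.1, t) ∈ BoxO n := ⟨hz.1, ht⟩
      have h7 : (z.1, t) ∈ N := by
        refine ⟨h6, ?_⟩
        have : (z.1, (0 : ℝ)) = z := by rw [← h5]
        simp only [this, h3]
        exact hxU
      have h8 : ψ (z.1, t) ∈ O ∩ M := by rw [hOM]; exact ⟨_, h6, rfl⟩
      refine ⟨⟨h8.1, ?_⟩, h8.2⟩
      rintro ⟨z', ⟨hz', hzN'⟩, h9⟩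
      have := hinj hz' (IT1.box_sub n h6) h9
      exact hzN' (this ▸ h7)

end Pool.Agent.Work.MP_552024_lc.HM
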