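import Pool.Agent.Work.MP_552024_lc.HM.Stmts

/-!
# Item [552024 HM T10]: radial squeezing inside the unit ball (helper51)
-/

set_option autoImplicit false

namespace Pool.Agent.Work.MP_552024_lc.HM

open Metric Set Topology

namespace IT10

/-- the radial map of a function of the norm -/
noncomputable def rad {n : ℕ} (k : ℝ → ℝ) (z : Eu n) : Eu n := (k ‖z‖ / ‖z‖) • z

theorem norm_rad {n : ℕ} (k : ℝ → ℝ) (h0 : k 0 = 0) (hp : ∀ s, 0 ≤ s → 0 ≤ k s) (z : Eu n) :
    ‖rad k z‖ = k ‖z‖ := by
  unfold rad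
  rcases eq_or_ne z 0 with rfl | hz
  · simp [h0]
  · have h1 : 0 < ‖z‖ := norm_pos_iff.2 hz
    rw [norm_smul, Real.norm_eq_abs, abs_of_nonneg (div_nonneg (hp _ h1.le) h1.le)]
    field_simp

theorem rad_cont {n : ℕ} (k : ℝ → ℝ) (hk : Continuous k) (h0 : k 0 = 0)
    (hp : ∀ s, 0 ≤ s → 0 ≤ k s) : Continuous (rad k : Eu n → Eu n) := by
  rw [continuous_iff_continuousAt]
  intro z
  rcases eq_or_ne z 0 with rfl | hz
  · have h1 : rad k (0 : Eu n) = 0 := by unfold rad; simp
    rw [ContinuousAt, h1, tendsto_zero_iff_norm_tendsto_zero]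
    have h2 : (fun z : Eu n => ‖rad k z‖) = fun z => k ‖z‖ := funext fun z => norm_rad k h0 hp z
    rw [h2]
    have h3 : Continuous fun z : Eu n => k ‖z‖ := hk.comp continuous_norm
    have h4 := h3.tendsto (0 : Eu n)
    rwa [norm_zero, h0] at h4
  · unfold rad
    have h1 : ‖z‖ ≠ 0 := norm_ne_zero_iff.2 hz
    exact ((hk.continuousAt.comp continuous_norm.continuousAt).div
      continuous_norm.continuousAt h1).smul continuousAt_id

theorem rad_inv {n : ℕ} (k k' : ℝ → ℝ) (h0 : k 0 = 0) (h0' : k' 0 = 0)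
    (hp : ∀ s, 0 ≤ s → 0 ≤ k s) (h1 : ∀ s, 0 ≤ s → k' (k s) = s) (z : Eu n) :
    rad k' (rad k z) = z := by
  rcases eq_or_ne z 0 with rfl | hz
  · unfold rad
    simp
  · have h2 : 0 < ‖z‖ := norm_pos_iff.2 hz
    have h3 : k ‖z‖ ≠ 0 := by
      intro h
      have h4 := h1 ‖z‖ h2.le
      rw [h, h0'] at h4
      exact h2.ne h4
    have h5 := norm_rad k h0 hp z
    unfold rad at h5 ⊢
    rw [h5, h1 _ h2.le, smul_smul]
    have h6 : ‖z‖ / k ‖z‖ * (k ‖z‖ / ‖z‖) = 1 := by
      field_simp
    rw [h6, one_smul]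

/-- the piecewise linear function -/
noncomputable def kf (c M s : ℝ) : ℝ := min s (max (c * s) (1 - M * (1 - s)))

/-- its inverse -/
noncomputable def kg (c M t : ℝ) : ℝ := max t (min (t / c) (1 - (1 - t) / M))

theorem kg_kf (c M : ℝ) (hc : 0 < c) (hM : 0 < M) (s : ℝ) : kg c M (kf c M s) = s := by
  have hA : ∀ x y : ℝ, x ≤ c * y ↔ x / c ≤ y := fun x y => by rw [div_le_iff₀ hc, mul_comm]
  have hB : ∀ x y : ℝ, x ≤ 1 - M * (1 - y) ↔ 1 - (1 - x) / M ≤ y := fun x y => by
    rw [sub_le_comm, le_div_iff₀ hM]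
    constructor <;> intro h <;> linarith
  have hA' : ∀ x y : ℝ, c * y ≤ x ↔ y ≤ x / c := fun x y => by rw [le_div_iff₀ hc, mul_comm]
  have hB' : ∀ x y : ℝ, 1 - M * (1 - y) ≤ x ↔ y ≤ 1 - (1 - x) / M := fun x y => by
    rw [le_sub_comm, div_le_iff₀ hM]
    constructor <;> intro h <;> linarith
  apply le_antisymm
  · unfold kg
    apply max_le
    · exact min_le_left _ _
    · rcases le_total (c * s) (1 - M * (1 - s)) with h | h
      · apply (min_le_right _ _).trans
        rw [← hB]
        unfold kf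
        exact (min_le_right _ _).trans (max_le h le_rfl)
      · apply (min_le_left _ _).trans
        rw [← hA]
        unfold kf
        exact (min_le_right _ _).trans (max_le le_rfl h)
  · unfold kg
    rcases le_total s (max (c * s) (1 - M * (1 - s))) with h | h
    · have : kf c M s = s := min_eq_left h
      rw [this]
      exact le_max_left _ _
    · have h1 : kf c M s = max (c * s) (1 - M * (1 - s)) := min_eq_right h
      rw [h1]
      apply le_max_of_le_right
      apply le_min
      · rw [← hA']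
        exact le_max_left _ _
      · rw [← hB']
        exact le_max_right _ _

theorem kf_kg (c M : ℝ) (hc : 0 < c) (hM : 0 < M) (t : ℝ) : kf c M (kg c M t) = t := by
  have hA : ∀ x y : ℝ, x ≤ c * y ↔ x / c ≤ y := fun x y => by rw [div_le_iff₀ hc, mul_comm]
  have hB : ∀ x y : ℝ, x ≤ 1 - M * (1 - y) ↔ 1 - (1 - x) / M ≤ y := fun x y => by
    rw [sub_le_comm, le_div_iff₀ hM]
    constructor <;> intro h <;> linarith
  have hA' : ∀ x y : ℝ, c * y ≤ x ↔ y ≤ x / c := fun x y => by rw [le_div_iff₀ hc, mul_comm]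
  have hB' : ∀ x y : ℝ, 1 - M * (1 - y) ≤ x ↔ y ≤ 1 - (1 - x) / M := fun x y => by
    rw [le_sub_comm, div_le_iff₀ hM]
    constructor <;> intro h <;> linarith
  apply le_antisymm
  · unfold kf
    rcases le_total t (min (t / c) (1 - (1 - t) / M)) with h | h
    · have h1 : kg c M t = min (t / c) (1 - (1 - t) / M) := max_eq_right h
      rw [h1]
      apply min_le_of_right_le
      apply max_le
      · rw [hA']
        exact min_le_left _ _
      · rw [hB']
        exact min_le_right _ _
    · have : kg c M t = t := max_eq_left h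
      rw [this]
      exact min_le_left _ _
  · unfold kf
    apply le_min
    · exact le_max_left _ _
    · rcases le_total (t / c) (1 - (1 - t) / M) with h | h
      · apply le_max_of_le_left
        rw [hA]
        unfold kg
        exact (le_min le_rfl h).trans (le_max_right _ _)
      · apply le_max_of_le_right
        rw [hB]
        unfold kg
        exact (le_min h le_rfl).trans (le_max_right _ _)

theorem kf_cont (c M : ℝ) : Continuous (kf c M) := by
  unfold kf
  fun_prop

theorem kg_cont (c M : ℝ) : Continuous (kg c M) := by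
  unfold kg
  fun_prop

end IT10

theorem pr_T10 : S_T10 := by
  intro n K hK hK1 r hr
  obtain ⟨R, hR1, hR⟩ : ∃ R : ℝ, R < 1 ∧ ∀ z ∈ K, ‖z‖ ≤ R := by
    rcases K.eq_empty_or_nonempty with h | h
    · exact ⟨0, one_pos, by simp [h]⟩
    · obtain ⟨z0, hz0, hmax⟩ := hK.exists_isMaxOn h continuous_norm.continuousOn
      refine ⟨‖z0‖, ?_, fun z hz => hmax hz⟩
      have := hK1 hz0
      rwa [mem_ball_zero_iff] at this
  set c : ℝ := min 1 (r / 2) with hc
  set M : ℝ := max 1 (1 / (1 - R)) with hM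
  have hc0 : 0 < c := lt_min one_pos (by linarith)
  have hc1 : c ≤ 1 := min_le_left _ _
  have hcr : c < r := lt_of_le_of_lt (min_le_right _ _) (by linarith)
  have hM1 : 1 ≤ M := le_max_left _ _
  have hM0 : 0 < M := by linarith
  have hMR : 1 ≤ M * (1 - R) := by
    have h1 : 1 / (1 - R) ≤ M := le_max_right _ _
    rwa [div_le_iff₀ (by linarith)] at h1
  have f0 : IT10.kf c M 0 = 0 := by
    unfold IT10.kf
    apply min_eq_left
    simp
  have g0 : IT10.kg c M 0 = 0 := by
    have h := IT10.kg_kf c M hc0 hM0 0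
    rwa [f0] at h
  have fp : ∀ s, 0 ≤ s → 0 ≤ IT10.kf c M s := fun s hs =>
    le_min hs (le_max_of_le_left (by positivity))
  have gp : ∀ t, 0 ≤ t → 0 ≤ IT10.kg c M t := fun t ht => le_max_of_le_left ht
  let ρ : Eu n ≃ₜ Eu n :=
    { toFun := IT10.rad (IT10.kf c M)
      invFun := IT10.rad (IT10.kg c M)
      left_inv := fun z => IT10.rad_inv _ _ f0 g0 fp (fun s _ => IT10.kg_kf c M hc0 hM0 s) z
      right_inv := fun z => IT10.rad_inv _ _ g0 f0 gp (fun s _ => IT10.kf_kg c M hc0 hM0 s) z
      continuous_toFun := IT10.rad_cont _ (IT10.kf_cont c M) f0 fp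
      continuous_invFun := IT10.rad_cont _ (IT10.kg_cont c M) g0 gp }
  refine ⟨ρ, fun z hz => ?_, fun z hz => ?_⟩
  · show IT10.rad (IT10.kf c M) z = z
    have h1 : IT10.kf c M ‖z‖ = ‖z‖ := by
      unfold IT10.kf
      apply min_eq_left
      apply le_max_of_le_right
      nlinarith
    unfold IT10.rad
    rw [h1, div_self (by linarith), one_smul]
  · show ‖IT10.rad (IT10.kf c M) z‖ < r
    rw [IT10.norm_rad _ f0 fp]
    have h1 := hR z hz
    have h2 := norm_nonneg z
    unfold IT10.kf
    apply min_lt_of_right_lt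
    apply max_lt
    · nlinarith
    · nlinarith

end Pool.Agent.Work.MP_552024_lc.HM
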