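import Pool.Agent.Work.MP_552024_lc.HM.Stmts

/-! Item [552024 HM T11] (helper38): extension by the identity of a homeomorphism of a cell. -/

set_option autoImplicit false

namespace Pool.Agent.Work.MP_552024_lc.HM

open Metric Set Topology

namespace IT11

section
variable {n : ℕ} {X : Type} [TopologicalSpace X] [T2Space X] {σ : Eu n → X}

open Classical in
/-- The extension by the identity. -/
noncomputable def ext (σ : Eu n → X) (ρ : Eu n ≃ₜ Eu n) (x : X) : X :=
  if x ∈ σ '' closedBall 0 1 then σ (ρ (Function.invFunOn σ (closedBall 0 1) x)) else x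

theorem symm_fix {ρ : Eu n ≃ₜ Eu n} (h : ∀ z, 1 ≤ ‖z‖ → ρ z = z) :
    ∀ z, 1 ≤ ‖z‖ → ρ.symm z = z := by
  intro z hz
  rw [ρ.symm_apply_eq, h z hz]

theorem maps_closed {ρ : Eu n ≃ₜ Eu n} (h : ∀ z, 1 ≤ ‖z‖ → ρ z = z) {z : Eu n}
    (hz : z ∈ closedBall (0 : Eu n) 1) : ρ z ∈ closedBall (0 : Eu n) 1 := by
  by_contra hc
  rw [mem_closedBall_zero_iff, not_le] at hc
  have h1 : ρ z = z := ρ.injective (h _ hc.le)
  rw [h1] at hc
  rw [mem_closedBall_zero_iff] at hz
  exact absurd hz (not_le.2 hc)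

theorem ext_cell (hi : InjOn σ (closedBall 0 1)) (ρ : Eu n ≃ₜ Eu n) {z : Eu n}
    (hz : z ∈ closedBall (0 : Eu n) 1) : ext σ ρ (σ z) = σ (ρ z) := by
  classical
  unfold ext
  rw [if_pos (mem_image_of_mem σ hz)]
  have h1 : Function.invFunOn σ (closedBall 0 1) (σ z) = z := hi.leftInvOn_invFunOn hz
  rw [h1]

theorem ext_off {ρ : Eu n ≃ₜ Eu n} (hi : InjOn σ (closedBall 0 1)) (h : ∀ z, 1 ≤ ‖z‖ → ρ z = z)
    {x : X} (hx : x ∉ σ '' ball 0 1) : ext σ ρ x = x := by
  classical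
  by_cases hc : x ∈ σ '' closedBall 0 1
  · obtain ⟨z, hz, rfl⟩ := hc
    rw [ext_cell hi ρ hz]
    have h1 : 1 ≤ ‖z‖ := by
      by_contra h2
      exact hx ⟨z, mem_ball_zero_iff.2 (not_le.1 h2), rfl⟩
    rw [h z h1]
  · unfold ext
    rw [if_neg hc]

theorem ext_cont {ρ : Eu n ≃ₜ Eu n} (hc : ContinuousOn σ (closedBall 0 1))
    (hi : InjOn σ (closedBall 0 1)) (ho : IsOpen (σ '' ball 0 1))
    (h : ∀ z, 1 ≤ ‖z‖ → ρ z = z) : Continuous (ext σ ρ) := by
  have : CompactSpace ↥(closedBall (0 : Eu n) 1) :=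
    isCompact_iff_compactSpace.1 (isCompact_closedBall 0 1)
  have hs : Continuous ((closedBall (0 : Eu n) 1).domRestrict σ) :=
    continuousOn_iff_continuous_domRestrict.1 hc
  have hinj : Function.Injective ((closedBall (0 : Eu n) 1).domRestrict σ) :=
    injOn_iff_injective.1 hi
  have hemb := hs.isClosedEmbedding hinj
  have hr : range ((closedBall (0 : Eu n) 1).domRestrict σ) = σ '' closedBall 0 1 := range_domRestrict _ _
  have hcl : IsClosed (σ '' closedBall (0 : Eu n) 1) := hr ▸ hemb.isClosed_range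
  have h1 : ContinuousOn (ext σ ρ) (σ '' closedBall 0 1) := by
    rw [continuousOn_iff_continuous_domRestrict]
    have hq : IsQuotientMap (fun z : ↥(closedBall (0 : Eu n) 1) =>
        (⟨σ z, mem_image_of_mem σ z.2⟩ : ↥(σ '' closedBall (0 : Eu n) 1))) := by
      have hcc : Continuous (fun z : ↥(closedBall (0 : Eu n) 1) =>
        (⟨σ z, mem_image_of_mem σ z.2⟩ : ↥(σ '' closedBall (0 : Eu n) 1))) :=
        Continuous.subtype_mk hs _
      refine (hcc.isClosedMap).isQuotientMap hcc ?_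
      rintro ⟨x, z, hz, rfl⟩
      exact ⟨⟨z, hz⟩, rfl⟩
    rw [hq.continuous_iff]
    have h2 : ((σ '' closedBall (0 : Eu n) 1).domRestrict (ext σ ρ)) ∘
        (fun z : ↥(closedBall (0 : Eu n) 1) =>
        (⟨σ z, mem_image_of_mem σ z.2⟩ : ↥(σ '' closedBall (0 : Eu n) 1))) =
        fun z : ↥(closedBall (0 : Eu n) 1) => σ (ρ z) := by
      funext z
      exact ext_cell hi ρ z.2
    rw [h2]
    exact hc.comp_continuous (ρ.continuous.comp continuous_subtype_val)
      (fun z => maps_closed h z.2)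
  have h2 : ContinuousOn (ext σ ρ) (σ '' ball 0 1)ᶜ :=
    continuousOn_id.congr (fun x hx => ext_off hi h hx)
  have h3 : σ '' closedBall 0 1 ∪ (σ '' ball 0 1)ᶜ = univ := by
    refine eq_univ_of_forall fun x => ?_
    by_cases hx : x ∈ σ '' ball 0 1
    · exact Or.inl (image_mono ball_subset_closedBall hx)
    · exact Or.inr hx
  rw [← continuousOn_univ, ← h3]
  exact ContinuousOn.union_of_isClosed h1 h2 hcl ho.isClosed_compl

theorem ext_inv {ρ τ : Eu n ≃ₜ Eu n} (hi : InjOn σ (closedBall 0 1))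
    (h : ∀ z, 1 ≤ ‖z‖ → ρ z = z) (h' : ∀ z, 1 ≤ ‖z‖ → τ z = z) (hτ : ∀ z, τ (ρ z) = z) (x : X) :
    ext σ τ (ext σ ρ x) = x := by
  by_cases hx : x ∈ σ '' ball 0 1
  · obtain ⟨z, hz, rfl⟩ := hx
    have hz' := ball_subset_closedBall hz
    rw [ext_cell hi ρ hz', ext_cell hi τ (maps_closed h hz'), hτ]
  · rw [ext_off hi h hx, ext_off hi h' hx]

end

end IT11

theorem pr_T11 : S_T11 := by
  intro n X _ _ σ hc hi ho ρ h
  have hs := IT11.symm_fix h
  refine ⟨{ toFun := IT11.ext σ ρ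
            invFun := IT11.ext σ ρ.symm
            left_inv := IT11.ext_inv hi h hs (fun z => ρ.symm_apply_apply z)
            right_inv := IT11.ext_inv hi hs h (fun z => ρ.apply_symm_apply z)
            continuous_toFun := IT11.ext_cont hc hi ho h
            continuous_invFun := IT11.ext_cont hc hi ho hs }, ?_, ?_⟩
  · intro z hz
    exact IT11.ext_cell hi ρ hz
  · intro x hx
    exact IT11.ext_off hi h hx

end Pool.Agent.Work.MP_552024_lc.HM
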