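import Pool.Agent.Work.MP_552024_lc.HM.Stmts

/-!
Item T12: cellular sets can be made small.
-/

set_option autoImplicit false

namespace Pool.Agent.Work.MP_552024_lc.HM

open Metric Set Topology

namespace IT12

/-- a radius with small image -/
theorem small {n : ℕ} {X : Type} [MetricSpace X] (σ : Eu n → X)
    (hσ : ContinuousOn σ (closedBall 0 1)) (ε : ℝ) (hε : 0 < ε) :
    ∃ r : ℝ, 0 < r ∧ ∀ z : Eu n, ‖z‖ < r → dist (σ z) (σ 0) < ε / 2 := by
  have h0 : (closedBall (0 : Eu n) 1) ∈ 𝓝 (0 : Eu n) := closedBall_mem_nhds _ one_pos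
  have hc : ContinuousAt σ 0 := hσ.continuousAt h0
  obtain ⟨r, hr, h⟩ := Metric.continuousAt_iff.1 hc (ε / 2) (by linarith)
  exact ⟨r, hr, fun z hz => h (by simpa using hz)⟩

end IT12

theorem pr_T12 : S_T12 := by
  intro hT10 hT11 n X _ _ A hA hcell V hV hAV ε hε
  obtain ⟨σ, hσc, hσi, hσo, hAσ, hσV⟩ := hcell V hV hAV
  obtain ⟨r, hr, hsm⟩ := IT12.small σ hσc ε hε
  have hsub : ball (0 : Eu n) 1 ⊆ closedBall 0 1 := ball_subset_closedBall
  have hKc : IsCompact (closedBall (0 : Eu n) 1 ∩ σ ⁻¹' A) :=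
    (isCompact_closedBall (0 : Eu n) 1).of_isClosed_subset
      (hσc.preimage_isClosed_of_isClosed isClosed_closedBall hA) inter_subset_left
  have hKb : closedBall (0 : Eu n) 1 ∩ σ ⁻¹' A ⊆ ball 0 1 := by
    rintro z ⟨hz1, hz2⟩
    obtain ⟨z', hz', he⟩ := hAσ hz2
    have : z' = z := hσi (hsub hz') hz1 he
    rwa [← this]
  obtain ⟨ρ, hρ1, hρ2⟩ := hT10 n _ hKc hKb r hr
  obtain ⟨h, hh1, hh2⟩ := hT11 n X σ hσc hσi hσo ρ hρ1
  refine ⟨h, ?_, ?_⟩
  · intro x hx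
    apply hh2
    rintro ⟨z, hz, rfl⟩
    exact hx (hσV ⟨z, hsub hz, rfl⟩)
  · have hCc : IsCompact (closedBall (0 : Eu n) 1 ∩ {z | r ≤ ‖ρ z‖}) :=
      (isCompact_closedBall (0 : Eu n) 1).inter_right
        (isClosed_le continuous_const (continuous_norm.comp ρ.continuous))
    have hCcl : IsClosed (σ '' (closedBall (0 : Eu n) 1 ∩ {z | r ≤ ‖ρ z‖})) :=
      (hCc.image_of_continuousOn (hσc.mono inter_subset_left)).isClosed
    refine ⟨σ '' ball 0 1 ∩ (σ '' (closedBall (0 : Eu n) 1 ∩ {z | r ≤ ‖ρ z‖}))ᶜ,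
      hσo.inter hCcl.isOpen_compl, ?_, ?_⟩
    · intro x hx
      obtain ⟨z, hz, rfl⟩ := hAσ hx
      refine ⟨⟨z, hz, rfl⟩, ?_⟩
      rintro ⟨z', ⟨hz'1, hz'2⟩, he⟩
      have h1 : z' = z := hσi hz'1 (hsub hz) he
      subst h1
      have h2 : ‖ρ z'‖ < r := hρ2 z' ⟨hz'1, hx⟩
      exact absurd h2 (not_lt.2 hz'2)
    · have key : ∀ x ∈ σ '' ball 0 1 ∩ (σ '' (closedBall (0 : Eu n) 1 ∩ {z | r ≤ ‖ρ z‖}))ᶜ,
          dist (h x) (σ 0) < ε / 2 := by
        rintro x ⟨⟨z, hz, rfl⟩, hx⟩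
        rw [hh1 z (hsub hz)]
        apply hsm
        by_contra hcon
        exact hx ⟨z, ⟨hsub hz, not_lt.1 hcon⟩, rfl⟩
      intro x hx y hy
      have h1 := key x hx
      have h2 := key y hy
      have h3 := dist_triangle_right (h x) (h y) (σ 0)
      linarith

end Pool.Agent.Work.MP_552024_lc.HM
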