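import Pool.Agent.Work.MP_552024_lc.HM.Stmts

/-!
Item T13: shrinking a cellular set to a point.
-/

set_option autoImplicit false

namespace Pool.Agent.Work.MP_552024_lc.HM

open Metric Set Topology

namespace IT13

section

variable {X : Type} [MetricSpace X]

/-- One step of the construction. -/
structure StepR (A : Set X) (i : ℕ) (p q : (X ≃ₜ X) × Set X) : Prop where
  clos : closure q.2 ⊆ p.2
  nea : ∀ x, p.1 x ∈ q.2 → infDist x A < 1 / ((i : ℝ) + 1)
  nea' : ∀ y ∈ q.2, ∃ a ∈ A, dist y (p.1 a) < (1 / 2) ^ i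
  out : ∀ x, p.1 x ∉ q.2 → q.1 x = p.1 x
  ins : ∀ x, p.1 x ∈ q.2 → q.1 x ∈ q.2
  memA : ∀ a ∈ A, p.1 a ∈ q.2
  dA : ∀ a ∈ A, ∀ b ∈ A, dist (q.1 a) (q.1 b) < (1 / 2) ^ (i + 1)

theorem cell_image {n : ℕ} {A : Set X} (h : Cellular n A) (e : X ≃ₜ X) :
    Cellular n (e '' A) := by
  intro O hO hAO
  obtain ⟨σ, h1, h2, h3, h4, h5⟩ := h (e ⁻¹' O) (hO.preimage e.continuous)
    (by
      intro a ha
      exact hAO ⟨a, ha, rfl⟩)
  refine ⟨fun z => e (σ z), e.continuous.comp_continuousOn h1, ?_, ?_, ?_, ?_⟩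
  · intro z hz z' hz' hzz
    exact h2 hz hz' (e.injective hzz)
  · have : (fun z => e (σ z)) '' ball 0 1 = e '' (σ '' ball 0 1) := by
      rw [Set.image_image]
    rw [this]
    exact e.isOpenMap _ h3
  · rintro _ ⟨a, ha, rfl⟩
    obtain ⟨z, hz, hza⟩ := h4 ha
    exact ⟨z, hz, by simp only [hza]⟩
  · rintro _ ⟨z, hz, rfl⟩
    exact h5 ⟨z, hz, rfl⟩

theorem step [CompactSpace X] (h12 : ∀ (A : Set X), IsClosed A → ∀ n : ℕ, Cellular n A → ∀ V,
    IsOpen V → A ⊆ V → ∀ ε : ℝ, 0 < ε →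
      ∃ h : X ≃ₜ X, (∀ x, x ∉ V → h x = x) ∧ ∃ W, IsOpen W ∧ A ⊆ W ∧ ∀ x ∈ W, ∀ y ∈ W,
        dist (h x) (h y) < ε)
    {n : ℕ} {A : Set X} (hA : IsClosed A) (hc : Cellular n A) (i : ℕ)
    (p : (X ≃ₜ X) × Set X) (hp : IsOpen p.2) (hpA : ∀ a ∈ A, p.1 a ∈ p.2) :
    ∃ q : (X ≃ₜ X) × Set X, IsOpen q.2 ∧ (∀ a ∈ A, q.1 a ∈ q.2) ∧ StepR A i p q := by
  obtain ⟨e, V0⟩ := p
  simp only at hp hpA
  set B : Set X := e '' A with hB
  have hBc : IsClosed B := e.isClosedMap _ hA
  set N : Set X := V0 ∩ (e.symm ⁻¹' thickening (1 / ((i : ℝ) + 1)) A) ∩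
    thickening ((1 / 2) ^ i) B with hN
  have hNo : IsOpen N :=
    (hp.inter (isOpen_thickening.preimage e.symm.continuous)).inter isOpen_thickening
  have hpos : (0 : ℝ) < 1 / ((i : ℝ) + 1) := by positivity
  have hpos2 : (0 : ℝ) < (1 / 2) ^ i := by positivity
  have hBN : B ⊆ N := by
    rintro _ ⟨a, ha, rfl⟩
    refine ⟨⟨hpA a ha, ?_⟩, self_subset_thickening hpos2 _ ⟨a, ha, rfl⟩⟩
    simp only [Set.mem_preimage, Homeomorph.symm_apply_apply]
    exact self_subset_thickening hpos _ ha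
  obtain ⟨V', hV'o, hBV', hV'N⟩ := normal_exists_closure_subset hBc hNo hBN
  obtain ⟨φ, hφ, W, hWo, hBW, hW⟩ := h12 B hBc n (cell_image hc e) V' hV'o hBV'
    ((1 / 2) ^ (i + 1)) (by positivity)
  have hin : ∀ y ∈ V', φ y ∈ V' := by
    intro y hy
    by_contra h
    have := φ.injective (hφ _ h)
    rw [this] at h
    exact h hy
  refine ⟨(e.trans φ, V'), hV'o, fun a ha => hin _ (hBV' ⟨a, ha, rfl⟩), ?_⟩
  refine ⟨fun y hy => (hV'N hy).1.1, ?_, ?_, ?_, ?_, ?_, ?_⟩
  · intro x hx
    have h1 := (hV'N (subset_closure hx)).1.2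
    simp only [Set.mem_preimage, Homeomorph.symm_apply_apply] at h1
    rcases A.eq_empty_or_nonempty with h0 | h0
    · rw [h0, infDist_empty]
      exact hpos
    · obtain ⟨a, ha, hxa⟩ := mem_thickening_iff.1 h1
      exact lt_of_le_of_lt (infDist_le_dist_of_mem ha) hxa
  · intro y hy
    obtain ⟨_, ⟨a, ha, rfl⟩, hya⟩ := mem_thickening_iff.1 (hV'N (subset_closure hy)).2
    exact ⟨a, ha, hya⟩
  · intro x hx
    exact hφ _ hx
  · intro x hx
    exact hin _ hx
  · intro a ha
    exact hBV' ⟨a, ha, rfl⟩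
  · intro a ha b hb
    exact hW _ (hBW ⟨a, ha, rfl⟩) _ (hBW ⟨b, hb, rfl⟩)

end

end IT13

open IT13 in
theorem pr_T13 : S_T13 := by
  intro t12 t10 t11 n X _ _ A hA hne hc V hV hAV
  have h12 : ∀ (A : Set X), IsClosed A → ∀ n : ℕ, Cellular n A → ∀ V,
      IsOpen V → A ⊆ V → ∀ ε : ℝ, 0 < ε →
      ∃ h : X ≃ₜ X, (∀ x, x ∉ V → h x = x) ∧ ∃ W, IsOpen W ∧ A ⊆ W ∧ ∀ x ∈ W, ∀ y ∈ W,
        dist (h x) (h y) < ε := fun A hA n hc => t12 t10 t11 n X A hA hc
  let T := {p : (X ≃ₜ X) × Set X // IsOpen p.2 ∧ ∀ a ∈ A, p.1 a ∈ p.2}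
  have hstep : ∀ (i : ℕ) (p : T), ∃ q : T, StepR A i p.1 q.1 := by
    intro i p
    obtain ⟨q, h1, h2, h3⟩ := step h12 hA hc i p.1 p.2.1 p.2.2
    exact ⟨⟨q, h1, h2⟩, h3⟩
  let p0 : T := ⟨(Homeomorph.refl X, V), hV, fun a ha => hAV ha⟩
  obtain ⟨s, hs0, hs⟩ : ∃ s : ℕ → T, s 0 = p0 ∧ ∀ i, StepR A i (s i).1 (s (i + 1)).1 :=
    ⟨fun k => Nat.rec p0 (fun i p => (hstep i p).choose) k, rfl,
      fun i => (hstep i _).choose_spec⟩
  set F : ℕ → X ≃ₜ X := fun i => (s i).1.1 with hF
  set W : ℕ → Set X := fun i => (s i).1.2 with hW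
  have hFA : ∀ i, ∀ a ∈ A, F i a ∈ W i := fun i a ha => (s i).2.2 a ha
  have hclos : ∀ i, closure (W (i + 1)) ⊆ W i := fun i => (hs i).clos
  have hanti : ∀ i j, i ≤ j → W j ⊆ W i := by
    intro i j hij
    induction j, hij using Nat.le_induction with
    | base => exact subset_rfl
    | succ j _ ih => exact (subset_closure.trans (hclos j)).trans ih
  have hF0 : ∀ x, F 0 x = x := by
    intro x
    simp only [hF, hs0]
    rfl
  have hW0 : W 0 = V := by
    simp only [hW, hs0]
    rfl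
  -- bounds
  set K : ℝ := diam (univ : Set X) + 1 with hK
  have hbd : ∀ x y : X, dist x y ≤ K := by
    intro x y
    have := dist_le_diam_of_mem (isCompact_univ (X := X)).isBounded (mem_univ x) (mem_univ y)
    linarith
  have hK1 : 1 ≤ K := by
    have := diam_nonneg (s := (univ : Set X))
    linarith
  have hdA : ∀ i, ∀ a ∈ A, ∀ b ∈ A, dist (F i a) (F i b) ≤ K * (1 / 2) ^ i := by
    intro i
    cases i with
    | zero =>
      intro a _ b _
      simpa using hbd _ _
    | succ i =>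
      intro a ha b hb
      have h1 := (hs i).dA a ha b hb
      have h2 : (0 : ℝ) ≤ (1 / 2) ^ (i + 1) := by positivity
      have h3 : dist (F (i + 1) a) (F (i + 1) b) < (1 / 2) ^ (i + 1) := h1
      nlinarith
  have hmove : ∀ i x, dist (F i x) (F (i + 1) x) ≤ (K + 2) * (1 / 2) ^ i := by
    intro i x
    by_cases hx : F i x ∈ W (i + 1)
    · obtain ⟨a, ha, hxa⟩ := (hs i).nea' _ hx
      obtain ⟨b, hb, hxb⟩ := (hs i).nea' _ ((hs i).ins x hx)
      have h1 : dist (F i x) (F i a) < (1 / 2) ^ i := hxa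
      have h2 : dist (F (i + 1) x) (F i b) < (1 / 2) ^ i := hxb
      have h3 := hdA i a ha b hb
      have h4 := dist_triangle4 (F i x) (F i a) (F i b) (F (i + 1) x)
      rw [dist_comm (F i b)] at h4
      linarith
    · have h1 : F (i + 1) x = F i x := (hs i).out x hx
      rw [h1, dist_self]
      positivity
  -- the limit
  let G : ℕ → C(X, X) := fun i => ⟨F i, (F i).continuous⟩
  have hG : ∀ i, dist (G i) (G (i + 1)) ≤ (K + 2) * (1 / 2) ^ i := by
    intro i
    rw [ContinuousMap.dist_le (by positivity)]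
    exact fun x => hmove i x
  have hcau : CauchySeq G := cauchySeq_of_le_geometric (1 / 2) (K + 2) (by norm_num) hG
  obtain ⟨Φ, hΦ⟩ := cauchySeq_tendsto_of_complete hcau
  have hunif : ∀ i, dist (G i) Φ ≤ (K + 2) * (1 / 2) ^ i / (1 - 1 / 2) := fun i =>
    dist_le_of_le_geometric_of_tendsto (1 / 2) (K + 2) (by norm_num) hG hΦ i
  have hpt : ∀ x, Filter.Tendsto (fun i => F i x) Filter.atTop (𝓝 (Φ x)) := by
    intro x
    exact ((continuous_eval_const (F := C(X, X)) x).tendsto Φ).comp hΦ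
  -- outside of A
  have hstat : ∀ x, x ∉ A → ∃ i0, ∀ i, i0 ≤ i → F i x = Φ x ∧ Φ x ∉ W (i + 1) := by
    intro x hx
    have hd : 0 < infDist x A := (hA.notMem_iff_infDist_pos hne).1 hx
    obtain ⟨i0, hi0⟩ := exists_nat_one_div_lt hd
    have hno : ∀ i, i0 ≤ i → F i x ∉ W (i + 1) := by
      intro i hi hmem
      have h1 := (hs i).nea x hmem
      have h2 : 1 / ((i : ℝ) + 1) ≤ 1 / ((i0 : ℝ) + 1) := by
        apply one_div_le_one_div_of_le (by positivity)
        have : (i0 : ℝ) ≤ i := by exact_mod_cast hi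
        linarith
      linarith
    have hst : ∀ i, i0 ≤ i → F i x = F i0 x := by
      intro i hi
      induction i, hi using Nat.le_induction with
      | base => rfl
      | succ i hi ih =>
        have h1 : F (i + 1) x = F i x := (hs i).out x (hno i hi)
        rw [h1, ih]
    have hlim : Φ x = F i0 x := by
      refine tendsto_nhds_unique (hpt x) ?_
      refine tendsto_const_nhds.congr' ?_
      filter_upwards [Filter.eventually_ge_atTop i0] with i hi
      exact (hst i hi).symm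
    refine ⟨i0, fun i hi => ?_⟩
    have h1 := hst i hi
    refine ⟨h1.trans hlim.symm, ?_⟩
    rw [hlim, ← h1]
    exact hno i hi
  have hinA : ∀ a ∈ A, ∀ i, Φ a ∈ W i := by
    intro a ha i
    refine hclos i (mem_closure_of_tendsto (hpt a) ?_)
    filter_upwards [Filter.eventually_ge_atTop (i + 1)] with j hj
    exact hanti _ _ hj (hFA j a ha)
  refine ⟨Φ, Φ.continuous, ?_, ?_, ?_⟩
  · -- surjective
    have hcl : IsClosed (range Φ) := (isCompact_range Φ.continuous).isClosed
    intro y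
    have hy : y ∈ closure (range Φ) := by
      rw [Metric.mem_closure_iff]
      intro ε hε
      have hlim : Filter.Tendsto (fun i : ℕ => (K + 2) * (1 / 2 : ℝ) ^ i / (1 - 1 / 2))
          Filter.atTop (𝓝 0) := by
        have h1 := tendsto_pow_atTop_nhds_zero_of_lt_one (r := (1 / 2 : ℝ)) (by norm_num)
          (by norm_num)
        have h2 := (h1.const_mul (K + 2)).div_const (1 - 1 / 2)
        simpa using h2
      obtain ⟨i, hi⟩ := (hlim.eventually (gt_mem_nhds hε)).exists
      refine ⟨Φ ((F i).symm y), mem_range_self _, ?_⟩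
      have h1 := ContinuousMap.dist_apply_le_dist (f := G i) (g := Φ) ((F i).symm y)
      have h2 : (G i) ((F i).symm y) = y := (F i).apply_symm_apply y
      rw [h2] at h1
      exact lt_of_le_of_lt (h1.trans (hunif i)) hi
    rw [hcl.closure_eq] at hy
    exact hy
  · intro x x'
    constructor
    · intro h
      by_contra hcon
      push Not at hcon
      obtain ⟨hxx, hAA⟩ := hcon
      have main : ∀ x x', x ∉ A → Φ x = Φ x' → x = x' := by
        intro x x' hx h
        obtain ⟨i0, h0⟩ := hstat x hx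
        by_cases hx' : x' ∈ A
        · have h1 := (h0 i0 le_rfl).2
          rw [h] at h1
          exact absurd (hinA x' hx' _) h1
        · obtain ⟨i1, h1⟩ := hstat x' hx'
          have e1 := (h0 (max i0 i1) (le_max_left _ _)).1
          have e2 := (h1 (max i0 i1) (le_max_right _ _)).1
          exact (F (max i0 i1)).injective (by rw [e1, e2, h])
      by_cases hx : x ∈ A
      · exact hxx (main x' x (hAA hx) h.symm).symm
      · exact hxx (main x x' hx h)
    · rintro (rfl | ⟨hx, hx'⟩)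
      · rfl
      · have h1 : Filter.Tendsto (fun i => dist (F i x) (F i x')) Filter.atTop
            (𝓝 (dist (Φ x) (Φ x'))) := (hpt x).dist (hpt x')
        have h2 : Filter.Tendsto (fun i => dist (F i x) (F i x')) Filter.atTop (𝓝 0) := by
          refine squeeze_zero (fun i => dist_nonneg) (fun i => hdA i x hx x' hx') ?_
          have h1 := tendsto_pow_atTop_nhds_zero_of_lt_one (r := (1 / 2 : ℝ)) (by norm_num)
            (by norm_num)
          simpa using h1.const_mul K
        exact dist_eq_zero.1 (tendsto_nhds_unique h1 h2)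
  · intro x hx
    have hst : ∀ i, F i x = x := by
      intro i
      induction i with
      | zero => exact hF0 x
      | succ i ih =>
        have h1 : F i x ∉ W (i + 1) := by
          rw [ih]
          intro h
          have := hanti 0 (i + 1) (Nat.zero_le _) h
          rw [hW0] at this
          exact hx this
        have h2 : F (i + 1) x = F i x := (hs i).out x h1
        rw [h2, ih]
    refine tendsto_nhds_unique (hpt x) ?_
    simp only [hst]
    exact tendsto_const_nhds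

end Pool.Agent.Work.MP_552024_lc.HM
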