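import Pool.Agent.Work.MP_552024_lc.HM.Stmts

/-!
# MP_552024_lc, block HM, item T14: the map to the sphere with two nontrivial fibres
-/

set_option autoImplicit false

namespace Pool.Agent.Work.MP_552024_lc.HM

open Metric Set Topology

namespace IT14

/-- the norm of the double cone -/
noncomputable def nu {n : ℕ} (v : Eu (n + 1) × ℝ) : ℝ := ‖v.1‖ + |v.2|

theorem nu_smul {n : ℕ} (t : ℝ) (ht : 0 ≤ t) (v : Eu (n + 1) × ℝ) : nu (t • v) = t * nu v := by
  unfold nu
  rw [Prod.smul_fst, Prod.smul_snd, norm_smul, smul_eq_mul, abs_mul, Real.norm_eq_abs,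
    abs_of_nonneg ht]
  ring

theorem nu_pos {n : ℕ} (v : Eu (n + 1) × ℝ) (hv : v ≠ 0) : 0 < nu v := by
  unfold nu
  by_contra h
  have h1 := norm_nonneg v.1
  have h2 := abs_nonneg v.2
  apply hv
  have h3 : ‖v.1‖ = 0 := by linarith
  have h4 : |v.2| = 0 := by linarith
  exact Prod.ext (norm_eq_zero.1 h3) (abs_eq_zero.1 h4)

theorem nu_ne {n : ℕ} {v : Eu (n + 1) × ℝ} (hv : nu v = 1) : v ≠ 0 := by
  rintro rfl
  unfold nu at hv
  simp at hv

/-- a linear homeomorphism -/
noncomputable def L (n : ℕ) : (Eu (n + 1) × ℝ) ≃L[ℝ] Eu (n + 2) :=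
  ContinuousLinearEquiv.ofFinrankEq (by simp)

theorem L_norm_pos {n : ℕ} {v : Eu (n + 1) × ℝ} (hv : v ≠ 0) : 0 < ‖L n v‖ := by
  rw [norm_pos_iff]
  intro h
  apply hv
  rw [← (L n).symm_apply_apply v, h, map_zero]

/-- radial normalisation -/
noncomputable def nrm {n : ℕ} (v : Eu (n + 1) × ℝ) (hv : v ≠ 0) : ↥(sphere (0 : Eu (n + 2)) 1) :=
  ⟨‖L n v‖⁻¹ • L n v, by
    rw [mem_sphere_zero_iff_norm, norm_smul, norm_inv, norm_norm]
    exact inv_mul_cancel₀ (L_norm_pos hv).ne'⟩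

theorem nrm_inj {n : ℕ} {v w : Eu (n + 1) × ℝ} (hv : nu v = 1) (hw : nu w = 1)
    (h : nrm v (nu_ne hv) = nrm w (nu_ne hw)) : v = w := by
  have h1 : ‖L n v‖⁻¹ • L n v = ‖L n w‖⁻¹ • L n w := congrArg Subtype.val h
  have hv0 := L_norm_pos (nu_ne hv)
  have hw0 := L_norm_pos (nu_ne hw)
  have h2 : L n v = (‖L n v‖ * ‖L n w‖⁻¹) • L n w := by
    rw [mul_smul, ← h1, smul_smul, mul_inv_cancel₀ hv0.ne', one_smul]
  have h3 : v = (‖L n v‖ * ‖L n w‖⁻¹) • w := by
    apply (L n).injective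
    rw [map_smul]
    exact h2
  have ht : 0 ≤ ‖L n v‖ * ‖L n w‖⁻¹ := by positivity
  have h4 : nu v = (‖L n v‖ * ‖L n w‖⁻¹) * nu w := by
    conv_lhs => rw [h3]
    exact nu_smul _ ht w
  rw [hv, hw, mul_one] at h4
  rw [h3, ← h4, one_smul]

theorem nrm_surj {n : ℕ} (p : ↥(sphere (0 : Eu (n + 2)) 1)) :
    ∃ (v : Eu (n + 1) × ℝ) (hv : nu v = 1), nrm v (nu_ne hv) = p := by
  have hp : ‖(p : Eu (n + 2))‖ = 1 := mem_sphere_zero_iff_norm.1 p.2
  set w := (L n).symm p with hw
  have hw0 : w ≠ 0 := by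
    intro h
    have : (p : Eu (n + 2)) = 0 := by
      rw [← (L n).apply_symm_apply (p : Eu (n + 2)), ← hw, h, map_zero]
    rw [this, norm_zero] at hp
    exact zero_ne_one hp
  have hc := nu_pos w hw0
  have hv : nu ((nu w)⁻¹ • w) = 1 := by
    rw [nu_smul _ (inv_nonneg.2 hc.le), inv_mul_cancel₀ hc.ne']
  refine ⟨(nu w)⁻¹ • w, hv, Subtype.ext ?_⟩
  show ‖L n ((nu w)⁻¹ • w)‖⁻¹ • L n ((nu w)⁻¹ • w) = p
  rw [map_smul, hw, (L n).apply_symm_apply, norm_smul, hp, mul_one, norm_inv, Real.norm_eq_abs,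
    abs_of_pos (by rw [← hw]; exact hc), inv_inv, smul_smul, ← hw, mul_inv_cancel₀ hc.ne', one_smul]

end IT14

open IT14 in
theorem pr_T14 : S_T14 := by
  intro n X _ _ _ M M' q q' hM hM' hun hq hq' hqq
  classical
  have hcov : ∀ z, z ∈ M ∨ z ∈ M' := fun z => by
    have : z ∈ M ∪ M' := by rw [hun]; trivial
    exact this
  set u : X → Eu (n + 1) × ℝ := fun z =>
    if z ∈ M then (q z, 1 - ‖q z‖) else (q' z, ‖q' z‖ - 1) with hu
  have huM : ∀ z ∈ M, u z = (q z, 1 - ‖q z‖) := fun z hz => by rw [hu]; simp only; rw [if_pos hz]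
  have huM' : ∀ z ∈ M', u z = (q' z, ‖q' z‖ - 1) := by
    intro z hz
    by_cases h : z ∈ M
    · have h1 := (hq.bd z h).2 ⟨h, hz⟩
      have h2 := hqq z ⟨h, hz⟩
      rw [huM z h, ← h2, h1, sub_self]
    · rw [hu]; simp only; rw [if_neg h]
  have hqn : ∀ z ∈ M, ‖q z‖ ≤ 1 := fun z hz => by
    have : q z ∈ closedBall (0 : Eu (n + 1)) 1 := by rw [← hq.img]; exact ⟨z, hz, rfl⟩
    exact mem_closedBall_zero_iff.1 this
  have hqn' : ∀ z ∈ M', ‖q' z‖ ≤ 1 := fun z hz => by
    have : q' z ∈ closedBall (0 : Eu (n + 1)) 1 := by rw [← hq'.img]; exact ⟨z, hz, rfl⟩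
    exact mem_closedBall_zero_iff.1 this
  have hnu : ∀ z, nu (u z) = 1 := by
    intro z
    rcases hcov z with h | h
    · rw [huM z h]
      unfold nu
      simp only
      rw [abs_of_nonneg (by linarith [hqn z h])]
      ring
    · rw [huM' z h]
      unfold nu
      simp only
      rw [abs_of_nonpos (by linarith [hqn' z h])]
      ring
  have hcont : Continuous u := by
    rw [← continuousOn_univ, ← hun]
    refine ContinuousOn.union_of_isClosed ?_ ?_ hM hM'
    · exact (hq.cont.prodMk (continuousOn_const.sub hq.cont.norm)).congr huM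
    · exact (hq'.cont.prodMk (hq'.cont.norm.sub continuousOn_const)).congr huM'
  have hpos : nu ((0 : Eu (n + 1)), (1 : ℝ)) = 1 := by unfold nu; simp
  have hneg : nu ((0 : Eu (n + 1)), (-1 : ℝ)) = 1 := by unfold nu; simp
  have hf : ∀ (z : X) (v : Eu (n + 1) × ℝ) (hv : nu v = 1),
      nrm (u z) (nu_ne (hnu z)) = nrm v (nu_ne hv) ↔ u z = v := by
    intro z v hv
    constructor
    · exact fun h => nrm_inj (hnu z) hv h
    · rintro h
      congr 1
  have ha : ∀ z, u z = (0, 1) ↔ z ∈ M ∧ q z = 0 := by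
    intro z
    constructor
    · intro h
      by_cases hz : z ∈ M
      · rw [huM z hz] at h
        exact ⟨hz, congrArg Prod.fst h⟩
      · rw [huM' z ((hcov z).resolve_left hz)] at h
        have h1 : q' z = 0 := congrArg Prod.fst h
        have h2 : ‖q' z‖ - 1 = 1 := congrArg Prod.snd h
        rw [h1, norm_zero] at h2
        norm_num at h2
    · rintro ⟨hz, h⟩
      rw [huM z hz, h]
      simp
  have hb : ∀ z, u z = (0, -1) ↔ z ∈ M' ∧ q' z = 0 := by
    intro z
    constructor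
    · intro h
      by_cases hz : z ∈ M'
      · rw [huM' z hz] at h
        exact ⟨hz, congrArg Prod.fst h⟩
      · rw [huM z ((hcov z).resolve_right hz)] at h
        have h1 : q z = 0 := congrArg Prod.fst h
        have h2 : 1 - ‖q z‖ = -1 := congrArg Prod.snd h
        rw [h1, norm_zero] at h2
        norm_num at h2
    · rintro ⟨hz, h⟩
      rw [huM' z hz, h]
      simp
  refine ⟨fun z => nrm (u z) (nu_ne (hnu z)), nrm (0, 1) (nu_ne hpos), nrm (0, -1) (nu_ne hneg),
    ?_, ?_, ?_, ?_, ?_, ?_⟩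
  · refine Continuous.subtype_mk ?_ _
    have h1 : Continuous fun z => L n (u z) := (L n).continuous.comp hcont
    exact (h1.norm.inv₀ fun z => (L_norm_pos (nu_ne (hnu z))).ne').smul h1
  · intro p
    obtain ⟨v, hv, hvp⟩ := nrm_surj p
    have h1 : ∃ z, u z = v := by
      unfold nu at hv
      have h2 := norm_nonneg v.1
      rcases le_total 0 v.2 with h | h
      · rw [abs_of_nonneg h] at hv
        have h3 : v.1 ∈ q '' M := by
          rw [hq.img, mem_closedBall_zero_iff]; linarith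
        obtain ⟨z, hz, hzv⟩ := h3
        refine ⟨z, ?_⟩
        rw [huM z hz, hzv]
        exact Prod.ext rfl (by show 1 - ‖v.1‖ = v.2; linarith)
      · rw [abs_of_nonpos h] at hv
        have h3 : v.1 ∈ q' '' M' := by
          rw [hq'.img, mem_closedBall_zero_iff]; linarith
        obtain ⟨z, hz, hzv⟩ := h3
        refine ⟨z, ?_⟩
        rw [huM' z hz, hzv]
        exact Prod.ext rfl (by show ‖v.1‖ - 1 = v.2; linarith)
    obtain ⟨z, hz⟩ := h1
    refine ⟨z, ?_⟩
    rw [← hvp]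
    exact (hf z v hv).2 hz
  · intro h
    have h1 := nrm_inj hpos hneg h
    have h2 : (1 : ℝ) = -1 := congrArg Prod.snd h1
    norm_num at h2
  · intro x x' h
    have h1 : u x = u x' := (hf x (u x') (hnu x')).1 h
    show x = x' ∨ nrm (u x) _ = _ ∨ nrm (u x) _ = _
    rw [hf x _ hpos, hf x _ hneg, ha, hb]
    by_cases hx : x ∈ M
    · by_cases hx' : x' ∈ M
      · rw [huM x hx, huM x' hx'] at h1
        rcases hq.inj x hx x' hx' (congrArg Prod.fst h1) with h2 | h2
        · exact Or.inl h2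
        · exact Or.inr (Or.inl ⟨hx, h2⟩)
      · have hx'' := (hcov x').resolve_left hx'
        rw [huM x hx, huM' x' hx''] at h1
        have h2 : q x = q' x' := congrArg Prod.fst h1
        have h3 : 1 - ‖q x‖ = ‖q' x'‖ - 1 := congrArg Prod.snd h1
        have h4 : ‖q' x'‖ = 1 := by rw [h2] at h3; linarith
        exact absurd ((hq'.bd x' hx'').1 h4).1 hx'
    · have hxx := (hcov x).resolve_left hx
      by_cases hx' : x' ∈ M'
      · rw [huM' x hxx, huM' x' hx'] at h1
        rcases hq'.inj x hxx x' hx' (congrArg Prod.fst h1) with h2 | h2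
        · exact Or.inl h2
        · exact Or.inr (Or.inr ⟨hxx, h2⟩)
      · have hx'' := (hcov x').resolve_right hx'
        rw [huM' x hxx, huM x' hx''] at h1
        have h2 : q' x = q x' := congrArg Prod.fst h1
        have h3 : ‖q' x‖ - 1 = 1 - ‖q x'‖ := congrArg Prod.snd h1
        have h4 : ‖q x'‖ = 1 := by rw [h2] at h3; linarith
        exact absurd ((hq.bd x' hx'').1 h4).2 hx'
  · ext z
    rw [mem_preimage, mem_singleton_iff, mem_setOf_eq, ← ha]
    exact hf z _ hpos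
  · ext z
    rw [mem_preimage, mem_singleton_iff, mem_setOf_eq, ← hb]
    exact hf z _ hneg

end Pool.Agent.Work.MP_552024_lc.HM
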