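import Pool.Agent.Work.MP_552024_lc.HM.Stmts

set_option autoImplicit false

namespace Pool.Agent.Work.MP_552024_lc.HM

open Metric Set Topology

namespace IT15

/-- Two continuous surjections of a compact space with the same fibres. -/
theorem same_fibres {K Y Z : Type} [TopologicalSpace K] [CompactSpace K] [TopologicalSpace Y]
    [T2Space Y] [TopologicalSpace Z] [T2Space Z] (g : K → Y) (q : K → Z) (hg : Continuous g)
    (hq : Continuous q) (sg : Function.Surjective g) (sq : Function.Surjective q)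
    (h : ∀ x x', g x = g x' ↔ q x = q x') :
    ∃ φ : Y ≃ₜ Z, ∀ x, φ (g x) = q x := by
  classical
  have hY : CompactSpace Y := by
    refine ⟨?_⟩
    rw [← sg.range_eq]
    exact isCompact_range hg
  let φ₀ : Y → Z := fun y => q (Function.surjInv sg y)
  have h1 : ∀ x, φ₀ (g x) = q x := by
    intro x
    exact (h _ _).1 (Function.surjInv_eq sg (g x))
  have hc : Continuous φ₀ := by
    have hqm : IsQuotientMap g := hg.isClosedMap.isQuotientMap hg sg
    rw [hqm.continuous_iff]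
    have : φ₀ ∘ g = q := funext h1
    rw [this]
    exact hq
  have hb : Function.Bijective φ₀ := by
    constructor
    · intro y y' hyy
      obtain ⟨x, rfl⟩ := sg y
      obtain ⟨x', rfl⟩ := sg y'
      rw [h1, h1] at hyy
      exact (h _ _).2 hyy
    · intro z
      obtain ⟨x, rfl⟩ := sq z
      exact ⟨g x, h1 x⟩
  exact ⟨Continuous.homeoOfEquivCompactToT2 (f := Equiv.ofBijective φ₀ hb) hc, h1⟩

theorem sphere_ne (n : ℕ) : Nonempty ↥(sphere (0 : Eu (n + 1)) 1) := by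
  refine ⟨⟨EuclideanSpace.single (0 : Fin (n + 1)) (1 : ℝ), ?_⟩⟩
  simp

end IT15

theorem pr_T15 : S_T15 := by
  intro hT1 hT3 hT4 hT5 hT6 hT7 hT9 hT13 hT14 n X _ _ e M M' hM hM' hU s hL hL'
  have hS : IsClosed (M ∩ M') := hM.inter hM'
  have hc : Collar M (M ∩ M') := hT3 X M (M ∩ M') hM hS inter_subset_left
    (hT1 X n M (M ∩ M') inter_subset_left hL)
  have hc' : Collar M' (M ∩ M') := hT3 X M' (M ∩ M') hM' hS inter_subset_right
    (hT1 X n M' (M ∩ M') inter_subset_right hL')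
  obtain ⟨q, hq, hqs⟩ := hT4 X n M (M ∩ M') hM hS inter_subset_left hc s
  obtain ⟨q', hq', hqs'⟩ := hT4 X n M' (M ∩ M') hM' hS inter_subset_right hc' s
  obtain ⟨f, a, b, hf, hfs, hab, hff, hA, hB⟩ := hT14 n X M M' q q' hM hM' hU hq hq'
    (fun x hx => by rw [hqs ⟨x, hx⟩, hqs' ⟨x, hx⟩])
  have hPS : PtHom (n + 1) ↥(sphere (0 : Eu (n + 2)) 1) := hT5 (n + 1)
  have hPX : PtHom (n + 1) X := (hT6 (n + 1) _ hPS).1 X ⟨e.symm⟩
  have hSS : Squeeze ↥(sphere (0 : Eu (n + 2)) 1) := (hT6 (n + 1) _ hPS).2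
  have hSX : Squeeze X := (hT6 (n + 1) _ hPX).2
  set A : Set X := f ⁻¹' {a} with hAdef
  set B : Set X := f ⁻¹' {b} with hBdef
  have hAcl : IsClosed A := isClosed_singleton.preimage hf
  have hBcl : IsClosed B := isClosed_singleton.preimage hf
  have hAM' : ∀ z ∈ A, z ∉ M' := by
    intro z hz hz'
    rw [hA] at hz
    have h1 := (hq.bd z hz.1).2 ⟨hz.1, hz'⟩
    rw [hz.2, norm_zero] at h1
    exact zero_ne_one h1
  have hBM : ∀ z ∈ B, z ∉ M := by
    intro z hz hz'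
    rw [hB] at hz
    have h1 := (hq'.bd z hz.1).2 ⟨hz', hz.1⟩
    rw [hz.2, norm_zero] at h1
    exact zero_ne_one h1
  have hAB : A ∪ B ≠ univ := by
    intro hu
    obtain ⟨p⟩ := IT15.sphere_ne n
    have hp := (s.symm p).2
    have h2 : (s.symm p : X) ∈ A ∪ B := by rw [hu]; trivial
    rcases h2 with h2 | h2
    · exact hAM' _ h2 hp.2
    · exact hBM _ h2 hp.1
  obtain ⟨δ, hδ1, hδ2, hδ3, hδ4, hδ5⟩ := hT7 (n + 1) X hPX (A ∪ B) (hAcl.union hBcl) hAB
  have hcell : Cellular (n + 1) A := hT9 (n + 1) X _ hSX hSS f a b hf hfs hab hff δ hδ1 hδ2 hδ3 hδ4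
    (subset_union_left.trans hδ5) (subset_union_right.trans hδ5)
  have hAne : A.Nonempty := by
    obtain ⟨x, hx⟩ := hfs a
    exact ⟨x, hx⟩
  obtain ⟨Φ, hΦ1, hΦ2, hΦ3, hΦ4⟩ := hT13 (n + 1) X A hAcl hAne hcell M'ᶜ hM'.isOpen_compl
    (fun z hz => hAM' z hz)
  have hfix : ∀ x ∈ M', Φ x = x := fun x hx => hΦ4 x (fun h => h hx)
  have hAM : ∀ z ∈ A, z ∈ M := by
    intro z hz
    rw [hA] at hz
    exact hz.1
  have hmem : ∀ x, x ∈ M ∨ x ∈ M' := by
    intro x
    have : x ∈ M ∪ M' := by rw [hU]; trivial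
    exact this
  have hΦM : ∀ x ∈ M, Φ x ∈ M := by
    intro x hx
    rcases hmem (Φ x) with h | h
    · exact h
    · rcases (hΦ3 _ _).1 (hfix _ h) with h1 | h1
      · rw [h1]; exact hx
      · exact hAM _ h1.1
  have hΦM' : ∀ x, Φ x ∈ M' ↔ x ∈ M' := by
    intro x
    constructor
    · intro h
      rcases (hΦ3 _ _).1 (hfix _ h) with h1 | h1
      · rw [← h1]; exact h
      · exact absurd h (hAM' _ h1.1)
    · intro h
      rw [hfix x h]; exact h
  have hsurj : ∀ y ∈ M, ∃ x ∈ M, Φ x = y := by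
    intro y hy
    obtain ⟨x, hx⟩ := hΦ2 y
    rcases hmem x with h | h
    · exact ⟨x, h, hx⟩
    · have := hfix x h
      refine ⟨x, ?_, hx⟩
      rw [← this, hx]; exact hy
  have hcM : CompactSpace ↥M := isCompact_iff_compactSpace.1 hM.isCompact
  let g : ↥M → ↥M := fun x => ⟨Φ x, hΦM x x.2⟩
  have hg : Continuous g := Continuous.subtype_mk (hΦ1.comp continuous_subtype_val) _
  have hgs : Function.Surjective g := by
    rintro ⟨y, hy⟩
    obtain ⟨x, hx, hxy⟩ := hsurj y hy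
    exact ⟨⟨x, hx⟩, Subtype.ext hxy⟩
  have hqm : ∀ x ∈ M, q x ∈ closedBall (0 : Eu (n + 1)) 1 := by
    intro x hx
    rw [← hq.img]
    exact ⟨x, hx, rfl⟩
  let Q : ↥M → ↥(closedBall (0 : Eu (n + 1)) 1) := fun x => ⟨q x, hqm x x.2⟩
  have hQ : Continuous Q := Continuous.subtype_mk (continuousOn_iff_continuous_domRestrict.1 hq.cont) _
  have hQs : Function.Surjective Q := by
    rintro ⟨y, hy⟩
    rw [← hq.img] at hy
    obtain ⟨x, hx, hxy⟩ := hy
    exact ⟨⟨x, hx⟩, Subtype.ext hxy⟩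
  have hfib : ∀ x x' : ↥M, g x = g x' ↔ Q x = Q x' := by
    intro x x'
    have hA' : ∀ z : ↥M, (z : X) ∈ A ↔ q z = 0 := by
      intro z
      rw [hA]
      exact ⟨fun h => h.2, fun h => ⟨z.2, h⟩⟩
    rw [Subtype.ext_iff, Subtype.ext_iff]
    change Φ x = Φ x' ↔ q x = q x'
    rw [hΦ3, hA', hA']
    constructor
    · rintro (h | h)
      · rw [h]
      · rw [h.1, h.2]
    · intro h
      rcases hq.inj x x.2 x' x'.2 h with h1 | h1
      · exact Or.inl h1
      · exact Or.inr ⟨h1, by rw [← h]; exact h1⟩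
  obtain ⟨φ, hφ⟩ := IT15.same_fibres g Q hg hQ hgs hQs hfib
  refine ⟨φ, ?_⟩
  intro y
  obtain ⟨x, rfl⟩ := hgs y
  rw [hφ x]
  change Φ x ∈ M' ↔ ‖q x‖ = 1
  rw [hΦM' x, hq.bd x x.2]
  exact ⟨fun h => ⟨x.2, h⟩, fun h => h.2⟩

end Pool.Agent.Work.MP_552024_lc.HM
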