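import Pool.Agent.Work.MP_552024_lc.HM.Stmts

/-! Item T2 of the block [552024 HM]: the step of Connelly's proof of the collar theorem. -/

set_option autoImplicit false

namespace Pool.Agent.Work.MP_552024_lc.HM

open Metric Set Topology

namespace IT2

/-- continuity on the image of a compact set -/
theorem contOn_image {A B Z : Type} [TopologicalSpace A] [TopologicalSpace B] [T2Space B]
    [TopologicalSpace Z] {K : Set A} (hK : IsCompact K) {C : A → B} (hC : ContinuousOn C K)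
    {G : B → Z} (hG : ContinuousOn (fun a => G (C a)) K) : ContinuousOn G (C '' K) := by
  have _ := isCompact_iff_compactSpace.1 hK
  let f : K → ↥(C '' K) := fun x => ⟨C x, mem_image_of_mem _ x.2⟩
  have hf : Continuous f := Continuous.subtype_mk (continuousOn_iff_continuous_domRestrict.1 hC) _
  have hs : Function.Surjective f := by
    rintro ⟨_, x, hx, rfl⟩
    exact ⟨⟨x, hx⟩, rfl⟩
  have hq : IsQuotientMap f := hf.isClosedMap.isQuotientMap hf hs
  rw [continuousOn_iff_continuous_domRestrict, hq.continuous_iff]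
  exact continuousOn_iff_continuous_domRestrict.1 hG

variable {X : Type}

open Classical in
/-- the collar with the outer part -/
noncomputable def CC (c : X × ℝ → X) (z : X × ℝ) : X × ℝ :=
  if 0 ≤ z.2 then (c z, 0) else z

/-- the change of the parameter -/
noncomputable def ph (lam mu : X → ℝ) (z : X × ℝ) : X × ℝ :=
  (z.1, 1 - (1 - z.2) * (1 + mu z.1) / (1 + lam z.1))

/-- the parameter domain -/
def DL [TopologicalSpace X] (S U : Set X) (lam : X → ℝ) : Set (X × ℝ) :=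
  {z | z.1 ∈ S ∩ closure U ∧ -lam z.1 ≤ z.2 ∧ z.2 ≤ 1}

open Classical in
/-- the homeomorphism -/
noncomputable def GG [TopologicalSpace X] (S U : Set X) (c : X × ℝ → X) (lam mu : X → ℝ)
    (p : X × ℝ) : X × ℝ :=
  if h : ∃ z ∈ DL S U lam, CC c z = p then CC c (ph lam mu h.choose) else p

/-- the hypotheses -/
structure Hyp [TopologicalSpace X] (M S U O : Set X) (c : X × ℝ → X) : Prop where
  M_cl : IsClosed M
  S_cl : IsClosed S
  SM : S ⊆ M
  cont : ContinuousOn c ((S ∩ closure U) ×ˢ Icc 0 1)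
  inj : InjOn c ((S ∩ closure U) ×ˢ Icc 0 1)
  maps : MapsTo c ((S ∩ closure U) ×ˢ Icc 0 1) M
  zero : ∀ x ∈ S ∩ closure U, c (x, 0) = x
  meet : ∀ x ∈ S ∩ closure U, ∀ t ∈ Icc (0 : ℝ) 1, c (x, t) ∈ S → t = 0
  O_op : IsOpen O
  O_eq : O ∩ M = c '' ((S ∩ U) ×ˢ Ico 0 1)

/-- the hypotheses on the heights -/
structure Ht [TopologicalSpace X] (S U : Set X) (lam mu : X → ℝ) : Prop where
  cl : Continuous lam
  cm : Continuous mu
  bl : ∀ x, 0 ≤ lam x ∧ lam x ≤ 1
  bm : ∀ x, 0 ≤ mu x ∧ mu x ≤ 1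
  eq : ∀ x ∈ S, x ∉ U → lam x = mu x

theorem Ht.symm [TopologicalSpace X] {S U : Set X} {lam mu : X → ℝ} (h : Ht S U lam mu) :
    Ht S U mu lam :=
  ⟨h.cm, h.cl, h.bm, h.bl, fun x hx hu => (h.eq x hx hu).symm⟩

section
variable [TopologicalSpace X] {M S U O : Set X} {c : X × ℝ → X} {lam mu : X → ℝ}

omit [TopologicalSpace X] in
theorem CC_pos {z : X × ℝ} (h : 0 ≤ z.2) : CC c z = (c z, 0) := if_pos h

theorem CC_neg (H : Hyp M S U O c) {z : X × ℝ} (hz : z.1 ∈ S ∩ closure U) (h : z.2 ≤ 0) :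
    CC c z = z := by
  unfold CC
  split_ifs with h0
  · have h1 : z.2 = 0 := le_antisymm h h0
    have h2 : z = (z.1, 0) := Prod.ext rfl h1
    have h3 := H.zero z.1 hz
    rw [h2, h3]
  · rfl

theorem ph_mem (hh : Ht S U lam mu) {z : X × ℝ} (hz : z ∈ DL S U lam) :
    ph lam mu z ∈ DL S U mu := by
  obtain ⟨h1, h2, h3⟩ := hz
  have a1 := hh.bl z.1
  have a2 := hh.bm z.1
  have a3 : 0 < 1 + lam z.1 := by linarith [a1.1]
  refine ⟨h1, ?_, ?_⟩
  · show -mu z.1 ≤ 1 - (1 - z.2) * (1 + mu z.1) / (1 + lam z.1)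
    have h4 : (1 - z.2) * (1 + mu z.1) / (1 + lam z.1) ≤ 1 + mu z.1 := by
      rw [div_le_iff₀ a3, mul_comm]
      apply mul_le_mul_of_nonneg_left _ (by linarith [a2.1])
      linarith
    linarith
  · show 1 - (1 - z.2) * (1 + mu z.1) / (1 + lam z.1) ≤ 1
    have h4 : 0 ≤ (1 - z.2) * (1 + mu z.1) / (1 + lam z.1) :=
      div_nonneg (mul_nonneg (by linarith) (by linarith [a2.1])) a3.le
    linarith

theorem ph_ph (hh : Ht S U lam mu) (z : X × ℝ) : ph mu lam (ph lam mu z) = z := by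
  have a1 := hh.bl z.1
  have a2 := hh.bm z.1
  have a3 : 1 + lam z.1 ≠ 0 := by linarith [a1.1]
  have a4 : 1 + mu z.1 ≠ 0 := by linarith [a2.1]
  apply Prod.ext
  · rfl
  · show 1 - (1 - (1 - (1 - z.2) * (1 + mu z.1) / (1 + lam z.1))) * (1 + lam z.1) /
      (1 + mu z.1) = z.2
    field_simp
    ring

theorem ph_id (hh : Ht S U lam mu) {z : X × ℝ} (hz : z ∈ DL S U lam) (h : ¬ (z.1 ∈ U ∧ z.2 < 1)) :
    ph lam mu z = z := by
  obtain ⟨h1, h2, h3⟩ := hz
  have a1 := hh.bl z.1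
  have a3 : 1 + lam z.1 ≠ 0 := by linarith [a1.1]
  apply Prod.ext
  · rfl
  · show 1 - (1 - z.2) * (1 + mu z.1) / (1 + lam z.1) = z.2
    by_cases hu : z.1 ∈ U
    · have h4 : z.2 = 1 := by
        by_contra h5
        exact h ⟨hu, lt_of_le_of_ne h3 h5⟩
      rw [h4]
      simp
    · rw [← hh.eq z.1 h1.1 hu]
      field_simp
      ring

theorem ph_cont (hh : Ht S U lam mu) : Continuous (ph lam mu) := by
  have h1 := hh.cl
  have h2 := hh.cm
  unfold ph
  apply Continuous.prodMk continuous_fst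
  apply Continuous.sub continuous_const
  apply Continuous.div
  · fun_prop
  · fun_prop
  · intro z
    have := (hh.bl z.1).1
    linarith

theorem CC_inj (H : Hyp M S U O c) : InjOn (CC c) (DL S U lam) := by
  rintro ⟨x, t⟩ ⟨h1, h2, h3⟩ ⟨x', t'⟩ ⟨h1', h2', h3'⟩ h
  simp only at h1 h2 h3 h1' h2' h3'
  by_cases ht : 0 ≤ t
  · by_cases ht' : 0 ≤ t'
    · rw [CC_pos (c := c) (z := (x, t)) ht, CC_pos (c := c) (z := (x', t')) ht'] at h
      exact H.inj ⟨h1, ht, h3⟩ ⟨h1', ht', h3'⟩ (Prod.ext_iff.1 h).1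
    · rw [CC_pos (c := c) (z := (x, t)) ht,
        CC_neg H (z := (x', t')) h1' (not_le.1 ht').le] at h
      exact absurd (Prod.ext_iff.1 h).2 (not_le.1 ht').ne'
  · by_cases ht' : 0 ≤ t'
    · rw [CC_pos (c := c) (z := (x', t')) ht',
        CC_neg H (z := (x, t)) h1 (not_le.1 ht).le] at h
      exact absurd (Prod.ext_iff.1 h).2 (not_le.1 ht).ne
    · rwa [CC_neg H (z := (x', t')) h1' (not_le.1 ht').le,
        CC_neg H (z := (x, t)) h1 (not_le.1 ht).le] at h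

theorem CC_mem (H : Hyp M S U O c) {z : X × ℝ} (hz : z ∈ DL S U lam) : CC c z ∈ Mp M S lam := by
  obtain ⟨h1, h2, h3⟩ := hz
  by_cases h : 0 ≤ z.2
  · rw [CC_pos h]
    exact Or.inl ⟨H.maps ⟨h1, h, h3⟩, rfl⟩
  · rw [CC_neg H h1 (not_le.1 h).le]
    exact Or.inr ⟨h1.1, h2, (not_le.1 h).le⟩

/-- points over `O` -/
theorem CC_O (H : Hyp M S U O c) {z : X × ℝ} (hz : z ∈ DL S U lam) (h : z.1 ∈ U ∧ z.2 < 1) :
    (CC c z).1 ∈ O := by
  obtain ⟨h1, h2, h3⟩ := hz
  by_cases h0 : 0 ≤ z.2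
  · rw [CC_pos h0]
    have h4 : c z ∈ O ∩ M := by
      rw [H.O_eq]
      exact ⟨z, ⟨⟨h1.1, h.1⟩, h0, h.2⟩, rfl⟩
    exact h4.1
  · rw [CC_neg H h1 (not_le.1 h0).le]
    have h4 : c (z.1, 0) ∈ O ∩ M := by
      rw [H.O_eq]
      exact ⟨(z.1, 0), ⟨⟨h1.1, h.1⟩, le_refl _, zero_lt_one⟩, rfl⟩
    rw [H.zero z.1 h1] at h4
    exact h4.1

theorem mem_O_of (H : Hyp M S U O c) {x : X} (hS : x ∈ S) : x ∈ O ↔ x ∈ U := by
  constructor
  · intro h
    have h1 : x ∈ O ∩ M := ⟨h, H.SM hS⟩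
    rw [H.O_eq] at h1
    obtain ⟨⟨y, t⟩, ⟨⟨hy1, hy2⟩, ht0, ht1⟩, hz⟩ := h1
    simp only at hy1 hy2 ht0 ht1
    have h2 : t = 0 := by
      apply H.meet y ⟨hy1, subset_closure hy2⟩ t ⟨ht0, ht1.le⟩
      rw [hz]
      exact hS
    rw [h2, H.zero y ⟨hy1, subset_closure hy2⟩] at hz
    rw [← hz]
    exact hy2
  · intro h
    have h4 : c (x, 0) ∈ O ∩ M := by
      rw [H.O_eq]
      exact ⟨(x, 0), ⟨⟨hS, h⟩, le_refl _, zero_lt_one⟩, rfl⟩
    rw [H.zero x ⟨hS, subset_closure h⟩] at h4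
    exact h4.1

theorem exists_z (H : Hyp M S U O c) (hh : Ht S U lam mu) {p : X × ℝ} (hp : p ∈ Mp M S lam)
    (hO : p.1 ∈ O) : ∃ z ∈ DL S U lam, CC c z = p := by
  have hM : p.1 ∈ M := by
    rcases hp with h | h
    · exact h.1
    · exact H.SM h.1
  have h1 : p.1 ∈ O ∩ M := ⟨hO, hM⟩
  by_cases h0 : p.2 = 0
  · rw [H.O_eq] at h1
    obtain ⟨⟨y, t⟩, ⟨⟨hy1, hy2⟩, ht0, ht1⟩, hz⟩ := h1
    simp only at hy1 hy2 ht0 ht1
    refine ⟨(y, t), ⟨⟨hy1, subset_closure hy2⟩, ?_, ht1.le⟩, ?_⟩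
    · have := (hh.bl y).1
      show -lam y ≤ t
      linarith
    · rw [CC_pos (c := c) (z := (y, t)) ht0]
      exact Prod.ext hz h0.symm
  · rcases hp with h | h
    · exact absurd h.2 h0
    · have hU : p.1 ∈ U := (mem_O_of H h.1).1 hO
      have h2 : p.1 ∈ S ∩ closure U := ⟨h.1, subset_closure hU⟩
      exact ⟨p, ⟨h2, h.2.1, by linarith [h.2.2]⟩, CC_neg H h2 h.2.2⟩

theorem GG_CC (H : Hyp M S U O c) {z : X × ℝ} (hz : z ∈ DL S U lam) :
    GG S U c lam mu (CC c z) = CC c (ph lam mu z) := by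
  have h : ∃ z' ∈ DL S U lam, CC c z' = CC c z := ⟨z, hz, rfl⟩
  unfold GG
  rw [dif_pos h]
  have h1 := h.choose_spec
  rw [CC_inj H h1.1 hz h1.2]

theorem GG_id (H : Hyp M S U O c) (hh : Ht S U lam mu) {p : X × ℝ} (hO : p.1 ∉ O) :
    GG S U c lam mu p = p := by
  by_cases h : ∃ z ∈ DL S U lam, CC c z = p
  · obtain ⟨z, hz, rfl⟩ := h
    rw [GG_CC H hz, ph_id hh hz]
    intro h1
    exact hO (CC_O H hz h1)
  · unfold GG
    rw [dif_neg h]

theorem mem_mu (H : Hyp M S U O c) (hh : Ht S U lam mu) {p : X × ℝ} (hp : p ∈ Mp M S lam)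
    (hO : p.1 ∉ O) : p ∈ Mp M S mu := by
  rcases hp with h | h
  · exact Or.inl h
  · have hU : p.1 ∉ U := fun h1 => hO ((mem_O_of H h.1).2 h1)
    refine Or.inr ⟨h.1, ?_, h.2.2⟩
    rw [← hh.eq p.1 h.1 hU]
    exact h.2.1

theorem GG_mem (H : Hyp M S U O c) (hh : Ht S U lam mu) {p : X × ℝ} (hp : p ∈ Mp M S lam) :
    GG S U c lam mu p ∈ Mp M S mu := by
  by_cases hO : p.1 ∈ O
  · obtain ⟨z, hz, rfl⟩ := exists_z H hh hp hO
    rw [GG_CC H hz]
    exact CC_mem H (ph_mem hh hz)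
  · rw [GG_id H hh hO]
    exact mem_mu H hh hp hO

theorem GG_GG (H : Hyp M S U O c) (hh : Ht S U lam mu) {p : X × ℝ} (hp : p ∈ Mp M S lam) :
    GG S U c mu lam (GG S U c lam mu p) = p := by
  by_cases hO : p.1 ∈ O
  · obtain ⟨z, hz, rfl⟩ := exists_z H hh hp hO
    rw [GG_CC H hz, GG_CC H (ph_mem hh hz), ph_ph hh]
  · rw [GG_id H hh hO, GG_id H hh.symm hO]

theorem GG_end (H : Hyp M S U O c) (hh : Ht S U lam mu) {p : X × ℝ} (hS : p.1 ∈ S)
    (h2 : p.2 = -lam p.1) : GG S U c lam mu p = (p.1, -mu p.1) := by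
  have b1 := hh.bl p.1
  have b2 := hh.bm p.1
  by_cases hU : p.1 ∈ U
  · have hK : p.1 ∈ S ∩ closure U := ⟨hS, subset_closure hU⟩
    have hz : p ∈ DL S U lam := ⟨hK, h2.ge, by linarith [b1.1]⟩
    have h3 : CC c p = p := CC_neg H hK (by linarith [b1.1])
    have h4 := GG_CC (mu := mu) H hz
    rw [h3] at h4
    have h5 : ph lam mu p = (p.1, -mu p.1) := by
      apply Prod.ext
      · rfl
      · show 1 - (1 - p.2) * (1 + mu p.1) / (1 + lam p.1) = -mu p.1
        have a3 : 1 + lam p.1 ≠ 0 := by linarith [b1.1]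
        rw [h2]
        field_simp
        ring
    rw [h4, h5]
    exact CC_neg H (z := (p.1, -mu p.1)) hK (by show -mu p.1 ≤ 0; linarith [b2.1])
  · have hO : p.1 ∉ O := fun h => hU ((mem_O_of H hS).1 h)
    rw [GG_id H hh hO, ← hh.eq p.1 hS hU]
    exact Prod.ext rfl h2

theorem DL_closed (H : Hyp M S U O c) (hl : Continuous lam) : IsClosed (DL S U lam) := by
  have h1 : IsClosed {z : X × ℝ | z.1 ∈ S ∩ closure U} :=
    (H.S_cl.inter isClosed_closure).preimage continuous_fst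
  have h2 : IsClosed {z : X × ℝ | -lam z.1 ≤ z.2} :=
    isClosed_le (by fun_prop) (by fun_prop)
  have h3 : IsClosed {z : X × ℝ | z.2 ≤ 1} := isClosed_le (by fun_prop) (by fun_prop)
  exact h1.inter (h2.inter h3)

theorem DL_compact [CompactSpace X] (H : Hyp M S U O c) (hh : Ht S U lam mu) :
    IsCompact (DL S U lam) := by
  have h1 : IsCompact ((univ : Set X) ×ˢ Icc (-1 : ℝ) 1) := isCompact_univ.prod isCompact_Icc
  refine h1.of_isClosed_subset (DL_closed H hh.cl) ?_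
  rintro z ⟨_, h2, h3⟩
  exact ⟨mem_univ _, by linarith [(hh.bl z.1).2], h3⟩

theorem CC_cont (H : Hyp M S U O c) (hh : Ht S U lam mu) : ContinuousOn (CC c) (DL S U lam) := by
  have h0 : DL S U lam = (DL S U lam ∩ {z | 0 ≤ z.2}) ∪ (DL S U lam ∩ {z | z.2 ≤ 0}) := by
    ext z
    simp only [mem_union, mem_inter_iff, mem_ofPred_eq]
    constructor
    · intro h
      rcases le_total 0 z.2 with h1 | h1
      · exact Or.inl ⟨h, h1⟩
      · exact Or.inr ⟨h, h1⟩
    · rintro (h | h) <;> exact h.1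
  rw [h0]
  apply ContinuousOn.union_of_isClosed
  · have h1 : ContinuousOn (fun z : X × ℝ => (c z, (0 : ℝ))) (DL S U lam ∩ {z | 0 ≤ z.2}) := by
      apply ContinuousOn.prodMk _ continuousOn_const
      apply H.cont.mono
      rintro z ⟨⟨h1, h2, h3⟩, h4⟩
      exact ⟨h1, h4, h3⟩
    exact h1.congr fun z hz => CC_pos hz.2
  · exact continuousOn_id.congr fun z hz => CC_neg H hz.1.1 hz.2
  · exact (DL_closed H hh.cl).inter (isClosed_le (by fun_prop) (by fun_prop))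
  · exact (DL_closed H hh.cl).inter (isClosed_le (by fun_prop) (by fun_prop))

theorem Mp_closed (H : Hyp M S U O c) (hh : Ht S U lam mu) : IsClosed (Mp M S lam) := by
  have hl := hh.cl
  have h1 : IsClosed {p : X × ℝ | p.1 ∈ M ∧ p.2 = 0} :=
    (H.M_cl.preimage continuous_fst).inter (isClosed_eq (by fun_prop) (by fun_prop))
  have h3 : IsClosed {p : X × ℝ | -lam p.1 ≤ p.2} := isClosed_le (by fun_prop) (by fun_prop)
  have h4 : IsClosed {p : X × ℝ | p.2 ≤ 0} := isClosed_le (by fun_prop) (by fun_prop)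
  have h2 : IsClosed {p : X × ℝ | p.1 ∈ S ∧ -lam p.1 ≤ p.2 ∧ p.2 ≤ 0} :=
    (H.S_cl.preimage continuous_fst).inter (h3.inter h4)
  exact h1.union h2

theorem GG_cont [T2Space X] [CompactSpace X] (H : Hyp M S U O c) (hh : Ht S U lam mu) :
    ContinuousOn (GG S U c lam mu) (Mp M S lam) := by
  have h1 : ContinuousOn (GG S U c lam mu) (CC c '' DL S U lam) := by
    apply contOn_image (DL_compact H hh) (CC_cont H hh)
    have h2 : ContinuousOn (fun z => CC c (ph lam mu z)) (DL S U lam) :=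
      (CC_cont H hh.symm).comp (ph_cont hh).continuousOn fun z hz => ph_mem hh hz
    exact h2.congr fun z hz => GG_CC H hz
  have h2 : ContinuousOn (GG S U c lam mu) (Mp M S lam ∩ {p | p.1 ∈ Oᶜ}) :=
    continuousOn_id.congr fun p hp => GG_id H hh hp.2
  have h3 := ContinuousOn.union_of_isClosed h1 h2
    ((DL_compact H hh).image_of_continuousOn (CC_cont H hh)).isClosed
    ((Mp_closed H hh).inter (H.O_op.isClosed_compl.preimage continuous_fst))
  apply h3.mono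
  intro p hp
  by_cases hO : p.1 ∈ O
  · exact Or.inl (exists_z H hh hp hO)
  · exact Or.inr ⟨hp, hO⟩

/-- the homeomorphism -/
noncomputable def EE [T2Space X] [CompactSpace X] (H : Hyp M S U O c) (hh : Ht S U lam mu) :
    ↥(Mp M S lam) ≃ₜ ↥(Mp M S mu) where
  toFun p := ⟨GG S U c lam mu p.1, GG_mem H hh p.2⟩
  invFun p := ⟨GG S U c mu lam p.1, GG_mem H hh.symm p.2⟩
  left_inv p := Subtype.ext (GG_GG H hh p.2)
  right_inv p := Subtype.ext (GG_GG H hh.symm p.2)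
  continuous_toFun :=
    Continuous.subtype_mk (continuousOn_iff_continuous_domRestrict.1 (GG_cont H hh)) _
  continuous_invFun :=
    Continuous.subtype_mk (continuousOn_iff_continuous_domRestrict.1 (GG_cont H hh.symm)) _

end

end IT2

open IT2

theorem pr_T2 : S_T2 := by
  intro X _ _ M S U c lam mu hM hS hSM _ hc hinj hmaps hz hmeet hO hlam hmu bl bm heq
  obtain ⟨O, hO1, hO2⟩ := hO
  have H : Hyp M S U O c := ⟨hM, hS, hSM, hc, hinj, hmaps, hz, hmeet, hO1, hO2⟩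
  have hh : Ht S U lam mu := ⟨hlam, hmu, bl, bm, heq⟩
  exact ⟨EE H hh, fun p h1 h2 => GG_end H hh h1 h2⟩

end Pool.Agent.Work.MP_552024_lc.HM
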