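import Pool.Agent.Work.MP_552024_lc.HM.Stmts

/-!
# Item T3 of the block HM: the collar theorem from the step of Connelly's proof
-/

set_option autoImplicit false

namespace Pool.Agent.Work.MP_552024_lc.HM

open Metric Set Topology

namespace IT3

/-- A homeomorphism which maps the outer boundary to the outer boundary, over the identity. -/
def Good {X : Type} [TopologicalSpace X] (M S : Set X) (lam mu : X → ℝ) : Prop :=
  ∃ e : ↥(Mp M S lam) ≃ₜ ↥(Mp M S mu), ∀ p : ↥(Mp M S lam), p.1.1 ∈ S → p.1.2 = -lam p.1.1 →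
    (e p).1 = (p.1.1, -mu p.1.1)

lemma good_refl {X : Type} [TopologicalSpace X] (M S : Set X) (lam : X → ℝ) :
    Good M S lam lam := by
  refine ⟨Homeomorph.refl _, fun p _ h => ?_⟩
  rw [← h]
  rfl

lemma good_trans {X : Type} [TopologicalSpace X] {M S : Set X} {a b c : X → ℝ}
    (h1 : Good M S a b) (h2 : Good M S b c) : Good M S a c := by
  obtain ⟨e1, h1⟩ := h1
  obtain ⟨e2, h2⟩ := h2
  refine ⟨e1.trans e2, fun p hp h => ?_⟩
  have h3 := h1 p hp h
  have h4 := h2 (e1 p) (by rw [h3]; exact hp) (by rw [h3])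
  rw [Homeomorph.trans_apply, h4, h3]

/-- The collar from a homeomorphism with the space with an outer collar of height one. -/
lemma collar_of_good {X : Type} [TopologicalSpace X] (M S : Set X) (hSM : S ⊆ M) (lam : X → ℝ)
    (hlam : ∀ x ∈ S, lam x = 1) (h : Good M S (fun _ => 0) lam) : Collar M S := by
  classical
  obtain ⟨H, hH⟩ := h
  have hmem : ∀ z : X × ℝ, z ∈ S ×ˢ Icc (0 : ℝ) 1 → (z.1, z.2 - 1) ∈ Mp M S lam := by
    intro z hz
    refine Or.inr ⟨hz.1, ?_, ?_⟩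
    · simp only [hlam _ hz.1]; linarith [hz.2.1]
    · have := hz.2.2
      simp only; linarith
  have h0 : ∀ q : ↥(Mp M S (fun _ => (0 : ℝ))), q.1.2 = 0 ∧ q.1.1 ∈ M := by
    rintro ⟨q, hq | ⟨hq1, hq2, hq3⟩⟩
    · exact ⟨hq.2, hq.1⟩
    · exact ⟨le_antisymm hq3 (by simpa using hq2), hSM hq1⟩
  let c : X × ℝ → X := fun z =>
    if h : (z.1, z.2 - 1) ∈ Mp M S lam then (H.symm ⟨_, h⟩).1.1 else z.1
  have hc : ∀ z : X × ℝ, ∀ h : (z.1, z.2 - 1) ∈ Mp M S lam, c z = (H.symm ⟨_, h⟩).1.1 := by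
    intro z h
    exact dif_pos h
  have hcM : ∀ y ∈ M, (y, (0 : ℝ)) ∈ Mp M S (fun _ => (0 : ℝ)) := fun y hy => Or.inl ⟨hy, rfl⟩
  refine ⟨c, ?_, ?_, ?_, ?_, ?_⟩
  · rw [continuousOn_iff_continuous_domRestrict]
    have h1 : (S ×ˢ Icc (0 : ℝ) 1).domRestrict c = fun z : ↥(S ×ˢ Icc (0 : ℝ) 1) =>
        (H.symm ⟨(z.1.1, z.1.2 - 1), hmem z.1 z.2⟩).1.1 := by
      funext z
      exact hc z.1 (hmem z.1 z.2)
    rw [h1]
    refine continuous_fst.comp (continuous_subtype_val.comp (H.symm.continuous.comp ?_))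
    refine Continuous.subtype_mk ?_ _
    exact (continuous_fst.comp continuous_subtype_val).prodMk
      ((continuous_snd.comp continuous_subtype_val).sub continuous_const)
  · intro z hz z' hz' hzz
    rw [hc z (hmem z hz), hc z' (hmem z' hz')] at hzz
    have h1 : H.symm ⟨(z.1, z.2 - 1), hmem z hz⟩ = H.symm ⟨(z'.1, z'.2 - 1), hmem z' hz'⟩ := by
      apply Subtype.ext
      refine Prod.ext hzz ?_
      rw [(h0 _).1, (h0 _).1]
    have h2 := H.symm.injective h1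
    have h3 := congrArg Subtype.val h2
    simp only [Prod.mk.injEq] at h3
    exact Prod.ext h3.1 (by linarith [h3.2])
  · intro z hz
    rw [hc z (hmem z hz)]
    exact (h0 _).2
  · intro x hx
    have hx0 : ((x, (0 : ℝ)) : X × ℝ) ∈ S ×ˢ Icc (0 : ℝ) 1 := ⟨hx, by simp⟩
    rw [hc (x, 0) (hmem _ hx0)]
    have h1 := hH ⟨(x, 0), hcM x (hSM hx)⟩ hx (by simp)
    have h2 : H ⟨(x, 0), hcM x (hSM hx)⟩ = ⟨((x, (0 : ℝ)).1, (x, (0 : ℝ)).2 - 1), hmem _ hx0⟩ := by
      apply Subtype.ext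
      rw [h1]
      simp [hlam x hx]
    rw [← h2, H.symm_apply_apply]
  · have h1 : IsOpen {y : ↥M | (H ⟨(y.1, 0), hcM y.1 y.2⟩).1.2 < 0} := by
      refine isOpen_lt ?_ continuous_const
      refine continuous_snd.comp (continuous_subtype_val.comp (H.continuous.comp ?_))
      refine Continuous.subtype_mk ?_ _
      exact continuous_subtype_val.prodMk continuous_const
    obtain ⟨O, hO, hOM⟩ := isOpen_induced_iff.1 h1
    refine ⟨O, hO, ?_⟩
    ext y
    constructor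
    · rintro ⟨hyO, hyM⟩
      have h2 : (⟨y, hyM⟩ : ↥M) ∈ {y : ↥M | (H ⟨(y.1, 0), hcM y.1 y.2⟩).1.2 < 0} := by
        rw [← hOM]
        exact hyO
      have h3 : (H ⟨(y, 0), hcM y hyM⟩).1.2 < 0 := h2
      have h4 := (H ⟨(y, 0), hcM y hyM⟩).2
      rcases h4 with h4 | ⟨h4, h5, h6⟩
      · exact absurd h4.2 (ne_of_lt h3)
      · rw [hlam _ h4] at h5
        refine ⟨((H ⟨(y, 0), hcM y hyM⟩).1.1, (H ⟨(y, 0), hcM y hyM⟩).1.2 + 1),
          ⟨h4, by simp only; linarith, by simp only; linarith⟩, ?_⟩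
        have h7 : (((H ⟨(y, 0), hcM y hyM⟩).1.1, (H ⟨(y, 0), hcM y hyM⟩).1.2 + 1) : X × ℝ) ∈
            S ×ˢ Icc (0 : ℝ) 1 := ⟨h4, by simp only; linarith, by simp only; linarith⟩
        rw [hc _ (hmem _ h7)]
        have h8 : (⟨(((H ⟨(y, 0), hcM y hyM⟩).1.1, (H ⟨(y, 0), hcM y hyM⟩).1.2 + 1).1,
            ((H ⟨(y, 0), hcM y hyM⟩).1.1, (H ⟨(y, 0), hcM y hyM⟩).1.2 + 1).2 - 1),
            hmem _ h7⟩ : ↥(Mp M S lam)) = H ⟨(y, 0), hcM y hyM⟩ := by
          apply Subtype.ext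
          simp
        rw [h8, H.symm_apply_apply]
    · rintro ⟨z, hz, rfl⟩
      have hz' : z ∈ S ×ˢ Icc (0 : ℝ) 1 := ⟨hz.1, hz.2.1, hz.2.2.le⟩
      rw [hc z (hmem z hz')]
      have h2 := (h0 (H.symm ⟨(z.1, z.2 - 1), hmem z hz'⟩)).2
      refine ⟨?_, h2⟩
      have h3 : (⟨(H.symm ⟨(z.1, z.2 - 1), hmem z hz'⟩).1.1, h2⟩ : ↥M) ∈
          {y : ↥M | (H ⟨(y.1, 0), hcM y.1 y.2⟩).1.2 < 0} := by
        have h4 : (⟨((H.symm ⟨(z.1, z.2 - 1), hmem z hz'⟩).1.1, 0), hcM _ h2⟩ :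
            ↥(Mp M S (fun _ => (0 : ℝ)))) = H.symm ⟨(z.1, z.2 - 1), hmem z hz'⟩ := by
          apply Subtype.ext
          exact Prod.ext rfl (h0 _).1.symm
        simp only [mem_ofPred_eq]
        rw [h4, H.apply_symm_apply]
        have := hz.2.2
        simp only; linarith
      rw [← hOM] at h3
      exact h3

end IT3

open IT3 in
theorem pr_T3 : S_T3 := by
  classical
  intro hT2 X _ _ M S hM hS hSM hloc
  choose! U hUo hpU c hc1 hc2 hc3 hc4 hc5 hc6 using hloc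
  obtain ⟨t, ht⟩ := hS.isCompact.elim_nhds_subcover' (fun p _ => U p)
    (fun p hp => (hUo p hp).mem_nhds (hpU p hp))
  obtain ⟨f, hf⟩ := PartitionOfUnity.exists_isSubordinate (ι := ↥t) hS (fun i => U i.1.1)
    (fun i => hUo _ i.1.2) (by
      intro x hx
      have h1 := ht hx
      simp only [mem_iUnion] at h1
      obtain ⟨i, hi, hxi⟩ := h1
      exact mem_iUnion.2 ⟨⟨i, hi⟩, hxi⟩)
  have hsum1 : ∀ x ∈ S, ∑ i, f i x = 1 := by
    intro x hx
    rw [← finsum_eq_sum_of_fintype]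
    exact f.sum_eq_one hx
  have hsum2 : ∀ T : Finset ↥t, ∀ x, ∑ i ∈ T, f i x ≤ 1 := by
    intro T x
    have h1 := f.sum_le_one x
    rw [finsum_eq_sum_of_fintype] at h1
    exact (Finset.sum_le_sum_of_subset_of_nonneg (Finset.subset_univ T)
      (fun i _ _ => f.nonneg i x)).trans h1
  have hsum0 : ∀ T : Finset ↥t, ∀ x, 0 ≤ ∑ i ∈ T, f i x :=
    fun T x => Finset.sum_nonneg (fun i _ => f.nonneg i x)
  have hcont : ∀ T : Finset ↥t, Continuous (fun x => ∑ i ∈ T, f i x) :=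
    fun T => continuous_finsetSum _ (fun i _ => (f i).continuous)
  have hgood : ∀ T : Finset ↥t, Good M S (fun _ => 0) (fun x => ∑ i ∈ T, f i x) := by
    intro T
    induction T using Finset.induction_on with
    | empty => simpa using good_refl M S (fun _ => 0)
    | insert a T ha ih =>
      refine good_trans ih ?_
      have hp := a.1.2
      exact hT2 X M S (U a.1.1) (c a.1.1) _ _ hM hS hSM (hUo _ hp) (hc1 _ hp) (hc2 _ hp)
        (hc3 _ hp) (hc4 _ hp) (hc5 _ hp) (hc6 _ hp) (hcont T) (hcont (insert a T))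
        (fun x => ⟨hsum0 T x, hsum2 T x⟩)
        (fun x => ⟨hsum0 _ x, hsum2 _ x⟩)
        (fun x _ hxU => by
          rw [Finset.sum_insert ha]
          have h1 : f a x = 0 := by
            by_contra hne
            exact hxU (hf a (subset_tsupport _ hne))
          rw [h1, zero_add])
  exact collar_of_good M S hSM _ hsum1 (hgood Finset.univ)

end Pool.Agent.Work.MP_552024_lc.HM
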