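import Pool.Agent.Work.MP_552024_lc.HM.Stmts

/-!
MP_552024_lc, block HM, item T4: the cone map of a collared set.
-/

set_option autoImplicit false

namespace Pool.Agent.Work.MP_552024_lc.HM

open Metric Set Topology

namespace IT4

variable {X : Type} [MetricSpace X] {n : ℕ} {S : Set X}

/-- the collar as a map of `S × [0,1]` -/
def EE (c : X × ℝ → X) (S : Set X) (p : ↥S × ↥(Icc (0 : ℝ) 1)) : X := c ((p.1 : X), (p.2 : ℝ))

/-- the cone map in the coordinates of the collar -/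
noncomputable def GG (s : ↥S ≃ₜ ↥(sphere (0 : Eu (n + 1)) 1)) (p : ↥S × ↥(Icc (0 : ℝ) 1)) :
    Eu (n + 1) := (1 - (p.2 : ℝ)) • (s p.1 : Eu (n + 1))

theorem norm_GG (s : ↥S ≃ₜ ↥(sphere (0 : Eu (n + 1)) 1)) (p : ↥S × ↥(Icc (0 : ℝ) 1)) :
    ‖GG s p‖ = 1 - (p.2 : ℝ) := by
  have h1 : ‖(s p.1 : Eu (n + 1))‖ = 1 := by
    have h := (s p.1).2
    rwa [mem_sphere_zero_iff_norm] at h
  have h2 : 0 ≤ 1 - (p.2 : ℝ) := by linarith [p.2.2.2]
  rw [GG, norm_smul, h1, mul_one, Real.norm_eq_abs, abs_of_nonneg h2]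

theorem cont_GG (s : ↥S ≃ₜ ↥(sphere (0 : Eu (n + 1)) 1)) : Continuous (GG s) := by
  unfold GG
  have h1 : Continuous fun p : ↥S × ↥(Icc (0 : ℝ) 1) => (s p.1 : Eu (n + 1)) :=
    continuous_subtype_val.comp (s.continuous.comp continuous_fst)
  have h2 : Continuous fun p : ↥S × ↥(Icc (0 : ℝ) 1) => (1 - (p.2 : ℝ)) :=
    continuous_const.sub (continuous_subtype_val.comp continuous_snd)
  exact h2.smul h1

end IT4

open IT4 in
theorem pr_T4 : S_T4 := by
  intro X _ _ n M S hM hS hSM hcol s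
  obtain ⟨c, hc, hinj, hmap, hc0, O, hO, hOM⟩ := hcol
  have : CompactSpace ↥S := isCompact_iff_compactSpace.1 hS.isCompact
  -- the embedding
  have hEc : Continuous (EE c S) := by
    have h1 : Continuous fun p : ↥S × ↥(Icc (0 : ℝ) 1) => (((p.1 : X), (p.2 : ℝ)) : X × ℝ) :=
      (continuous_subtype_val.comp continuous_fst).prodMk
        (continuous_subtype_val.comp continuous_snd)
    exact hc.comp_continuous h1 fun p => ⟨p.1.2, p.2.2⟩
  have hEi : Function.Injective (EE c S) := by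
    intro p p' h
    have h1 := hinj (show ((p.1 : X), (p.2 : ℝ)) ∈ S ×ˢ Icc (0 : ℝ) 1 from ⟨p.1.2, p.2.2⟩)
      (show ((p'.1 : X), (p'.2 : ℝ)) ∈ S ×ˢ Icc (0 : ℝ) 1 from ⟨p'.1.2, p'.2.2⟩) h
    rw [Prod.mk.injEq] at h1
    exact Prod.ext (Subtype.ext h1.1) (Subtype.ext h1.2)
  have hEe : IsClosedEmbedding (EE c S) := hEc.isClosedEmbedding hEi
  obtain ⟨q, hq⟩ : ∃ q : X → Eu (n + 1), q = Function.extend (EE c S) (GG s) 0 := ⟨_, rfl⟩
  have hqE : ∀ p, q (EE c S p) = GG s p := fun p => by rw [hq, hEi.extend_apply]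
  have hq0 : ∀ z, z ∉ range (EE c S) → q z = 0 := fun z hz => by
    rw [hq, Function.extend_apply' _ _ _ (fun h => hz h)]
    rfl
  have hSr : ∀ x : ↥S, EE c S (x, ⟨0, le_rfl, zero_le_one⟩) = x := fun x => hc0 x x.2
  -- continuity
  have hcont1 : ContinuousOn q (range (EE c S)) := by
    rw [continuousOn_iff_continuous_domRestrict]
    have h1 : (range (EE c S)).domRestrict q ∘ hEe.isEmbedding.toHomeomorph = GG s := by
      funext p
      exact hqE p
    have h2 : (range (EE c S)).domRestrict q = GG s ∘ hEe.isEmbedding.toHomeomorph.symm := by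
      rw [← h1]
      funext z
      simp
    rw [h2]
    exact (cont_GG s).comp (Homeomorph.continuous _)
  have hqO : ∀ z ∈ M \ O, q z = 0 := by
    intro z hz
    by_cases hr : z ∈ range (EE c S)
    · obtain ⟨p, rfl⟩ := hr
      have ht : (p.2 : ℝ) = 1 := by
        by_contra hne
        have hlt : (p.2 : ℝ) < 1 := lt_of_le_of_ne p.2.2.2 hne
        have h1 : EE c S p ∈ O ∩ M := by
          rw [hOM]
          exact ⟨((p.1 : X), (p.2 : ℝ)), ⟨p.1.2, p.2.2.1, hlt⟩, rfl⟩
        exact hz.2 h1.1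
      rw [hqE, GG, ht, sub_self, zero_smul]
    · exact hq0 z hr
  have hcont : ContinuousOn q M := by
    have h1 : ContinuousOn q (M \ O) :=
      (continuousOn_const (c := (0 : Eu (n + 1)))).congr hqO
    have h2 : IsClosed (M \ O) := hM.sdiff hO
    have h3 := hcont1.union_of_isClosed h1 hEe.isClosed_range h2
    refine h3.mono fun z hz => ?_
    by_cases hzO : z ∈ O
    · left
      have h4 : z ∈ O ∩ M := ⟨hzO, hz⟩
      rw [hOM] at h4
      obtain ⟨⟨x, t⟩, ⟨hx, ht0, ht1⟩, rfl⟩ := h4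
      exact ⟨(⟨x, hx⟩, ⟨t, ht0, ht1.le⟩), rfl⟩
    · exact Or.inr ⟨hz, hzO⟩
  have hEM : ∀ p, EE c S p ∈ M := fun p => hmap ⟨p.1.2, p.2.2⟩
  refine ⟨q, ⟨hcont, ?_, ?_, ?_⟩, fun x => ?_⟩
  · -- the image
    ext v
    rw [mem_closedBall_zero_iff]
    constructor
    · rintro ⟨z, hz, rfl⟩
      by_cases hr : z ∈ range (EE c S)
      · obtain ⟨p, rfl⟩ := hr
        rw [hqE, norm_GG]
        linarith [p.2.2.1]
      · rw [hq0 z hr, norm_zero]
        exact zero_le_one
    · intro hv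
      by_cases hv0 : v = 0
      · obtain ⟨w, hw⟩ : (sphere (0 : Eu (n + 1)) 1).Nonempty :=
          NormedSpace.sphere_nonempty.2 zero_le_one
        refine ⟨EE c S (s.symm ⟨w, hw⟩, ⟨1, zero_le_one, le_rfl⟩), hEM _, ?_⟩
        rw [hqE, hv0, GG]
        simp
      · have hn : ‖v‖ ≠ 0 := norm_ne_zero_iff.2 hv0
        have hw : ‖v‖⁻¹ • v ∈ sphere (0 : Eu (n + 1)) 1 := by
          rw [mem_sphere_zero_iff_norm, norm_smul, norm_inv, norm_norm, inv_mul_cancel₀ hn]
        refine ⟨EE c S (s.symm ⟨‖v‖⁻¹ • v, hw⟩, ⟨1 - ‖v‖, by linarith, by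
          linarith [norm_nonneg v]⟩), hEM _, ?_⟩
        rw [hqE, GG]
        simp only [Homeomorph.apply_symm_apply, sub_sub_cancel]
        rw [smul_smul, mul_inv_cancel₀ hn, one_smul]
  · -- the boundary
    intro z hz
    by_cases hr : z ∈ range (EE c S)
    · obtain ⟨p, rfl⟩ := hr
      rw [hqE, norm_GG]
      constructor
      · intro h
        have ht : (p.2 : ℝ) = 0 := by linarith
        have h1 : EE c S p = p.1 := by
          unfold EE
          rw [ht]
          exact hc0 _ p.1.2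
        rw [h1]
        exact p.1.2
      · intro h
        have h1 : EE c S (⟨EE c S p, h⟩, ⟨0, le_rfl, zero_le_one⟩) = EE c S p := hSr ⟨_, h⟩
        have h2 := hEi h1
        have h3 : ((0 : ℝ)) = (p.2 : ℝ) := congrArg (fun r => (r.2 : ℝ)) h2
        rw [← h3, sub_zero]
    · rw [hq0 z hr, norm_zero]
      constructor
      · intro h
        exact absurd h zero_ne_one
      · intro h
        exact absurd ⟨_, hSr ⟨z, h⟩⟩ hr
  · -- injectivity
    intro z hz z' hz' h
    by_cases h0 : q z = 0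
    · exact Or.inr h0
    left
    have hr : z ∈ range (EE c S) := by
      by_contra hc'
      exact h0 (hq0 z hc')
    have hr' : z' ∈ range (EE c S) := by
      by_contra hc'
      exact h0 (h.trans (hq0 z' hc'))
    obtain ⟨p, rfl⟩ := hr
    obtain ⟨p', rfl⟩ := hr'
    rw [hqE, hqE] at h
    rw [hqE] at h0
    have hn : 1 - (p.2 : ℝ) = 1 - (p'.2 : ℝ) := by
      rw [← norm_GG s p, ← norm_GG s p', h]
    have ht : (p.2 : ℝ) = (p'.2 : ℝ) := by linarith
    have hne : 1 - (p.2 : ℝ) ≠ 0 := by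
      rw [← norm_GG s p]
      exact norm_ne_zero_iff.2 h0
    unfold GG at h
    rw [← ht] at h
    have hs := smul_right_injective (Eu (n + 1)) hne h
    have hp1 : p.1 = p'.1 := s.injective (Subtype.ext hs)
    have hp2 : p.2 = p'.2 := Subtype.ext ht
    rw [Prod.ext hp1 hp2]
  · rw [← hSr x, hqE, GG]
    simp

end Pool.Agent.Work.MP_552024_lc.HM
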