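import Pool.Agent.Work.MP_552024_lc.HM.Stmts

/-!
# MP_552024_lc, block HM, item T5 (helper90)
Spheres are compactified Euclidean spaces, with any point at infinity.
-/

set_option autoImplicit false

namespace Pool.Agent.Work.MP_552024_lc.HM

open Metric Set Topology

theorem pr_T5 : S_T5 := by
  intro m p
  have hv : ‖(p : Eu (m + 1))‖ = 1 := by
    simp
  have hv0 : (p : Eu (m + 1)) ≠ 0 := by
    intro h
    rw [h, norm_zero] at hv
    norm_num at hv
  have : Fact (Module.finrank ℝ (Eu (m + 1)) = m + 1) := ⟨by simp⟩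
  have hV : Module.finrank ℝ (Eu m) = Module.finrank ℝ (Submodule.span ℝ {(p : Eu (m + 1))})ᗮ := by
    rw [Submodule.finrank_orthogonal_span_singleton (n := m) hv0]
    simp
  let e : Eu m ≃ₜ (Submodule.span ℝ {(p : Eu (m + 1))})ᗮ :=
    (FiniteDimensional.nonempty_continuousLinearEquiv_of_finrank_eq hV).some.toHomeomorph
  refine ⟨e.onePointCongr.trans (onePointHyperplaneHomeoUnitSphere hv), ?_⟩
  show onePointHyperplaneHomeoUnitSphere hv (e.onePointCongr OnePoint.infty) = p
  have h1 : e.onePointCongr OnePoint.infty = OnePoint.infty := rfl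
  rw [h1]
  rfl

end Pool.Agent.Work.MP_552024_lc.HM
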