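import Pool.Agent.Work.MP_552024_lc.HM.Stmts

/-!
# MP_552024_lc, block HM, item T6 (helper48)

Homogeneity of compactified Euclidean spaces.
-/

set_option autoImplicit false

namespace Pool.Agent.Work.MP_552024_lc.HM

open Metric Set Topology Filter

namespace IT6

variable {E : Type} [NormedAddCommGroup E] [NormedSpace ℝ E]

/-- radial map: the identity on the ball of radius `a`, slope `c` outside -/
noncomputable def rad (a c : ℝ) (v : E) : E := ((a + c * (max ‖v‖ a - a)) / max ‖v‖ a) • v

theorem rad_small {a : ℝ} (ha : 0 < a) (c : ℝ) {v : E} (hv : ‖v‖ ≤ a) : rad a c v = v := by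
  unfold rad
  rw [max_eq_right hv, sub_self, mul_zero, add_zero, div_self ha.ne', one_smul]

theorem rad_big {a c : ℝ} {v : E} (hv : a ≤ ‖v‖) : rad a c v = ((a + c * (‖v‖ - a)) / ‖v‖) • v := by
  unfold rad
  rw [max_eq_left hv]

theorem rad_norm {a c : ℝ} (ha : 0 < a) (hc : 0 < c) {v : E} (hv : a ≤ ‖v‖) :
    ‖rad a c v‖ = a + c * (‖v‖ - a) := by
  have h0 : 0 < ‖v‖ := ha.trans_le hv
  have h1 : 0 ≤ c * (‖v‖ - a) := mul_nonneg hc.le (sub_nonneg.2 hv)
  rw [rad_big hv, norm_smul, Real.norm_eq_abs, abs_of_nonneg (by positivity), div_mul_cancel₀ _ h0.ne']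

theorem rad_rad {a c : ℝ} (ha : 0 < a) (hc : 0 < c) (v : E) : rad a c⁻¹ (rad a c v) = v := by
  rcases le_total ‖v‖ a with hv | hv
  · rw [rad_small ha c hv, rad_small ha _ hv]
  · have h0 : 0 < ‖v‖ := ha.trans_le hv
    have h1 : 0 ≤ c * (‖v‖ - a) := mul_nonneg hc.le (sub_nonneg.2 hv)
    have h2 : a ≤ ‖rad a c v‖ := by rw [rad_norm ha hc hv]; linarith
    rw [rad_big h2, rad_norm ha hc hv, rad_big hv, smul_smul]
    have h3 : 0 < a + c * (‖v‖ - a) := by linarith
    have : (a + c⁻¹ * (a + c * (‖v‖ - a) - a)) / (a + c * (‖v‖ - a)) * ((a + c * (‖v‖ - a)) / ‖v‖) = 1 := by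
      field_simp
      ring
    rw [this, one_smul]

theorem rad_cont {a : ℝ} (ha : 0 < a) (c : ℝ) : Continuous (rad a c : E → E) := by
  unfold rad
  refine Continuous.smul ?_ continuous_id
  refine Continuous.div (by fun_prop) (by fun_prop) fun v => ?_
  exact (lt_max_of_lt_right ha).ne'

/-- the radial homeomorphism around `x0` -/
noncomputable def radH (x0 : E) {a c : ℝ} (ha : 0 < a) (hc : 0 < c) : E ≃ₜ E where
  toFun v := x0 + rad a c (v - x0)
  invFun v := x0 + rad a c⁻¹ (v - x0)
  left_inv v := by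
    simp only [add_sub_cancel_left]
    rw [rad_rad ha hc]; abel
  right_inv v := by
    simp only [add_sub_cancel_left]
    have := rad_rad ha (inv_pos.2 hc) (v - x0)
    rw [inv_inv] at this
    rw [this]; abel
  continuous_toFun := continuous_const.add ((rad_cont ha c).comp (continuous_id.sub continuous_const))
  continuous_invFun := continuous_const.add ((rad_cont ha _).comp (continuous_id.sub continuous_const))

theorem radH_apply (x0 : E) {a c : ℝ} (ha : 0 < a) (hc : 0 < c) (v : E) :
    radH x0 ha hc v = x0 + rad a c (v - x0) := rfl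

/-- squeezing a ball of radius `R` into the ball of radius `r` -/
theorem squeeze (x0 : E) {r R : ℝ} (hr : 0 < r) :
    ∃ ρ : E ≃ₜ E, (∀ v, dist v x0 < r / 2 → ρ v = v) ∧ ∀ v, dist v x0 ≤ R → dist (ρ v) x0 < r := by
  obtain ⟨c, hc, hcR⟩ : ∃ c : ℝ, 0 < c ∧ c * (|R| + r) < r / 2 := by
    have hp : 0 < |R| + r := by positivity
    refine ⟨r / (4 * (|R| + r)), by positivity, ?_⟩
    have : r / (4 * (|R| + r)) * (|R| + r) = r / 4 := by field_simp
    rw [this]; linarith
  have ha : 0 < r / 2 := by linarith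
  refine ⟨radH x0 ha hc, fun v hv => ?_, fun v hv => ?_⟩
  · rw [radH_apply, rad_small ha c (by rw [← dist_eq_norm]; exact hv.le)]; abel
  · rw [radH_apply, dist_eq_norm, add_sub_cancel_left]
    rcases le_total ‖v - x0‖ (r / 2) with h | h
    · rw [rad_small ha c h]; linarith
    · rw [rad_norm ha hc h]
      rw [dist_eq_norm] at hv
      have h1 : c * (‖v - x0‖ - r / 2) ≤ c * (|R| + r) := by
        apply mul_le_mul_of_nonneg_left _ hc.le
        have := le_abs_self R
        linarith
      linarith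

end IT6

open IT6 in
theorem pr_T6 : S_T6 := by
  intro m Y _ hY
  refine ⟨?_, ?_⟩
  · rintro Z _ ⟨φ⟩ p
    obtain ⟨e, he⟩ := hY (φ.symm p)
    exact ⟨e.trans φ, by simp [he]⟩
  · intro x p hxp U hU P hP
    obtain ⟨e, he⟩ := hY p
    obtain ⟨x0, hx0⟩ : ∃ x0 : Eu m, e (x0 : OnePoint (Eu m)) = x := by
      obtain ⟨w, hw⟩ := e.surjective x
      induction w using OnePoint.rec with
      | infty => exact absurd (hw.symm.trans he) hxp
      | coe w => exact ⟨w, hw⟩
    subst hx0
    -- the neighbourhood of `x0`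
    have hcont : Continuous fun z : Eu m => e (z : OnePoint (Eu m)) :=
      e.continuous.comp OnePoint.continuous_coe
    have hU' : (fun z : Eu m => e (z : OnePoint (Eu m))) ⁻¹' U ∈ 𝓝 x0 := hcont.continuousAt hU
    obtain ⟨r, hr, hrU⟩ := Metric.mem_nhds_iff.1 hU'
    -- the neighbourhood of infinity
    have hP' : (e : OnePoint (Eu m) → Y) ⁻¹' P ∈ 𝓝 (OnePoint.infty : OnePoint (Eu m)) := by
      apply e.continuous.continuousAt
      rw [he]; exact hP
    have hP2 : (fun z : Eu m => e (z : OnePoint (Eu m))) ⁻¹' P ∈ coclosedCompact (Eu m) := by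
      rw [← OnePoint.comap_coe_nhds_infty]
      exact preimage_mem_comap hP'
    rw [coclosedCompact_eq_cocompact] at hP2
    obtain ⟨K, hK, hKP⟩ := mem_cocompact.1 hP2
    obtain ⟨R, hR⟩ := hK.isBounded.subset_closedBall x0
    obtain ⟨ρ, hρ1, hρ2⟩ := squeeze x0 (R := R) hr
    refine ⟨e.symm.trans (ρ.onePointCongr.trans e), ?_, ?_⟩
    · have hn : 𝓝 (e (x0 : OnePoint (Eu m))) = Filter.map (fun z : Eu m => e (z : OnePoint (Eu m))) (𝓝 x0) := by
        rw [← e.map_nhds_eq, OnePoint.nhds_coe_eq, Filter.map_map]; rfl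
      rw [hn, Filter.eventually_map]
      filter_upwards [Metric.ball_mem_nhds x0 (half_pos hr)] with z hz
      have := hρ1 z hz
      simp [this]
    · intro y hy
      obtain ⟨w, rfl⟩ := e.surjective y
      induction w using OnePoint.rec with
      | infty =>
        exact absurd (by rw [he]; exact mem_of_mem_nhds hP) hy
      | coe w =>
        have hw : w ∈ closedBall x0 R := by
          apply hR
          by_contra hcon
          exact hy (hKP hcon)
        have h3 : ρ w ∈ ball x0 r := hρ2 w hw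
        have h4 := hrU h3
        simpa using h4

end Pool.Agent.Work.MP_552024_lc.HM
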