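import Pool.Agent.Work.MP_552024_lc.HM.Stmts

set_option autoImplicit false

namespace Pool.Agent.Work.MP_552024_lc.HM

open Metric Set Topology

theorem pr_T7 : S_T7 := by
  intro m Y _ hY K hK hne
  obtain ⟨p, hp⟩ := (Set.ne_univ_iff_exists_notMem K).mp hne
  obtain ⟨e, he⟩ := hY p
  -- the preimage of `K` is compact
  have hop : IsOpen (e ⁻¹' Kᶜ) := hK.isOpen_compl.preimage e.continuous
  have hmem : (OnePoint.infty : OnePoint (Eu m)) ∈ e ⁻¹' Kᶜ := by
    simpa [he] using hp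
  obtain ⟨-, hcomp⟩ := (OnePoint.isOpen_iff_of_mem hmem).mp hop
  obtain ⟨R, hR0, hR⟩ : ∃ R : ℝ, 0 < R ∧
      (((↑) : Eu m → OnePoint (Eu m)) ⁻¹' (e ⁻¹' Kᶜ))ᶜ ⊆ ball (0 : Eu m) R := by
    obtain ⟨R, hR⟩ := hcomp.isBounded.subset_ball_lt 0 (0 : Eu m)
    exact ⟨R, hR.1, hR.2⟩
  have hRne : R ≠ 0 := hR0.ne'
  refine ⟨fun z => e ((R • z : Eu m) : OnePoint (Eu m)), ?_, ?_, ?_, ?_, ?_⟩
  · exact (e.continuous.comp (OnePoint.continuous_coe.comp (continuous_const_smul R))).continuousOn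
  · intro z _ z' _ h
    have h1 := OnePoint.coe_injective (e.injective h)
    exact smul_right_injective _ hRne h1
  · have h1 : IsOpenMap (fun z : Eu m => e ((R • z : Eu m) : OnePoint (Eu m))) :=
      e.isOpenMap.comp (OnePoint.isOpenEmbedding_coe.isOpenMap.comp (isOpenMap_smul₀ hRne))
    exact h1 _ isOpen_ball
  · intro h
    have h1 : p ∈ (fun z => e ((R • z : Eu m) : OnePoint (Eu m))) '' closedBall (0 : Eu m) 1 := by
      rw [h]; trivial
    obtain ⟨z, _, hz⟩ := h1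
    rw [← he] at hz
    exact OnePoint.coe_ne_infty _ (e.injective hz)
  · intro y hy
    obtain ⟨x', rfl⟩ := e.surjective y
    induction x' using OnePoint.rec with
    | infty => exact absurd hy (by rw [he]; exact hp)
    | coe x =>
      have hx : x ∈ ball (0 : Eu m) R := hR (by simpa using hy)
      refine ⟨R⁻¹ • x, ?_, ?_⟩
      · rw [mem_ball_zero_iff] at hx ⊢
        rw [norm_smul, norm_inv, Real.norm_of_nonneg hR0.le, inv_mul_lt_iff₀ hR0, mul_one]
        exact hx
      · simp only [smul_smul, mul_inv_cancel₀ hRne, one_smul]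

end Pool.Agent.Work.MP_552024_lc.HM
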