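import Pool.Agent.Work.MP_552024_lc.HM.Stmts

/-!
Item T8 of the block HM: maps of a closed cell with exactly one nontrivial fibre.
-/

set_option autoImplicit false

namespace Pool.Agent.Work.MP_552024_lc.HM

open Metric Set Topology

theorem pr_T8 : S_T8 := by
  classical
  intro n Y _ _ hsq g A a hg hA hAb hfa hinj hnh hopen hne V hV hAV
  set D : Set (Eu n) := closedBall 0 1 with hD
  have hDc : IsCompact D := isCompact_closedBall 0 1
  have hbD : ball (0 : Eu n) 1 ⊆ D := ball_subset_closedBall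
  have haK : a ∈ g '' D := mem_of_mem_nhds hnh
  have hKcl : IsClosed (g '' D) := (hDc.image_of_continuousOn hg).isClosed
  -- images of compact subsets of the cell are closed
  have himg : ∀ W : Set (Eu n), IsOpen W → IsClosed (g '' (D \ W)) := fun W hW =>
    ((hDc.diff hW).image_of_continuousOn (hg.mono sdiff_subset)).isClosed
  have hBadcl := himg (V ∩ ball 0 1) (hV.inter isOpen_ball)
  have haBad : a ∉ g '' (D \ (V ∩ ball 0 1)) := by
    rintro ⟨z, ⟨hzD, hz⟩, hza⟩
    have hzA := (hfa z hzD).mp hza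
    exact hz ⟨hAV hzA, hAb hzA⟩
  obtain ⟨p, hp⟩ : ∃ p, p ∉ g '' D := by
    by_contra hcon
    push Not at hcon
    exact hne (eq_univ_of_forall hcon)
  have hap : a ≠ p := fun h => hp (h ▸ haK)
  obtain ⟨h, hid, hh⟩ := hsq a p hap (g '' D ∩ (g '' (D \ (V ∩ ball 0 1)))ᶜ)
    (Filter.inter_mem hnh (hBadcl.isOpen_compl.mem_nhds haBad)) (g '' D)ᶜ
    (hKcl.isOpen_compl.mem_nhds hp)
  have hha : h a = a := hid.self_of_nhds
  have hhK : ∀ z ∈ D, h (g z) ∈ g '' D ∩ (g '' (D \ (V ∩ ball 0 1)))ᶜ := fun z hz =>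
    hh (g z) (fun hc => hc ⟨z, hz, rfl⟩)
  have hex : ∀ z, z ∈ D ∧ z ∉ A → ∃ z', z' ∈ D ∧ g z' = h (g z) := fun z hz => by
    obtain ⟨z', h1, h2⟩ := (hhK z hz.1).1
    exact ⟨z', h1, h2⟩
  let σ : Eu n → Eu n := fun z => if hz : z ∈ D ∧ z ∉ A then (hex z hz).choose else z
  have hσA : ∀ z ∈ A, σ z = z := fun z hz => dif_neg (fun hc => hc.2 hz)
  have hσ : ∀ z ∈ D, σ z ∈ D ∧ g (σ z) = h (g z) := by
    intro z hz
    by_cases hzA : z ∈ A
    · rw [hσA z hzA]
      refine ⟨hz, ?_⟩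
      rw [(hfa z hz).mpr hzA, hha]
    · have h1 : σ z = (hex z ⟨hz, hzA⟩).choose := dif_pos ⟨hz, hzA⟩
      rw [h1]
      exact (hex z ⟨hz, hzA⟩).choose_spec
  have hσV : ∀ z ∈ D, σ z ∈ V ∩ ball 0 1 := by
    intro z hz
    by_contra hcon
    apply (hhK z hz).2
    exact ⟨σ z, ⟨(hσ z hz).1, hcon⟩, (hσ z hz).2⟩
  have hga : ∀ z ∈ D, z ∉ A → h (g z) ≠ a := by
    intro z hz hzA hc
    apply hzA
    rw [← hfa z hz]
    exact h.injective (hc.trans hha.symm)
  -- uniqueness
  have huniq : ∀ z ∈ D, z ∉ A → ∀ z' ∈ D, g z' = h (g z) → z' = σ z := by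
    intro z hz hzA z' hz' he
    rcases hinj z' hz' (σ z) (hσ z hz).1 (he.trans (hσ z hz).2.symm) with h1 | h1
    · exact h1
    · exact absurd (he.symm.trans h1) (hga z hz hzA)
  refine ⟨σ, ?_, ?_, ?_, ?_, ?_⟩
  · intro z hz
    by_cases hzA : z ∈ A
    · have h1 : ∀ᶠ w in 𝓝[D] z, h (g w) = g w := by
        have h2 : Filter.Tendsto g (𝓝[D] z) (𝓝 a) := by
          have := hg z hz
          rwa [ContinuousWithinAt, (hfa z hz).mpr hzA] at this
        exact h2.eventually hid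
      have h3 : ∀ᶠ w in 𝓝[D] z, σ w = w := by
        filter_upwards [h1, self_mem_nhdsWithin] with w hw hwD
        by_cases hwA : w ∈ A
        · exact hσA w hwA
        · exact (huniq w hwD hwA w hwD hw.symm).symm
      have h4 : ContinuousWithinAt (fun w : Eu n => w) D z := continuousWithinAt_id
      exact h4.congr_of_eventuallyEq h3 (hσA z hzA)
    · rw [ContinuousWithinAt, _root_.tendsto_nhds]
      intro W hW hzW
      have h1 : h (g z) ∉ g '' (D \ W) := by
        rintro ⟨z', ⟨hz'D, hz'W⟩, he⟩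
        rw [huniq z hz hzA z' hz'D he] at hz'W
        exact hz'W hzW
      have h2 : Filter.Tendsto (fun w => h (g w)) (𝓝[D] z) (𝓝 (h (g z))) :=
        (h.continuous.tendsto _).comp (hg z hz)
      have h3 := h2.eventually ((himg W hW).isOpen_compl.mem_nhds h1)
      filter_upwards [h3, self_mem_nhdsWithin] with w hw hwD
      by_contra hcon
      apply hw
      exact ⟨σ w, ⟨(hσ w hwD).1, hcon⟩, (hσ w hwD).2⟩
  · intro z hz z' hz' he
    have h1 : g z = g z' := by
      apply h.injective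
      rw [← (hσ z hz).2, ← (hσ z' hz').2, he]
    rcases hinj z hz z' hz' h1 with h2 | h2
    · exact h2
    · have hzA := (hfa z hz).mp h2
      have hz'A := (hfa z' hz').mp (h1 ▸ h2)
      rw [hσA z hzA, hσA z' hz'A] at he
      exact he
  · have h1 : σ '' ball 0 1 = ball 0 1 ∩ g ⁻¹' (h '' (g '' ball 0 1)) := by
      ext w
      constructor
      · rintro ⟨z, hz, rfl⟩
        exact ⟨(hσV z (hbD hz)).2, g z, ⟨z, hz, rfl⟩, (hσ z (hbD hz)).2.symm⟩
      · rintro ⟨hw, y, ⟨z, hz, rfl⟩, he⟩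
        by_cases hzA : z ∈ A
        · have h2 : g w = a := by
            rw [← he, (hfa z (hbD hz)).mpr hzA, hha]
          have hwA := (hfa w (hbD hw)).mp h2
          exact ⟨w, hw, hσA w hwA⟩
        · exact ⟨z, hz, (huniq z (hbD hz) hzA w (hbD hw) he.symm).symm⟩
    rw [h1]
    exact (hg.mono hbD).isOpen_inter_preimage isOpen_ball (h.isOpenMap _ hopen)
  · intro z hz
    exact ⟨z, hAb hz, hσA z hz⟩
  · rintro _ ⟨z, hz, rfl⟩
    exact hσV z hz

end Pool.Agent.Work.MP_552024_lc.HM
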