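import Pool.Agent.Work.MP_552024_lc.HM.Stmts

/-!
# Item T9: maps with exactly two nontrivial fibres
-/

set_option autoImplicit false

namespace Pool.Agent.Work.MP_552024_lc.HM

open Metric Set Topology

namespace IT9

/-- Convergence can be lifted at a point whose fibre is a single point. -/
lemma tendsto_lift {X Y Z : Type} [TopologicalSpace X] [TopologicalSpace Y] [CompactSpace X]
    [T2Space Y] {f : X → Y} (hf : Continuous f) {x0 : X} (hx : ∀ x, f x = f x0 → x = x0)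
    {l : Filter Z} {s : Z → X} (h : Filter.Tendsto (fun z => f (s z)) l (𝓝 (f x0))) :
    Filter.Tendsto s l (𝓝 x0) := by
  intro W hW
  rw [_root_.mem_nhds_iff] at hW
  obtain ⟨W', hW'W, hW'o, hxW'⟩ := hW
  have hc : IsClosed (f '' W'ᶜ) := (hW'o.isClosed_compl.isCompact.image hf).isClosed
  have hn : (f '' W'ᶜ)ᶜ ∈ 𝓝 (f x0) := by
    apply hc.isOpen_compl.mem_nhds
    rintro ⟨x, hx1, hx2⟩
    exact hx1 (by rw [hx x hx2]; exact hxW')
  have h2 := h hn
  rw [Filter.mem_map] at h2 ⊢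
  filter_upwards [h2] with z hz
  apply hW'W
  by_contra hcon
  exact hz ⟨s z, hcon, rfl⟩

/-- A cell maps open subsets of the open ball to open sets. -/
lemma isOpen_image {n : ℕ} {X : Type} [TopologicalSpace X] [T2Space X] {δ : Eu n → X}
    (hc : ContinuousOn δ (closedBall 0 1)) (hi : InjOn δ (closedBall 0 1))
    (ho : IsOpen (δ '' ball 0 1)) {O : Set (Eu n)} (hO : IsOpen O) (hOb : O ⊆ ball 0 1) :
    IsOpen (δ '' O) := by
  have h1 : δ '' O = δ '' ball 0 1 ∩ (δ '' (closedBall 0 1 \ O))ᶜ := by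
    ext x
    constructor
    · rintro ⟨z, hz, rfl⟩
      refine ⟨⟨z, hOb hz, rfl⟩, ?_⟩
      rintro ⟨w, hw, hwz⟩
      have h2 := hi hw.1 (ball_subset_closedBall (hOb hz)) hwz
      exact hw.2 (h2 ▸ hz)
    · rintro ⟨⟨z, hz, rfl⟩, hx⟩
      by_contra hcon
      apply hx
      exact ⟨z, ⟨ball_subset_closedBall hz, fun h => hcon ⟨z, h, rfl⟩⟩, rfl⟩
  rw [h1]
  have h2 : IsCompact (δ '' (closedBall 0 1 \ O)) :=
    ((isCompact_closedBall (0 : Eu n) 1).diff hO).image_of_continuousOn (hc.mono sdiff_subset)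
  exact ho.inter h2.isClosed.isOpen_compl

/-- Composition of a cell with a cell in the open unit ball. -/
lemma cellIn_comp {n : ℕ} {X : Type} [TopologicalSpace X] [T2Space X] {δ : Eu n → X}
    (hc : ContinuousOn δ (closedBall 0 1)) (hi : InjOn δ (closedBall 0 1))
    (ho : IsOpen (δ '' ball 0 1)) {A : Set (Eu n)} {V : Set X}
    (h : CellIn n A ({z | z ∈ ball (0 : Eu n) 1 ∧ δ z ∈ V} ∩ ball 0 1)) :
    CellIn n (δ '' A) V := by
  obtain ⟨τ, hτc, hτi, hτo, hτA, hτV⟩ := h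
  have hmaps : MapsTo τ (closedBall 0 1) (closedBall 0 1) := fun z hz =>
    ball_subset_closedBall (hτV ⟨z, hz, rfl⟩).2
  refine ⟨δ ∘ τ, hc.comp hτc hmaps, hi.comp hτi hmaps, ?_, ?_, ?_⟩
  · rw [image_comp]
    refine isOpen_image hc hi ho hτo ?_
    rintro w ⟨z, hz, rfl⟩
    exact (hτV ⟨z, ball_subset_closedBall hz, rfl⟩).2
  · rw [image_comp]
    exact image_mono hτA
  · rw [image_comp]
    rintro x ⟨w, hw, rfl⟩
    exact (hτV hw).1.2

end IT9

open IT9 in
theorem pr_T9 : S_T9 := by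
  intro hT8 n X Y _ _ _ _ _ hSX hSY f a b hf hfs hab hfib δ hδc hδi hδo hδn hA hB
  classical
  have hbD : ball (0 : Eu n) 1 ⊆ closedBall 0 1 := ball_subset_closedBall
  -- the compact set `C0` and the point `p`
  have hC0 : IsCompact (δ '' closedBall 0 1) :=
    (isCompact_closedBall (0 : Eu n) 1).image_of_continuousOn hδc
  have hfC0 : IsClosed (f '' (δ '' closedBall 0 1)) := (hC0.image hf).isClosed
  obtain ⟨p0, hp0⟩ : ∃ p0, p0 ∉ δ '' closedBall 0 1 := by
    by_contra hcon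
    push Not at hcon
    exact hδn (eq_univ_of_forall hcon)
  have hpa : f p0 ≠ a := fun h => hp0 (image_mono hbD (hA h))
  have hpb : f p0 ≠ b := fun h => hp0 (image_mono hbD (hB h))
  have hpP : f p0 ∉ f '' (δ '' closedBall 0 1) := by
    rintro ⟨x, hx, hxp⟩
    rcases hfib x p0 hxp with h | h | h
    · exact hp0 (h ▸ hx)
    · exact hpa (hxp ▸ h)
    · exact hpb (hxp ▸ h)
  obtain ⟨h, hhb, hhP⟩ := hSY b (f p0) (fun h => hpb h.symm) ({a}ᶜ)
    (isOpen_compl_singleton.mem_nhds (fun h => hab h.symm))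
    ((f '' (δ '' closedBall 0 1))ᶜ) (hfC0.isOpen_compl.mem_nhds hpP)
  have hhb' : h b = b := hhb.self_of_nhds
  have hha : ∀ z ∈ closedBall (0 : Eu n) 1, h (f (δ z)) ≠ a := fun z hz =>
    hhP _ (fun hcon => hcon ⟨δ z, ⟨z, hz, rfl⟩, rfl⟩)
  -- the map `σ`
  have hex : ∀ z : Eu n, ∃ x, f x = h (f (δ z)) := fun z => hfs _
  choose σ' hσ' using hex
  set σ : Eu n → X := fun z => if f (δ z) = b then δ z else σ' z with hσdef
  have hσb : ∀ z, f (δ z) = b → σ z = δ z := fun z hz => by simp only [hσdef, if_pos hz]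
  have hσf : ∀ z, f (σ z) = h (f (δ z)) := by
    intro z
    by_cases hz : f (δ z) = b
    · rw [hσb z hz, hz, hhb']
    · simp only [hσdef, if_neg hz]
      exact hσ' z
  have huniq : ∀ z ∈ closedBall (0 : Eu n) 1, f (δ z) ≠ b → ∀ x, f x = h (f (δ z)) → x = σ z := by
    intro z hz hzb x hx
    rcases hfib x (σ z) (by rw [hx, hσf]) with h1 | h1 | h1
    · exact h1
    · exact absurd (hx ▸ h1) (hha z hz)
    · exfalso
      apply hzb
      apply h.injective
      rw [← hx, h1, hhb']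
  -- points of the target reached by `σ`
  have hreach : ∀ x, ∀ z ∈ closedBall (0 : Eu n) 1, f x = h (f (δ z)) → x = σ z ∨
      ∃ w ∈ ball (0 : Eu n) 1, x = σ w := by
    intro x z hz hx
    by_cases hzb : f (δ z) = b
    · right
      have h1 : f x = b := by rw [hx, hzb, hhb']
      obtain ⟨w, hw, rfl⟩ := hB h1
      exact ⟨w, hw, (hσb w h1).symm⟩
    · left
      exact huniq z hz hzb x hx
  have hσc : ContinuousOn σ (closedBall 0 1) := by
    intro z hz
    have hδz := hδc z hz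
    have hfδ : Filter.Tendsto (fun w => f (δ w)) (𝓝[closedBall 0 1] z) (𝓝 (f (δ z))) :=
      (hf.tendsto (δ z)).comp hδz
    by_cases hzb : f (δ z) = b
    · -- here `σ = δ` near `z`
      have h1 : ∀ᶠ w in 𝓝[closedBall (0 : Eu n) 1] z, h (f (δ w)) = f (δ w) := by
        rw [hzb] at hfδ
        exact hfδ.eventually hhb
      have h2 : σ =ᶠ[𝓝[closedBall (0 : Eu n) 1] z] δ := by
        filter_upwards [h1, self_mem_nhdsWithin] with w hw hwD
        by_cases hwb : f (δ w) = b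
        · exact hσb w hwb
        · exact (huniq w hwD hwb (δ w) hw.symm).symm
      exact hδz.congr_of_eventuallyEq h2 (hσb z hzb)
    · apply tendsto_lift hf (x0 := σ z)
      · intro x hx
        rw [hσf] at hx
        exact huniq z hz hzb x hx
      · have h1 : Filter.Tendsto (fun w => h (f (δ w))) (𝓝[closedBall 0 1] z)
            (𝓝 (h (f (δ z)))) := (h.continuous.tendsto _).comp hfδ
        simp only [hσf]
        exact h1
  -- the special point `q0`
  obtain ⟨q0, hq0⟩ := hfs (h a)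
  obtain ⟨a0, ha0⟩ := hfs a
  have ha0D : ∃ z ∈ closedBall (0 : Eu n) 1, δ z = a0 := by
    obtain ⟨z, hz, hz'⟩ := hA ha0
    exact ⟨z, hbD hz, hz'⟩
  have hha' : h a ≠ a := by
    obtain ⟨z, hz, rfl⟩ := ha0D
    have h1 := hha z hz
    rwa [ha0] at h1
  have hhab : h a ≠ b := fun hcon => hab (h.injective (by rw [hcon, hhb']))
  have hq0u : ∀ x, f x = h a → x = q0 := by
    intro x hx
    rcases hfib x q0 (by rw [hx, hq0]) with h1 | h1 | h1
    · exact h1
    · exact absurd (hx ▸ h1) hha'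
    · exact absurd (hx ▸ h1) hhab
  -- the fibre in the ball
  set A : Set (Eu n) := closedBall 0 1 ∩ (fun z => f (δ z)) ⁻¹' {a} with hAdef
  have hfδc : ContinuousOn (fun z => f (δ z)) (closedBall 0 1) := hf.comp_continuousOn hδc
  have hAcl : IsClosed A :=
    hfδc.preimage_isClosed_of_isClosed isClosed_closedBall isClosed_singleton
  have hAb : A ⊆ ball 0 1 := by
    rintro z ⟨hz, hza⟩
    obtain ⟨w, hw, hwz⟩ := hA (show f (δ z) = a from hza)
    rw [← hδi (hbD hw) hz hwz]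
    exact hw
  have hδA : δ '' A = f ⁻¹' {a} := by
    ext x
    constructor
    · rintro ⟨z, ⟨_, hz⟩, rfl⟩
      exact hz
    · intro hx
      obtain ⟨w, hw, rfl⟩ := hA hx
      exact ⟨w, ⟨hbD hw, hx⟩, rfl⟩
  have hfibA : ∀ z ∈ closedBall (0 : Eu n) 1, σ z = q0 ↔ z ∈ A := by
    intro z hz
    constructor
    · intro h1
      refine ⟨hz, ?_⟩
      have h2 : h (f (δ z)) = h a := by rw [← hσf, h1, hq0]
      exact h.injective h2
    · rintro ⟨_, h1⟩
      apply hq0u
      rw [hσf]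
      exact congrArg h h1
  have hfibσ : ∀ z ∈ closedBall (0 : Eu n) 1, ∀ z' ∈ closedBall (0 : Eu n) 1, σ z = σ z' →
      z = z' ∨ σ z = q0 := by
    intro z hz z' hz' h1
    have h2 : f (δ z) = f (δ z') := by
      apply h.injective
      rw [← hσf, ← hσf, h1]
    rcases hfib _ _ h2 with h3 | h3 | h3
    · exact Or.inl (hδi hz hz' h3)
    · right
      exact (hfibA z hz).2 ⟨hz, h3⟩
    · left
      rw [hσb z h3, hσb z' (h2 ▸ h3)] at h1
      exact hδi hz hz' h1
  -- images under `f`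
  have hcompl : IsClosed (f '' (δ '' ball 0 1)ᶜ) :=
    (hδo.isClosed_compl.isCompact.image hf).isClosed
  have hfball : f '' (δ '' ball 0 1) = (f '' (δ '' ball 0 1)ᶜ)ᶜ := by
    ext y
    constructor
    · rintro ⟨x, hx, rfl⟩ ⟨x', hx', hxx'⟩
      rcases hfib x' x hxx' with h1 | h1 | h1
      · exact hx' (h1 ▸ hx)
      · exact hx' (hA h1)
      · exact hx' (hB h1)
    · intro hy
      obtain ⟨x, rfl⟩ := hfs y
      by_contra hcon
      exact hy ⟨x, fun hx => hcon ⟨x, hx, rfl⟩, rfl⟩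
  have hfball_open : IsOpen (f '' (δ '' ball 0 1)) := by
    rw [hfball]
    exact hcompl.isOpen_compl
  have hσball : σ '' ball 0 1 = f ⁻¹' (h '' (f '' (δ '' ball 0 1))) := by
    ext x
    constructor
    · rintro ⟨z, hz, rfl⟩
      exact ⟨f (δ z), ⟨δ z, ⟨z, hz, rfl⟩, rfl⟩, (hσf z).symm⟩
    · rintro ⟨y, ⟨x', ⟨z, hz, rfl⟩, rfl⟩, hx⟩
      rcases hreach x z (hbD hz) hx.symm with h1 | ⟨w, hw, h1⟩
      · exact ⟨z, hz, h1.symm⟩
      · exact ⟨w, hw, h1.symm⟩
  have hσopen : IsOpen (σ '' ball 0 1) := by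
    rw [hσball]
    exact (h.isOpenMap _ hfball_open).preimage hf
  have haball : a ∈ f '' (δ '' ball 0 1) := ⟨a0, hA ha0, ha0⟩
  have hq0mem : q0 ∈ σ '' ball 0 1 := by
    rw [hσball]
    exact ⟨a, haball, hq0.symm⟩
  have hσnhds : σ '' closedBall 0 1 ∈ 𝓝 q0 :=
    Filter.mem_of_superset (hσopen.mem_nhds hq0mem) (image_mono hbD)
  have hσne : σ '' closedBall 0 1 ≠ univ := by
    intro hcon
    have h1 : a0 ∈ σ '' closedBall 0 1 := by rw [hcon]; exact mem_univ _
    obtain ⟨z, hz, hza⟩ := h1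
    apply hha z hz
    rw [← hσf, hza, ha0]
  -- conclusion
  intro V hV hAV
  have hVo : IsOpen {z | z ∈ ball (0 : Eu n) 1 ∧ δ z ∈ V} :=
    (hδc.mono hbD).isOpen_inter_preimage isOpen_ball hV
  have hAV' : A ⊆ {z | z ∈ ball (0 : Eu n) 1 ∧ δ z ∈ V} := fun z hz =>
    ⟨hAb hz, hAV (by rw [← hδA]; exact ⟨z, hz, rfl⟩)⟩
  have hcell := hT8 n X hSX σ A q0 hσc hAcl hAb hfibA hfibσ hσnhds hσopen hσne _ hVo hAV'
  have h1 := cellIn_comp hδc hδi hδo hcell
  rwa [hδA] at h1

end Pool.Agent.Work.MP_552024_lc.HM
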