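import Pool.Agent.Work.MP_552024_lc.HM.StmtsX

/-!
Item X1 of block HM: cells adapted to finitely many polyhedral subsets (as `exists_cells`, with the
forms of the subsets added to the arrangement).
-/

set_option autoImplicit false

namespace Pool.Agent.Work.MP_552024_lc.HM

open Metric Set Topology Pool.Agent.Work.MP_552024_lc.PLS Pool.Agent.MP552024

namespace IX1

variable {E : Type} [AddCommGroup E] [Module ℚ E] [FiniteDimensional ℚ E]

/-- Every polyhedral set is the union of a cell system adapted to finitely many polyhedral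
subsets. -/
theorem exists_cells_adapted {P : Set E} (hP : Pol P) (𝓓 : Set (Set E)) (h𝓓 : 𝓓.Finite)
    (hD : ∀ D ∈ 𝓓, Pol D ∧ D ⊆ P) :
    ∃ (ι : Type) (_ : PartialOrder ι) (_ : Finite ι) (i0 : ι) (d : ι → ℕ) (c : ι → Set E),
      (∀ i, i0 ≤ i) ∧ Cells i0 d (fun k => Ball k) c ∧ ⋃ i, c i = P ∧
      ∀ D ∈ 𝓓, ∀ x ∈ D, ∃ i, x ∈ c i ∧ c i ⊆ D := by
  classical
  obtain ⟨_, A₀, hA₀, hPA₀⟩ := id hP
  obtain ⟨A₁, hA₁, hpt₁⟩ := exists_pointed E
  have hforms : ∀ D : Set E, ∃ A : Set (E →ₗ[ℚ] ℚ), A.Finite ∧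
      (D ∈ 𝓓 → ∀ y ∈ D, face A y ⊆ D) := by
    intro D
    by_cases hDD : D ∈ 𝓓
    · obtain ⟨_, A, hA, hA2⟩ := (hD D hDD).1
      exact ⟨A, hA, fun _ => hA2⟩
    · exact ⟨∅, Set.finite_empty, fun h => absurd h hDD⟩
  choose A₂ hA₂ hDA₂ using hforms
  set 𝓐 := A₀ ∪ A₁ ∪ ⋃ D ∈ 𝓓, A₂ D with h𝓐
  have h𝓐f : 𝓐.Finite := (hA₀.union hA₁).union (h𝓓.biUnion fun D _ => hA₂ D)
  have hPA : ∀ y ∈ P, face 𝓐 y ⊆ P := fun y hy =>
    (face_anti (Set.subset_union_left.trans Set.subset_union_left) y).trans (hPA₀ y hy)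
  have hDA : ∀ D ∈ 𝓓, ∀ y ∈ D, face 𝓐 y ⊆ D := fun D hDD y hy =>
    (face_anti ((Set.subset_biUnion_of_mem (u := A₂) hDD).trans Set.subset_union_right) y).trans
      (hDA₂ D hDD y hy)
  have hpt : ∀ x : E, (∀ a ∈ 𝓐, a x = 0) → x = 0 := fun x hx =>
    hpt₁ x (fun a ha => hx a (Or.inl (Or.inr ha)))
  set 𝓕 : Set (Set E) := {F | ∃ y ∈ P, F = face 𝓐 y} with h𝓕
  have h𝓕f : 𝓕.Finite := by
    obtain ⟨R, hR, hRs, hRr⟩ := exists_reps h𝓐f P
    refine (hR.image (fun y => face 𝓐 y)).subset ?_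
    rintro _ ⟨y, hy, rfl⟩
    obtain ⟨b, hb, hby⟩ := hRr y hy
    exact ⟨b, hb, subset_antisymm (fun x hx => face_trans hx hby.mem_face)
      (fun x hx => face_trans hx hby.symm.mem_face)⟩
  have hface0 : face 𝓐 (0 : E) = {0} := by
    ext x; constructor
    · intro hx
      apply hpt
      intro a ha
      rcases hx a ha with h1 | h1
      · exact h1
      · rw [map_zero, sign_zero, sign_eq_zero_iff] at h1; exact h1
    · intro hx; rw [Set.mem_singleton_iff.1 hx]; exact zero_mem_face _ _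
  have h0mem : ({0} : Set E) ∈ 𝓕 := ⟨0, hP.1, hface0.symm⟩
  have hbdry : ∀ y ∈ P, (⋃ k ∈ {k : 𝓕 | k.1 ⊂ face 𝓐 y}, (k.1 : Set E)) =
      {x | x ∈ face 𝓐 y ∧ ∃ a ∈ 𝓐, a y ≠ 0 ∧ a x = 0} := by
    intro y hy
    ext x
    constructor
    · intro hx
      obtain ⟨⟨_, y', hy', rfl⟩, hlt, hx⟩ := Set.mem_iUnion₂.1 hx
      refine ⟨hlt.1 hx, ?_⟩
      by_contra hcon
      push Not at hcon
      apply hlt.2
      have hx' : x ∈ face 𝓐 y := hlt.1 hx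
      have hs : SameSign 𝓐 x y := by
        intro a ha
        rcases hx' a ha with h1 | h1
        · by_cases h2 : a y = 0
          · rw [h1, h2]
          · exact absurd h1 (hcon a ha h2)
        · exact h1
      exact fun u hu => face_trans hu (face_trans hs.symm.mem_face hx)
    · rintro ⟨hx, a, ha, hay, hax⟩
      refine Set.mem_biUnion (x := (⟨face 𝓐 x, x, hPA y hy hx, rfl⟩ : 𝓕)) ?_ (mem_face_self _ _)
      refine ⟨fun u hu => face_trans hu hx, fun hh => ?_⟩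
      have h1 := hh (mem_face_self 𝓐 y)
      rcases h1 a ha with h2 | h2
      · exact hay h2
      · rw [hax, sign_zero, sign_eq_zero_iff] at h2; exact hay h2
  have hdim : ∀ i : 𝓕, ∃ k : ℕ, i.1 ≠ {0} → k ≠ 0 ∧ Ball k i.1 (⋃ j ∈ {j : 𝓕 | j.1 ⊂ i.1}, j.1) := by
    rintro ⟨_, y, hy, rfl⟩
    by_cases h0 : y = 0
    · refine ⟨0, fun h1 => absurd ?_ h1⟩
      show face 𝓐 y = {0}
      rw [h0, hface0]
    · obtain ⟨k, hk⟩ := ball_face h𝓐f hpt h0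
      refine ⟨k + 1, fun _ => ⟨by omega, ?_⟩⟩
      show Ball (k + 1) (face 𝓐 y) (⋃ j ∈ {j : 𝓕 | j.1 ⊂ face 𝓐 y}, j.1)
      rw [hbdry y hy]; exact hk
  choose d hd using hdim
  refine ⟨𝓕, inferInstance, h𝓕f, ⟨{0}, h0mem⟩, d, fun i => i.1, ?_, ⟨?_, rfl, ?_, ?_⟩, ?_, ?_⟩
  · rintro ⟨_, y, hy, rfl⟩
    show ({0} : Set E) ⊆ face 𝓐 y
    intro x hx
    rw [Set.mem_singleton_iff.1 hx]; exact zero_mem_face _ _
  · rintro ⟨_, y, hy, rfl⟩
    exact pol_face h𝓐f y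
  · rintro ⟨_, y, hy, rfl⟩ ⟨_, y', hy', rfl⟩
    ext x; constructor
    · rintro ⟨hx, hx'⟩
      refine Set.mem_biUnion (x := (⟨face 𝓐 x, x, hPA y hy hx, rfl⟩ : 𝓕)) ⟨?_, ?_⟩
        (mem_face_self _ _)
      · exact fun u hu => face_trans hu hx
      · exact fun u hu => face_trans hu hx'
    · intro hx
      obtain ⟨k, ⟨h1, h2⟩, hxk⟩ := Set.mem_iUnion₂.1 hx
      exact ⟨h1 hxk, h2 hxk⟩
  · intro i hi
    refine hd i (fun h => hi (Subtype.ext h))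
  · ext x; constructor
    · intro hx
      obtain ⟨⟨_, y, hy, rfl⟩, hx⟩ := Set.mem_iUnion.1 hx
      exact hPA y hy hx
    · intro hx
      exact Set.mem_iUnion.2 ⟨⟨face 𝓐 x, x, hx, rfl⟩, mem_face_self _ _⟩
  · intro D hDD x hx
    exact ⟨⟨face 𝓐 x, x, (hD D hDD).2 hx, rfl⟩, mem_face_self _ _, hDA D hDD x hx⟩

end IX1

theorem pr_X1 : S_X1 := by
  intro E _ _ _ P hP 𝓓 h𝓓 hD
  exact IX1.exists_cells_adapted hP 𝓓 h𝓓 hD

end Pool.Agent.Work.MP_552024_lc.HM
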