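import Pool.Agent.Work.MP_552024_lc.HM.StmtsX

/-!
Item X10: the dimension of zero sets.
-/

set_option autoImplicit false

namespace Pool.Agent.Work.MP_552024_lc.HM

open Metric Set Topology Pool.Agent.Work.MP_552024_lc.PLS Pool.Agent.MP552024

namespace IX10

theorem face_card2 {n : ℕ} {f : (Fin n → ℝ) → ℝ} {G : Type} [AddCommGroup G] [Lattice G]
    {ψ : ((Fin n → ℝ) → ℝ) → G} (hP : Pres n f G ψ) (M : Mdl G) (t : M.V → Fin n → ℤ)
    (hQ : QTracks f ψ M t) {d : ℕ} (s : Finset M.V) (hs : M.Δ.face (s : Set M.V))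
    (F : Set (Submodule ℝ (Fin n → ℝ))) (hF : F.Finite) (hF2 : ∀ W ∈ F, Module.finrank ℝ W ≤ d)
    (hF3 : ∀ z : M.V → ℚ, z ∈ Qset M → (∀ v, v ∉ s → z v = 0) →
      ∃ W ∈ F, (fun l => ∑ v, (t v l : ℝ) * castR z v) ∈ W) :
    s.card ≤ d := by
  classical
  obtain ⟨hQ1, hQ2⟩ := hQ
  have hinj : ∀ z ∈ M.Δ.Z, ∀ z' ∈ M.Δ.Z,
      (∀ l, ∑ v, (t v l : ℝ) * z v = ∑ v, (t v l : ℝ) * z' v) → z = z' := by
    intro z hz z' hz' h
    funext v
    obtain ⟨g, hg⟩ := M.chart.hat v
    obtain ⟨a, ha, rfl⟩ := hP.2.1 g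
    rw [← hg z hz, ← hg z' hz', hQ1 a ha z hz, hQ1 a ha z' hz']
    congr 1
    funext l
    exact h l
  set k := s.card with hk
  let e : s ≃ Fin k := s.equivFin
  -- extension by zero
  let ext : (Fin k → ℝ) → M.V → ℝ := fun x v => if h : v ∈ s then x (e ⟨v, h⟩) else 0
  have hextZ : ∀ x : Fin k → ℝ, (∀ i, 0 ≤ x i) → ext x ∈ M.Δ.Z := by
    intro x hx
    refine Cx.mem_Z (fun v => ?_) _ hs (fun v hv => ?_)
    · show 0 ≤ dite _ _ _
      split_ifs
      · exact hx _
      · exact le_rfl
    · by_contra hcon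
      apply hv
      show dite _ _ _ = _
      exact dif_neg (fun h => hcon (Finset.mem_coe.2 h))
  let L : (Fin k → ℝ) →ₗ[ℝ] (Fin n → ℝ) :=
    { toFun := fun x l => ∑ v, (t v l : ℝ) * ext x v
      map_add' := by
        intro x y
        funext l
        simp only [Pi.add_apply]
        rw [← Finset.sum_add_distrib]
        refine Finset.sum_congr rfl (fun v _ => ?_)
        simp only [ext]
        split_ifs
        · simp only [Pi.add_apply]; ring
        · ring
      map_smul' := by
        intro r x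
        funext l
        simp only [Pi.smul_apply, RingHom.id_apply, smul_eq_mul]
        rw [Finset.mul_sum]
        refine Finset.sum_congr rfl (fun v _ => ?_)
        simp only [ext]
        split_ifs
        · simp only [Pi.smul_apply, smul_eq_mul]; ring
        · ring }
  have hLinj : ∀ x, L x = 0 → x = 0 := by
    intro x hx
    set A := ∑ i, |x i| + 1 with hA
    have hApos : 0 < A := by positivity
    have h1 : ∀ i, 0 ≤ (1 : ℝ) + A⁻¹ * x i := by
      intro i
      have h2 : |x i| ≤ A := by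
        have : |x i| ≤ ∑ i, |x i| :=
          Finset.single_le_sum (f := fun i => |x i|) (fun i _ => abs_nonneg _) (Finset.mem_univ i)
        linarith
      have h3 : -A ≤ x i := by have := neg_abs_le (x i); linarith
      have h4 : A⁻¹ * (-A) ≤ A⁻¹ * x i := mul_le_mul_of_nonneg_left h3 (inv_pos.2 hApos).le
      have h5 : A⁻¹ * (-A) = -1 := by field_simp
      linarith
    have h2 := hinj (ext (fun i => 1 + A⁻¹ * x i)) (hextZ _ h1) (ext (fun _ => 1))
      (hextZ _ (fun _ => zero_le_one)) (fun l => by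
        have h3 : L (fun i => 1 + A⁻¹ * x i) = L (fun _ => 1) + A⁻¹ • L x := by
          rw [← map_smul, ← map_add]
          congr 1
        rw [hx, smul_zero, add_zero] at h3
        exact congrFun h3 l)
    funext i
    have h3 := congrFun h2 (e.symm i).1
    have h4 : ∀ y : Fin k → ℝ, ext y (e.symm i).1 = y i := by
      intro y
      refine (dif_pos (e.symm i).2).trans ?_
      exact congrArg y (e.apply_symm_apply i)
    have h6 := (h4 (fun i => 1 + A⁻¹ * x i)).symm.trans (h3.trans (h4 (fun _ => 1)))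
    have h5 : A⁻¹ * x i = 0 := by
      have h7 : (1 : ℝ) + A⁻¹ * x i = 1 := h6
      linarith
    exact (mul_eq_zero.1 h5).resolve_left (inv_pos.2 hApos).ne'
  have hcurve : ∀ m : ℕ, ∃ W ∈ F, L (fun i : Fin k => (m : ℝ) ^ (i : ℕ)) ∈ W := by
    intro m
    let z : M.V → ℚ := fun v => if h : v ∈ s then (m : ℚ) ^ ((e ⟨v, h⟩ : Fin k) : ℕ) else 0
    have hz : castR z = ext (fun i : Fin k => (m : ℝ) ^ (i : ℕ)) := by
      funext v
      by_cases h : v ∈ s
      · have h1 : z v = (m : ℚ) ^ ((e ⟨v, h⟩ : Fin k) : ℕ) := dif_pos h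
        have h2 : ext (fun i : Fin k => (m : ℝ) ^ (i : ℕ)) v = (m : ℝ) ^ ((e ⟨v, h⟩ : Fin k) : ℕ) :=
          dif_pos h
        rw [h2]
        unfold castR
        rw [h1]
        push_cast
        rfl
      · have h1 : z v = 0 := dif_neg h
        have h2 : ext (fun i : Fin k => (m : ℝ) ^ (i : ℕ)) v = 0 := dif_neg h
        rw [h2]
        unfold castR
        rw [h1]
        push_cast
        rfl
    have h1 := hF3 z (by
      show castR z ∈ M.Δ.Z
      rw [hz]
      exact hextZ (fun i : Fin k => (m : ℝ) ^ (i : ℕ)) (fun i => by positivity))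
      (fun v hv => dif_neg hv)
    rw [hz] at h1
    exact h1
  choose W hW hW2 using hcurve
  have : Finite F := hF
  obtain ⟨W0, hW0⟩ := Finite.exists_infinite_fiber (fun s : ℕ => (⟨W s, hW s⟩ : F))
  have hinf : Set.Infinite {m : ℕ | (fun i : Fin k => (m : ℝ) ^ (i : ℕ)) ∈
      Submodule.comap L W0.1} := by
    have h1 : Set.Infinite ((fun s : ℕ => (⟨W s, hW s⟩ : F)) ⁻¹' {W0}) := Set.infinite_coe_iff.1 hW0
    refine h1.mono ?_
    intro m hm
    have h2 : W m = W0.1 := congrArg Subtype.val hm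
    show L _ ∈ W0.1
    rw [← h2]
    exact hW2 m
  have htop := moment_top _ hinf
  have h5 : Module.finrank ℝ (Fin k → ℝ) ≤ Module.finrank ℝ W0.1 := by
    refine LinearMap.finrank_le_finrank_of_injective (f := L.codRestrict W0.1 (fun x => ?_)) ?_
    · have : x ∈ Submodule.comap L W0.1 := by rw [htop]; trivial
      exact this
    · rw [← LinearMap.ker_eq_bot, LinearMap.ker_eq_bot']
      intro x hx
      exact hLinj x (congrArg Subtype.val hx)
  rw [Module.finrank_fin_fun] at h5
  exact h5.trans (hF2 _ W0.2)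

end IX10

open IX10 in
theorem pr_X10 : S_X10 := by
  classical
  intro G _ _ _ n f0 hf0 ψ hP M t hQ a ha d hD
  obtain ⟨F, hF, hF2, hF3⟩ := hD
  obtain ⟨b, hb, hbv⟩ := ev_rat M (ψ a)
  have habs : PLOn (fun x => |b x|) (Qset M) :=
    (hb.max hb.neg).congr (fun x _ => abs_eq_max_neg)
  obtain ⟨N, hdec, T, g', hT, hTi, hTf, hev⟩ := exists_refine M habs
  choose kk hkk using hTi
  let t' : N.V → Fin n → ℤ := fun i l => ∑ u, t u l * kk i u
  -- the formula for `T`
  have hTz : ∀ (z : N.V → ℚ) (u : M.V), T z u = ∑ i, z i * (kk i u : ℚ) := by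
    intro z u
    conv_lhs => rw [pi_eq_sum_univ' z, map_sum]
    rw [Finset.sum_apply]
    refine Finset.sum_congr rfl (fun i _ => ?_)
    rw [map_smul, Pi.smul_apply, smul_eq_mul, ← hkk i u]
  have htz : ∀ (z : N.V → ℚ) (l : Fin n),
      ∑ u, (t u l : ℝ) * castR (T z) u = ∑ i, (t' i l : ℝ) * castR z i := by
    intro z l
    have h1 : ∑ u, (t u l : ℚ) * T z u = ∑ i, (t' i l : ℚ) * z i := by
      simp only [hTz, t']
      push_cast
      simp only [Finset.mul_sum, Finset.sum_mul]
      rw [Finset.sum_comm]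
      refine Finset.sum_congr rfl (fun i _ => Finset.sum_congr rfl (fun u _ => by ring))
    have h2 : ((∑ u, (t u l : ℚ) * T z u : ℚ) : ℝ) = ((∑ i, (t' i l : ℚ) * z i : ℚ) : ℝ) := by
      rw [h1]
    push_cast at h2
    exact h2
  have hTmem : ∀ z ∈ Qset N, T z ∈ Qset M := hT.mapsf
  have hcontL : Continuous (fun z : N.V → ℝ => (fun l => ∑ i, (t' i l : ℝ) * z i : Fin n → ℝ)) := by
    refine continuous_pi (fun l => continuous_finsetSum _ (fun i _ => ?_))
    exact continuous_const.mul (continuous_apply i)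
  have hQN : QTracks f0 ψ N t' := by
    refine ⟨fun c hc z hz => ?_, fun z hz => ?_⟩
    · obtain ⟨bN, hbN, hbN2⟩ := LP_ev_eq N (ψ c)
      rw [hbN2 z hz]
      refine mem_of_rat (C := {z : N.V → ℝ | bN z = c (fun l => ∑ i, (t' i l : ℝ) * z i)})
        (isClosed_eq (LP_cont hbN) ((LP_cont hc).comp hcontL)) (fun x hx => ?_) hz
      have hx' : x ∈ Qset N := (mem_StK_iff _ _).1 hx
      show bN (castR x) = c (fun l => ∑ i, (t' i l : ℝ) * castR x i)
      rw [← hbN2 _ hx', hev (ψ c) x hx', hQ.1 c hc _ (hTmem x hx')]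
      congr 1
      funext l
      exact htz x l
    · refine mem_of_rat (C := {z : N.V → ℝ | f0 (fun l => ∑ i, (t' i l : ℝ) * z i) = 0})
        (isClosed_eq ((LP_cont hf0).comp hcontL) continuous_const) (fun x hx => ?_) hz
      have hx' : x ∈ Qset N := (mem_StK_iff _ _).1 hx
      show f0 (fun l => ∑ i, (t' i l : ℝ) * castR x i) = 0
      rw [← hQ.2 _ (hTmem x hx')]
      congr 1
      funext l
      exact (htz x l).symm
  have hz0 : ∀ z ∈ Qset N, ∀ i, 0 ≤ z i := by
    intro z hz i
    have := hz.1 i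
    unfold castR at this
    exact_mod_cast this
  -- the zero set
  have hzero : ∀ z ∈ Qset N, (b (T z) = 0 ↔ ∀ i, z i ≠ 0 → b (T (Pi.single i 1)) = 0) := by
    intro z hz
    have h1 := hTf z hz
    simp only [smul_eq_mul] at h1
    have h2 : ∀ i ∈ Finset.univ, 0 ≤ z i * |b (T (Pi.single i 1))| :=
      fun i _ => mul_nonneg (hz0 z hz i) (abs_nonneg _)
    constructor
    · intro h i hi
      rw [h, abs_zero] at h1
      have h3 := (Finset.sum_eq_zero_iff_of_nonneg h2).1 h1.symm i (Finset.mem_univ i)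
      rcases mul_eq_zero.1 h3 with h4 | h4
      · exact absurd h4 hi
      · exact abs_eq_zero.1 h4
    · intro h
      rw [← abs_eq_zero, h1]
      refine Finset.sum_eq_zero (fun i _ => ?_)
      by_cases hi : z i = 0
      · rw [hi, zero_mul]
      · rw [h i hi, abs_zero, mul_zero]
  let V0 : Set N.V := {v | b (T (Pi.single v 1)) = 0}
  have hcard : ∀ s : Finset N.V, N.Δ.face (s : Set N.V) → (s : Set N.V) ⊆ V0 → s.card ≤ d := by
    intro s hs hsV
    refine face_card2 hP N t' hQN s hs F hF hF2 (fun z hz hzs => ?_)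
    refine hF3 _ (hQN.2 _ hz) ?_
    have h1 : N.ev (ψ a) (castR z) = 0 := by
      rw [hev (ψ a) z hz, hbv _ (hTmem z hz), (hzero z hz).2 ?_]
      · simp
      · intro i hi
        have : i ∈ s := by
          by_contra hcon
          exact hi (hzs i hcon)
        exact hsV (Finset.mem_coe.2 this)
    rw [← hQN.1 a ha _ hz]
    exact h1
  let E' : ∀ s : Finset N.V, (s → ℚ) →ₗ[ℚ] (N.V → ℚ) := fun s =>
    { toFun := fun y v => if h : v ∈ s then y ⟨v, h⟩ else 0
      map_add' := by
        intro x y; funext v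
        simp only [Pi.add_apply]
        split_ifs
        · rfl
        · rw [add_zero]
      map_smul' := by
        intro r x; funext v
        simp only [Pi.smul_apply, RingHom.id_apply, smul_eq_mul]
        split_ifs
        · rfl
        · rw [mul_zero] }
  refine ⟨(fun s : Finset N.V => LinearMap.range (T ∘ₗ E' s)) ''
    {s | N.Δ.face (s : Set N.V) ∧ (s : Set N.V) ⊆ V0}, (Set.toFinite _).image _, ?_, ?_⟩
  · rintro _ ⟨s, ⟨hs, hsV⟩, rfl⟩
    refine (LinearMap.finrank_range_le (T ∘ₗ E' s)).trans ?_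
    rw [Module.finrank_fintype_fun_eq_card, Fintype.card_coe]
    exact hcard s hs hsV
  · intro x hx
    have hxM : x ∈ Qset M := hx.1
    set z := g' x with hzdef
    have hz : z ∈ Qset N := hT.mapsg x hxM
    have hTx : T z = x := hT.fg x hxM
    have hbx : b (T z) = 0 := by
      rw [hTx]
      have h1 := hx.2
      rw [hbv x hxM] at h1
      exact_mod_cast h1
    have hsup := (hzero z hz).1 hbx
    refine ⟨_, ⟨Finset.univ.filter (fun v => z v ≠ 0), ⟨?_, ?_⟩, rfl⟩, ?_⟩
    · show N.Δ.face _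
      convert hz.2 using 1
      ext v
      simp [castR]
    · intro v hv
      simp only [Finset.coe_filter, Finset.mem_univ, true_and, Set.mem_ofPred_eq] at hv
      exact hsup v hv
    · refine ⟨fun v => z v.1, ?_⟩
      show T (E' _ _) = x
      rw [← hTx]
      congr 1
      funext v
      by_cases h : v ∈ Finset.univ.filter (fun v => z v ≠ 0)
      · exact dif_pos h
      · refine (dif_neg h).trans ?_
        simp only [Finset.mem_filter, Finset.mem_univ, true_and, ne_eq, not_not] at h
        exact h.symm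

end Pool.Agent.Work.MP_552024_lc.HM
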