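import Pool.Agent.Work.MP_552024_lc.HM.StmtsX
import Pool.Agent.Work.MP_552024_lc.HM.I_Q13

/-!
Proof of S_X11: `S_Q13` with the formulas for the two maps (the proof of `pr_Q13`).
-/

set_option autoImplicit false

namespace Pool.Agent.Work.MP_552024_lc.HM

open Metric Set Topology Pool.Agent.Work.MP_552024_lc.PLS Pool.Agent.MP552024

open IQ13 in
theorem pr_X11 : S_X11 := by
  classical
  intro G _ _ _ n f0 hf0 ψ hP M t hQ
  have hg : ∀ v : M.V, ∃ a ∈ LP (Fin n), ∀ z ∈ M.Δ.Z, a (fm t z) = z v := by
    intro v
    obtain ⟨g, hg⟩ := M.chart.hat v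
    obtain ⟨a, ha, rfl⟩ := hP.2.1 g
    refine ⟨a, ha, fun z hz => ?_⟩
    rw [← hg z hz, hQ.1 a ha z hz]
    rfl
  choose a ha haz using hg
  have hkey : ∀ {p q : (Fin n → ℝ) → ℝ}, p ∈ LP (Fin n) → q ∈ LP (Fin n) →
      (∀ z ∈ M.Δ.Z, p (fm t z) = q (fm t z)) → ∀ {x : Fin n → ℝ}, f0 x = 0 → p x = q x :=
    fun hp hq h _ hx => key hP M t hQ hp hq h hx
  have hnn : ∀ x, f0 x = 0 → ∀ v, 0 ≤ a v x := by
    intro x hx v
    have h1 : max (a v x) 0 = a v x :=
      hkey (p := fun x => max (a v x) 0) (q := a v) (LP_max (ha v) LP_zero) (ha v)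
        (fun z hz => by
          show max (a v (fm t z)) 0 = a v (fm t z)
          rw [haz v z hz]
          exact max_eq_left (hz.1 v)) hx
    rw [← h1]
    exact le_max_right _ _
  have hface : ∀ x, f0 x = 0 → M.Δ.face {v | a v x ≠ 0} := by
    intro x hx
    by_contra hcon
    set s : Finset M.V := Finset.univ.filter (fun v => a v x ≠ 0) with hs
    have hne : s.Nonempty := by
      rw [Finset.nonempty_iff_ne_empty]
      intro h0
      apply hcon
      have : {v | a v x ≠ 0} = (∅ : Set M.V) := by
        ext v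
        constructor
        · intro hv
          have : v ∈ s := by rw [hs, Finset.mem_filter]; exact ⟨Finset.mem_univ _, hv⟩
          rw [h0] at this
          exact absurd this (Finset.notMem_empty _)
        · intro hv; exact absurd hv (Set.notMem_empty _)
      rw [this]
      exact M.Δ.empt
    have h1 : s.inf' hne (fun v => a v x) = 0 := by
      refine hkey (p := fun x => s.inf' hne (fun v => a v x)) (q := fun _ => 0)
        (LPinf s hne a ha) LP_zero (fun z hz => ?_) hx
      show s.inf' hne (fun v => a v (fm t z)) = 0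
      have h2 : s.inf' hne (fun v => a v (fm t z)) = s.inf' hne (fun v => z v) :=
        Finset.inf'_congr hne rfl (fun v _ => haz v z hz)
      rw [h2]
      have h3 : ∃ v ∈ s, z v = 0 := by
        by_contra h4
        push Not at h4
        apply hcon
        refine Cx.face_of_mem hz _ (fun v hv => h4 v ?_)
        rw [hs, Finset.mem_filter]
        exact ⟨Finset.mem_univ _, hv⟩
      obtain ⟨v, hv, hv0⟩ := h3
      refine le_antisymm ?_ ?_
      · rw [← hv0]; exact Finset.inf'_le _ hv
      · exact Finset.le_inf' _ _ (fun w _ => hz.1 w)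
    obtain ⟨v, hv, hv2⟩ := Finset.exists_mem_eq_inf' hne (fun v => a v x)
    rw [h1] at hv2
    rw [hs, Finset.mem_filter] at hv
    exact hv.2 hv2.symm
  have hfg : ∀ x, f0 x = 0 → fm t (fun v => a v x) = x := by
    intro x hx
    funext l
    refine hkey (p := fun x => fm t (fun v => a v x) l) (q := fun x => x l)
      (LP_sum _ _ (fun v _ => LP_zsmul (t v l) (ha v))) (LP_coord l) (fun z hz => ?_) hx
    show fm t (fun v => a v (fm t z)) l = fm t z l
    congr 1
    funext v
    exact haz v z hz
  refine ⟨a, ha, ?_⟩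
  constructor
  · refine Continuous.continuousOn ?_
    refine continuous_pi (fun l => ?_)
    show Continuous (fun z : EuclideanSpace ℝ M.V => ∑ v, (t v l : ℝ) * z v)
    fun_prop
  · refine Continuous.continuousOn ?_
    exact (PiLp.continuous_toLp 2 _).comp (continuous_pi (fun v => LP_cont (ha v)))
  · intro z hz
    exact hQ.2 _ hz
  · intro x hx
    exact ⟨fun v => hnn x hx v, hface x hx⟩
  · intro z hz
    ext v
    exact haz v _ hz
  · intro x hx
    exact hfg x hx
  · intro z hz r hr
    refine ⟨?_, ?_⟩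
    · exact Cx.smul_mem hz hr
    · exact fm_smul t (fun v => z v) r
  · intro x hx r hr
    refine ⟨?_, ?_⟩
    · show f0 (r • x) = 0
      have h1 := LP_hom hf0 r hr x
      have h2 : f0 (r • x) = r * f0 x := h1
      rw [h2, (show f0 x = 0 from hx), mul_zero]
    · ext v
      exact LP_hom (ha v) r hr x

end Pool.Agent.Work.MP_552024_lc.HM
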