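import Pool.Agent.Work.MP_552024_lc.HM.StmtsX

set_option autoImplicit false

namespace Pool.Agent.Work.MP_552024_lc.HM

open Pool.Agent.Work.MP_552024_lc.PLS

/-- PL comparison of the lower part of two cell systems. -/
theorem pr_X2 : S_X2 := by
  intro E E' _ _ _ _ _ _ ι _ _ i0 d c c' L hi0 hL h0L hpol hpol' hz hz' hint hint' hcell
  have h : Cells i0 (fun _ => 1) (fun _ _ _ => True) c :=
    ⟨hpol, hz, hint, fun _ _ => ⟨one_ne_zero, trivial⟩⟩
  have h' : Cells i0 (fun _ => 1) (fun _ _ _ => True) c' :=
    ⟨hpol', hz', hint', fun _ _ => ⟨one_ne_zero, trivial⟩⟩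
  classical
  have : Fintype ι := Fintype.ofFinite ι
  have key : ∀ n, ∀ s : Finset ι, s.card = n → IsLowerSet (s : Set ι) → i0 ∈ s → (∀ i ∈ s, i ∈ L) →
      ∃ f : E → E', ∃ g : E' → E, PLInv f g (⋃ i ∈ s, c i) (⋃ i ∈ s, c' i) ∧
        ∀ i ∈ s, ∀ x ∈ ⋃ i ∈ s, c i, (x ∈ c i ↔ f x ∈ c' i) := by
    intro n
    induction n with
    | zero =>
      intro s hs _ h0 _
      rw [Finset.card_eq_zero] at hs
      rw [hs] at h0
      exact absurd h0 (Finset.notMem_empty _)
    | succ n ih =>
      intro s hs hlow h0 hsL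
      by_cases hone : s = {i0}
      · subst hone
        have e1 : (⋃ i ∈ ({i0} : Finset ι), c i) = {0} := by simp [h.zero]
        have e2 : (⋃ i ∈ ({i0} : Finset ι), c' i) = {0} := by simp [h'.zero]
        rw [e1, e2]
        refine ⟨(0 : E →ₗ[ℚ] E'), (0 : E' →ₗ[ℚ] E), ⟨plOn_linear _ _, plOn_linear _ _,
          fun _ _ => rfl, fun _ _ => rfl, fun x hx => ?_, fun x hx => ?_⟩, ?_⟩
        · rw [Set.mem_singleton_iff.1 hx]; rfl
        · rw [Set.mem_singleton_iff.1 hx]; rfl
        · intro i hi x hx
          rw [Finset.mem_singleton] at hi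
          subst hi
          rw [h.zero, h'.zero]
          constructor
          · intro _; rfl
          · intro _; exact hx
      · -- a maximal element of s
        obtain ⟨m, hm⟩ : ∃ m, Maximal (fun x => x ∈ s) m := s.exists_maximal ⟨i0, h0⟩
        have hms : m ∈ s := hm.1
        have hmax : ∀ j ∈ s, m ≤ j → j = m := fun j hj hmj => le_antisymm (hm.2 hj hmj) hmj
        have hm0 : m ≠ i0 := by
          rintro rfl
          apply hone
          ext j
          rw [Finset.mem_singleton]
          exact ⟨fun hj => hmax j hj (hi0 j), fun hj => hj ▸ h0⟩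
        set s' := s.erase m with hs'
        have hs'c : s'.card = n := by rw [hs', Finset.card_erase_of_mem hms, hs]; rfl
        have hs'low : IsLowerSet (s' : Set ι) := by
          intro a b hba ha
          rw [Finset.mem_coe, hs', Finset.mem_erase] at ha ⊢
          refine ⟨?_, hlow hba ha.2⟩
          rintro rfl
          exact ha.1 (hmax a ha.2 hba)
        have h0' : i0 ∈ s' := Finset.mem_erase.2 ⟨hm0.symm, h0⟩
        obtain ⟨f, g, hfg, hiff⟩ := ih s' hs'c hs'low h0'
          (fun i hi => hsL i (Finset.mem_of_mem_erase hi))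
        -- boundaries
        have hlt : ∀ k, k < m → k ∈ s' := fun k hk =>
          Finset.mem_erase.2 ⟨hk.ne, hlow hk.le hms⟩
        have hbd : ∀ x, x ∈ (⋃ i ∈ s', c i) → (x ∈ c m ↔ x ∈ ⋃ k ∈ {k | k < m}, c k) := by
          intro x hx
          constructor
          · intro hxm
            obtain ⟨i, hi, hxi⟩ := Set.mem_iUnion₂.1 hx
            have h1 : x ∈ c m ∩ c i := ⟨hxm, hxi⟩
            rw [h.inter m i] at h1
            obtain ⟨k, hk, hxk⟩ := Set.mem_iUnion₂.1 h1
            refine Set.mem_biUnion (x := k) ?_ hxk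
            refine lt_of_le_of_ne hk.1 ?_
            rintro rfl
            have h2 := Finset.mem_erase.1 hi
            exact h2.1 (hmax i h2.2 hk.2)
          · intro hx'
            obtain ⟨k, hk, hxk⟩ := Set.mem_iUnion₂.1 hx'
            exact h.mono (le_of_lt hk) hxk
        have hbd' : ∀ x, x ∈ (⋃ i ∈ s', c' i) → (x ∈ c' m ↔ x ∈ ⋃ k ∈ {k | k < m}, c' k) := by
          intro x hx
          constructor
          · intro hxm
            obtain ⟨i, hi, hxi⟩ := Set.mem_iUnion₂.1 hx
            have h1 : x ∈ c' m ∩ c' i := ⟨hxm, hxi⟩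
            rw [h'.inter m i] at h1
            obtain ⟨k, hk, hxk⟩ := Set.mem_iUnion₂.1 h1
            refine Set.mem_biUnion (x := k) ?_ hxk
            refine lt_of_le_of_ne hk.1 ?_
            rintro rfl
            have h2 := Finset.mem_erase.1 hi
            exact h2.1 (hmax i h2.2 hk.2)
          · intro hx'
            obtain ⟨k, hk, hxk⟩ := Set.mem_iUnion₂.1 hx'
            exact h'.mono (le_of_lt hk) hxk
        have hsub : (⋃ k ∈ {k | k < m}, c k) ⊆ ⋃ i ∈ s', c i := by
          intro x hx
          obtain ⟨k, hk, hxk⟩ := Set.mem_iUnion₂.1 hx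
          exact Set.mem_biUnion (hlt k hk) hxk
        have hsub' : (⋃ k ∈ {k | k < m}, c' k) ⊆ ⋃ i ∈ s', c' i := by
          intro x hx
          obtain ⟨k, hk, hxk⟩ := Set.mem_iUnion₂.1 hx
          exact Set.mem_biUnion (hlt k hk) hxk
        have hr : PLInv f g (⋃ k ∈ {k | k < m}, c k) (⋃ k ∈ {k | k < m}, c' k) := by
          refine hfg.restrict hsub hsub' ?_
          intro x hx
          constructor
          · intro hx'
            obtain ⟨k, hk, hxk⟩ := Set.mem_iUnion₂.1 hx'
            exact Set.mem_biUnion (x := k) hk ((hiff k (hlt k hk) x hx).1 hxk)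
          · intro hx'
            obtain ⟨k, hk, hxk⟩ := Set.mem_iUnion₂.1 hx'
            exact Set.mem_biUnion (x := k) hk ((hiff k (hlt k hk) x hx).2 hxk)
        obtain ⟨hd0, hb, hb'⟩ := hcell m (hsL m hms) hm0
        have : NeZero (d m) := ⟨hd0⟩
        obtain ⟨Φ, Ψ, hΦ, hΦ1, hΨ1, hΦ2⟩ := ball_ext hb hb' hr
        obtain ⟨F, G, hFG, hF1, hF2, hG1, hG2⟩ := hfg.paste hΦ (h.pol_biUnion s' h0') (h.pol m)
          (h'.pol_biUnion s' h0') (h'.pol m)
          (fun x hx hxm => (hΦ1 x ((hbd x hx).1 hxm)).symm)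
          (fun y hy hym => (hΨ1 y ((hbd' y hy).1 hym)).symm)
        have eU : (⋃ i ∈ s, c i) = (⋃ i ∈ s', c i) ∪ c m := by
          ext x
          simp only [Set.mem_iUnion, Set.mem_union, exists_prop]
          constructor
          · rintro ⟨i, hi, hx⟩
            by_cases him : i = m
            · exact Or.inr (him ▸ hx)
            · exact Or.inl ⟨i, Finset.mem_erase.2 ⟨him, hi⟩, hx⟩
          · rintro (⟨i, hi, hx⟩ | hx)
            · exact ⟨i, (Finset.mem_erase.1 hi).2, hx⟩
            · exact ⟨m, hms, hx⟩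
        have eU' : (⋃ i ∈ s, c' i) = (⋃ i ∈ s', c' i) ∪ c' m := by
          ext x
          simp only [Set.mem_iUnion, Set.mem_union, exists_prop]
          constructor
          · rintro ⟨i, hi, hx⟩
            by_cases him : i = m
            · exact Or.inr (him ▸ hx)
            · exact Or.inl ⟨i, Finset.mem_erase.2 ⟨him, hi⟩, hx⟩
          · rintro (⟨i, hi, hx⟩ | hx)
            · exact ⟨i, (Finset.mem_erase.1 hi).2, hx⟩
            · exact ⟨m, hms, hx⟩
        refine ⟨F, G, by rw [eU, eU']; exact hFG, ?_⟩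
        -- the equivalences
        have hmain : ∀ i ∈ s, ∀ x ∈ (⋃ i ∈ s', c i), (x ∈ c i ↔ F x ∈ c' i) := by
          intro i hi x hx
          rw [hF1 x hx]
          by_cases him : i = m
          · rw [him, hbd x hx, hbd' (f x) (hfg.mapsf x hx)]
            constructor
            · intro hx'
              exact hr.mapsf x hx'
            · intro hx'
              obtain ⟨k, hk, hxk⟩ := Set.mem_iUnion₂.1 hx'
              exact Set.mem_biUnion (x := k) hk ((hiff k (hlt k hk) x hx).2 hxk)
          · exact hiff i (Finset.mem_erase.2 ⟨him, hi⟩) x hx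
        intro i hi x hx
        rw [eU] at hx
        by_cases hx' : x ∈ ⋃ i ∈ s', c i
        · exact hmain i hi x hx'
        · have hxm : x ∈ c m := hx.resolve_left hx'
          by_cases him : i = m
          · rw [him]
            exact ⟨fun _ => by rw [hF2 x hxm]; exact hΦ.mapsf x hxm, fun _ => hxm⟩
          · have his' : i ∈ s' := Finset.mem_erase.2 ⟨him, hi⟩
            constructor
            · intro hxi
              exact absurd (Set.mem_biUnion (x := i) his' hxi) hx'
            · intro hFx
              exfalso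
              rw [hF2 x hxm] at hFx
              have h1 : Φ x ∈ ⋃ i ∈ s', c' i := Set.mem_biUnion (x := i) his' hFx
              have h2 := (hbd' _ h1).1 (hΦ.mapsf x hxm)
              exact hx' (hsub ((hΦ2 x hxm).2 h2))
  obtain ⟨f, g, hfg, hiff⟩ := key _ L.toFinset rfl (by
    rw [Set.coe_toFinset]; exact hL) (Set.mem_toFinset.2 h0L) (fun i hi => Set.mem_toFinset.1 hi)
  have e1 : (⋃ i ∈ L.toFinset, c i) = ⋃ i ∈ L, c i := by
    ext x; simp only [Set.mem_iUnion, Set.mem_toFinset]
  have e2 : (⋃ i ∈ L.toFinset, c' i) = ⋃ i ∈ L, c' i := by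
    ext x; simp only [Set.mem_iUnion, Set.mem_toFinset]
  rw [e1, e2] at hfg
  rw [e1] at hiff
  exact ⟨f, g, hfg, fun i hi => hiff i (Set.mem_toFinset.2 hi)⟩

end Pool.Agent.Work.MP_552024_lc.HM
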