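import Pool.Agent.Work.MP_552024_lc.HM.StmtsX

/-!
Item X3: desingularisation with a property of complexes and realisations.
-/

set_option autoImplicit false

namespace Pool.Agent.Work.MP_552024_lc.HM

open Metric Set Topology Pool.Agent.Work.MP_552024_lc.PLS Pool.Agent.MP552024

namespace IX3

theorem desingX {U : Type} [Fintype U] {Q : Set (U → ℚ)}
    (Pr : ∀ (V : Type) [Fintype V], Cx V → (V → U → ℤ) → Prop)
    (hPr : ∀ (V : Type) [Fintype V] (Δ : Cx V) (w : V → U → ℤ) (τ : Finset V)
      (hτ : Δ.face (τ : Set V)) (h2 : ∃ i ∈ τ, ∃ j ∈ τ, i ≠ j) (q : V → ℚ) (w0 : U → ℤ),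
      (∀ v ∈ τ, 0 < q v) → (∀ v ∉ τ, q v = 0) → (∀ u, Wm w q u = w0 u) → Rlz Q Δ w → Pr V Δ w →
      Pr (Option V) (starCx Δ τ hτ h2) (fun o : Option V => o.elim w0 w)) (m : ℕ) :
    ∀ (c : ℕ) (V : Type) [Fintype V] (Δ : Cx V) (w : V → U → ℤ), Rlz Q Δ w → Pr V Δ w →
      (∀ s, Δ.face s → (Gs w s).ncard ≤ m) → {s | Δ.face s ∧ (Gs w s).ncard = m}.ncard ≤ c →
      ∃ (V' : Type) (_ : Fintype V') (Δ' : Cx V') (w' : V' → U → ℤ), Rlz Q Δ' w' ∧ Pr V' Δ' w' ∧
        Unim Δ' w' := by
  classical
  induction m with
  | zero =>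
    intro c V _ Δ w h hP h1 _
    exact ⟨V, _, Δ, w, h, hP, unim_of_card h (fun s hs => (h1 s hs).trans (by omega))⟩
  | succ m ihm =>
    intro c
    induction c with
    | zero =>
      intro V _ Δ w h hP h1 h2
      have h3 : ∀ s, Δ.face s → (Gs w s).ncard ≤ m := by
        intro s hs
        have h4 := h1 s hs
        by_contra hcon
        have h5 : s ∈ {s | Δ.face s ∧ (Gs w s).ncard = m + 1} := ⟨hs, by omega⟩
        have h6 := Set.ncard_pos (Set.toFinite {s | Δ.face s ∧ (Gs w s).ncard = m + 1})
        have := h6.2 ⟨s, h5⟩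
        omega
      exact ihm _ V Δ w h hP h3 le_rfl
    | succ c ihc =>
      intro V _ Δ w h hP h1 h2
      rcases Nat.eq_zero_or_pos m with hm | hm
      · exact ⟨V, _, Δ, w, h, hP, unim_of_card h (fun s hs => (h1 s hs).trans (by omega))⟩
      by_cases hex : ∃ s, Δ.face s ∧ (Gs w s).ncard = m + 1
      · obtain ⟨s, hs, hsm⟩ := hex
        obtain ⟨τ, q, w0, hτs, ht2, hq, hq0, hq1, hw0, hp⟩ := exists_point h hs (by omega)
        have hτ : Δ.face (τ : Set V) := Δ.down _ _ hτs hs
        have hnew : ∀ s' : Set (Option V), (starCx Δ τ hτ ht2).face s' → none ∈ s' →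
            (Gs (fun o : Option V => o.elim w0 w) s').ncard < m + 1 := by
          rintro s' ⟨h3, h4⟩ hn
          have h5 : Δ.face ({v | some v ∈ s'} ∪ (τ : Set V)) := by
            refine Δ.down _ _ ?_ h4
            rintro v (hv | hv)
            · exact Or.inl hv
            · exact Or.inr ⟨hn, hv⟩
          exact lt_of_lt_of_le (Gs_new h τ q hq hq0 hq1 w0 hw0 s' h3 h5) (h1 _ h5)
        have hold : ∀ s' : Set (Option V), (starCx Δ τ hτ ht2).face s' → none ∉ s' →
            Δ.face {v | some v ∈ s'} := by
          rintro s' ⟨h3, h4⟩ hn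
          exact Δ.down _ _ (fun v hv => Or.inl hv) h4
        refine ihc (Option V) (starCx Δ τ hτ ht2) (fun o => o.elim w0 w)
          (h.star τ hτ ht2 q hq hq0 w0 hw0 hp) (hPr V Δ w τ hτ ht2 q w0 hq hq0 hw0 h hP) ?_ ?_
        · intro s' hs'
          by_cases hn : none ∈ s'
          · exact (hnew s' hs' hn).le
          · rw [Gs_old w w0 s' hn]
            exact h1 _ (hold s' hs' hn)
        · have h3 : ((fun s' : Set (Option V) => {v | some v ∈ s'}) ''
              {s' | (starCx Δ τ hτ ht2).face s' ∧
                (Gs (fun o : Option V => o.elim w0 w) s').ncard = m + 1}) ⊆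
              {s | Δ.face s ∧ (Gs w s).ncard = m + 1} \ {s} := by
            rintro _ ⟨s', ⟨hs', hs'm⟩, rfl⟩
            have hn : none ∉ s' := fun hn => by
              have := hnew s' hs' hn
              omega
            refine ⟨⟨hold s' hs' hn, by rw [← Gs_old w w0 s' hn]; exact hs'm⟩, ?_⟩
            intro heq
            rw [Set.mem_singleton_iff] at heq
            apply hs'.1
            intro i hi
            have : i ∈ (fun s' : Set (Option V) => {v | some v ∈ s'}) s' := by
              rw [heq]; exact hτs hi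
            exact this
          have h4 : Set.InjOn (fun s' : Set (Option V) => {v | some v ∈ s'})
              {s' | (starCx Δ τ hτ ht2).face s' ∧
                (Gs (fun o : Option V => o.elim w0 w) s').ncard = m + 1} := by
            rintro s' ⟨hs', hs'm⟩ s'' ⟨hs'', hs''m⟩ heq
            have hn : none ∉ s' := fun hn => by
              have := hnew s' hs' hn
              omega
            have hn' : none ∉ s'' := fun hn => by
              have := hnew s'' hs'' hn
              omega
            ext o
            rcases o with _ | v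
            · simp [hn, hn']
            · have : v ∈ {v | some v ∈ s'} ↔ v ∈ {v | some v ∈ s''} := by
                have h5 : {v | some v ∈ s'} = {v | some v ∈ s''} := heq
                rw [h5]
              exact this
          rw [← h4.ncard_image]
          have h5 := Set.ncard_le_ncard h3 (Set.toFinite _)
          have h6 : ({s | Δ.face s ∧ (Gs w s).ncard = m + 1} \ {s}).ncard + 1 =
              {s | Δ.face s ∧ (Gs w s).ncard = m + 1}.ncard :=
            Set.ncard_sdiff_singleton_add_one ⟨hs, hsm⟩ (Set.toFinite _)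
          omega
      · push Not at hex
        have h3 : ∀ s, Δ.face s → (Gs w s).ncard ≤ m := by
          intro s hs
          have h4 := h1 s hs
          have h5 := hex s hs
          omega
        exact ihm _ V Δ w h hP h3 le_rfl


end IX3

theorem pr_X3 : S_X3 := by
  classical
  intro U _ Q Pr hPr V _ Δ w h hP
  have hfin : (Set.univ : Set (Set V)).Finite := Set.toFinite _
  obtain ⟨m, hm⟩ : ∃ m : ℕ, ∀ s : Set V, (Gs w s).ncard ≤ m := by
    obtain ⟨m, hm⟩ := (Set.toFinite (Set.range fun s : Set V => (Gs w s).ncard)).bddAbove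
    exact ⟨m, fun s => hm ⟨s, rfl⟩⟩
  exact IX3.desingX Pr hPr m _ V Δ w h hP (fun s _ => hm s) le_rfl

end Pool.Agent.Work.MP_552024_lc.HM
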