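import Pool.Agent.Work.MP_552024_lc.HM.StmtsX

/-!
Item X4: refinements adapted to polyhedral subsets and to a piecewise linear map on one of them.
-/

set_option autoImplicit false

namespace Pool.Agent.Work.MP_552024_lc.HM

open Metric Set Topology Pool.Agent.Work.MP_552024_lc.PLS Pool.Agent.MP552024

namespace IX4

/-- a sum of nonnegative terms with nonnegative weights vanishes iff all terms of the support do -/
theorem sum_zero {V : Type} [Fintype V] {z b : V → ℚ} (hz : ∀ v, 0 ≤ z v) (hb : ∀ v, 0 ≤ b v) :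
    (∑ v, z v * b v = 0) ↔ ∀ v, z v ≠ 0 → b v = 0 := by
  rw [Finset.sum_eq_zero_iff_of_nonneg (fun v _ => mul_nonneg (hz v) (hb v))]
  constructor
  · intro h v hv
    exact (mul_eq_zero.1 (h v (Finset.mem_univ v))).resolve_left hv
  · intro h v _
    by_cases hv : z v = 0
    · rw [hv, zero_mul]
    · rw [h v hv, mul_zero]

/-- the signs of the terms of the support -/
theorem sign_of {V : Type} [Fintype V] {z c : V → ℚ} {s : ℚ} (hz : ∀ v, 0 ≤ z v)
    (hs : s = ∑ v, z v * c v) (hm : max s 0 = ∑ v, z v * max (c v) 0) {i : V} (hi : z i ≠ 0) :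
    c i = 0 ∨ SignType.sign (c i) = SignType.sign s := by
  have hzi : 0 < z i := lt_of_le_of_ne (hz i) (Ne.symm hi)
  rcases lt_trichotomy (c i) 0 with h | h | h
  · right
    rw [sign_neg h]
    symm
    rw [sign_eq_neg_one_iff]
    by_contra hcon
    push Not at hcon
    rw [max_eq_left hcon] at hm
    have h11 : ∑ j, z j * c j < ∑ j, z j * max (c j) 0 := by
      refine Finset.sum_lt_sum (fun j _ => ?_) ⟨i, Finset.mem_univ _, ?_⟩
      · exact mul_le_mul_of_nonneg_left (le_max_left _ _) (hz j)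
      · refine mul_lt_mul_of_pos_left ?_ hzi
        rw [max_eq_right h.le]
        exact h
    rw [← hs, ← hm] at h11
    exact lt_irrefl _ h11
  · exact Or.inl h
  · right
    rw [sign_pos h]
    symm
    rw [sign_eq_one_iff]
    by_contra hcon
    push Not at hcon
    rw [max_eq_right hcon] at hm
    have h11 : 0 < ∑ j, z j * max (c j) 0 := by
      refine Finset.sum_pos' (fun j _ => ?_) ⟨i, Finset.mem_univ _, ?_⟩
      · exact mul_nonneg (hz j) (le_max_right _ _)
      · refine mul_pos hzi ?_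
        rw [max_eq_left h.le]
        exact h
    rw [← hm] at h11
    exact lt_irrefl _ h11

/-- the rational values of a nonnegative element with a given zero set -/
theorem vals {G : Type} [AddCommGroup G] [Lattice G] [IsOrderedAddMonoid G] (M : Mdl G)
    {S : Set (M.V → ℚ)} (hS : Pol S) (hSQ : S ⊆ Qset M) :
    ∃ b : (M.V → ℚ) → ℚ, PLOn b (Qset M) ∧ ∀ x ∈ Qset M, 0 ≤ b x ∧ (x ∈ S ↔ b x = 0) := by
  obtain ⟨σ, hσ, hσS⟩ := exists_Zset M hS hSQ
  obtain ⟨b, hb, hbe⟩ := ev_rat M σ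
  refine ⟨b, hb, fun x hx => ?_⟩
  have h1 := M.chart.nonneg_iff.1 hσ (castR x) hx
  rw [hbe x hx] at h1
  refine ⟨by exact_mod_cast h1, ?_⟩
  rw [← hσS]
  constructor
  · rintro ⟨_, h2⟩
    rw [hbe x hx] at h2
    exact_mod_cast h2
  · intro h2
    refine ⟨hx, ?_⟩
    rw [hbe x hx, h2]
    norm_num

end IX4

theorem pr_X4 : S_X4 := by
  classical
  intro G _ _ _ M S hS hSQ κ _ D hD hDS E' _ _ h hh
  obtain ⟨A, hA, Λ, _, H⟩ := hh
  have : Finite A := hA
  have : Fintype A := Fintype.ofFinite A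
  have : Fintype κ := Fintype.ofFinite κ
  obtain ⟨bs, hbs, hbs'⟩ := IX4.vals M hS hSQ
  choose bd hbd hbd' using fun k => IX4.vals M (hD k) ((hDS k).trans hSQ)
  let F : (M.V → ℚ) → (A ⊕ Option κ → ℚ) := fun x j => match j with
    | Sum.inl a => max (a.1 x) 0
    | Sum.inr none => bs x
    | Sum.inr (some k) => bd k x
  have hF : PLOn F (Qset M) := by
    refine PLOn.pi (f := fun j x => F x j) ?_
    intro j
    match j with
    | Sum.inl a => exact (plOn_linear a.1 _).max ((plOn_linear (0 : (M.V → ℚ) →ₗ[ℚ] ℚ) _).congr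
        (fun x _ => by simp))
    | Sum.inr none => exact hbs
    | Sum.inr (some k) => exact hbd k
  obtain ⟨N, dN, T, g', hT, hTi, hTf, hev⟩ := exists_refine M hF
  have hval : ∀ z ∈ Qset N, ∀ j, F (T z) j = ∑ i, z i * F (T (Pi.single i 1)) j := by
    intro z hz j
    rw [hTf z hz, Finset.sum_apply]
    rfl
  have hz0 : ∀ z ∈ Qset N, ∀ j, 0 ≤ z j := fun z hz j => by
    have := hz.1 j
    unfold castR at this
    exact_mod_cast this
  have hTe : ∀ i, T (Pi.single i 1) ∈ Qset M := fun i => hT.mapsf _ (Qset_single N i)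
  have hmemS : ∀ z ∈ Qset N, T z ∈ S ↔ ∀ v, z v ≠ 0 → bs (T (Pi.single v 1)) = 0 := by
    intro z hz
    rw [(hbs' _ (hT.mapsf z hz)).2, ← IX4.sum_zero (hz0 z hz) (fun v => (hbs' _ (hTe v)).1)]
    exact Eq.congr_left (hval z hz (Sum.inr none))
  have hmemD : ∀ k, ∀ z ∈ Qset N, T z ∈ D k ↔
      ∀ v, z v ≠ 0 → bd k (T (Pi.single v 1)) = 0 := by
    intro k z hz
    rw [(hbd' k _ (hT.mapsf z hz)).2,
      ← IX4.sum_zero (hz0 z hz) (fun v => (hbd' k _ (hTe v)).1)]
    exact Eq.congr_left (hval z hz (Sum.inr (some k)))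
  refine ⟨N, dN, T, g', {v | bs (T (Pi.single v 1)) = 0},
    fun k => {v | bd k (T (Pi.single v 1)) = 0}, hT, hTi, hmemS, hmemD, ?_, hev⟩
  intro z hz hzS
  obtain ⟨L, _, hL⟩ := H (T z) hzS
  have h2 : h (T z) = L (T z) := hL _ hzS (mem_face_self A _)
  have hLin : ∀ {W : Type} [AddCommGroup W] [Module ℚ W] (a : (M.V → ℚ) →ₗ[ℚ] W),
      a (T z) = ∑ i, z i • a (T (Pi.single i 1)) := by
    intro W _ _ a
    conv_lhs => rw [pi_eq_sum_univ' z, map_sum, map_sum]
    exact Finset.sum_congr rfl (fun i _ => by rw [map_smul, map_smul])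
  rw [h2, hLin L]
  refine Finset.sum_congr rfl (fun i _ => ?_)
  by_cases hi : z i = 0
  · rw [hi, zero_smul, zero_smul]
  · have hiS : T (Pi.single i 1) ∈ S := by
      rw [(hbs' _ (hTe i)).2]
      exact (hmemS z hz).1 hzS i hi
    have hif : T (Pi.single i 1) ∈ face A (T z) := by
      intro a ha
      refine IX4.sign_of (V := N.V) (z := z) (c := fun v => a (T (Pi.single v 1)))
        (hz0 z hz) ?_ ?_ hi
      · exact hLin a
      · exact hval z hz (Sum.inl ⟨a, ha⟩)
    rw [hL _ hiS hif]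

end Pool.Agent.Work.MP_552024_lc.HM
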