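import Pool.Agent.Work.MP_552024_lc.HM.StmtsX

/-!
Proof of S_X5: integral PL functions on a polyhedral subset extend to elements of the group.
-/

set_option autoImplicit false

namespace Pool.Agent.Work.MP_552024_lc.HM

open Metric Set Topology Pool.Agent.Work.MP_552024_lc.PLS Pool.Agent.MP552024

theorem pr_X5 : S_X5 := by
  intro hX4 G _ _ _ M S hS hSM h hh hi
  classical
  obtain ⟨N, hdec, T, g', VS, VD, hT, hTi, hTS, _, hTf, hev⟩ :=
    hX4 G M S hS hSM Empty (fun k => k.elim) (fun k => k.elim) (fun k => k.elim) ℚ h hh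
  have h1 : ∀ i, i ∈ VS → ∃ k : ℤ, h (T (Pi.single i 1)) = k := by
    intro i hiV
    refine hi _ ((hTS _ (Qset_single N i)).2 (fun v hv => ?_)) (hTi i)
    by_cases hvi : v = i
    · rw [hvi]; exact hiV
    · exact absurd (Pi.single_eq_of_ne hvi 1) hv
  choose! c hc using h1
  obtain ⟨g, hg⟩ := N.exists_lin (fun i => if i ∈ VS then c i else 0)
  obtain ⟨b, hb, hgb⟩ := M.chart.mem g
  refine ⟨b, hb, fun x hx => ?_⟩
  have hxM : x ∈ Qset M := hSM hx
  have hz := hT.mapsg x hxM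
  have h2 := hT.fg x hxM
  have h3 : T (g' x) ∈ S := by rw [h2]; exact hx
  have h4 : ∀ v, g' x v ≠ 0 → v ∈ VS := (hTS _ hz).1 h3
  rw [← hgb _ hxM]
  conv_lhs => rw [← h2]
  conv_rhs => rw [← h2]
  rw [← hev g _ hz, hg _ hz, hTf _ hz h3]
  push_cast
  refine Finset.sum_congr rfl (fun i _ => ?_)
  by_cases h5 : g' x i = 0
  · have h6 : castR (g' x) i = 0 := by
      unfold castR; rw [h5]; simp
    rw [h6, h5]; simp
  · rw [if_pos (h4 i h5), hc i (h4 i h5), smul_eq_mul]
    push_cast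
    rw [mul_comm]
    rfl

end Pool.Agent.Work.MP_552024_lc.HM
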