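import Pool.Agent.Work.MP_552024_lc.HM.StmtsX

set_option autoImplicit false

namespace Pool.Agent.Work.MP_552024_lc.HM

open Metric Set Topology Pool.Agent.Work.MP_552024_lc.PLS Pool.Agent.MP552024

namespace IX6

/-- the subcomplex on a set of vertices -/
def subCx {V : Type} (Δ : Cx V) (A : Set V) : Cx ↥A where
  face s := Δ.face (Subtype.val '' s)
  down s t hts hs := Δ.down _ _ (Set.image_mono hts) hs
  vert v := by rw [Set.image_singleton]; exact Δ.vert _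
  empt := by rw [Set.image_empty]; exact Δ.empt

open Classical in
/-- extension by zero -/
noncomputable def ex {V : Type} (A : Set V) : (↥A → ℚ) →ₗ[ℚ] (V → ℚ) where
  toFun z v := if h : v ∈ A then z ⟨v, h⟩ else 0
  map_add' x y := by funext v; by_cases h : v ∈ A <;> simp [h]
  map_smul' r x := by funext v; by_cases h : v ∈ A <;> simp [h]

open Classical in
theorem ex_mem {V : Type} (A : Set V) (z : ↥A → ℚ) (i : ↥A) : ex A z i.1 = z i := by
  show (if h : i.1 ∈ A then z ⟨i.1, h⟩ else 0) = z i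
  rw [dif_pos i.2]

open Classical in
theorem ex_not {V : Type} (A : Set V) (z : ↥A → ℚ) {v : V} (h : v ∉ A) : ex A z v = 0 := by
  show (if h : v ∈ A then z ⟨v, h⟩ else 0) = 0
  rw [dif_neg h]

theorem ex_supp {V : Type} (A : Set V) (z : ↥A → ℚ) : ∀ v, ex A z v ≠ 0 → v ∈ A := by
  intro v hv
  by_contra hcon
  exact hv (ex_not A z hcon)

theorem ex_St {V : Type} {Δ : Cx V} {A : Set V} {z : ↥A → ℚ} (hz : z ∈ StK ℚ (subCx Δ A)) :
    ex A z ∈ StK ℚ Δ := by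
  obtain ⟨h1, h2⟩ := hz
  refine ⟨fun v => ?_, Δ.down _ _ ?_ h2⟩
  · by_cases hv : v ∈ A
    · rw [ex_mem A z ⟨v, hv⟩]; exact h1 _
    · rw [ex_not A z hv]
  · intro v hv
    have h3 : v ∈ A := ex_supp A z v hv
    refine ⟨⟨v, h3⟩, ?_, rfl⟩
    have h4 : ex A z v ≠ 0 := hv
    rw [ex_mem A z ⟨v, h3⟩] at h4
    exact h4

theorem res_St {V : Type} {Δ : Cx V} {A : Set V} {x : V → ℚ} (hx : x ∈ StK ℚ Δ) :
    (fun i : ↥A => x i.1) ∈ StK ℚ (subCx Δ A) := by
  obtain ⟨h1, h2⟩ := hx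
  refine ⟨fun i => h1 i.1, Δ.down _ _ ?_ h2⟩
  rintro _ ⟨i, hi, rfl⟩
  exact hi

theorem ex_res {V : Type} {A : Set V} {x : V → ℚ} (hx : ∀ v, x v ≠ 0 → v ∈ A) :
    ex A (fun i : ↥A => x i.1) = x := by
  funext v
  by_cases hv : v ∈ A
  · exact ex_mem A _ ⟨v, hv⟩
  · rw [ex_not A _ hv]
    by_contra hcon
    exact hv (hx v (Ne.symm hcon))

theorem sum_ex {V : Type} [Fintype V] {A : Set V} [Fintype ↥A] {E' : Type*} [AddCommGroup E']
    [Module ℚ E'] (z : ↥A → ℚ) (F : V → E') : ∑ v, ex A z v • F v = ∑ i : ↥A, z i • F i.1 := by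
  classical
  have h1 : ∑ v ∈ Finset.univ.filter (fun v => v ∈ A), ex A z v • F v =
      ∑ i : ↥A, ex A z i.1 • F i.1 :=
    Finset.sum_subtype (Finset.univ.filter (fun v => v ∈ A)) (by simp) (fun v => ex A z v • F v)
  have h2 : ∑ v ∈ Finset.univ.filter (fun v => v ∈ A), ex A z v • F v = ∑ v, ex A z v • F v := by
    refine Finset.sum_subset (Finset.filter_subset _ _) (fun v _ hv => ?_)
    have h3 : v ∉ A := by simpa using hv
    rw [ex_not A z h3, zero_smul]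
  rw [← h2, h1]
  exact Finset.sum_congr rfl (fun i _ => by rw [ex_mem])

theorem plinv_P {V W : Type} [Fintype V] [Fintype W] {Δ : Cx V} {Q S : Set (W → ℚ)}
    {T : (V → ℚ) →ₗ[ℚ] (W → ℚ)} {g' : (W → ℚ) → (V → ℚ)} (hT : PLInv T g' (StK ℚ Δ) Q)
    (hSQ : S ⊆ Q) (A : Set V) [Fintype ↥A]
    (hA : ∀ z ∈ StK ℚ Δ, T z ∈ S ↔ ∀ v, z v ≠ 0 → v ∈ A) :
    PLInv (fun z => T (ex A z)) (fun x (i : ↥A) => g' x i.1) (StK ℚ (subCx Δ A)) S := by
  refine ⟨(plOn_linear (T.comp (ex A)) _).congr (fun x _ => rfl),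
    PLOn.pi (fun i => (((hT.plg.mono hSQ).lin
      (LinearMap.proj i.1 : (V → ℚ) →ₗ[ℚ] ℚ))).congr (fun x _ => rfl)), ?_, ?_, ?_, ?_⟩
  · intro z hz
    exact (hA _ (ex_St hz)).2 (ex_supp A z)
  · intro x hx
    exact res_St (hT.mapsg x (hSQ hx))
  · intro z hz
    funext i
    show g' (T (ex A z)) i.1 = z i
    rw [hT.gf _ (ex_St hz), ex_mem]
  · intro x hx
    show T (ex A (fun i : ↥A => g' x i.1)) = x
    rw [ex_res, hT.fg x (hSQ hx)]
    refine (hA _ (hT.mapsg x (hSQ hx))).1 ?_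
    rw [hT.fg x (hSQ hx)]
    exact hx

theorem plinv_scale {V : Type} [Fintype V] (Δ : Cx V) (r : V → ℚ) (hr : ∀ i, 0 < r i) :
    PLInv (fun (z : V → ℚ) i => r i * z i) (fun z i => (r i)⁻¹ * z i) (StK ℚ Δ) (StK ℚ Δ) := by
  have hmem : ∀ (c : V → ℚ), (∀ i, 0 < c i) → ∀ z ∈ StK ℚ Δ,
      (fun i => c i * z i) ∈ StK ℚ Δ := by
    intro c hc z hz
    refine ⟨fun i => mul_nonneg (hc i).le (hz.1 i), Δ.down _ _ ?_ hz.2⟩
    intro i hi h
    apply hi
    show c i * z i = 0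
    rw [h, mul_zero]
  have hpl : ∀ (c : V → ℚ), PLOn (fun (z : V → ℚ) i => c i * z i) (StK ℚ Δ) := by
    intro c
    refine PLOn.pi (fun i => ?_)
    exact ((plOn_linear (LinearMap.proj i : (V → ℚ) →ₗ[ℚ] ℚ) _).smul (c i)).congr
      (fun x _ => rfl)
  refine ⟨hpl r, hpl (fun i => (r i)⁻¹), hmem r hr, hmem _ (fun i => inv_pos.2 (hr i)), ?_, ?_⟩
  · intro z _
    funext i
    show (r i)⁻¹ * (r i * z i) = z i
    rw [← mul_assoc, inv_mul_cancel₀ (hr i).ne', one_mul]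
  · intro z _
    funext i
    show r i * ((r i)⁻¹ * z i) = z i
    rw [← mul_assoc, mul_inv_cancel₀ (hr i).ne', one_mul]

/-- the property carried through the subdivisions -/
def PrT {V0 : Type} (Δ0 : Cx V0) {U : Type} (g0 : (U → ℚ) → (V0 → ℚ)) (V : Type) [Fintype V]
    (Δ : Cx V) (w : V → U → ℤ) : Prop :=
  ∃ (T' : (V → ℝ) → (V0 → ℝ)) (R' : (V0 → ℝ) → (V → ℝ)), (∀ v, (fun z => T' z v) ∈ LP V) ∧
    (∀ v, (fun z => R' z v) ∈ LP V0) ∧ (∀ z ∈ Δ.Z, T' z ∈ Δ0.Z) ∧ (∀ z ∈ Δ0.Z, R' z ∈ Δ.Z) ∧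
    (∀ z ∈ Δ.Z, R' (T' z) = z) ∧ (∀ z ∈ Δ0.Z, T' (R' z) = z) ∧
    (∀ z ∈ StK ℚ Δ, ∀ v, T' (castR z) v = 0 ↔ g0 (Wm w z) v = 0) ∧
    ∀ x ∈ StK ℚ Δ, ∀ y ∈ StK ℚ Δ, (∀ v, x v = 0 ↔ y v = 0) →
      ∀ v, (T' (castR x) v = 0 ↔ T' (castR y) v = 0)

theorem sT_supp {V : Type} {Δ : Cx V} {τ : Finset V} {hτ : Δ.face (τ : Set V)}
    {h2 : ∃ i ∈ τ, ∃ j ∈ τ, i ≠ j} {q : V → ℚ} (hq : ∀ v ∈ τ, 0 < q v) (hq0 : ∀ v ∉ τ, q v = 0)
    {z : Option V → ℚ} (hz : z ∈ StK ℚ (starCx Δ τ hτ h2)) (v : V) :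
    sT q z v = 0 ↔ z (some v) = 0 ∧ (v ∈ τ → z none = 0) := by
  have h1 := hz.1 (some v)
  have h3 := hz.1 none
  show z (some v) + q v * z none = 0 ↔ _
  by_cases hv : v ∈ τ
  · have h4 := hq v hv
    constructor
    · intro h
      have h5 : 0 ≤ q v * z none := mul_nonneg h4.le h3
      have h6 : q v * z none = 0 := by linarith
      exact ⟨by linarith, fun _ => (mul_eq_zero.1 h6).resolve_left h4.ne'⟩
    · rintro ⟨h5, h6⟩
      rw [h5, h6 hv]; ring
  · rw [hq0 v hv]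
    constructor
    · intro h
      exact ⟨by linarith, fun h' => absurd h' hv⟩
    · rintro ⟨h5, _⟩
      rw [h5]; ring

theorem prT_star {V0 : Type} {Δ0 : Cx V0} {U : Type} {g0 : (U → ℚ) → (V0 → ℚ)} {V : Type}
    [Fintype V] {Δ : Cx V} {w : V → U → ℤ} (τ : Finset V) (hτ : Δ.face (τ : Set V))
    (h2 : ∃ i ∈ τ, ∃ j ∈ τ, i ≠ j) (q : V → ℚ) (w0 : U → ℤ) (hq : ∀ v ∈ τ, 0 < q v)
    (hq0 : ∀ v ∉ τ, q v = 0) (hw0 : ∀ u, Wm w q u = w0 u) (h : PrT Δ0 g0 V Δ w) :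
    PrT Δ0 g0 (Option V) (starCx Δ τ hτ h2) (fun o : Option V => o.elim w0 w) := by
  classical
  obtain ⟨T', R', hT, hR, hTZ, hRZ, hRT, hTR, ha, hb⟩ := h
  have hne : τ.Nonempty := let ⟨i, hi, _⟩ := h2; ⟨i, hi⟩
  set q1 : V → ℝ := fun v => if v ∈ τ then 1 else 0 with hq1
  set q2 : V → ℚ := fun v => if v ∈ τ then 1 else 0 with hq2
  have hq1p : ∀ v ∈ τ, 0 < q1 v := fun v hv => by simp [hq1, hv]
  have hq10 : ∀ v ∉ τ, q1 v = 0 := fun v hv => by simp [hq1, hv]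
  have hq2p : ∀ v ∈ τ, 0 < q2 v := fun v hv => by simp [hq2, hv]
  have hq20 : ∀ v ∉ τ, q2 v = 0 := fun v hv => by simp [hq2, hv]
  have hinf : (fun z : V → ℝ => τ.inf' hne (fun v => z v / q1 v)) ∈ LP V := by
    have h3 := LP_inf' τ hne (fun v => fun z : V → ℝ => z v) (fun v => LP_coord v)
    convert h3 using 1
    funext z
    refine Finset.inf'_congr hne rfl (fun v hv => ?_)
    simp [hq1, hv]
  have hsT : ∀ v, (fun z => sT q1 z v) ∈ LP (Option V) := by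
    intro v
    by_cases hv : v ∈ τ
    · have := LP_add (LP_coord (some v)) (LP_coord (none : Option V))
      simpa [sT, hq1, hv] using this
    · simpa [sT, hq1, hv] using (LP_coord (some v))
  have hsR : ∀ o, (fun z => sR τ hne q1 z o) ∈ LP V := by
    intro o
    rcases o with _ | l
    · exact hinf
    · by_cases hl : l ∈ τ
      · have := LP_sub (LP_coord l) hinf
        simpa [sR, hq1, hl] using this
      · simpa [sR, hq1, hl] using (LP_coord l)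
  have hcast : ∀ z : Option V → ℚ, sT q1 (castR z) = castR (sT q2 z) := by
    intro z
    funext v
    show (z (some v) : ℝ) + q1 v * (z none : ℝ) = ((z (some v) + q2 v * z none : ℚ) : ℝ)
    by_cases hv : v ∈ τ <;> simp [hq1, hq2, hv]
  refine ⟨fun z => T' (sT q1 z), fun z => sR τ hne q1 (R' z),
    fun v => LP_comp (hT v) (fun i z => sT q1 z i) hsT,
    fun o => LP_comp (hsR o) (fun v z => R' z v) hR, fun z hz => hTZ _ (sT_mem hq1p hq10 hz),
    fun z hz => sR_mem hne hq1p hq10 (hRZ z hz), fun z hz => ?_, fun z hz => ?_, ?_, ?_⟩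
  · show sR τ hne q1 (R' (T' (sT q1 z))) = z
    rw [hRT _ (sT_mem hq1p hq10 hz)]
    exact sR_sT (h2 := h2) hne hq1p hz
  · show T' (sT q1 (sR τ hne q1 (R' z))) = z
    rw [sT_sR hne, hTR z hz]
  · intro z hz v
    show T' (sT q1 (castR z)) v = 0 ↔ _
    have e1 : Wm (fun o : Option V => o.elim w0 w) z = Wm w (sT q z) := by
      funext u
      rw [Wm_apply, Wm_apply, Fintype.sum_option]
      simp only [Option.elim_none, Option.elim_some]
      rw [← hw0 u, Wm_apply, Finset.mul_sum, ← Finset.sum_add_distrib]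
      refine Finset.sum_congr rfl (fun v _ => ?_)
      simp only [sT]
      ring
    rw [hcast, e1, ← ha _ (sT_mem hq hq0 hz) v]
    refine hb _ (sT_mem hq2p hq20 hz) _ (sT_mem hq hq0 hz) (fun i => ?_) v
    rw [sT_supp hq2p hq20 hz, sT_supp hq hq0 hz]
  · intro x hx y hy hxy v
    show T' (sT q1 (castR x)) v = 0 ↔ T' (sT q1 (castR y)) v = 0
    rw [hcast, hcast]
    refine hb _ (sT_mem hq2p hq20 hx) _ (sT_mem hq2p hq20 hy) (fun i => ?_) v
    rw [sT_supp hq2p hq20 hx, sT_supp hq2p hq20 hy, hxy (some i), hxy none]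

/-- rational form of maps with coordinates in `LP` -/
theorem exists_rat {V W : Type} [Fintype V] [Fintype W] {R : (V → ℝ) → (W → ℝ)}
    (hR : ∀ v, (fun z => R z v) ∈ LP V) :
    ∃ Rq : (V → ℚ) → (W → ℚ), PLOn Rq Set.univ ∧ ∀ x, R (castR x) = castR (Rq x) := by
  choose b hb hab using (fun v => LP_pl (hR v))
  exact ⟨fun x v => b v x, PLOn.pi hb, fun x => funext (fun v => hab v x)⟩

end IX6

open IX6

theorem pr_X6 : S_X6 := by
  intro hX3 hX4 hX5 G H _ _ _ _ _ _ M N S S' hS hSQ hS' hSQ' κ _ D D' hD hDS f g hfg hDf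
  classical
  obtain ⟨K, _, T, g', VS, VD, hT, hTi, hVS, hVD, hTf, hev⟩ :=
    hX4 G M S hS hSQ κ D hD hDS (N.V → ℚ) f hfg.plf
  have hK : Qset K = StK ℚ K.Δ := Qset_eq K
  rw [hK] at hT hVS hVD hTf hev
  have : Fintype ↥VS := Fintype.ofFinite _
  -- the subcomplex
  have hP := plinv_P hT hSQ VS hVS
  have h00 : ∀ z ∈ StK ℚ (subCx K.Δ VS), T (ex VS z) ∈ S := hP.mapsf
  -- vertices
  have hsing : ∀ i : ↥VS, (Pi.single i 1 : ↥VS → ℚ) ∈ StK ℚ (subCx K.Δ VS) := by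
    intro i
    refine ⟨fun j => ?_, (subCx K.Δ VS).down _ _ ?_ ((subCx K.Δ VS).vert i)⟩
    · by_cases h : j = i
      · subst h; simp
      · simp [h]
    · intro j hj
      by_contra hcon
      exact hj (Pi.single_eq_of_ne hcon _)
  have hexs : ∀ i : ↥VS, ex VS (Pi.single i 1) = Pi.single i.1 1 := by
    intro i
    funext v
    by_cases hv : v ∈ VS
    · rw [ex_mem VS _ ⟨v, hv⟩]
      by_cases h : (⟨v, hv⟩ : ↥VS) = i
      · subst h; simp
      · have h' : v ≠ i.1 := fun h'' => h (Subtype.ext h'')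
        rw [Pi.single_eq_of_ne h, Pi.single_eq_of_ne h']
    · rw [ex_not VS _ hv]
      have h' : v ≠ i.1 := fun h'' => hv (h'' ▸ i.2)
      rw [Pi.single_eq_of_ne h']
  have h0 : f 0 = 0 := hfg.plf.zero hS.1
  have hne : ∀ i : ↥VS, f (T (Pi.single i.1 1)) ≠ 0 := by
    intro i hi
    have h1 := hP.mapsf _ (hsing i)
    have h1' : T (Pi.single i.1 1) ∈ S := by rw [← hexs i]; exact h1
    have h2 : T (Pi.single i.1 1) = 0 := by
      rw [← hfg.gf _ h1', hi, ← h0, hfg.gf 0 hS.1]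
    have h3 : (Pi.single i.1 1 : K.V → ℚ) = 0 := by
      have h4 := hT.gf _ (ex_St (hsing i))
      rw [hexs i, h2] at h4
      rw [← h4]
      exact hT.plg.zero (by rw [← map_zero T]; exact hT.mapsf 0 (by rw [← hK]; exact (pol_Qset K).1))
    have h4 := congrFun h3 i.1
    simp at h4
  choose r w0 hr hw0 hprim using (fun i : ↥VS => exists_primitive (hne i))
  -- the first realisation
  have hsum : ∀ z ∈ StK ℚ (subCx K.Δ VS), f (T (ex VS z)) =
      ∑ i : ↥VS, z i • f (T (Pi.single i.1 1)) := by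
    intro z hz
    rw [hTf _ (ex_St hz) (h00 z hz), sum_ex z (fun v => f (T (Pi.single v 1)))]
  have hsc := plinv_scale (subCx K.Δ VS) r hr
  have hR0 : PLInv (Wm w0) (fun y (i : ↥VS) => (r i)⁻¹ * g' (g y) i.1)
      (StK ℚ (subCx K.Δ VS)) S' := by
    refine (hsc.trans (hP.trans hfg)).congr (fun z hz => ?_)
    funext u
    show Wm w0 z u = f (T (ex VS (fun i => r i * z i))) u
    rw [hsum _ (hsc.mapsf z hz), Finset.sum_apply, Wm_apply]
    refine Finset.sum_congr rfl (fun i _ => ?_)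
    rw [Pi.smul_apply, smul_eq_mul, ← hw0 i u]
    ring
  set g0 : (N.V → ℚ) → (↥VS → ℚ) := fun y (i : ↥VS) => (r i)⁻¹ * g' (g y) i.1 with hg0
  have hRlz : Rlz S' (subCx K.Δ VS) w0 := ⟨⟨_, hR0⟩, hprim⟩
  have hPr0 : PrT (subCx K.Δ VS) g0 ↥VS (subCx K.Δ VS) w0 := by
    refine ⟨fun z => z, fun z => z, fun v => LP_coord v, fun v => LP_coord v, fun z hz => hz,
      fun z hz => hz, fun z _ => rfl, fun z _ => rfl, fun z hz v => ?_, fun x _ y _ hxy v => ?_⟩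
    · rw [hR0.gf z hz]
      show ((z v : ℚ) : ℝ) = 0 ↔ z v = 0
      exact Rat.cast_eq_zero
    · show ((x v : ℚ) : ℝ) = 0 ↔ ((y v : ℚ) : ℝ) = 0
      rw [Rat.cast_eq_zero, Rat.cast_eq_zero]
      exact hxy v
  obtain ⟨V', _, Δ', w', hRlz', ⟨T', R', hT', hR', hTZ, hRZ, hRT, hTR, ha, -⟩, hun⟩ :=
    hX3 N.V S' (fun V _ Δ w => PrT (subCx K.Δ VS) g0 V Δ w)
      (fun V _ Δ w τ hτ h2 q w0' hq hq0 hw _ hpr => prT_star τ hτ h2 q w0' hq hq0 hw hpr)
      ↥VS (subCx K.Δ VS) w0 hRlz hPr0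
  obtain ⟨g1, hg1⟩ := hRlz'.inv
  obtain ⟨Rq, hRqp, hRq⟩ := exists_rat hR'
  obtain ⟨Tq, hTqp, hTq⟩ := exists_rat hT'
  have hRT' : PLInv Rq Tq (StK ℚ (subCx K.Δ VS)) (StK ℚ Δ') := by
    refine ⟨hRqp.mono (Set.subset_univ _), hTqp.mono (Set.subset_univ _), ?_, ?_, ?_, ?_⟩
    · intro x hx
      rw [mem_StK_iff, ← hRq]
      exact hRZ _ ((mem_StK_iff _ _).1 hx)
    · intro x hx
      rw [mem_StK_iff, ← hTq]
      exact hTZ _ ((mem_StK_iff _ _).1 hx)
    · intro x hx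
      apply castR_inj
      rw [← hTq, ← hRq]
      exact hTR _ ((mem_StK_iff _ _).1 hx)
    · intro x hx
      apply castR_inj
      rw [← hRq, ← hTq]
      exact hRT _ ((mem_StK_iff _ _).1 hx)
  have hmain := hP.symm.trans (hRT'.trans hg1)
  -- coordinates of `g'`
  choose hk hhk using (fun i : K.V => K.chart.hat i)
  choose a haLP hha using (fun i : K.V => M.chart.mem (hk i))
  have hag : ∀ i, ∀ x ∈ Qset M, a i (castR x) = (g' x i : ℝ) := by
    intro i x hx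
    have h1 := hT.mapsg x hx
    have h2 := hT.fg x hx
    have h3 := hev (hk i) _ h1
    rw [h2, hha i _ hx] at h3
    rw [← h3, hhk i _ ((mem_StK_iff _ _).1 h1)]
    rfl
  -- coordinates of the inverse of the final realisation
  have hc : ∀ i : V', ∃ b ∈ LP N.V, ∀ y ∈ S', b (castR y) = (g1 y i : ℝ) := by
    intro i
    refine hX5 H N S' hS' hSQ' (fun y => g1 y i)
      ((hg1.plg.lin (LinearMap.proj i : (V' → ℚ) →ₗ[ℚ] ℚ)).congr (fun x _ => rfl)) ?_
    intro y hy hyi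
    exact hun _ (hg1.mapsg y hy) (by rw [hg1.fg y hy]; exact hyi) i
  choose c hcLP hcg using hc
  choose t ht using hTi
  have hTlin : ∀ (x : K.V → ℚ) (v : M.V), T x v = ∑ i, x i • (t i v : ℚ) := by
    intro x v
    conv_lhs => rw [pi_eq_sum_univ' x, map_sum, Finset.sum_apply]
    refine Finset.sum_congr rfl (fun i _ => ?_)
    rw [map_smul, Pi.smul_apply, ht]
  refine ⟨_, _, fun u z => ∑ v', (w' v' u : ℝ) * R' (fun i : ↥VS => a i.1 z) v',
    fun v z => ∑ i : ↥VS, (t i.1 v : ℝ) * T' (fun j => c j z) i, hmain, ?_, ?_, ?_, ?_, ?_⟩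
  · -- the sets `D k`
    intro k x hx
    have hx1 := hT.mapsg x (hSQ hx)
    have hx2 := hT.fg x (hSQ hx)
    have hfx : Wm w' (Rq (fun i : ↥VS => g' x i.1)) ∈ S' := hmain.mapsf x hx
    set y := Wm w' (Rq (fun i : ↥VS => g' x i.1)) with hy
    show x ∈ D k ↔ y ∈ D' k
    have hgy := hfg.mapsg y hfx
    have hfgy := hfg.fg y hfx
    rw [← hfgy, ← hDf k _ hgy]
    have hx1' := hT.mapsg _ (hSQ hgy)
    have hx2' := hT.fg _ (hSQ hgy)
    have e1 : x ∈ D k ↔ ∀ v, g' x v ≠ 0 → v ∈ VD k := by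
      have := hVD k _ hx1
      rwa [hx2] at this
    have e2 : g y ∈ D k ↔ ∀ v, g' (g y) v ≠ 0 → v ∈ VD k := by
      have := hVD k _ hx1'
      rwa [hx2'] at this
    rw [e1, e2]
    have s1 : ∀ v, g' x v ≠ 0 → v ∈ VS := (hVS _ hx1).1 (by rw [hx2]; exact hx)
    have s2 : ∀ v, g' (g y) v ≠ 0 → v ∈ VS := (hVS _ hx1').1 (by rw [hx2']; exact hgy)
    have key : ∀ v, g' x v = 0 ↔ g' (g y) v = 0 := by
      intro v
      by_cases hv : v ∈ VS
      · have hz : (fun i : ↥VS => g' x i.1) ∈ StK ℚ (subCx K.Δ VS) := hP.mapsg x hx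
        have h1 := ha _ (hRT'.mapsf _ hz) ⟨v, hv⟩
        rw [← hRq, hTR _ ((mem_StK_iff _ _).1 hz)] at h1
        have h2 : castR (fun i : ↥VS => g' x i.1) ⟨v, hv⟩ = 0 ↔ g' x v = 0 := Rat.cast_eq_zero
        rw [← h2, h1]
        show (r ⟨v, hv⟩)⁻¹ * g' (g y) v = 0 ↔ _
        constructor
        · intro h3
          exact (mul_eq_zero.1 h3).resolve_left (inv_pos.2 (hr _)).ne'
        · intro h3
          rw [h3, mul_zero]
      · have h1 : g' x v = 0 := by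
          by_contra hcon; exact hv (s1 v hcon)
        have h2 : g' (g y) v = 0 := by
          by_contra hcon; exact hv (s2 v hcon)
        rw [h1, h2]
    constructor
    · intro h v hv
      exact h v (fun h' => hv ((key v).1 h'))
    · intro h v hv
      exact h v (fun h' => hv ((key v).2 h'))
  · intro u
    exact LP_comp (LP_lin (fun v' => w' v' u)) (fun v' z => R' (fun i : ↥VS => a i.1 z) v')
      (fun v' => LP_comp (hR' v') (fun i z => a i.1 z) (fun i => haLP i.1))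
  · intro v
    exact LP_comp (LP_lin (fun i : ↥VS => t i.1 v)) (fun i z => T' (fun j => c j z) i)
      (fun i => LP_comp (hT' i) (fun j z => c j z) hcLP)
  · intro x hx u
    have e1 : (fun i : ↥VS => a i.1 (castR x)) = castR (fun i : ↥VS => g' x i.1) :=
      funext (fun i => hag i.1 x (hSQ hx))
    show ∑ v', (w' v' u : ℝ) * R' (fun i : ↥VS => a i.1 (castR x)) v' =
      ((Wm w' (Rq (fun i : ↥VS => g' x i.1)) u : ℚ) : ℝ)
    rw [e1, hRq, Wm_apply]
    push_cast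
    exact Finset.sum_congr rfl (fun v' _ => by rw [mul_comm]; rfl)
  · intro y hy v
    have e1 : (fun j => c j (castR y)) = castR (g1 y) := funext (fun j => hcg j y hy)
    show ∑ i : ↥VS, (t i.1 v : ℝ) * T' (fun j => c j (castR y)) i =
      ((T (ex VS (Tq (g1 y))) v : ℚ) : ℝ)
    have e2 : T (ex VS (Tq (g1 y))) v = ∑ i : ↥VS, Tq (g1 y) i * (t i.1 v : ℚ) := by
      rw [hTlin, sum_ex (Tq (g1 y)) (fun i => (t i v : ℚ))]
      rfl
    rw [e1, hTq, e2]
    push_cast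
    exact Finset.sum_congr rfl (fun v' _ => by rw [mul_comm]; rfl)

end Pool.Agent.Work.MP_552024_lc.HM
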