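import Pool.Agent.Work.MP_552024_lc.HM.StmtsX

/-!
Theorem HM, item X7 (helper57): extension of integral PL isomorphisms to the real closures.
-/

set_option autoImplicit false

namespace Pool.Agent.Work.MP_552024_lc.HM

open Metric Set Topology Pool.Agent.Work.MP_552024_lc.PLS Pool.Agent.MP552024

namespace IX7

variable {V W : Type} [Fintype V] [Fintype W]

theorem castE_smul (q : ℚ) (x : V → ℚ) : castE (q • x) = (q : ℝ) • castE x := by
  unfold castE
  ext i
  simp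

/-- closed polyhedral sets are cones -/
theorem smulQ {S : Set (V → ℚ)} (h : Pol S) {x : V → ℚ} (hx : x ∈ S) {q : ℚ} (hq : 0 ≤ q) :
    q • x ∈ S := by
  rcases hq.eq_or_lt with h0 | h0
  · rw [← h0, zero_smul]; exact h.1
  · obtain ⟨A, -, hA⟩ := h.2
    refine hA x hx ?_
    intro a _
    right
    rw [map_smul, smul_eq_mul]
    rcases lt_trichotomy (a x) 0 with h1 | h1 | h1
    · rw [sign_neg h1, sign_neg (mul_neg_of_pos_of_neg h0 h1)]
    · rw [h1, mul_zero]
    · rw [sign_pos h1, sign_pos (mul_pos h0 h1)]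

/-- their real closures are real cones -/
theorem smulR {S : Set (V → ℚ)} (h : Pol S) {z : EuclideanSpace ℝ V} (hz : z ∈ rl S) {r : ℝ}
    (hr : 0 ≤ r) : r • z ∈ rl S := by
  have hq : ∀ (q : ℚ), |(q : ℝ)| • z ∈ rl S := by
    intro q
    refine map_mem_closure (continuous_const_smul (|(q : ℝ)|)) hz ?_
    rintro _ ⟨x, hx, rfl⟩
    refine ⟨|q| • x, smulQ h hx (abs_nonneg q), ?_⟩
    rw [castE_smul]
    push_cast
    rfl
  have hcl : IsClosed {s : ℝ | |s| • z ∈ rl S} :=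
    isClosed_closure.preimage (continuous_abs.smul continuous_const)
  have h1 : |r| • z ∈ rl S :=
    (Rat.denseRange_cast (𝕜 := ℝ)).induction_on (p := fun s : ℝ => |s| • z ∈ rl S) r hcl
      (fun q => hq q)
  rwa [abs_of_nonneg hr] at h1

/-- the real map with coordinates `b` -/
noncomputable def mp (b : W → (V → ℝ) → ℝ) (z : EuclideanSpace ℝ V) : EuclideanSpace ℝ W :=
  WithLp.toLp 2 (fun w => b w (fun v => z v))

theorem mp_cont {b : W → (V → ℝ) → ℝ} (hb : ∀ w, b w ∈ LP V) : Continuous (mp b) := by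
  refine (PiLp.continuous_toLp 2 _).comp (continuous_pi (fun w => (LP_cont (hb w)).comp ?_))
  exact PiLp.continuous_ofLp 2 _

theorem mp_hom {b : W → (V → ℝ) → ℝ} (hb : ∀ w, b w ∈ LP V) (r : ℝ) (hr : 0 ≤ r)
    (z : EuclideanSpace ℝ V) : mp b (r • z) = r • mp b z := by
  ext w
  exact LP_hom (hb w) r hr (fun v => z v)

theorem mp_cast {S : Set (V → ℚ)} {f : (V → ℚ) → (W → ℚ)} {b : W → (V → ℝ) → ℝ}
    (h : ∀ x ∈ S, ∀ w, b w (castR x) = (f x w : ℝ)) {x : V → ℚ} (hx : x ∈ S) :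
    mp b (castE x) = castE (f x) := by
  ext w
  exact h x hx w

theorem mp_maps {S D : Set (V → ℚ)} {D' : Set (W → ℚ)} {f : (V → ℚ) → (W → ℚ)}
    {b : W → (V → ℝ) → ℝ} (hb : ∀ w, b w ∈ LP V)
    (h : ∀ x ∈ S, ∀ w, b w (castR x) = (f x w : ℝ)) (hDS : D ⊆ S) (hf : ∀ x ∈ D, f x ∈ D')
    {z : EuclideanSpace ℝ V} (hz : z ∈ rl D) : mp b z ∈ rl D' := by
  refine map_mem_closure (mp_cont hb) hz ?_
  rintro _ ⟨x, hx, rfl⟩
  exact ⟨f x, hf x hx, (mp_cast h (hDS hx)).symm⟩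

theorem mp_inv {S : Set (V → ℚ)} {S' : Set (W → ℚ)} {f : (V → ℚ) → (W → ℚ)}
    {g : (W → ℚ) → (V → ℚ)} {b : W → (V → ℝ) → ℝ} {b' : V → (W → ℝ) → ℝ}
    (hb : ∀ w, b w ∈ LP V) (hb' : ∀ v, b' v ∈ LP W)
    (h : ∀ x ∈ S, ∀ w, b w (castR x) = (f x w : ℝ))
    (h' : ∀ y ∈ S', ∀ v, b' v (castR y) = (g y v : ℝ)) (hf : ∀ x ∈ S, f x ∈ S')
    (hgf : ∀ x ∈ S, g (f x) = x) {z : EuclideanSpace ℝ V} (hz : z ∈ rl S) :
    mp b' (mp b z) = z := by
  have hcl : IsClosed {z : EuclideanSpace ℝ V | mp b' (mp b z) = z} :=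
    isClosed_eq ((mp_cont hb').comp (mp_cont hb)) continuous_id
  have hsub : castE '' S ⊆ {z : EuclideanSpace ℝ V | mp b' (mp b z) = z} := by
    rintro _ ⟨x, hx, rfl⟩
    show mp b' (mp b (castE x)) = castE x
    rw [mp_cast h hx, mp_cast h' (hf x hx), hgf x hx]
  exact closure_minimal hsub hcl hz

end IX7

open IX7 in
theorem pr_X7 : S_X7 := by
  intro V W _ _ S S' hS hS' f g b b' hfg hb hb' h h'
  refine ⟨?_, ?_⟩
  · show HInv (mp b) (mp b') (rl S) (rl S')
    constructor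
    · exact (mp_cont hb).continuousOn
    · exact (mp_cont hb').continuousOn
    · intro z hz
      exact mp_maps hb h subset_rfl hfg.mapsf hz
    · intro z hz
      exact mp_maps hb' h' subset_rfl hfg.mapsg hz
    · intro z hz
      exact mp_inv hb hb' h h' hfg.mapsf hfg.gf hz
    · intro z hz
      exact mp_inv hb' hb h' h hfg.mapsg hfg.fg hz
    · intro z hz r hr
      exact ⟨smulR hS hz hr, mp_hom hb r hr z⟩
    · intro z hz r hr
      exact ⟨smulR hS' hz hr, mp_hom hb' r hr z⟩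
  · intro D D' hD hD' hDD z hz
    show z ∈ rl D ↔ mp b z ∈ rl D'
    constructor
    · intro hzD
      exact mp_maps hb h hD (fun x hx => (hDD x (hD hx)).1 hx) hzD
    · intro hzD
      have h1 : mp b' (mp b z) ∈ rl D := by
        refine mp_maps hb' h' hD' (fun y hy => ?_) hzD
        have h2 := hfg.mapsg y (hD' hy)
        rw [hDD _ h2, hfg.fg y (hD' hy)]
        exact hy
      rwa [mp_inv hb hb' h h' hfg.mapsf hfg.gf hz] at h1

end Pool.Agent.Work.MP_552024_lc.HM
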