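import Pool.Agent.Work.MP_552024_lc.HM.StmtsX
import Pool.Agent.Work.MP_552024_lc.HM.I_H1
import Pool.Agent.Work.MP_552024_lc.HM.I_H2
import Pool.Agent.Work.MP_552024_lc.HM.I_H3

/-!
Item X8: extension of a homogeneous homeomorphism from the lower part of a cell system.
-/

set_option autoImplicit false

namespace Pool.Agent.Work.MP_552024_lc.HM

open Metric Set Topology Pool.Agent.Work.MP_552024_lc.PLS Pool.Agent.MP552024

namespace IX8

section

variable {F : Type} [NormedAddCommGroup F] [NormedSpace ℝ F]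

theorem mono {ι : Type} [PartialOrder ι] {c : ι → Set F}
    (hint : ∀ i j, c i ∩ c j = ⋃ k ∈ {k | k ≤ i ∧ k ≤ j}, c k) {i j : ι}
    (hij : i ≤ j) : c i ⊆ c j := by
  intro x hx
  have h1 : x ∈ ⋃ k ∈ {k | k ≤ j ∧ k ≤ j}, c k := Set.mem_biUnion (x := i) ⟨hij, hij⟩ hx
  rw [← hint j j] at h1
  exact h1.1

theorem bd {ι : Type} [PartialOrder ι] {c : ι → Set F}
    (hint : ∀ i j, c i ∩ c j = ⋃ k ∈ {k | k ≤ i ∧ k ≤ j}, c k) (s' : Set ι) (m : ι)
    (hmax : ∀ j ∈ s', ¬ m ≤ j) (x : F) (hx : x ∈ (⋃ i ∈ s', c i)) :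
    (x ∈ c m ↔ x ∈ ⋃ k ∈ {k | k < m}, c k) := by
  constructor
  · intro hxm
    obtain ⟨i, hi, hxi⟩ := Set.mem_iUnion₂.1 hx
    have h1 : x ∈ c m ∩ c i := ⟨hxm, hxi⟩
    rw [hint m i] at h1
    obtain ⟨k, hk, hxk⟩ := Set.mem_iUnion₂.1 h1
    refine Set.mem_biUnion (x := k) ?_ hxk
    refine lt_of_le_of_ne hk.1 ?_
    rintro rfl
    exact hmax i hi hk.2
  · intro hx'
    obtain ⟨k, hk, hxk⟩ := Set.mem_iUnion₂.1 hx'
    exact mono hint (le_of_lt hk) hxk

theorem un {ι : Type} [DecidableEq ι] (c : ι → Set F) (s : Finset ι) (m : ι) (hms : m ∈ s) :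
    (⋃ i ∈ s, c i) = (⋃ i ∈ s.erase m, c i) ∪ c m := by
  ext x
  simp only [Set.mem_iUnion, Set.mem_union, exists_prop]
  constructor
  · rintro ⟨i, hi, hx⟩
    by_cases him : i = m
    · exact Or.inr (him ▸ hx)
    · exact Or.inl ⟨i, Finset.mem_erase.2 ⟨him, hi⟩, hx⟩
  · rintro (⟨i, hi, hx⟩ | hx)
    · exact ⟨i, (Finset.mem_erase.1 hi).2, hx⟩
    · exact ⟨m, hms, hx⟩

theorem coe_un {ι : Type} (c : ι → Set F) (s : Finset ι) (L : Set ι) (h : (s : Set ι) = L) :
    (⋃ i ∈ s, c i) = ⋃ i ∈ L, c i := by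
  subst h
  rfl

end

end IX8

open IX8 in
theorem pr_X8 : S_X8 := by
  intro F F' _ _ _ _ ι _ _ c c' L hL hclo hclo' hhom hhom' hint hint' hcell f g hfg hiff
  classical
  have : Fintype ι := Fintype.ofFinite ι
  have key : ∀ n, ∀ s : Finset ι, s.card = n → IsLowerSet (s : Set ι) → (∀ i ∈ L, i ∈ s) →
      ∃ (f₁ : F → F') (g₁ : F' → F), HInv f₁ g₁ (⋃ i ∈ s, c i) (⋃ i ∈ s, c' i) ∧
        (∀ i ∈ s, ∀ x ∈ ⋃ i ∈ s, c i, (x ∈ c i ↔ f₁ x ∈ c' i)) ∧
        (∀ x ∈ ⋃ i ∈ L, c i, f₁ x = f x) ∧ ∀ y ∈ ⋃ i ∈ L, c' i, g₁ y = g y := by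
    intro n
    induction n with
    | zero =>
      intro s hs _ hLs
      rw [Finset.card_eq_zero] at hs
      subst hs
      have hone : ((∅ : Finset ι) : Set ι) = L := by
        ext i
        constructor
        · intro hi
          exact absurd hi (Finset.notMem_empty _)
        · intro hi
          exact hLs i hi
      rw [coe_un c _ L hone, coe_un c' _ L hone]
      exact ⟨f, g, hfg, fun i hi => absurd hi (Finset.notMem_empty _), fun _ _ => rfl,
        fun _ _ => rfl⟩
    | succ n ih =>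
      intro s hs hlow hLs
      by_cases hone : (s : Set ι) = L
      · rw [coe_un c _ L hone, coe_un c' _ L hone]
        refine ⟨f, g, hfg, fun i hi => ?_, fun _ _ => rfl, fun _ _ => rfl⟩
        exact hiff i (hone ▸ (Finset.mem_coe.2 hi))
      · -- a maximal element of s outside L
        obtain ⟨j0, hj0s, hj0L⟩ : ∃ j, j ∈ s ∧ j ∉ L := by
          by_contra hcon
          push Not at hcon
          apply hone
          ext i
          exact ⟨fun hi => hcon i (Finset.mem_coe.1 hi), fun hi => Finset.mem_coe.2 (hLs i hi)⟩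
        obtain ⟨m, hm⟩ : ∃ m, Maximal (fun x => x ∈ s.filter (fun j => j ∉ L)) m :=
          (s.filter (fun j => j ∉ L)).exists_maximal ⟨j0, Finset.mem_filter.2 ⟨hj0s, hj0L⟩⟩
        have hms : m ∈ s := (Finset.mem_filter.1 hm.1).1
        have hmL : m ∉ L := (Finset.mem_filter.1 hm.1).2
        have hmax : ∀ j ∈ s, m ≤ j → j = m := by
          intro j hj hmj
          have hjL : j ∉ L := fun h => hmL (hL hmj h)
          exact le_antisymm (hm.2 (Finset.mem_filter.2 ⟨hj, hjL⟩) hmj) hmj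
        set s' := s.erase m with hs'
        have hs'c : s'.card = n := by rw [hs', Finset.card_erase_of_mem hms, hs]; rfl
        have hs'low : IsLowerSet (s' : Set ι) := by
          intro a b hba ha
          rw [Finset.mem_coe, hs', Finset.mem_erase] at ha ⊢
          refine ⟨?_, hlow hba ha.2⟩
          rintro rfl
          exact ha.1 (hmax a ha.2 hba)
        have hLs' : ∀ i ∈ L, i ∈ s' := fun i hi =>
          Finset.mem_erase.2 ⟨fun h => hmL (h ▸ hi), hLs i hi⟩
        obtain ⟨f₀, g₀, hfg₀, hiff₀, hf₀, hg₀⟩ := ih s' hs'c hs'low hLs'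
        have hlt : ∀ k, k < m → k ∈ s' := fun k hk =>
          Finset.mem_erase.2 ⟨hk.ne, hlow hk.le hms⟩
        have hmax' : ∀ j ∈ (s' : Set ι), ¬ m ≤ j := by
          intro j hj hmj
          have h2 := Finset.mem_erase.1 (Finset.mem_coe.1 hj)
          exact h2.1 (hmax j h2.2 hmj)
        have hbd : ∀ x, x ∈ (⋃ i ∈ s', c i) → (x ∈ c m ↔ x ∈ ⋃ k ∈ {k | k < m}, c k) :=
          fun x hx => bd hint (s' : Set ι) m hmax' x hx
        have hbd' : ∀ x, x ∈ (⋃ i ∈ s', c' i) → (x ∈ c' m ↔ x ∈ ⋃ k ∈ {k | k < m}, c' k) :=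
          fun x hx => bd hint' (s' : Set ι) m hmax' x hx
        have hsub : (⋃ k ∈ {k | k < m}, c k) ⊆ ⋃ i ∈ s', c i := by
          intro x hx
          obtain ⟨k, hk, hxk⟩ := Set.mem_iUnion₂.1 hx
          exact Set.mem_biUnion (hlt k hk) hxk
        have hsub' : (⋃ k ∈ {k | k < m}, c' k) ⊆ ⋃ i ∈ s', c' i := by
          intro x hx
          obtain ⟨k, hk, hxk⟩ := Set.mem_iUnion₂.1 hx
          exact Set.mem_biUnion (hlt k hk) hxk
        have hr : HInv f₀ g₀ (⋃ k ∈ {k | k < m}, c k) (⋃ k ∈ {k | k < m}, c' k) := by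
          refine (pr_H1 F F' F).2.2.1 f₀ g₀ _ _ _ _ hfg₀ hsub hsub' ?_ ?_
          · intro x hx
            constructor
            · intro hx'
              obtain ⟨k, hk, hxk⟩ := Set.mem_iUnion₂.1 hx'
              exact Set.mem_biUnion (x := k) hk ((hiff₀ k (hlt k hk) x hx).1 hxk)
            · intro hx'
              obtain ⟨k, hk, hxk⟩ := Set.mem_iUnion₂.1 hx'
              exact Set.mem_biUnion (x := k) hk ((hiff₀ k (hlt k hk) x hx).2 hxk)
          · intro x hx r hr
            obtain ⟨k, hk, hxk⟩ := Set.mem_iUnion₂.1 hx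
            exact Set.mem_biUnion (x := k) hk (hhom k x hxk r hr)
        obtain ⟨dm, hb, hb'⟩ := hcell m hmL
        obtain ⟨Φ, Ψ, hΦ, hΦ1, hΨ1, hΦ2⟩ := (pr_H3 F F' dm _ _ hb).2.2 f₀ g₀ _ _ hb' hr
        obtain ⟨G₁, G₂, hFG, hF1, hF2, hG1, hG2⟩ := pr_H2 F F' f₀ Φ g₀ Ψ _ _ _ _ hfg₀ hΦ
          (s'.finite_toSet.isClosed_biUnion fun i _ => hclo i) (hclo m)
          (s'.finite_toSet.isClosed_biUnion fun i _ => hclo' i) (hclo' m)
          (fun x hx hxm => (hΦ1 x ((hbd x hx).1 hxm)).symm)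
          (fun y hy hym => (hΨ1 y ((hbd' y hy).1 hym)).symm)
        have hF1' : ∀ x ∈ (⋃ i ∈ s', c i), G₁ x = f₀ x := fun x hx => hF1 x hx
        have hG1' : ∀ y ∈ (⋃ i ∈ s', c' i), G₂ y = g₀ y := fun y hy => hG1 y hy
        refine ⟨G₁, G₂, by rw [un c s m hms, un c' s m hms]; exact hFG, ?_, ?_, ?_⟩
        · -- the equivalences
          have hmain : ∀ i ∈ s, ∀ x ∈ (⋃ i ∈ s', c i), (x ∈ c i ↔ G₁ x ∈ c' i) := by
            intro i hi x hx
            rw [hF1' x hx]
            by_cases him : i = m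
            · rw [him, hbd x hx, hbd' (f₀ x) (hfg₀.mapsf x hx)]
              constructor
              · intro hx'
                exact hr.mapsf x hx'
              · intro hx'
                obtain ⟨k, hk, hxk⟩ := Set.mem_iUnion₂.1 hx'
                exact Set.mem_biUnion (x := k) hk ((hiff₀ k (hlt k hk) x hx).2 hxk)
            · exact hiff₀ i (Finset.mem_erase.2 ⟨him, hi⟩) x hx
          intro i hi x hx
          rw [un c s m hms] at hx
          by_cases hx' : x ∈ ⋃ i ∈ s', c i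
          · exact hmain i hi x hx'
          · have hxm : x ∈ c m := hx.resolve_left hx'
            by_cases him : i = m
            · rw [him]
              exact ⟨fun _ => by rw [hF2 x hxm]; exact hΦ.mapsf x hxm, fun _ => hxm⟩
            · have his' : i ∈ s' := Finset.mem_erase.2 ⟨him, hi⟩
              constructor
              · intro hxi
                exact absurd (Set.mem_biUnion (x := i) his' hxi) hx'
              · intro hFx
                exfalso
                rw [hF2 x hxm] at hFx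
                have h1 : Φ x ∈ ⋃ i ∈ s', c' i := Set.mem_biUnion (x := i) his' hFx
                have h2 := (hbd' _ h1).1 (hΦ.mapsf x hxm)
                exact hx' (hsub ((hΦ2 x hxm).2 h2))
        · intro x hx
          obtain ⟨k, hk, hxk⟩ := Set.mem_iUnion₂.1 hx
          rw [hF1' x (Set.mem_biUnion (x := k) (hLs' k hk) hxk), hf₀ x hx]
        · intro y hy
          obtain ⟨k, hk, hyk⟩ := Set.mem_iUnion₂.1 hy
          rw [hG1' y (Set.mem_biUnion (x := k) (hLs' k hk) hyk), hg₀ y hy]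
  obtain ⟨f₁, g₁, h1, h2, h3, h4⟩ := key _ Finset.univ rfl (by
    rw [Finset.coe_univ]; exact isLowerSet_univ) (fun i _ => Finset.mem_univ _)
  refine ⟨f₁, g₁, ?_, ?_, h3, h4⟩
  · simpa using h1
  · intro i x hx
    exact h2 i (Finset.mem_univ _) x (by simpa using hx)

end Pool.Agent.Work.MP_552024_lc.HM
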