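import Pool.Agent.Work.MP_552024_lc.HM.StmtsX
import Pool.Agent.Work.MP_552024_lc.HM.I_Q1

/-! MP_552024_lc, block HM, item X9: the real closure of the rational zero set. -/

set_option autoImplicit false

namespace Pool.Agent.Work.MP_552024_lc.HM

open Metric Set Topology Pool.Agent.Work.MP_552024_lc.PLS Pool.Agent.MP552024

namespace IX9

variable {V : Type} [Fintype V]

open Classical in
theorem exR_apply (a : (V → ℚ) →ₗ[ℚ] ℚ) (z : EuclideanSpace ℝ V) :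
    exR a z = ∑ i, (a (Pi.single i 1) : ℝ) * z i := rfl

theorem exR_proj (i : V) (z : EuclideanSpace ℝ V) :
    exR (LinearMap.proj i : (V → ℚ) →ₗ[ℚ] ℚ) z = z i := by
  classical
  rw [exR_apply, Finset.sum_eq_single i]
  · simp
  · intro j _ hj
    rw [LinearMap.proj_apply, Pi.single_eq_of_ne hj.symm]
    simp
  · intro h
    exact absurd (Finset.mem_univ i) h

theorem exR_zero (z : EuclideanSpace ℝ V) : exR (0 : (V → ℚ) →ₗ[ℚ] ℚ) z = 0 := by
  classical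
  rw [exR_apply]
  simp

theorem exR_add (a b : (V → ℚ) →ₗ[ℚ] ℚ) (z : EuclideanSpace ℝ V) :
    exR (a + b) z = exR a z + exR b z := by
  classical
  rw [exR_apply, exR_apply, exR_apply, ← Finset.sum_add_distrib]
  refine Finset.sum_congr rfl fun i _ => ?_
  rw [LinearMap.add_apply]
  push_cast
  ring

theorem exR_neg (a : (V → ℚ) →ₗ[ℚ] ℚ) (z : EuclideanSpace ℝ V) : exR (-a) z = -exR a z := by
  classical
  rw [exR_apply, exR_apply, ← Finset.sum_neg_distrib]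
  refine Finset.sum_congr rfl fun i _ => ?_
  rw [LinearMap.neg_apply]
  push_cast
  ring

theorem exR_sub (a b : (V → ℚ) →ₗ[ℚ] ℚ) (z : EuclideanSpace ℝ V) :
    exR (a - b) z = exR a z - exR b z := by
  rw [sub_eq_add_neg, exR_add, exR_neg, sub_eq_add_neg]

/-- `b` is given by finitely many forms, chosen by the signs of finitely many forms -/
def Dec (b : (V → ℝ) → ℝ) : Prop :=
  ∃ A Λ : Set ((V → ℚ) →ₗ[ℚ] ℚ), A.Finite ∧ Λ.Finite ∧ ∀ (z : EuclideanSpace ℝ V) (y : V → ℚ),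
    (∀ a ∈ A, SignType.sign (a y) = SignType.sign (exR a z)) →
    ∃ L ∈ Λ, b (fun v => z v) = exR L z ∧ b (castR y) = (L y : ℝ)

theorem sign_cases {L L' : (V → ℚ) →ₗ[ℚ] ℚ} {z : EuclideanSpace ℝ V} {y : V → ℚ}
    (h : SignType.sign ((L - L') y) = SignType.sign (exR (L - L') z)) :
    (exR L' z ≤ exR L z ∧ (L' y : ℝ) ≤ (L y : ℝ)) ∨ (exR L z ≤ exR L' z ∧ (L y : ℝ) ≤ (L' y : ℝ)) := by
  rw [exR_sub, LinearMap.sub_apply] at h
  rcases le_total 0 (L y - L' y) with h1 | h1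
  · have h2 : 0 ≤ exR L z - exR L' z := by
      rw [← sign_nonneg_iff, ← h, sign_nonneg_iff]
      exact h1
    exact Or.inl ⟨by linarith, by exact_mod_cast sub_nonneg.1 h1⟩
  · have h2 : exR L z - exR L' z ≤ 0 := by
      rw [← sign_nonpos_iff, ← h, sign_nonpos_iff]
      exact h1
    exact Or.inr ⟨by linarith, by exact_mod_cast sub_nonpos.1 h1⟩

theorem dec_LP {b : (V → ℝ) → ℝ} (hb : b ∈ LP V) : Dec b := by
  refine LP_ind (P := Dec) hb ?_ ?_ ?_ ?_ ?_ ?_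
  · intro i
    refine ⟨∅, {LinearMap.proj i}, finite_empty, finite_singleton _, fun z y _ =>
      ⟨_, rfl, (exR_proj i z).symm, rfl⟩⟩
  · refine ⟨∅, {0}, finite_empty, finite_singleton _, fun z y _ =>
      ⟨_, rfl, (exR_zero z).symm, by simp⟩⟩
  · rintro a b ⟨A, Λ, hA, hΛ, h⟩ ⟨A', Λ', hA', hΛ', h'⟩
    refine ⟨A ∪ A', image2 (fun L L' => L + L') Λ Λ', hA.union hA', hΛ.image2 _ hΛ', fun z y hs => ?_⟩
    obtain ⟨L, hL, h1, h2⟩ := h z y (fun a ha => hs a (Or.inl ha))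
    obtain ⟨L', hL', h3, h4⟩ := h' z y (fun a ha => hs a (Or.inr ha))
    refine ⟨L + L', mem_image2_of_mem hL hL', ?_, ?_⟩
    · beta_reduce; rw [exR_add, h1, h3]
    · beta_reduce; rw [h2, h4, LinearMap.add_apply]; push_cast; rfl
  · rintro a ⟨A, Λ, hA, hΛ, h⟩
    refine ⟨A, (fun L => -L) '' Λ, hA, hΛ.image _, fun z y hs => ?_⟩
    obtain ⟨L, hL, h1, h2⟩ := h z y hs
    refine ⟨-L, mem_image_of_mem _ hL, ?_, ?_⟩
    · beta_reduce; rw [exR_neg, h1]
    · beta_reduce; rw [h2, LinearMap.neg_apply]; push_cast; rfl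
  · rintro a b ⟨A, Λ, hA, hΛ, h⟩ ⟨A', Λ', hA', hΛ', h'⟩
    refine ⟨(A ∪ A') ∪ image2 (fun L L' => L - L') Λ Λ', Λ ∪ Λ',
      (hA.union hA').union (hΛ.image2 _ hΛ'), hΛ.union hΛ', fun z y hs => ?_⟩
    obtain ⟨L, hL, h1, h2⟩ := h z y (fun a ha => hs a (Or.inl (Or.inl ha)))
    obtain ⟨L', hL', h3, h4⟩ := h' z y (fun a ha => hs a (Or.inl (Or.inr ha)))
    rcases sign_cases (hs _ (Or.inr (mem_image2_of_mem hL hL'))) with ⟨h5, h6⟩ | ⟨h5, h6⟩
    · refine ⟨L, Or.inl hL, ?_, ?_⟩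
      · beta_reduce; rw [h1, h3, max_eq_left h5]
      · beta_reduce; rw [h2, h4, max_eq_left h6]
    · refine ⟨L', Or.inr hL', ?_, ?_⟩
      · beta_reduce; rw [h1, h3, max_eq_right h5]
      · beta_reduce; rw [h2, h4, max_eq_right h6]
  · rintro a b ⟨A, Λ, hA, hΛ, h⟩ ⟨A', Λ', hA', hΛ', h'⟩
    refine ⟨(A ∪ A') ∪ image2 (fun L L' => L - L') Λ Λ', Λ ∪ Λ',
      (hA.union hA').union (hΛ.image2 _ hΛ'), hΛ.union hΛ', fun z y hs => ?_⟩
    obtain ⟨L, hL, h1, h2⟩ := h z y (fun a ha => hs a (Or.inl (Or.inl ha)))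
    obtain ⟨L', hL', h3, h4⟩ := h' z y (fun a ha => hs a (Or.inl (Or.inr ha)))
    rcases sign_cases (hs _ (Or.inr (mem_image2_of_mem hL hL'))) with ⟨h5, h6⟩ | ⟨h5, h6⟩
    · refine ⟨L', Or.inr hL', ?_, ?_⟩
      · beta_reduce; rw [h1, h3, min_eq_right h5]
      · beta_reduce; rw [h2, h4, min_eq_right h6]
    · refine ⟨L, Or.inl hL, ?_, ?_⟩
      · beta_reduce; rw [h1, h3, min_eq_left h5]
      · beta_reduce; rw [h2, h4, min_eq_left h6]

end IX9

open IX9 in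
theorem pr_X9 : S_X9 := by
  intro G _ _ M g z
  obtain ⟨b, hb, hgb⟩ := M.chart.mem g
  have hcont : Continuous (fun z : EuclideanSpace ℝ M.V => (fun v => z v : M.V → ℝ)) :=
    continuous_pi fun v => (continuous_apply v).comp (PiLp.continuous_ofLp 2 _)
  constructor
  · intro hz
    have hC : IsClosed {w : EuclideanSpace ℝ M.V | (fun v => w v) ∈ M.Δ.Z ∧ b (fun v => w v) = 0} :=
      ((isClosed_Z M.Δ).preimage hcont).inter
        (isClosed_eq ((LP_cont hb).comp hcont) continuous_const)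
    have hsub : castE '' Zset M g ⊆
        {w : EuclideanSpace ℝ M.V | (fun v => w v) ∈ M.Δ.Z ∧ b (fun v => w v) = 0} := by
      rintro _ ⟨x, ⟨hx1, hx2⟩, rfl⟩
      refine ⟨hx1, ?_⟩
      have h : b (castR x) = 0 := by rw [← hgb _ hx1]; exact hx2
      exact h
    have h1 := closure_minimal hsub hC hz
    exact ⟨h1.1, by rw [hgb _ h1.1]; exact h1.2⟩
  · rintro ⟨hz1, hz2⟩
    rw [hgb _ hz1] at hz2
    obtain ⟨A, Λ, hA, hΛ, hD⟩ := dec_LP hb
    rw [rl, Metric.mem_closure_iff]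
    intro δ hδ
    obtain ⟨y, hy1, hy2⟩ := (pr_Q1 M.V).2 ((A ∪ Λ) ∪
      range (fun i => (LinearMap.proj i : (M.V → ℚ) →ₗ[ℚ] ℚ)))
      ((hA.union hΛ).union (finite_range _)) z δ hδ
    obtain ⟨L, hL, h1, h2⟩ := hD z y (fun a ha => hy2 a (Or.inl (Or.inl ha)))
    have hco : ∀ i, SignType.sign (y i) = SignType.sign (z i) := by
      intro i
      have := hy2 (LinearMap.proj i) (Or.inr ⟨i, rfl⟩)
      rwa [exR_proj] at this
    have hyQ : castR y ∈ M.Δ.Z := by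
      refine ⟨fun i => ?_, M.Δ.down _ _ (fun i hi => ?_) hz1.2⟩
      · have h3 : 0 ≤ y i := by
          rw [← sign_nonneg_iff, hco, sign_nonneg_iff]
          exact hz1.1 i
        have h4 : (0 : ℝ) ≤ (y i : ℝ) := by exact_mod_cast h3
        exact h4
      · intro h3
        apply hi
        have h4 : y i = 0 := by
          rw [← sign_eq_zero_iff, hco, sign_eq_zero_iff]
          exact h3
        show ((y i : ℚ) : ℝ) = 0
        rw [h4, Rat.cast_zero]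
    refine ⟨castE y, ⟨y, ⟨hyQ, ?_⟩, rfl⟩, ?_⟩
    · rw [hgb _ hyQ, h2]
      have h3 := hy2 L (Or.inl (Or.inr hL))
      rw [← h1, hz2, sign_zero, sign_eq_zero_iff] at h3
      rw [h3, Rat.cast_zero]
    · rw [dist_comm, dist_eq_norm]
      exact hy1

end Pool.Agent.Work.MP_552024_lc.HM
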