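import Pool.Agent.Work.MP_552024_lc.HM.MainR
import Pool.Agent.Work.MP_552024_lc.HM.Fin
import Pool.Agent.Work.MP_552024_lc.HM.I_Q1
import Pool.Agent.Work.MP_552024_lc.HM.I_Q2
import Pool.Agent.Work.MP_552024_lc.HM.I_Q3
import Pool.Agent.Work.MP_552024_lc.HM.I_Q4
import Pool.Agent.Work.MP_552024_lc.HM.I_Q5
import Pool.Agent.Work.MP_552024_lc.HM.I_Q6
import Pool.Agent.Work.MP_552024_lc.HM.I_Q7
import Pool.Agent.Work.MP_552024_lc.HM.I_Q8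
import Pool.Agent.Work.MP_552024_lc.HM.I_Q9
import Pool.Agent.Work.MP_552024_lc.HM.I_Q10
import Pool.Agent.Work.MP_552024_lc.HM.I_Q11
import Pool.Agent.Work.MP_552024_lc.HM.I_Q12
import Pool.Agent.Work.MP_552024_lc.HM.I_Q13

/-! Theorem HM: first-order equivalence gives homeomorphic zero cones. -/

set_option autoImplicit false

namespace Pool.Agent.Work.MP_552024_lc.HM

open Pool.Agent.MP552024

theorem homeo_of_theory (G H : Type)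
    [AddCommGroup G] [Lattice G] [IsOrderedAddMonoid G]
    [AddCommGroup H] [Lattice H] [IsOrderedAddMonoid H]
    (n : ℕ) (f : (Fin n → ℝ) → ℝ) (hf : f ∈ LP (Fin n)) (ψ : ((Fin n → ℝ) → ℝ) → G)
    (hP : Pres n f G ψ)
    (m : ℕ) (f' : (Fin m → ℝ) → ℝ) (hf' : f' ∈ LP (Fin m)) (ψ' : ((Fin m → ℝ) → ℝ) → H)
    (hP' : Pres m f' H ψ')
    (hT : @FirstOrder.Language.completeTheory L2 G (str G) =
      @FirstOrder.Language.completeTheory L2 H (str H)) :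
    ∃ e : {x : Fin n → ℝ // f x = 0} ≃ₜ {x : Fin m → ℝ // f' x = 0},
      ∀ r : ℝ, 0 ≤ r → ∀ x y : {x : Fin n → ℝ // f x = 0},
        (y : Fin n → ℝ) = r • (x : Fin n → ℝ) → (e y : Fin m → ℝ) = r • (e x : Fin m → ℝ) :=
  final_of pr_H1
    (pr_Q11
      (pr_Q9 (pr_Q4 c_R16 (pr_Q2 pr_Q1)) (pr_Q5 c_R9 c_R15 c_R16 (pr_Q2 pr_Q1) pr_Q3) pr_Q6 pr_Q7
        (pr_Q8 (pr_Q2 pr_Q1)))
      (pr_Q10 pr_H1 pr_H2 pr_H3 (pr_Q2 pr_Q1)))
    pr_Q12 pr_Q13 G H n f hf ψ hP m f' hf' ψ' hP' hT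

end Pool.Agent.Work.MP_552024_lc.HM
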