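import Pool.Agent.Work.MP_552024_lc.HM.Defs

/-!
Statements of the lemmas of theorem HM which need only Mathlib: topology (S_T..), homogeneous
homeomorphisms (S_H..), real polyhedral cones (S_R..).  Each docstring contains the proof.
-/

set_option autoImplicit false

namespace Pool.Agent.Work.MP_552024_lc.HM

open Metric Set Topology

/-! ### Topology: collars -/

/-- Half space charts give local collars.  Proof: let `psi` be the chart at `p` and `O` its open set,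
`p = psi (0,0) ∈ O`.  Choose `r > 0` with `closedBall p r ⊆ O` and put `U = ball p r`.  Each
`x ∈ S ∩ closure U` is in `O ∩ M`, so `x = psi z` with `z ∈ BoxO`, and `z.2 = 0` as `x ∈ S`.  Let
`c (x, t) = psi ((inverse of psi at x).1, t)`.  The inverse of `psi` on the compact set `psi '' BoxC`
is continuous (injective continuous map of a compact space).  Image of the open part:
`N = {z ∈ BoxO | psi (z.1, 0) ∈ U}` is relatively open in `BoxC`, so `psi '' (BoxC \ N)` is compact,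
and `psi '' N = (O \ psi '' (BoxC \ N)) ∩ M`. -/
def S_T1 : Prop := ∀ (X : Type) [MetricSpace X] (n : ℕ) (M S : Set X), S ⊆ M → LocCol n M S →
  LocCol' M S

/-- The step of Connelly's proof of the collar theorem.  Let `c`, `U` be a local collar and `lam`,
`mu` functions which agree on `S \ U`.  Put `C (x, t) = (c (x, t), 0)` for `t ∈ [0,1]` and
`C (x, t) = (x, t)` for `t ≤ 0`, for `x ∈ S ∩ closure U`; `C` is injective and continuous on
`{(x, t) : x ∈ S ∩ closure U, -lam x ≤ t ≤ 1}` (compact).  The homeomorphism is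
`C (x, t) ↦ C (x, 1 - (1 - t) (1 + mu x) / (1 + lam x))` on the image of `C` and the identity
elsewhere.  It is continuous on the image of `C` (closed) and on the complement of
`C '' {x ∈ S ∩ U, t < 1}` (closed in `Mp M S lam`, since `C '' {x ∈ S ∩ U, t < 1}` is the set of
`(y, s) ∈ Mp M S lam` with `y ∈ O`; note `O ∩ S = S ∩ U`), both formulas agree on the intersection.
The inverse is given by the same formula with `lam`, `mu` exchanged. -/
def S_T2 : Prop := ∀ (X : Type) [MetricSpace X] [CompactSpace X] (M S U : Set X) (c : X × ℝ → X)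
  (lam mu : X → ℝ), IsClosed M → IsClosed S → S ⊆ M → IsOpen U →
  ContinuousOn c ((S ∩ closure U) ×ˢ Icc 0 1) → InjOn c ((S ∩ closure U) ×ˢ Icc 0 1) →
  MapsTo c ((S ∩ closure U) ×ˢ Icc 0 1) M → (∀ x ∈ S ∩ closure U, c (x, 0) = x) →
  (∀ x ∈ S ∩ closure U, ∀ t ∈ Icc (0 : ℝ) 1, c (x, t) ∈ S → t = 0) →
  (∃ O, IsOpen O ∧ O ∩ M = c '' ((S ∩ U) ×ˢ Ico 0 1)) →
  Continuous lam → Continuous mu → (∀ x, 0 ≤ lam x ∧ lam x ≤ 1) → (∀ x, 0 ≤ mu x ∧ mu x ≤ 1) →
  (∀ x ∈ S, x ∉ U → lam x = mu x) →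
  ∃ e : ↥(Mp M S lam) ≃ₜ ↥(Mp M S mu), ∀ p : ↥(Mp M S lam), p.1.1 ∈ S → p.1.2 = -lam p.1.1 →
    (e p).1 = (p.1.1, -mu p.1.1)

/-- The collar theorem.  Proof: cover the compact set `S` by finitely many `U i` with local collars,
take a partition of unity `rho i` on `S` subordinate to `U i` (sum 1 on `S`, sum at most 1), put
`lam i` = sum of the first `i` functions and compose the homeomorphisms of `S_T2` from
`Mp M S 0` (which is `M × {0}`) to `Mp M S (lam m)`, where `lam m = 1` on `S`.  For the result `H`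
(a homeomorphism of `M` with `Mp M S (lam m)`, mapping `x ∈ S` to `(x, -1)`) put
`c (x, t) = inverse of H at (x, t - 1)`. -/
def S_T3 : Prop := S_T2 → ∀ (X : Type) [MetricSpace X] [CompactSpace X] (M S : Set X), IsClosed M →
  IsClosed S → S ⊆ M → LocCol' M S → Collar M S

/-- The cone map of a collared set.  Proof: `q (c (x, t)) = (1 - t) • s x` and `q = 0` on the closed
set `M \ c '' (S × [0,1))`, which contains the points `c (x, 1)`. -/
def S_T4 : Prop := ∀ (X : Type) [MetricSpace X] [CompactSpace X] (n : ℕ) (M S : Set X), IsClosed M →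
  IsClosed S → S ⊆ M → Collar M S → ∀ s : ↥S ≃ₜ ↥(sphere (0 : Eu (n + 1)) 1),
  ∃ q : X → Eu (n + 1), ConeMap n M S q ∧ ∀ x : ↥S, q x = s x

/-! ### Topology: cellular sets (Brown) -/

/-- Spheres are compactified Euclidean spaces, with any point at infinity (stereographic
projection from `p`, see `onePointEquivSphereOfFinrankEq` in Mathlib, and a linear isometry moving
its point at infinity to `p`; for instance the reflection exchanging two unit vectors). -/
def S_T5 : Prop := ∀ m : ℕ, PtHom m ↥(sphere (0 : Eu (m + 1)) 1)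

/-- Homogeneity: transport of `PtHom` along a homeomorphism, and `PtHom` implies `Squeeze`.
Proof: take `e` with `e ∞ = p`, `x = e x0`, `e ⁻¹ U ⊇ ball x0 r`, the complement of `e ⁻¹ P` lies in
`ball x0 R`; let `k` be the increasing piecewise linear homeomorphism of `[0, ∞)` with `k s = s` for
`s ≤ r/2`, slope `c > 0` beyond, `k R < r`; the radial map `x0 + v ↦ x0 + (k ‖v‖ / ‖v‖) • v` is a
homeomorphism of `Eu m` and extends to the compactification (`Homeomorph.onePointCongr`). -/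
def S_T6 : Prop := ∀ (m : ℕ) (Y : Type) [TopologicalSpace Y], PtHom m Y →
  (∀ (Z : Type) [TopologicalSpace Z], Nonempty (Y ≃ₜ Z) → PtHom m Z) ∧ Squeeze Y

/-- A closed set which is not everything lies in an open cell whose closed cell is not everything.
Proof: `p ∉ K`, `e ∞ = p`, the preimage of `K` is compact in `Eu m`, hence in `ball 0 R`;
`delta z = e (R • z)`. -/
def S_T7 : Prop := ∀ (m : ℕ) (Y : Type) [TopologicalSpace Y], PtHom m Y → ∀ K : Set Y, IsClosed K →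
  K ≠ univ → ∃ δ : Eu m → Y, ContinuousOn δ (closedBall 0 1) ∧ InjOn δ (closedBall 0 1) ∧
    IsOpen (δ '' ball 0 1) ∧ δ '' closedBall 0 1 ≠ univ ∧ K ⊆ δ '' ball 0 1

/-- Maps of a closed cell with exactly one nontrivial fibre.  Let `D = closedBall 0 1`.
Proof: `A` is nonempty as `a ∈ g '' D`.  `U0 = g '' D ∩ (complement of g '' (D \ (V ∩ ball 0 1)))` is a
neighbourhood of `a`.  Take `p ∉ g '' D`, `P` = complement of `g '' D`, `h` from `Squeeze`: `h = id`
near `a` and `h` maps `g '' D` into `U0`.  Put `σ z = z` for `z ∈ A` and otherwise `σ z` = the unique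
`z' ∈ D` with `g z' = h (g z)`.  So `g (σ z) = h (g z)` on `D`, `σ z ∈ V ∩ ball 0 1`, `σ` is injective,
`σ = id` near each point of `A` (as `h = id` near `a`), and continuous elsewhere because `D` is compact
and the point `z'` is unique.  `σ '' ball 0 1 = {w ∈ D | g w ∈ h '' (g '' ball 0 1)}` is contained in
the open ball and relatively open, so open. -/
def S_T8 : Prop := ∀ (n : ℕ) (Y : Type) [TopologicalSpace Y] [T2Space Y], Squeeze Y →
  ∀ (g : Eu n → Y) (A : Set (Eu n)) (a : Y), ContinuousOn g (closedBall 0 1) → IsClosed A →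
  A ⊆ ball 0 1 → (∀ z ∈ closedBall (0 : Eu n) 1, g z = a ↔ z ∈ A) →
  (∀ z ∈ closedBall (0 : Eu n) 1, ∀ z' ∈ closedBall (0 : Eu n) 1, g z = g z' → z = z' ∨ g z = a) →
  g '' closedBall 0 1 ∈ 𝓝 a → IsOpen (g '' ball 0 1) → g '' closedBall 0 1 ≠ univ →
  ∀ V, IsOpen V → A ⊆ V → CellIn n A (V ∩ ball 0 1)

/-- Maps with exactly two nontrivial fibres `A = f⁻¹ a`, `B = f⁻¹ b`: then `A` is cellular.
Proof: `C0 = δ '' closedBall 0 1` is compact, take `p0 ∉ C0`, `p = f p0`; `P` = complement of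
`f '' C0` is a neighbourhood of `p`, `p ≠ a, b`.  Take `h` from `Squeeze Y` (`x := b`, `U` := complement
of `{a}`): `h = id` near `b`, `h` maps `f '' C0` into the complement of `a`.  Define
`σ : closedBall → X`, `σ z = δ z` if `f (δ z) = b` and otherwise `σ z` = the unique `x` with
`f x = h (f (δ z))`.  It is continuous and its only nontrivial fibre is over `q0`, the point with
`f q0 = h a`, the fibre is `δ⁻¹ A`.  Moreover `σ '' closedBall = f⁻¹ (h '' (f '' C0))` is a neighbourhood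
of `q0` (`f '' C0` contains the complement of the compact set `f '' (X \ δ '' ball)`, which contains
`a`), `σ '' ball = f⁻¹ (h '' (f '' (δ '' ball)))` is open (`f '' (δ '' ball)` is the complement of
`f '' (X \ δ '' ball)`), and `σ '' closedBall` misses `A ≠ ∅`.  Apply `S_T8` with target `X`, `g = σ`,
fibre `δ⁻¹ A`; the cells in `Eu n` around `δ⁻¹ A` inside `{z ∈ ball | δ z ∈ V}` are mapped by `δ` to
cells in `X`. -/
def S_T9 : Prop := S_T8 → ∀ (n : ℕ) (X Y : Type) [TopologicalSpace X] [CompactSpace X] [T2Space X]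
  [TopologicalSpace Y] [T2Space Y], Squeeze X → Squeeze Y → ∀ (f : X → Y) (a b : Y),
  Continuous f → Function.Surjective f → a ≠ b →
  (∀ x x', f x = f x' → x = x' ∨ f x = a ∨ f x = b) →
  ∀ δ : Eu n → X, ContinuousOn δ (closedBall 0 1) → InjOn δ (closedBall 0 1) →
  IsOpen (δ '' ball 0 1) → δ '' closedBall 0 1 ≠ univ → f ⁻¹' {a} ⊆ δ '' ball 0 1 →
  f ⁻¹' {b} ⊆ δ '' ball 0 1 → Cellular n (f ⁻¹' {a})

/-- Radial squeezing inside the unit ball (piecewise linear in the norm). -/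
def S_T10 : Prop := ∀ (n : ℕ) (K : Set (Eu n)), IsCompact K → K ⊆ ball 0 1 → ∀ r : ℝ, 0 < r →
  ∃ ρ : Eu n ≃ₜ Eu n, (∀ z, 1 ≤ ‖z‖ → ρ z = z) ∧ ∀ z ∈ K, ‖ρ z‖ < r

/-- Extension by the identity of a homeomorphism of a cell: `h = σ ρ σ⁻¹` on the closed set
`σ '' closedBall`, `h = id` on the closed set complement of `σ '' ball`. -/
def S_T11 : Prop := ∀ (n : ℕ) (X : Type) [TopologicalSpace X] [T2Space X] (σ : Eu n → X),
  ContinuousOn σ (closedBall 0 1) → InjOn σ (closedBall 0 1) → IsOpen (σ '' ball 0 1) →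
  ∀ ρ : Eu n ≃ₜ Eu n, (∀ z, 1 ≤ ‖z‖ → ρ z = z) →
  ∃ h : X ≃ₜ X, (∀ z ∈ closedBall (0 : Eu n) 1, h (σ z) = σ (ρ z)) ∧ ∀ x, x ∉ σ '' ball 0 1 → h x = x

/-- Cellular sets can be made small.  Proof: take `σ` from `CellIn` for `V`, `K = σ⁻¹ A ∩ closedBall`
(compact in the open ball), `r` with `σ '' (ball 0 r)` of diameter less than `ε`, `ρ` from `S_T10`, `h`
from `S_T11`, `W = σ '' {z ∈ ball 0 1 | ‖ρ z‖ < r}` (open). -/
def S_T12 : Prop := S_T10 → S_T11 → ∀ (n : ℕ) (X : Type) [MetricSpace X] [CompactSpace X]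
  (A : Set X), IsClosed A → Cellular n A → ∀ V, IsOpen V → A ⊆ V → ∀ ε : ℝ, 0 < ε →
  ∃ h : X ≃ₜ X, (∀ x, x ∉ V → h x = x) ∧ ∃ W, IsOpen W ∧ A ⊆ W ∧ ∀ x ∈ W, ∀ y ∈ W,
    dist (h x) (h y) < ε

/-- Shrinking a cellular set to a point.  Proof: construct homeomorphisms `Φ i` and open sets `V i`
with `Φ 0 = id`, `V 0 = V`: `Φ i '' A` is cellular (transport by a homeomorphism), choose an open
`V (i+1)` around `Φ i '' A` whose closure lies in `V i` and in `Φ i '' (1/(i+1)-neighbourhood of A)`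
and, for `i ≥ 1`, of diameter at most `2^(1-i)`; let `φ` be the homeomorphism of `S_T12` for the set
`Φ i '' A`, the neighbourhood `V (i+1)` and `ε = 2^(-i-1)`; put `Φ (i+1) = φ ∘ Φ i`.  Then `dist (Φ (i+1) x) (Φ i x)`
is at most the diameter of `V (i+1)`, so `Φ i` converges uniformly to a continuous `Φ`; `Φ` is surjective
(compactness), maps `A` to one point, agrees with `Φ i` at points outside the `1/(i+1)`-neighbourhood of
`A`, so it is injective outside `A`, and such points are not mapped to the point of `A` (which lies in the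
closure of each `V i`). -/
def S_T13 : Prop := S_T12 → S_T10 → S_T11 → ∀ (n : ℕ) (X : Type) [MetricSpace X] [CompactSpace X]
  (A : Set X), IsClosed A → A.Nonempty → Cellular n A → ∀ V, IsOpen V → A ⊆ V →
  ∃ Φ : X → X, Continuous Φ ∧ Function.Surjective Φ ∧
    (∀ x x', Φ x = Φ x' ↔ x = x' ∨ (x ∈ A ∧ x' ∈ A)) ∧ ∀ x, x ∉ V → Φ x = x

/-- The map to the sphere with two nontrivial fibres.  Proof: on `M` the normalisation of
`(q z, 1 - ‖q z‖)`, on `M'` the normalisation of `(q' z, ‖q' z‖ - 1)`, in `Eu (n+1) × ℝ` identified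
linearly with `Eu (n+2)` (any linear homeomorphism; radial normalisation); they agree on `M ∩ M'`. -/
def S_T14 : Prop := ∀ (n : ℕ) (X : Type) [TopologicalSpace X] [CompactSpace X] [T2Space X]
  (M M' : Set X) (q q' : X → Eu (n + 1)), IsClosed M → IsClosed M' → M ∪ M' = univ →
  ConeMap n M (M ∩ M') q → ConeMap n M' (M ∩ M') q' → (∀ x ∈ M ∩ M', q x = q' x) →
  ∃ (f : X → ↥(sphere (0 : Eu (n + 2)) 1)) (a b : ↥(sphere (0 : Eu (n + 2)) 1)), Continuous f ∧
    Function.Surjective f ∧ a ≠ b ∧ (∀ x x', f x = f x' → x = x' ∨ f x = a ∨ f x = b) ∧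
    f ⁻¹' {a} = {z | z ∈ M ∧ q z = 0} ∧ f ⁻¹' {b} = {z | z ∈ M' ∧ q' z = 0}

/-- The generalized Schoenflies theorem of Brown. -/
def S_Brown : Prop := ∀ (n : ℕ) (X : Type) [MetricSpace X] [CompactSpace X]
  (_ : X ≃ₜ ↥(sphere (0 : Eu (n + 2)) 1)) (M M' : Set X), IsClosed M → IsClosed M' →
  M ∪ M' = univ → ∀ (_ : ↥(M ∩ M') ≃ₜ ↥(sphere (0 : Eu (n + 1)) 1)), LocCol n M (M ∩ M') →
  LocCol n M' (M ∩ M') →
  ∃ φ : ↥M ≃ₜ ↥(closedBall (0 : Eu (n + 1)) 1), ∀ x : ↥M, (x : X) ∈ M' ↔ ‖(φ x : Eu (n + 1))‖ = 1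

/-- Assembly.  Proof: collars of `M ∩ M'` in both sides (`S_T1`, `S_T3`), cone maps `q`, `q'`
(`S_T4` with the same `s`), `f` (`S_T14`), `A = {z ∈ M | q z = 0}`, `B` similarly; `X` and the sphere are
`PtHom (n+1)`, so squeezable (`S_T5`, `S_T6`); a cell `δ` around `A ∪ B` from `S_T7` (`A ∪ B` is not
everything, `M ∩ M'` is not empty), so `A` is cellular (`S_T9`).  `S_T13` with `V = X \ M'` gives `Φ`,
the identity on `M'`, so `Φ` maps `M` onto `M` and `M' ` is fixed.  The two continuous surjections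
`q : M → closedBall` and `Φ : M → M` of the compact space `M` have the same fibres, which gives the
homeomorphism `φ` with `φ (Φ z) = q z`. -/
def S_T15 : Prop := S_T1 → (∀ (X : Type) [MetricSpace X] [CompactSpace X] (M S : Set X),
    IsClosed M → IsClosed S → S ⊆ M → LocCol' M S → Collar M S) → S_T4 → S_T5 → S_T6 → S_T7 →
  (∀ (n : ℕ) (X Y : Type) [TopologicalSpace X] [CompactSpace X] [T2Space X]
    [TopologicalSpace Y] [T2Space Y], Squeeze X → Squeeze Y → ∀ (f : X → Y) (a b : Y),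
    Continuous f → Function.Surjective f → a ≠ b →
    (∀ x x', f x = f x' → x = x' ∨ f x = a ∨ f x = b) →
    ∀ δ : Eu n → X, ContinuousOn δ (closedBall 0 1) → InjOn δ (closedBall 0 1) →
    IsOpen (δ '' ball 0 1) → δ '' closedBall 0 1 ≠ univ → f ⁻¹' {a} ⊆ δ '' ball 0 1 →
    f ⁻¹' {b} ⊆ δ '' ball 0 1 → Cellular n (f ⁻¹' {a})) →
  (∀ (n : ℕ) (X : Type) [MetricSpace X] [CompactSpace X]
    (A : Set X), IsClosed A → A.Nonempty → Cellular n A → ∀ V, IsOpen V → A ⊆ V →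
    ∃ Φ : X → X, Continuous Φ ∧ Function.Surjective Φ ∧
      (∀ x x', Φ x = Φ x' ↔ x = x' ∨ (x ∈ A ∧ x' ∈ A)) ∧ ∀ x, x ∉ V → Φ x = x) →
  S_T14 → S_Brown

/-! ### Homogeneous homeomorphisms -/

section hinv

/-- Basic operations: identity, inverse, composition, restriction. -/
def S_H1 : Prop := ∀ (F F' F'' : Type) [NormedAddCommGroup F] [NormedSpace ℝ F]
  [NormedAddCommGroup F'] [NormedSpace ℝ F'] [NormedAddCommGroup F''] [NormedSpace ℝ F''],
  (∀ (f : F → F') (g : F' → F) (s : Set F) (t : Set F'), HInv f g s t → HInv g f t s) ∧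
  (∀ (f : F → F') (g : F' → F) (f' : F' → F'') (g' : F'' → F') (s : Set F) (t : Set F')
    (u : Set F''), HInv f g s t → HInv f' g' t u → HInv (f' ∘ f) (g ∘ g') s u) ∧
  (∀ (f : F → F') (g : F' → F) (s s' : Set F) (t t' : Set F'), HInv f g s t → s' ⊆ s → t' ⊆ t →
    (∀ x ∈ s, x ∈ s' ↔ f x ∈ t') → (∀ x ∈ s', ∀ r : ℝ, 0 ≤ r → r • x ∈ s') → HInv f g s' t') ∧
  (∀ (e : F ≃L[ℝ] F'), HInv e e.symm univ univ)

/-- Pasting along closed sets. -/
def S_H2 : Prop := ∀ (F F' : Type) [NormedAddCommGroup F] [NormedSpace ℝ F]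
  [NormedAddCommGroup F'] [NormedSpace ℝ F'] (f f' : F → F') (g g' : F' → F) (s s' : Set F)
  (t t' : Set F'), HInv f g s t → HInv f' g' s' t' → IsClosed s → IsClosed s' → IsClosed t →
  IsClosed t' → (∀ x ∈ s, x ∈ s' → f x = f' x) → (∀ y ∈ t, y ∈ t' → g y = g' y) →
  ∃ (Φ : F → F') (Ψ : F' → F), HInv Φ Ψ (s ∪ s') (t ∪ t') ∧ (∀ x ∈ s, Φ x = f x) ∧
    (∀ x ∈ s', Φ x = f' x) ∧ (∀ y ∈ t, Ψ y = g y) ∧ (∀ y ∈ t', Ψ y = g' y)

/-- Balls: transport, the boundary is a sphere, and extension of homogeneous homeomorphisms of the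
boundary: if `u : C → Half n` and `u' : C' → Half n` are the given maps and `φ` is the map of
`Eu n` induced by `f : S → S'`, extend by `(z, t) ↦ (φ z, t)`. -/
def S_H3 : Prop := ∀ (F F' : Type) [NormedAddCommGroup F] [NormedSpace ℝ F]
  [NormedAddCommGroup F'] [NormedSpace ℝ F'] (n : ℕ) (C S : Set F), TB n C S →
  TS n S ∧
  (∀ (f : F → F') (g : F' → F) (C' S' : Set F'), HInv f g C C' → S' ⊆ C' →
    (∀ x ∈ C, x ∈ S ↔ f x ∈ S') → TB n C' S') ∧
  (∀ (f : F → F') (g : F' → F) (C' S' : Set F'), TB n C' S' → HInv f g S S' →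
    ∃ (Φ : F → F') (Ψ : F' → F), HInv Φ Ψ C C' ∧ (∀ x ∈ S, Φ x = f x) ∧ (∀ y ∈ S', Ψ y = g y) ∧
      ∀ x ∈ C, (x ∈ S ↔ Φ x ∈ S'))

/-- Two balls with the same boundary: `C1` onto the half space `z.2 ≥ 0` and `C2` onto `z.2 ≤ 0`
(extend a homeomorphism of the common boundary by `S_H3`), paste by `S_H2`, and a linear
homeomorphism of `Eu n × ℝ` with `Eu (n+1)`. -/
def S_H4 : Prop := S_H1 → S_H2 → S_H3 → ∀ (F : Type) [NormedAddCommGroup F] [NormedSpace ℝ F]
  (n : ℕ) (C₁ C₂ S : Set F), TB n C₁ S → TB n C₂ S → C₁ ∩ C₂ = S → IsClosed C₁ → IsClosed C₂ →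
  TS (n + 1) (C₁ ∪ C₂)

/-- Union of two balls along a ball in the boundary.  Proof: by `S_H3`, `S_H2` find
`u : W ∪ V → Eu n × ℝ` onto everything with `W` going to `{z.2 ≥ 0}`, `V` to `{z.2 ≤ 0}`, `T` to `{z.2 = 0}`,
and `u' : W ∪ V' → Eu n × ℝ` with `u' = u` on `W`.  Extend to `B → (Eu n × ℝ) × [0, ∞)` and compose
with the piecewise linear map `((a, s), t) ↦ (a, t + max s 0, t + max (-s) 0)` onto
`Eu n × [0,∞) × [0,∞)` (inverse `s = p - q`, `t = min p q`), so `W` is `{q = 0}` and `V` is `{p = 0}`.  For `X`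
use `((a, s), t) ↦ (a, t + max s 0, -t - max (-s) 0)`.  They agree on `W` and paste to a map of `B ∪ X` onto
`Eu n × [0,∞) × ℝ`, with `V ∪ V'` going to `{p = 0}`; finally a linear homeomorphism of
`Eu n × ℝ` with `Eu (n+1)`. -/
def S_H5 : Prop := S_H1 → S_H2 → S_H3 → ∀ (F : Type) [NormedAddCommGroup F] [NormedSpace ℝ F]
  (n : ℕ) (B X W V V' T : Set F), TB (n + 1) B (W ∪ V) → TB (n + 1) X (W ∪ V') → TB n W T →
  TB n V T → TB n V' T → W ∩ V = T → W ∩ V' = T → B ∩ X = W → IsClosed B → IsClosed X →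
  IsClosed W → IsClosed V → IsClosed V' → TB (n + 1) (B ∪ X) (V ∪ V')

/-- Unit vectors of a cone over a sphere: `x ↦ f x / ‖f x‖`. -/
def S_H6 : Prop := ∀ (F : Type) [NormedAddCommGroup F] [InnerProductSpace ℝ F] (n : ℕ) (T : Set F),
  TS n T → Nonempty (↥(sec T) ≃ₜ ↥(sphere (0 : Eu n) 1))

/-- From a homeomorphism of the unit vectors with a closed ball to a homogeneous homeomorphism with
the half space: `f x = ‖x‖ • (φ (x/‖x‖), 1 - ‖φ (x/‖x‖)‖)`, `g (u, t) = r • φ⁻¹ (u / r)` with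
`r = ‖u‖ + t` (and `f 0 = 0`, `g 0 = 0`). -/
def S_H7 : Prop := ∀ (F : Type) [NormedAddCommGroup F] [InnerProductSpace ℝ F] (n : ℕ)
  (C S : Set F), S ⊆ C → (0 : F) ∈ S → (∀ x ∈ C, ∀ r : ℝ, 0 ≤ r → r • x ∈ C) →
  (∀ x ∈ S, ∀ r : ℝ, 0 ≤ r → r • x ∈ S) → ∀ φ : ↥(sec C) ≃ₜ ↥(closedBall (0 : Eu n) 1),
  (∀ x : ↥(sec C), (x : F) ∈ S ↔ ‖(φ x : Eu n)‖ = 1) → TB n C S

end hinv

/-! ### Real polyhedral cones -/

/-- Basic facts on closed polyhedral cone sets. -/
def S_R1 : Prop := ∀ (F : Type) [NormedAddCommGroup F] [InnerProductSpace ℝ F]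
  [FiniteDimensional ℝ F],
  (∀ K L : Set F, PolR K → PolR L → PolR (K ∪ L) ∧ PolR (K ∩ L)) ∧
  (∀ K : Set F, PolR K → IsClosed K) ∧
  (∀ K : Set F, PolR K → ∀ x ∈ K, ∀ r : ℝ, 0 ≤ r → r • x ∈ K) ∧
  PolR ({0} : Set F) ∧ (∀ U : Submodule ℝ F, PolR (U : Set F)) ∧
  (∀ l : F →ₗ[ℝ] ℝ, PolR {x | 0 ≤ l x} ∧ PolR {x | l x = 0})

/-- Local conic structure: for small `v` the signs of the forms at `x + v` are those of `x + s • v`,
`0 < s ≤ 1`. -/
def S_R2 : Prop := ∀ (F : Type) [NormedAddCommGroup F] [InnerProductSpace ℝ F]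
  [FiniteDimensional ℝ F] (K : Set F), PolR K → ∀ x : F, ∃ ε : ℝ, 0 < ε ∧ ∀ v : F, ‖v‖ < ε →
    (x + v ∈ K ↔ v ∈ TgR x K)

/-- Tangent cones. -/
def S_R3 : Prop := ∀ (F : Type) [NormedAddCommGroup F] [InnerProductSpace ℝ F]
  [FiniteDimensional ℝ F] (K L : Set F) (x : F), PolR K → PolR L →
  TgR x (K ∪ L) = TgR x K ∪ TgR x L ∧ TgR x (K ∩ L) = TgR x K ∩ TgR x L ∧
  (x ∉ K → TgR x K = ∅) ∧ (x ∈ K → PolR (TgR x K)) ∧
  (∀ v ∈ TgR x K, ∀ r : ℝ, 0 < r → r • v ∈ TgR x K) ∧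
  (∀ v ∈ TgR x K, ∀ c : ℝ, v + c • x ∈ TgR x K) ∧
  (∀ r : ℝ, 0 < r → TgR (r • x) K = TgR x K) ∧
  (∀ U : Submodule ℝ F, x ∈ U → TgR x (U : Set F) = U)

/-- Links. -/
def S_R4 : Prop := ∀ (F : Type) [NormedAddCommGroup F] [InnerProductSpace ℝ F]
  [FiniteDimensional ℝ F] (K L : Set F) (x : F), PolR K → PolR L →
  Lk x (K ∪ L) = Lk x K ∪ Lk x L ∧ Lk x (K ∩ L) = Lk x K ∩ Lk x L ∧
  (x ∉ K → Lk x K = ∅) ∧ (x ∈ K → PolR (Lk x K)) ∧
  (∀ r : ℝ, 0 < r → Lk (r • x) K = Lk x K) ∧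
  (∀ U : Submodule ℝ F, x ∈ U → Lk x (U : Set F) = Uper U x) ∧
  (∀ U : Submodule ℝ F, x ∈ U → K ⊆ U → Lk x K ⊆ Uper U x) ∧
  (∀ U : Submodule ℝ F, x ∈ U → x ≠ 0 → Module.finrank ℝ (Uper U x) + 1 = Module.finrank ℝ U)

/-- Interior points and links (from `S_R2`, `S_R3`, `S_R4`). -/
def S_R5 : Prop := ∀ (F : Type) [NormedAddCommGroup F] [InnerProductSpace ℝ F]
  [FiniteDimensional ℝ F] (M : Set F) (U : Submodule ℝ F) (x : F), PolR M → M ⊆ U → x ∈ U →
  x ≠ 0 → (Lk x M = Uper U x ↔ M ∈ 𝓝[(U : Set F)] x) ∧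
  (∃ ε : ℝ, 0 < ε ∧ ∀ v ∈ Uper U x, ‖v‖ < ε → M ∈ 𝓝[(U : Set F)] (x + v) →
    Lk x M ∈ 𝓝[(Uper U x : Set F)] v)

/-- Linear subspaces and the recursive notion of sphere (both directions by induction on `n`, using
`Lk x U = Uper U x` and the dimension formula; a subspace of dimension `n` is linearly isometric to
`Eu n`; for the converse take `x ∈ U`, `x ≠ 0`; `TS (n+1) {0}` is impossible). -/
def S_R6 : Prop := S_R1 → S_R4 → ∀ (F : Type) [NormedAddCommGroup F] [InnerProductSpace ℝ F]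
  [FiniteDimensional ℝ F] (U : Submodule ℝ F) (n : ℕ), HSp n (U : Set F) ↔ Module.finrank ℝ U = n

/-- Spheres inside subspaces: dimension, and equality in the case of equal dimension.  Induction on
`n`.  Case `n + 1`: `T` has a point `x ≠ 0` (as `TS (n+1) T`); `Lk x T ⊆ Uper U x`, so the
dimension inequality.  If `finrank U = n + 1` then `Lk x T = Uper U x` for all `x ∈ T`, `x ≠ 0`, so `T` is a
neighbourhood of `x` in `U` by `S_R5`; `T \ {0}` is open and closed in `U \ {0}`, which is connected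
for `n ≥ 1`; for `n = 0` the set `T` contains `g (-(f x))`, which is not a positive multiple of `x`, so both
rays of the line `U`. -/
def S_R7 : Prop := S_R1 → S_R4 → S_R5 → ∀ (F : Type) [NormedAddCommGroup F]
  [InnerProductSpace ℝ F] [FiniteDimensional ℝ F] (U : Submodule ℝ F) (n : ℕ) (T : Set F),
  HSp n T → T ⊆ U → n ≤ Module.finrank ℝ U ∧ (Module.finrank ℝ U = n → T = U)

/-- Two-sidedness.  `Σ := M ∩ M'`.  Induction on `n`; `n = 0` is vacuous.  Suppose some `x0 ∈ Σ`, `x0 ≠ 0`,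
has `Lk x0 M = Uper U x0`, i.e. `M` is a neighbourhood of `x0` in `U` (`S_R5`).
Case `n = 1`: by `TS 1 Σ`, `Σ` is the union of the ray of `x0` and of another ray `R` of `x'`.  The
set `U \ R` is star-shaped around `-x'`, so connected, and `M ∩ (U \ R)` is closed and open in it
(points of `M \ M'` are interior to `M` because `M'` is closed), so `U \ R ⊆ M` and `M = U`.
Case `n ≥ 2`: `Σ \ {0}` is connected (homeomorphic to `Eu n \ {0}`).  The set `Σ1` of `x ∈ Σ \ {0}` with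
`M` a neighbourhood of `x` in `U` is open in `Σ \ {0}`.  It is closed: let `x ∈ Σ \ {0}`, `x ∉ Σ1`.  If
`M'` is a neighbourhood of `x` in `U`, then a nearby `y ∈ Σ1` would have `Σ` as a neighbourhood, so
`Lk y Σ = Uper U y` would be `HSp (n-1)` of dimension `n`, against `S_R6`.  Otherwise the induction
hypothesis applies to `Lk x M`, `Lk x M'`, `Uper U x`; a nearby `y ∈ Σ1` is `c • (x + v)` with
`v ∈ Lk x Σ` small, `v ≠ 0` (as `x ∉ Σ1`), and `Lk x M` is a neighbourhood of `v` in `Uper U x` by `S_R5`,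
contradiction.  So `Σ1 = Σ \ {0}`, `M \ {0}` is open and closed in the connected set `U \ {0}`, `M = U`. -/
def S_R8 : Prop := S_R1 → S_R2 → S_R3 → S_R4 → S_R5 →
  (∀ (F : Type) [NormedAddCommGroup F] [InnerProductSpace ℝ F]
    [FiniteDimensional ℝ F] (U : Submodule ℝ F) (n : ℕ), HSp n (U : Set F) ↔
      Module.finrank ℝ U = n) →
  ∀ (F : Type) [NormedAddCommGroup F] [InnerProductSpace ℝ F] [FiniteDimensional ℝ F] (n : ℕ)
  (U : Submodule ℝ F) (M M' : Set F), Module.finrank ℝ U = n + 1 → PolR M → PolR M' →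
  M ∪ M' = U → HSp n (M ∩ M') → M ≠ U → M' ≠ U → ∀ x ∈ M ∩ M', x ≠ 0 → Lk x M ≠ Uper U x

/-- The dimension of a space separated by a sphere.  Induction on `n`.  `n = 0`: `U \ {0}` is the
disjoint union of the closed sets `M \ {0}`, `M' \ {0}`, so `finrank U ≤ 1`; and `finrank U = 0` gives
`M = U`.  `n + 1`: if there is `x ∈ Σ = M ∩ M'`, `x ≠ 0`, with `Lk x M ≠ Uper U x ≠ Lk x M'`, use
the induction hypothesis in `Uper U x`.  Otherwise every point of `U \ {0}` is interior (in `U`) to `M` or to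
`M'`.  If some point `y ≠ 0` is interior to both then `Lk y Σ = Uper U y`, so `finrank U = n + 1` by `S_R6` and
`Σ = U` by `S_R7`, so `M = U`.  If not and `finrank U ≥ 2`, connectedness of `U \ {0}` gives `M = U` or
`M' = U`.  If `finrank U ≤ 1` then `n + 1 ≤ 1` by `S_R7` and `Σ = U`. -/
def S_R9 : Prop := S_R1 → S_R4 → S_R5 →
  (∀ (F : Type) [NormedAddCommGroup F] [InnerProductSpace ℝ F]
    [FiniteDimensional ℝ F] (U : Submodule ℝ F) (n : ℕ), HSp n (U : Set F) ↔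
      Module.finrank ℝ U = n) →
  (∀ (F : Type) [NormedAddCommGroup F]
    [InnerProductSpace ℝ F] [FiniteDimensional ℝ F] (U : Submodule ℝ F) (n : ℕ) (T : Set F),
    HSp n T → T ⊆ U → n ≤ Module.finrank ℝ U ∧ (Module.finrank ℝ U = n → T = U)) →
  ∀ (F : Type) [NormedAddCommGroup F] [InnerProductSpace ℝ F] [FiniteDimensional ℝ F] (n : ℕ)
  (U : Submodule ℝ F) (M M' : Set F), PolR M → PolR M' → M ∪ M' = U → HSp n (M ∩ M') → M ≠ U →
  M' ≠ U → Module.finrank ℝ U = n + 1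

/-- The one-dimensional case: `M` and `M'` are the two rays of the line `U`. -/
def S_R10 : Prop := S_R1 → ∀ (F : Type) [NormedAddCommGroup F] [InnerProductSpace ℝ F]
  [FiniteDimensional ℝ F] (U : Submodule ℝ F) (M M' : Set F), Module.finrank ℝ U = 1 → PolR M →
  PolR M' → M ∪ M' = U → M ∩ M' = {0} → M ≠ U → M' ≠ U → HBa 1 M {0}

/-- The unit sphere of a subspace (linear isometry with `Eu m`). -/
def S_R11 : Prop := ∀ (F : Type) [NormedAddCommGroup F] [InnerProductSpace ℝ F]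
  [FiniteDimensional ℝ F] (U : Submodule ℝ F) (m : ℕ), Module.finrank ℝ U = m →
  Nonempty (↥(sec (U : Set F)) ≃ₜ ↥(sphere (0 : Eu m) 1))

/-- Charts from links.  Proof: let `g : Half n → Lk x M` be the homogeneous inverse map and
`f : Lk x M → Half n`; `psi (z) = (x + ε • g z) / ‖x + ε • g z‖`, with `ε > 0` so small that
`ε ‖g z‖ < ε0` on `BoxC n`, where `ε0` is a radius for `S_R2` for `M` and for `S` at `x`.  `psi z ∈ M` and
`psi z ∈ S ↔ g z ∈ Lk x S ↔ z.2 = 0`.  Injective: `x + v` and `x + v'` with `v`, `v'` orthogonal to `x` are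
positive multiples only if `v = v'`.  Open image: for `y` with `inner x y > 0` put
`v y = y / inner x y - x`; `O = {y | 0 < inner x y, ‖v y‖ < ε0, ε⁻¹ • v y ∈ O1}`, where `O1` is open and
`O1 ∩ Lk x M = {w ∈ Lk x M | f w ∈ ball 0 1 ×ˢ Iio 1}`. -/
def S_R12 : Prop := S_R1 → S_R2 → S_R3 → ∀ (F : Type) [NormedAddCommGroup F]
  [InnerProductSpace ℝ F] [FiniteDimensional ℝ F] (n : ℕ) (M S : Set F), PolR M → PolR S →
  S ⊆ M → (∀ x ∈ S, ‖x‖ = 1 → TB n (Lk x M) (Lk x S)) → LocCol n (sec M) (sec S)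

/-- Charts in a subset. -/
def S_R13 : Prop := ∀ (F : Type) [NormedAddCommGroup F] (n : ℕ) (Z M S : Set F), M ⊆ Z →
  S ⊆ M → LocCol n M S →
  LocCol n ((fun z : ↥Z => (z : F)) ⁻¹' M) ((fun z : ↥Z => (z : F)) ⁻¹' S)

/-- The topological Schoenflies step.  Proof: `X = sec U` is a compact metric space homeomorphic to
the sphere of `Eu (n+2)` (`S_R11`); the subsets of `X` given by `M`, `M'` are closed with union `X`, their
intersection is homeomorphic to `sec (M ∩ M')`, a sphere by `S_H6`; the charts come from `S_R12`,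
`S_R13`; `S_Brown` and `S_H7` finish. -/
def S_R14 : Prop := S_Brown → S_H6 → S_H7 → S_R1 → S_R11 →
  (∀ (F : Type) [NormedAddCommGroup F]
    [InnerProductSpace ℝ F] [FiniteDimensional ℝ F] (n : ℕ) (M S : Set F), PolR M → PolR S →
    S ⊆ M → (∀ x ∈ S, ‖x‖ = 1 → TB n (Lk x M) (Lk x S)) → LocCol n (sec M) (sec S)) → S_R13 →
  ∀ (F : Type) [NormedAddCommGroup F] [InnerProductSpace ℝ F] [FiniteDimensional ℝ F] (n : ℕ)
  (U : Submodule ℝ F) (M M' : Set F), Module.finrank ℝ U = n + 2 → PolR M → PolR M' →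
  M ∪ M' = U → TS (n + 1) (M ∩ M') →
  (∀ x ∈ M ∩ M', ‖x‖ = 1 → TB n (Lk x M) (Lk x (M ∩ M')) ∧ TB n (Lk x M') (Lk x (M ∩ M'))) →
  TB (n + 1) M (M ∩ M')

/-- The Schoenflies theorem for the recursive notions.  Induction on `n`.  `n = 0`: `S_R10`.
`n + 1`: for `x ∈ Σ = M ∩ M'`, `x ≠ 0`, two-sidedness (`S_R8`, for `M` and for `M'`) and the induction
hypothesis in `Uper U x` give `HBa (n+1) (Lk x M) (Lk x Σ)` and the same for `M'`, in particular
`TB n`; `S_R14` gives `TB (n+1) M Σ`.  For `x ∈ M \ Σ` the link of `M` is `Uper U x`. -/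
def S_R15 : Prop := S_R1 → S_R4 → S_R5 →
  (∀ (F : Type) [NormedAddCommGroup F] [InnerProductSpace ℝ F]
    [FiniteDimensional ℝ F] (U : Submodule ℝ F) (n : ℕ), HSp n (U : Set F) ↔
      Module.finrank ℝ U = n) →
  (∀ (F : Type) [NormedAddCommGroup F] [InnerProductSpace ℝ F] [FiniteDimensional ℝ F] (n : ℕ)
    (U : Submodule ℝ F) (M M' : Set F), Module.finrank ℝ U = n + 1 → PolR M → PolR M' →
    M ∪ M' = U → HSp n (M ∩ M') → M ≠ U → M' ≠ U → ∀ x ∈ M ∩ M', x ≠ 0 → Lk x M ≠ Uper U x) →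
  (∀ (F : Type) [NormedAddCommGroup F] [InnerProductSpace ℝ F]
    [FiniteDimensional ℝ F] (U : Submodule ℝ F) (M M' : Set F), Module.finrank ℝ U = 1 → PolR M →
    PolR M' → M ∪ M' = U → M ∩ M' = {0} → M ≠ U → M' ≠ U → HBa 1 M {0}) →
  (∀ (F : Type) [NormedAddCommGroup F] [InnerProductSpace ℝ F] [FiniteDimensional ℝ F] (n : ℕ)
    (U : Submodule ℝ F) (M M' : Set F), Module.finrank ℝ U = n + 2 → PolR M → PolR M' →
    M ∪ M' = U → TS (n + 1) (M ∩ M') →
    (∀ x ∈ M ∩ M', ‖x‖ = 1 → TB n (Lk x M) (Lk x (M ∩ M')) ∧ TB n (Lk x M') (Lk x (M ∩ M'))) →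
    TB (n + 1) M (M ∩ M')) →
  ∀ (F : Type) [NormedAddCommGroup F] [InnerProductSpace ℝ F] [FiniteDimensional ℝ F] (n : ℕ)
  (U : Submodule ℝ F) (M M' : Set F), Module.finrank ℝ U = n + 1 → PolR M → PolR M' →
  M ∪ M' = U → HSp n (M ∩ M') → M ≠ U → M' ≠ U → HBa (n + 1) M (M ∩ M')

/-- Gluing for the recursive notions, by simultaneous induction on `n`.  (1) For `x ∈ C₁ \ S` one has
`x ∉ C₂`, so `Lk x (C₁ ∪ C₂) = Lk x C₁`; for `x ∈ S`, `x ≠ 0`, use (1) for `n - 1` (if `n = 0` there is no such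
`x`, as `HBa 1` and `TB 0` force `S = {0}`).  (2) For `x ∈ X \ Y`, not in `X'`: `x ∉ W`, link of `X`.  For
`x ∈ W`, `x ∉ T`: `Lk x X' = ∅`, so `HBa` of the link of `X` with boundary `Lk x W`, same for `Y`, and (1).
For `x ∈ X' \ W`: link of `X` with boundary `Lk x X'`.  For `x ∈ T`, `x ≠ 0`: (2) for `n - 1` (for `n = 0` no
such `x`). -/
def S_R16 : Prop := S_R1 → S_R4 →
  (∀ (F : Type) [NormedAddCommGroup F] [NormedSpace ℝ F]
    (n : ℕ) (C₁ C₂ S : Set F), TB n C₁ S → TB n C₂ S → C₁ ∩ C₂ = S → IsClosed C₁ → IsClosed C₂ →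
    TS (n + 1) (C₁ ∪ C₂)) →
  (∀ (F : Type) [NormedAddCommGroup F] [NormedSpace ℝ F]
    (n : ℕ) (B X W V V' T : Set F), TB (n + 1) B (W ∪ V) → TB (n + 1) X (W ∪ V') → TB n W T →
    TB n V T → TB n V' T → W ∩ V = T → W ∩ V' = T → B ∩ X = W → IsClosed B → IsClosed X →
    IsClosed W → IsClosed V → IsClosed V' → TB (n + 1) (B ∪ X) (V ∪ V')) →
  ∀ (F : Type) [NormedAddCommGroup F] [InnerProductSpace ℝ F] [FiniteDimensional ℝ F] (n : ℕ),
  (∀ C₁ C₂ S : Set F, HBa (n + 1) C₁ S → HBa (n + 1) C₂ S → C₁ ∩ C₂ = S →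
    HSp (n + 1) (C₁ ∪ C₂)) ∧
  (∀ X Y W X' Y' T : Set F, HBa (n + 2) X (W ∪ X') → HBa (n + 2) Y (W ∪ Y') → HBa (n + 1) W T →
    HBa (n + 1) X' T → HBa (n + 1) Y' T → W ∩ X' = T → W ∩ Y' = T → X ∩ Y = W →
    HBa (n + 2) (X ∪ Y) (X' ∪ Y'))

end Pool.Agent.Work.MP_552024_lc.HM
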