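import Pool.Agent.Work.MP_552024_lc.HM.DefsQ
import Pool.Agent.Work.MP_552024_lc.HM.Stmts
import Pool.Agent.Work.MP_552024_lc.PLS.Transfer

/-!
Statements of the lemmas of theorem HM on the passage from rational to real polyhedral cones
and on the first-order description (S_Q..).  Each docstring contains the proof.
-/

set_option autoImplicit false

namespace Pool.Agent.Work.MP_552024_lc.HM

open Metric Set Topology Pool.Agent.Work.MP_552024_lc.PLS Pool.Agent.MP552024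

/-- The union lemma as a property of two predicates. -/
def UL {E : Type} [AddCommGroup E] [Module ℚ E] (β0 β1 : Set E → Set E → Prop) : Prop :=
  ∀ B X W V V' T : Set E, β1 B (W ∪ V) → β1 X (W ∪ V') → β0 W T → β0 V T → β0 V' T →
    W ∩ V = T → W ∩ V' = T → B ∩ X = W → β1 (B ∪ X) (V ∪ V')

/-- Rational points are dense in the relatively open cells of a rational arrangement; values of
extended forms.  Proof of the second part: let `A0 = {a ∈ A | exR a z = 0}`.  Real solutions of the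
rational linear system `exR a = 0`, `a ∈ A0`, are limits of rational solutions (the real solution space has
a basis of rational vectors: row reduction, or: the solution space of a rational matrix over `ℚ` and
over `ℝ` have the same dimension, e.g. by `Matrix.rank_map` or by base change; rational
combinations of a rational basis are dense).  Close to `z` the other forms keep their sign. -/
def S_Q1 : Prop := ∀ (V : Type) [Fintype V],
  (∀ (a : (V → ℚ) →ₗ[ℚ] ℚ) (y : V → ℚ), exR a (castE y) = (a y : ℝ)) ∧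
  ∀ (A : Set ((V → ℚ) →ₗ[ℚ] ℚ)), A.Finite → ∀ (z : EuclideanSpace ℝ V) (δ : ℝ), 0 < δ →
    ∃ y : V → ℚ, ‖castE y - z‖ < δ ∧ ∀ a ∈ A, SignType.sign (a y) = SignType.sign (exR a z)

/-- Real closures of closed polyhedral sets.  (i): if `z = lim castE (y k)`, `y k ∈ C`, take `y` close
to `z` with the signs of `z` (`S_Q1`), then `y ∈ face A (y k)` for large `k`; conversely a rational point
close to `z` with the signs of `z` is in `face A y ⊆ C`.  (ii): forms `exR a`.  The rest follows from (i),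
for intersections use the union of the two sets of forms. -/
def S_Q2 : Prop := S_Q1 → ∀ (V : Type) [Fintype V],
  (∀ (C : Set (V → ℚ)) (A : Set ((V → ℚ) →ₗ[ℚ] ℚ)), A.Finite → (∀ y ∈ C, face A y ⊆ C) →
    ∀ z, z ∈ rl C ↔ ∃ y ∈ C, ∀ a ∈ A, SignType.sign (exR a z) = SignType.sign (a y)) ∧
  (∀ C : Set (V → ℚ), Pol C → PolR (rl C)) ∧
  (∀ C : Set (V → ℚ), Pol C → ∀ x, castE x ∈ rl C ↔ x ∈ C) ∧
  (∀ C D : Set (V → ℚ), rl (C ∪ D) = rl C ∪ rl D) ∧
  (∀ C D : Set (V → ℚ), Pol C → Pol D → rl (C ∩ D) = rl C ∩ rl D) ∧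
  rl ({0} : Set (V → ℚ)) = {0} ∧ (∀ C D : Set (V → ℚ), C ⊆ D → rl C ⊆ rl D)

/-- The real closure of a rational subspace is a real subspace. -/
def S_Q3 : Prop := ∀ (V : Type) [Fintype V] (L : Submodule ℚ (V → ℚ)),
  ∃ U : Submodule ℝ (EuclideanSpace ℝ V), (U : Set (EuclideanSpace ℝ V)) = rl (L : Set (V → ℚ))

/-- Facts on `rl` in the form of the conclusion of `S_Q2`. -/
def C_Q2 : Prop := ∀ (V : Type) [Fintype V],
  (∀ (C : Set (V → ℚ)) (A : Set ((V → ℚ) →ₗ[ℚ] ℚ)), A.Finite → (∀ y ∈ C, face A y ⊆ C) →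
    ∀ z, z ∈ rl C ↔ ∃ y ∈ C, ∀ a ∈ A, SignType.sign (exR a z) = SignType.sign (a y)) ∧
  (∀ C : Set (V → ℚ), Pol C → PolR (rl C)) ∧
  (∀ C : Set (V → ℚ), Pol C → ∀ x, castE x ∈ rl C ↔ x ∈ C) ∧
  (∀ C D : Set (V → ℚ), rl (C ∪ D) = rl C ∪ rl D) ∧
  (∀ C D : Set (V → ℚ), Pol C → Pol D → rl (C ∩ D) = rl C ∩ rl D) ∧
  rl ({0} : Set (V → ℚ)) = {0} ∧ (∀ C D : Set (V → ℚ), C ⊆ D → rl C ⊆ rl D)

/-- Conclusion of `S_R16`. -/
def C_R16 : Prop := ∀ (F : Type) [NormedAddCommGroup F] [InnerProductSpace ℝ F]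
  [FiniteDimensional ℝ F] (n : ℕ),
  (∀ C₁ C₂ S : Set F, HBa (n + 1) C₁ S → HBa (n + 1) C₂ S → C₁ ∩ C₂ = S →
    HSp (n + 1) (C₁ ∪ C₂)) ∧
  (∀ X Y W X' Y' T : Set F, HBa (n + 2) X (W ∪ X') → HBa (n + 2) Y (W ∪ Y') → HBa (n + 1) W T →
    HBa (n + 1) X' T → HBa (n + 1) Y' T → W ∩ X' = T → W ∩ Y' = T → X ∩ Y = W →
    HBa (n + 2) (X ∪ Y) (X' ∪ Y'))

/-- Conclusion of `S_R9`. -/
def C_R9 : Prop := ∀ (F : Type) [NormedAddCommGroup F] [InnerProductSpace ℝ F]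
  [FiniteDimensional ℝ F] (n : ℕ) (U : Submodule ℝ F) (M M' : Set F), PolR M → PolR M' →
  M ∪ M' = U → HSp n (M ∩ M') → M ≠ U → M' ≠ U → Module.finrank ℝ U = n + 1

/-- Conclusion of `S_R15`. -/
def C_R15 : Prop := ∀ (F : Type) [NormedAddCommGroup F] [InnerProductSpace ℝ F]
  [FiniteDimensional ℝ F] (n : ℕ)
  (U : Submodule ℝ F) (M M' : Set F), Module.finrank ℝ U = n + 1 → PolR M → PolR M' →
  M ∪ M' = U → HSp n (M ∩ M') → M ≠ U → M' ≠ U → HBa (n + 1) M (M ∩ M')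

/-- The union lemma for `HB`, from `C_R16` and `rl (C ∪ D)`, `rl (C ∩ D)`. -/
def S_Q4 : Prop := C_R16 → C_Q2 → ∀ (V : Type) [Fintype V] (k : ℕ),
  UL (HB (k + 1) : Set (V → ℚ) → Set (V → ℚ) → Prop) (HB (k + 2))

/-- The last cells.  Proof: as `final_cell` in PLS/ThmB.lean (copy its first part: `z`, `hmax`, `hK`,
`hMs`, the span `L`).  Let `N = L \ (M \ F)`; it is closed polyhedral: union of
`face 𝓑 z ∩ ((C ∩ F) ∪ cl (C \ (F ∪ M)))` and of the sets `{x ∈ L | 0 ≤ -(a z * a x)}` for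
`a ∈ 𝓑` with `a z ≠ 0` (as `hK'c` there).  `M ∪ N = L`, `M ∩ N = M ∩ F = D₁ ∪ D₂`.  With `U` the real
subspace `rl L` (`S_Q3`): `rl M ∪ rl N = U`, `rl M ∩ rl N = rl (M ∩ F) = rl D₁ ∪ rl D₂`, which is
`HSp (k + 1)` by `C_R16` (1) as `rl D₁ ∩ rl D₂ = rl (D₁ ∩ D₂)`.  `rl M ≠ U`: `-z ∈ L` is not in `M`
(`M ⊆ face 𝓑 z` and some `a z ≠ 0`); `rl N ≠ U`: `z ∉ N` (`castE x ∈ rl C ↔ x ∈ C`).  So
`finrank U = k + 2` by `C_R9` and `C_R15` gives the claim. -/
def S_Q5 : Prop := C_R9 → C_R15 → C_R16 → C_Q2 → S_Q3 → ∀ (V : Type) [Fintype V] (k : ℕ)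
  (C : Set (V → ℚ)) (𝓑 : Set ((V → ℚ) →ₗ[ℚ] ℚ)), Pol C → 𝓑.Finite → (∀ y ∈ C, face 𝓑 y ⊆ C) →
  (∀ x : V → ℚ, (∀ a ∈ 𝓑, a x = 0) → x = 0) →
  ∀ F M : Set (V → ℚ), Pol F → Comp M C F → M ∩ Skel C 𝓑 ⊆ F →
  (∃ D₁ D₂, Pol D₁ ∧ Pol D₂ ∧ M ∩ F = D₁ ∪ D₂ ∧ HB (k + 1) D₁ (D₁ ∩ D₂) ∧
    HB (k + 1) D₂ (D₁ ∩ D₂)) → HB (k + 2) M (M ∩ F)

/-- Treelike gluing for abstract predicates: copy of `ball_of_good` (PLS/Glue.lean) with
`Ball k` replaced by `β0` and `Ball (k + 1)` by `β1`. -/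
def S_Q6 : Prop := ∀ (E : Type) [AddCommGroup E] [Module ℚ E] [FiniteDimensional ℚ E]
  (β0 β1 : Set E → Set E → Prop), UL β0 β1 → ∀ M C F G : Set E, Pol F → Pol G → Comp M C F →
  Good β0 M F G → (∀ m, Comp m M (F ∪ G) → β1 m (m ∩ (F ∪ G))) → β1 M (M ∩ F)

/-- Treelike decompositions: copy of `lev_ball` (PLS/ThmB.lean). -/
def S_Q7 : Prop := S_Q6 → ∀ (E : Type) [AddCommGroup E] [Module ℚ E] [FiniteDimensional ℚ E]
  (β0 β1 : Set E → Set E → Prop), UL β0 β1 → ∀ C A : Set E, Pol C →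
  (∀ F M, Pol F → Comp M C F → M ∩ A ⊆ F → (∃ D₁ D₂, Pol D₁ ∧ Pol D₂ ∧ M ∩ F = D₁ ∪ D₂ ∧
    β0 D₁ (D₁ ∩ D₂) ∧ β0 D₂ (D₁ ∩ D₂)) → β1 M (M ∩ F)) →
  ∀ (j : ℕ) (F : Set E), Pol F → Lev β0 C A j F → ∀ M, Comp M C F → β1 M (M ∩ F)

/-- One-dimensional cells: `C` is the ray `{r • v | r ≥ 0}` (as in `ball_of_BB_one`), and `rl C` the
real ray; its links are `{0}`. -/
def S_Q8 : Prop := C_Q2 → ∀ (V : Type) [Fintype V] (C S : Set (V → ℚ)), BB 1 C S → HB 1 C S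

/-- Cells satisfying the formula are balls with all links balls or spheres.  Proof: induction on `k`
as `ball_of_BB` (PLS/ThmB.lean) with `S_Q4`, `S_Q5`, `S_Q7`, `S_Q8` (conclusions). -/
def S_Q9 : Prop := (∀ (V : Type) [Fintype V] (k : ℕ),
    UL (HB (k + 1) : Set (V → ℚ) → Set (V → ℚ) → Prop) (HB (k + 2))) →
  (∀ (V : Type) [Fintype V] (k : ℕ)
    (C : Set (V → ℚ)) (𝓑 : Set ((V → ℚ) →ₗ[ℚ] ℚ)), Pol C → 𝓑.Finite → (∀ y ∈ C, face 𝓑 y ⊆ C) →
    (∀ x : V → ℚ, (∀ a ∈ 𝓑, a x = 0) → x = 0) →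
    ∀ F M : Set (V → ℚ), Pol F → Comp M C F → M ∩ Skel C 𝓑 ⊆ F →
    (∃ D₁ D₂, Pol D₁ ∧ Pol D₂ ∧ M ∩ F = D₁ ∪ D₂ ∧ HB (k + 1) D₁ (D₁ ∩ D₂) ∧
      HB (k + 1) D₂ (D₁ ∩ D₂)) → HB (k + 2) M (M ∩ F)) →
  S_Q6 → S_Q7 → (∀ (V : Type) [Fintype V] (C S : Set (V → ℚ)), BB 1 C S → HB 1 C S) →
  ∀ (V : Type) [Fintype V] (k : ℕ) (C S : Set (V → ℚ)), BB (k + 1) C S → HB (k + 1) C S

/-- Comparison of cell systems: copy of `assemble` (PLS/Assemble.lean) with homogeneous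
homeomorphisms of the real closures; extension over a cell by `S_H3` (third part; `HBa (k+1)` contains
`TB k`), pasting by `S_H2` (finite unions of `rl (c i)` are closed). -/
def S_Q10 : Prop := S_H1 → S_H2 → S_H3 → C_Q2 → ∀ (V W : Type) [Fintype V] [Fintype W] (ι : Type)
  [PartialOrder ι] [Finite ι] (i0 : ι) (d : ι → ℕ) (c : ι → Set (V → ℚ)) (c' : ι → Set (W → ℚ)),
  (∀ i, i0 ≤ i) → Cells i0 d (fun k => HB k) c → Cells i0 d (fun k => HB k) c' →
  ∃ (f : EuclideanSpace ℝ V → EuclideanSpace ℝ W) (g : EuclideanSpace ℝ W → EuclideanSpace ℝ V),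
    HInv f g (rl (⋃ i, c i)) (rl (⋃ i, c' i))

/-- Elementary equivalence and real models: first part of `plinv_of_theory` (PLS/Transfer.lean):
cells of `Qset M` are balls, so satisfy `BB` (`BB_of_ball`), `transfer` gives a system with `BB` for
`Qset N`, both are `HB` systems. -/
def S_Q11 : Prop :=
  (∀ (V : Type) [Fintype V] (k : ℕ) (C S : Set (V → ℚ)), BB (k + 1) C S → HB (k + 1) C S) →
  (∀ (V W : Type) [Fintype V] [Fintype W] (ι : Type)
    [PartialOrder ι] [Finite ι] (i0 : ι) (d : ι → ℕ) (c : ι → Set (V → ℚ)) (c' : ι → Set (W → ℚ)),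
    (∀ i, i0 ≤ i) → Cells i0 d (fun k => HB k) c → Cells i0 d (fun k => HB k) c' →
    ∃ (f : EuclideanSpace ℝ V → EuclideanSpace ℝ W) (g : EuclideanSpace ℝ W → EuclideanSpace ℝ V),
      HInv f g (rl (⋃ i, c i)) (rl (⋃ i, c' i))) →
  ∀ (G H : Type) [AddCommGroup G] [Lattice G] [IsOrderedAddMonoid G]
    [AddCommGroup H] [Lattice H] [IsOrderedAddMonoid H] (M : Mdl G) (N : Mdl H),
    @FirstOrder.Language.completeTheory L2 G (str G) =
      @FirstOrder.Language.completeTheory L2 H (str H) →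
    ∃ (f : EuclideanSpace ℝ M.V → EuclideanSpace ℝ N.V)
      (g : EuclideanSpace ℝ N.V → EuclideanSpace ℝ M.V), HInv f g (rl (Qset M)) (rl (Qset N))

/-- The real closure of the rational points of the realisation is the realisation. -/
def S_Q12 : Prop := ∀ (G : Type) [AddCommGroup G] [Lattice G] (M : Mdl G),
  rl (Qset M) = {z : EuclideanSpace ℝ M.V | (fun v => z v) ∈ M.Δ.Z}

/-- The realisation and the zero set of the relator.  `f z = ∑ t v z v`; it is injective on `Z` (as `hinj`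
in `face_card`, PLS/Dimn.lean).  Surjective: let `f0 x = 0`; if `a, b ∈ LP` and `ψ a = ψ b` then
`a x = b x` (`|a - b| ≤ k |f0|`); take `a v ∈ LP` with `ψ (a v)` the element of `M.chart.hat v` and put
`z v = a v x`.  `z v ≥ 0` because `ψ (a v)` and its supremum with `0` have the same values on `Z`, so
are equal.  The support of `z` is a face: otherwise the infimum of the finitely many hat functions
of the support vanishes on `Z`, so is `0` in `G`, so the minimum of the `z v` is `0`.  `∑ t v z v = x`: the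
coordinate function `l` and `∑ t v l • a v` have the same image in `G` by evaluation on `Z`.  Both maps
are continuous on closed sets: the inverse has continuous coordinates `a v` (`LP_cont`), and all maps
are positively homogeneous (`LP_hom`). -/
def S_Q13 : Prop := ∀ (G : Type) [AddCommGroup G] [Lattice G] [IsOrderedAddMonoid G] (n : ℕ)
  (f0 : (Fin n → ℝ) → ℝ), f0 ∈ LP (Fin n) → ∀ (ψ : ((Fin n → ℝ) → ℝ) → G), Pres n f0 G ψ →
  ∀ (M : Mdl G) (t : M.V → Fin n → ℤ), QTracks f0 ψ M t →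
  ∃ (f : EuclideanSpace ℝ M.V → (Fin n → ℝ)) (g : (Fin n → ℝ) → EuclideanSpace ℝ M.V),
    HInv f g {z : EuclideanSpace ℝ M.V | (fun v => z v) ∈ M.Δ.Z} {x | f0 x = 0}

end Pool.Agent.Work.MP_552024_lc.HM
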