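import Pool.Agent.Work.MP_552024_lc.HM.I_T1
import Pool.Agent.Work.MP_552024_lc.HM.I_T2
import Pool.Agent.Work.MP_552024_lc.HM.I_T3
import Pool.Agent.Work.MP_552024_lc.HM.I_T4
import Pool.Agent.Work.MP_552024_lc.HM.I_T5
import Pool.Agent.Work.MP_552024_lc.HM.I_T6
import Pool.Agent.Work.MP_552024_lc.HM.I_T7
import Pool.Agent.Work.MP_552024_lc.HM.I_T8
import Pool.Agent.Work.MP_552024_lc.HM.I_T9
import Pool.Agent.Work.MP_552024_lc.HM.I_T10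
import Pool.Agent.Work.MP_552024_lc.HM.I_T11
import Pool.Agent.Work.MP_552024_lc.HM.I_T12
import Pool.Agent.Work.MP_552024_lc.HM.I_T13
import Pool.Agent.Work.MP_552024_lc.HM.I_T14
import Pool.Agent.Work.MP_552024_lc.HM.I_T15
import Pool.Agent.Work.MP_552024_lc.HM.I_H1
import Pool.Agent.Work.MP_552024_lc.HM.I_H2
import Pool.Agent.Work.MP_552024_lc.HM.I_H3
import Pool.Agent.Work.MP_552024_lc.HM.I_H4
import Pool.Agent.Work.MP_552024_lc.HM.I_H5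
import Pool.Agent.Work.MP_552024_lc.HM.I_H6
import Pool.Agent.Work.MP_552024_lc.HM.I_H7
import Pool.Agent.Work.MP_552024_lc.HM.I_R1
import Pool.Agent.Work.MP_552024_lc.HM.I_R2
import Pool.Agent.Work.MP_552024_lc.HM.I_R3
import Pool.Agent.Work.MP_552024_lc.HM.I_R4
import Pool.Agent.Work.MP_552024_lc.HM.I_R5
import Pool.Agent.Work.MP_552024_lc.HM.I_R6
import Pool.Agent.Work.MP_552024_lc.HM.I_R7
import Pool.Agent.Work.MP_552024_lc.HM.I_R8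
import Pool.Agent.Work.MP_552024_lc.HM.I_R9
import Pool.Agent.Work.MP_552024_lc.HM.I_R10
import Pool.Agent.Work.MP_552024_lc.HM.I_R11
import Pool.Agent.Work.MP_552024_lc.HM.I_R12
import Pool.Agent.Work.MP_552024_lc.HM.I_R13
import Pool.Agent.Work.MP_552024_lc.HM.I_R14
import Pool.Agent.Work.MP_552024_lc.HM.I_R15
import Pool.Agent.Work.MP_552024_lc.HM.I_R16
import Pool.Agent.Work.MP_552024_lc.HM.StmtsQ

/-! Assembly of the topological and real polyhedral parts of theorem HM. -/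

set_option autoImplicit false

namespace Pool.Agent.Work.MP_552024_lc.HM

/-- The generalized Schoenflies theorem (Brown). -/
theorem brown : S_Brown :=
  pr_T15 pr_T1 (pr_T3 pr_T2) pr_T4 pr_T5 pr_T6 pr_T7 (pr_T9 pr_T8) (pr_T13 pr_T12 pr_T10 pr_T11)
    pr_T14

theorem c_R9 : C_R9 :=
  pr_R9 pr_R1 pr_R4 pr_R5 (pr_R6 pr_R1 pr_R4) (pr_R7 pr_R1 pr_R4 pr_R5)

theorem c_R15 : C_R15 :=
  pr_R15 pr_R1 pr_R4 pr_R5 (pr_R6 pr_R1 pr_R4)
    (pr_R8 pr_R1 pr_R2 pr_R3 pr_R4 pr_R5 (pr_R6 pr_R1 pr_R4)) (pr_R10 pr_R1)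
    (pr_R14 brown pr_H6 pr_H7 pr_R1 pr_R11 (pr_R12 pr_R1 pr_R2 pr_R3) pr_R13)

theorem c_R16 : C_R16 :=
  pr_R16 pr_R1 pr_R4 (pr_H4 pr_H1 pr_H2 pr_H3) (pr_H5 pr_H1 pr_H2 pr_H3)

end Pool.Agent.Work.MP_552024_lc.HM
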