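import Pool.Agent.Work.MP_552024_lc.HM.X12
import Pool.Agent.Work.MP_552024_lc.HM.Fin
import Pool.Agent.Work.MP_552024_lc.HM.I_H1

/-! The relative form of theorem HM for presentations, from `S_X12` and the translation. -/

set_option autoImplicit false

namespace Pool.Agent.Work.MP_552024_lc.HM

open Metric Set Topology Pool.Agent.Work.MP_552024_lc.PLS Pool.Agent.MP552024

theorem rel_of (h9 : S_X9) (h10 : S_X10) (h11 : S_X11) (h12 : S_X12) (hQ : S_Q12)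
    (G H : Type)
    [AddCommGroup G] [Lattice G] [IsOrderedAddMonoid G]
    [AddCommGroup H] [Lattice H] [IsOrderedAddMonoid H]
    (n : ℕ) (f : (Fin n → ℝ) → ℝ) (hf : f ∈ LP (Fin n)) (ψ : ((Fin n → ℝ) → ℝ) → G)
    (hP : Pres n f G ψ)
    (m : ℕ) (f' : (Fin m → ℝ) → ℝ) (hf' : f' ∈ LP (Fin m)) (ψ' : ((Fin m → ℝ) → ℝ) → H)
    (hP' : Pres m f' H ψ')
    (hT : @FirstOrder.Language.completeTheory L2 G (str G) =
      @FirstOrder.Language.completeTheory L2 H (str H))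
    (A : Set ((Fin n → ℝ) → ℝ)) (hA : A ⊆ LP (Fin n)) (hAf : A.Finite) :
    ∃ (e : (Fin n → ℝ) → Fin m → ℝ) (e' : (Fin m → ℝ) → Fin n → ℝ),
      ContinuousOn e {x | f x = 0} ∧ ContinuousOn e' {y | f' y = 0} ∧
      (∀ x, f x = 0 → f' (e x) = 0 ∧ e' (e x) = x ∧ ∀ r : ℝ, 0 ≤ r → e (r • x) = r • e x) ∧
      (∀ y, f' y = 0 → f (e' y) = 0 ∧ e (e' y) = y) ∧
      ∀ a ∈ A, ∃ b ∈ LP (Fin m), (∀ x, f x = 0 → (a x = 0 ↔ b (e x) = 0)) ∧
        ((∃ F : Set (Submodule ℝ (Fin n → ℝ)), F.Finite ∧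
            (∀ W ∈ F, Module.finrank ℝ W ≤ 4) ∧ ∀ x, f x = 0 → a x = 0 → ∃ W ∈ F, x ∈ W) →
          (∀ j, ∃ u ∈ LP (Fin n), ∀ x, f x = 0 → a x = 0 → e x j = u x) ∧
          ∀ i, ∃ v ∈ LP (Fin m), ∀ y, f' y = 0 → b y = 0 → e' y i = v y) := by
  have hlin : S_linall := prfB9 prfB7
  have hq : S_quot := prfC2 prfC1 prfC1b hlin
  obtain ⟨M, t, ht⟩ := hq n f hf G ψ hP
  obtain ⟨N, t', ht'⟩ := hq m f' hf' H ψ' hP'
  obtain ⟨F, Gm, S, S', b, b', hFG, hb, hb', hFS, hGS, hrel⟩ :=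
    h12 G H M N hT (ψ '' A) (hAf.image _)
  rw [hQ G M, hQ H N] at hFG
  obtain ⟨av, hav, hM⟩ := h11 G n f hf ψ hP M t ht
  obtain ⟨aw, haw, hN⟩ := h11 H m f' hf' ψ' hP' N t' ht'
  have s1 := (pr_H1 (EuclideanSpace ℝ M.V) (Fin n → ℝ) (Fin n → ℝ)).1 _ _ _ _ hM
  have s2 := (pr_H1 (Fin n → ℝ) (EuclideanSpace ℝ M.V) (EuclideanSpace ℝ N.V)).2.1 _ _ _ _ _ _ _
    s1 hFG
  have s3 := (pr_H1 (Fin n → ℝ) (EuclideanSpace ℝ N.V) (Fin m → ℝ)).2.1 _ _ _ _ _ _ _ s2 hN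
  -- the point of the model of a zero of the relator
  have hz : ∀ x : Fin n → ℝ, f x = 0 → (fun v => av v x) ∈ M.Δ.Z ∧
      (fun l => ∑ v, (t v l : ℝ) * av v x) = x := fun x hx =>
    ⟨hM.mapsg x hx, hM.fg x hx⟩
  have hz' : ∀ y : Fin m → ℝ, f' y = 0 → (fun w => aw w y) ∈ N.Δ.Z ∧
      (fun l => ∑ w, (t' w l : ℝ) * aw w y) = y := fun y hy =>
    ⟨hN.mapsg y hy, hN.fg y hy⟩
  refine ⟨_, _, s3.contf, s3.contg, fun x hx => ⟨s3.mapsf x hx, s3.gf x hx, fun r hr =>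
    (s3.homf x hx r hr).2⟩, fun y hy => ⟨s3.mapsg y hy, s3.fg y hy⟩, ?_⟩
  intro a ha
  obtain ⟨h, hiff, hcov⟩ := hrel (ψ a) ⟨a, ha, rfl⟩
  obtain ⟨b0, hb0, hb0h⟩ := hP'.2.1 h
  have haLP := hA ha
  -- zeros of `a`
  have key1 : ∀ x : Fin n → ℝ, f x = 0 →
      (a x = 0 ↔ (WithLp.toLp 2 (fun v => av v x) : EuclideanSpace ℝ M.V) ∈ rl (Zset M (ψ a))) := by
    intro x hx
    obtain ⟨e1, e2⟩ := hz x hx
    rw [h9 G M (ψ a)]
    have e3 := ht.1 a haLP _ e1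
    rw [e2] at e3
    constructor
    · intro h0
      exact ⟨e1, by rw [← h0]; exact e3⟩
    · rintro ⟨_, h0⟩
      rw [← e3]; exact h0
  have key2 : ∀ z : EuclideanSpace ℝ N.V, (fun w => z w) ∈ N.Δ.Z →
      (z ∈ rl (Zset N h) ↔ b0 (fun l => ∑ w, (t' w l : ℝ) * z w) = 0) := by
    intro z hzz
    rw [h9 H N h]
    have e3 := ht'.1 b0 hb0 _ hzz
    rw [hb0h] at e3
    constructor
    · rintro ⟨_, h0⟩
      rw [← e3]; exact h0
    · intro h0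
      exact ⟨hzz, by rw [e3]; exact h0⟩
  have hmem : ∀ x : Fin n → ℝ, f x = 0 →
      (WithLp.toLp 2 (fun v => av v x) : EuclideanSpace ℝ M.V) ∈
        {z : EuclideanSpace ℝ M.V | (fun v => z v) ∈ M.Δ.Z} := fun x hx => (hz x hx).1
  refine ⟨b0, hb0, ?_, ?_⟩
  · intro x hx
    rw [key1 x hx]
    refine (hiff _ (by rw [hQ G M]; exact hmem x hx)).trans ?_
    exact key2 _ (hFG.mapsf _ (hmem x hx))
  · intro hF
    obtain ⟨c1, c2⟩ := hcov (h10 G n f hf ψ hP M t ht a haLP 4 hF)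
    have c1' : rl (Zset M (ψ a)) ⊆ rl S := closure_mono (Set.image_mono c1)
    have c2' : rl (Zset N h) ⊆ rl S' := closure_mono (Set.image_mono c2)
    constructor
    · intro j
      refine ⟨fun x => ∑ w, (t' w j : ℝ) * b w (fun v => av v x),
        LP_sum _ _ (fun w _ => LP_zsmul (t' w j) (LP_comp (hb w) av hav)), ?_⟩
      intro x hx hax
      show ∑ w, (t' w j : ℝ) * F (WithLp.toLp 2 (fun v => av v x)) w = _
      rw [hFS _ (c1' ((key1 x hx).1 hax))]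
    · intro i
      refine ⟨fun y => ∑ v, (t v i : ℝ) * b' v (fun w => aw w y),
        LP_sum _ _ (fun v _ => LP_zsmul (t v i) (LP_comp (hb' v) aw haw)), ?_⟩
      intro y hy hby
      have h1 : (WithLp.toLp 2 (fun w => aw w y) : EuclideanSpace ℝ N.V) ∈ rl (Zset N h) := by
        rw [key2 _ (hz' y hy).1]
        have h2 := (hz' y hy).2
        show b0 (fun l => ∑ w, (t' w l : ℝ) * aw w y) = 0
        rw [h2]; exact hby
      show ∑ v, (t v i : ℝ) * Gm (WithLp.toLp 2 (fun w => aw w y)) v = _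
      rw [hGS _ (c2' h1)]

end Pool.Agent.Work.MP_552024_lc.HM
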