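import Pool.Agent.Work.MP_552024_lc.HM.Main
import Pool.Agent.Work.MP_552024_lc.HM.X13
import Pool.Agent.Work.MP_552024_lc.HM.I_X1
import Pool.Agent.Work.MP_552024_lc.HM.I_X2
import Pool.Agent.Work.MP_552024_lc.HM.I_X3
import Pool.Agent.Work.MP_552024_lc.HM.I_X4
import Pool.Agent.Work.MP_552024_lc.HM.I_X5
import Pool.Agent.Work.MP_552024_lc.HM.I_X6
import Pool.Agent.Work.MP_552024_lc.HM.I_X7
import Pool.Agent.Work.MP_552024_lc.HM.I_X8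
import Pool.Agent.Work.MP_552024_lc.HM.I_X9
import Pool.Agent.Work.MP_552024_lc.HM.I_X10
import Pool.Agent.Work.MP_552024_lc.HM.I_X11

/-! Relative form of theorem HM. -/

set_option autoImplicit false

namespace Pool.Agent.Work.MP_552024_lc.HM

open Pool.Agent.MP552024

theorem rel_of_theory (G H : Type)
    [AddCommGroup G] [Lattice G] [IsOrderedAddMonoid G]
    [AddCommGroup H] [Lattice H] [IsOrderedAddMonoid H]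
    (n : ℕ) (f : (Fin n → ℝ) → ℝ) (hf : f ∈ LP (Fin n)) (ψ : ((Fin n → ℝ) → ℝ) → G)
    (hP : Pres n f G ψ)
    (m : ℕ) (f' : (Fin m → ℝ) → ℝ) (hf' : f' ∈ LP (Fin m)) (ψ' : ((Fin m → ℝ) → ℝ) → H)
    (hP' : Pres m f' H ψ')
    (hT : @FirstOrder.Language.completeTheory L2 G (str G) =
      @FirstOrder.Language.completeTheory L2 H (str H))
    (A : Set ((Fin n → ℝ) → ℝ)) (hA : A ⊆ LP (Fin n)) (hAf : A.Finite) :
    ∃ (e : (Fin n → ℝ) → Fin m → ℝ) (e' : (Fin m → ℝ) → Fin n → ℝ),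
      ContinuousOn e {x | f x = 0} ∧ ContinuousOn e' {y | f' y = 0} ∧
      (∀ x, f x = 0 → f' (e x) = 0 ∧ e' (e x) = x ∧ ∀ r : ℝ, 0 ≤ r → e (r • x) = r • e x) ∧
      (∀ y, f' y = 0 → f (e' y) = 0 ∧ e (e' y) = y) ∧
      ∀ a ∈ A, ∃ b ∈ LP (Fin m), (∀ x, f x = 0 → (a x = 0 ↔ b (e x) = 0)) ∧
        ((∃ F : Set (Submodule ℝ (Fin n → ℝ)), F.Finite ∧
            (∀ W ∈ F, Module.finrank ℝ W ≤ 4) ∧ ∀ x, f x = 0 → a x = 0 → ∃ W ∈ F, x ∈ W) →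
          (∀ j, ∃ u ∈ LP (Fin n), ∀ x, f x = 0 → a x = 0 → e x j = u x) ∧
          ∀ i, ∃ v ∈ LP (Fin m), ∀ y, f' y = 0 → b y = 0 → e' y i = v y) :=
  rel_of pr_X9 pr_X10 pr_X11
    (x12_of pr_X1 pr_X2 (pr_X6 pr_X3 pr_X4 (pr_X5 pr_X4)) pr_X7 pr_X8
      (pr_Q9 (pr_Q4 c_R16 (pr_Q2 pr_Q1)) (pr_Q5 c_R9 c_R15 c_R16 (pr_Q2 pr_Q1) pr_Q3) pr_Q6 pr_Q7
        (pr_Q8 (pr_Q2 pr_Q1)))
      (pr_Q2 pr_Q1))
    pr_Q12 G H n f hf ψ hP m f' hf' ψ' hP' hT A hA hAf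

end Pool.Agent.Work.MP_552024_lc.HM
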