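import Pool.Agent.Work.MP_552024_lc.HM.StmtsQ
import Pool.Agent.Work.MP_552024_lc.PLS.Sch4
import Pool.Agent.Work.MP_552024_lc.PLS.Bey4

/-!
Statements of the lemmas of the relative form of theorem HM (S_X..): the homeomorphism preserves
finitely many given polyhedral subsets and is integral piecewise linear in dimension at most four.
Each docstring contains the proof.
-/

set_option autoImplicit false

namespace Pool.Agent.Work.MP_552024_lc.HM

open Metric Set Topology Pool.Agent.Work.MP_552024_lc.PLS Pool.Agent.MP552024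

/-- Cells adapted to finitely many polyhedral subsets.  Proof: as `exists_cells` (PLS/Assemble.lean),
with the forms of all `D` added to the arrangement; for `x ∈ D` the cell is `face 𝓐 x`. -/
def S_X1 : Prop := ∀ (E : Type) [AddCommGroup E] [Module ℚ E] [FiniteDimensional ℚ E] (P : Set E),
  Pol P → ∀ 𝓓 : Set (Set E), 𝓓.Finite → (∀ D ∈ 𝓓, Pol D ∧ D ⊆ P) →
  ∃ (ι : Type) (_ : PartialOrder ι) (_ : Finite ι) (i0 : ι) (d : ι → ℕ) (c : ι → Set E),
    (∀ i, i0 ≤ i) ∧ Cells i0 d (fun k => Ball k) c ∧ ⋃ i, c i = P ∧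
    ∀ D ∈ 𝓓, ∀ x ∈ D, ∃ i, x ∈ c i ∧ c i ⊆ D

/-- PL comparison of the lower part of two cell systems.  Proof: apply (a copy of) `assemble`
(PLS/Assemble.lean), keeping the equivalences `x ∈ c i ↔ f x ∈ c' i` proved there as part of `key`, to the
subtype of the elements of `L` (or take all index sets `s ⊆ L` in `key`). -/
def S_X2 : Prop := ∀ (E E' : Type) [AddCommGroup E] [Module ℚ E] [FiniteDimensional ℚ E]
  [AddCommGroup E'] [Module ℚ E'] [FiniteDimensional ℚ E'] (ι : Type) [PartialOrder ι] [Finite ι]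
  (i0 : ι) (d : ι → ℕ) (c : ι → Set E) (c' : ι → Set E') (L : Set ι),
  (∀ i, i0 ≤ i) → IsLowerSet L → i0 ∈ L → (∀ i, Pol (c i)) → (∀ i, Pol (c' i)) →
  c i0 = {0} → c' i0 = {0} →
  (∀ i j, c i ∩ c j = ⋃ k ∈ {k | k ≤ i ∧ k ≤ j}, c k) →
  (∀ i j, c' i ∩ c' j = ⋃ k ∈ {k | k ≤ i ∧ k ≤ j}, c' k) →
  (∀ i ∈ L, i ≠ i0 → d i ≠ 0 ∧ Ball (d i) (c i) (⋃ k ∈ {k | k < i}, c k) ∧
    Ball (d i) (c' i) (⋃ k ∈ {k | k < i}, c' k)) →
  ∃ (f : E → E') (g : E' → E), PLInv f g (⋃ i ∈ L, c i) (⋃ i ∈ L, c' i) ∧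
    ∀ i ∈ L, ∀ x ∈ ⋃ i ∈ L, c i, (x ∈ c i ↔ f x ∈ c' i)

/-- Desingularisation with a property of complexes and realisations which is preserved by the
stellar subdivisions used.  Proof: copy of `desing` (PLS/Bey3.lean). -/
def S_X3 : Prop := ∀ (U : Type) [Fintype U] (Q : Set (U → ℚ))
  (Pr : ∀ (V : Type) [Fintype V], Cx V → (V → U → ℤ) → Prop),
  (∀ (V : Type) [Fintype V] (Δ : Cx V) (w : V → U → ℤ) (τ : Finset V) (hτ : Δ.face (τ : Set V))
    (h2 : ∃ i ∈ τ, ∃ j ∈ τ, i ≠ j) (q : V → ℚ) (w0 : U → ℤ), (∀ v ∈ τ, 0 < q v) →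
    (∀ v ∉ τ, q v = 0) → (∀ u, Wm w q u = w0 u) → Rlz Q Δ w → Pr V Δ w →
    Pr (Option V) (starCx Δ τ hτ h2) (fun o : Option V => o.elim w0 w)) →
  ∀ (V : Type) [Fintype V] (Δ : Cx V) (w : V → U → ℤ), Rlz Q Δ w → Pr V Δ w →
    ∃ (V' : Type) (_ : Fintype V') (Δ' : Cx V') (w' : V' → U → ℤ),
      Rlz Q Δ' w' ∧ Pr V' Δ' w' ∧ Unim Δ' w'

/-- Refinements adapted to polyhedral subsets and to a PL map on one of them.  Proof: let `h` be
given on `S` by `A`, `Λ` (`PLOn`), let `σ, δ k ≥ 0` be elements of `G` with `Zset M σ = S`,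
`Zset M (δ k) = D k` (`exists_Zset`).  Apply `exists_refine` (PLS/Bey1.lean) to the PL map `F` with the coordinates
`max (a x) 0` (`a ∈ A`), the values of `σ` and of the `δ k` (`ev_rat`).  `VS` is the set of vertices `v` with
`M.ev σ (castR (T e_v)) = 0`, same for `VD k`.  For `z ∈ Qset N` the value of `σ` at `T z` is the sum of the
`z v` times its values at the `T e_v`, all nonnegative: this gives the equivalences.  If `T z ∈ S` and
`z v ≠ 0` then `T e_v ∈ face A (T z)`: compare `a (T z) = ∑ z v a (T e_v)` with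
`max (a (T z)) 0 = ∑ z v max (a (T e_v)) 0`.  So with the `L ∈ Λ` for `y = T z`:
`h (T z) = L (T z) = ∑ z v L (T e_v) = ∑ z v h (T e_v)`. -/
def S_X4 : Prop := ∀ (G : Type) [AddCommGroup G] [Lattice G] [IsOrderedAddMonoid G] (M : Mdl G)
  (S : Set (M.V → ℚ)), Pol S → S ⊆ Qset M → ∀ (κ : Type) [Finite κ] (D : κ → Set (M.V → ℚ)),
  (∀ k, Pol (D k)) → (∀ k, D k ⊆ S) → ∀ (E' : Type) [AddCommGroup E'] [Module ℚ E']
  (h : (M.V → ℚ) → E'), PLOn h S →
  ∃ (N : Mdl G) (_ : DecidableEq N.V) (T : (N.V → ℚ) →ₗ[ℚ] (M.V → ℚ))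
    (g' : (M.V → ℚ) → (N.V → ℚ)) (VS : Set N.V) (VD : κ → Set N.V),
    PLInv T g' (Qset N) (Qset M) ∧ (∀ i v, ∃ k : ℤ, T (Pi.single i 1) v = k) ∧
    (∀ z ∈ Qset N, T z ∈ S ↔ ∀ v, z v ≠ 0 → v ∈ VS) ∧
    (∀ k, ∀ z ∈ Qset N, T z ∈ D k ↔ ∀ v, z v ≠ 0 → v ∈ VD k) ∧
    (∀ z ∈ Qset N, T z ∈ S → h (T z) = ∑ i, z i • h (T (Pi.single i 1))) ∧
    ∀ g : G, ∀ z ∈ Qset N, N.ev g (castR z) = M.ev g (castR (T z))

/-- Integral PL functions on a polyhedral subset extend to elements of the group.  Proof: `S_X4`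
(conclusion) for `S` and `h`, `κ` empty; the element of `N` (`N.exists_lin`) which is linear on the cones with
value `h (T e_v)` at the vertices `v ∈ VS` and `0` at the others; as at the end of `exists_elt`
(PLS/Bey1.lean). -/
def S_X5 : Prop := S_X4 → ∀ (G : Type) [AddCommGroup G] [Lattice G] [IsOrderedAddMonoid G]
  (M : Mdl G) (S : Set (M.V → ℚ)), Pol S → S ⊆ Qset M → ∀ h : (M.V → ℚ) → ℚ, PLOn h S →
  (∀ x ∈ S, (∀ v, ∃ k : ℤ, x v = k) → ∃ k : ℤ, h x = k) →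
  ∃ b ∈ LP M.V, ∀ x ∈ S, b (castR x) = (h x : ℝ)

/-- A PL isomorphism `f` of polyhedral subsets can be replaced by an integral one with the same
effect on the sets `D k`.  Proof, as `beynon` (PLS/Bey4.lean), relative to `S`.
1. `S_X4` for `h = f` on `S`: `K, T, g', VS, VD`.  Let `Δ0` be the full subcomplex of `K.Δ` on the subtype `VS`; extension by
zero `ex` and `T` give a bijection `StK ℚ Δ0 → S`.  Its inverse has the coordinates `M.ev (hat v)`,
`v ∈ VS`, where `K.chart.hat v` is the element of `G` with values `z v` on `K.Δ.Z`; these are `LP` on `Qset M`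
(`M.chart.mem`).  `T ∘ ex` has integral linear coordinates.
2. `w0 v`: the primitive integral multiple of `f (T e_v)`, `v ∈ VS` (`exists_primitive`; as in `beynon`).
Then `Rlz S' Δ0 w0`; let `g0 : S' → StK ℚ Δ0` be the inverse of `Wm w0`.  For `x = T (ex z) ∈ S` we
have `f x = Wm w0 (z v / r v)`, so `g0 (f x)` and `z` have the same support.
3. `S_X3` with `Pr V Δ w`: there are `T' : (V → ℝ) → (VS → ℝ)` and `R'` back, with coordinates in `LP`,
mapping `Δ.Z` and `Δ0.Z` to each other, inverse to each other there, such that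
(a) for `z ∈ StK ℚ Δ` and `v`: `T' (castR z) v = 0 ↔ g0 (Wm w z) v = 0`, and
(b) for `x, y ∈ StK ℚ Δ` with the same support `T' (castR x)`, `T' (castR y)` have the same support.
It holds for `Δ0, w0` with the identity.  Stellar subdivision: compose `T'`, `R'` with `sT`, `sR` for the
weights `1` on `τ`, `0` elsewhere (as in `chart_star`, PLS/Bey2.lean).  For `z` in the subdivided complex
`Wm (o.elim w0 w) z = Wm w (sT q z)` (as in `Rlz.star`), the points `sT q z`, `sT 1 z` are in `StK ℚ Δ` with the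
same support; so (b) and (a) for `Δ` give (a); (b) because the support of `sT 1 x` depends only on that of
`x` (all terms are nonnegative).
4. The unimodular `Δ', w'` from 3: `f₁ = Wm w' ∘ R' ∘ (coordinates of 1)`, `g₁` its inverse, the
coordinates of the inverse of `Wm w'` on `S'` are in `LP` by `S_X5` (`Unim`).  For `x = T (ex z)`:
`x ∈ D k` iff the support of `z` lies in `VD k` iff that of `g0 (f₁ x)` does (3) iff `f₁ x ∈ f '' D k`
(2) iff `f₁ x ∈ D' k`. -/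
def S_X6 : Prop := S_X3 → S_X4 → (∀ (G : Type) [AddCommGroup G] [Lattice G] [IsOrderedAddMonoid G]
  (M : Mdl G) (S : Set (M.V → ℚ)), Pol S → S ⊆ Qset M → ∀ h : (M.V → ℚ) → ℚ, PLOn h S →
  (∀ x ∈ S, (∀ v, ∃ k : ℤ, x v = k) → ∃ k : ℤ, h x = k) →
  ∃ b ∈ LP M.V, ∀ x ∈ S, b (castR x) = (h x : ℝ)) →
  ∀ (G H : Type) [AddCommGroup G] [Lattice G] [IsOrderedAddMonoid G]
  [AddCommGroup H] [Lattice H] [IsOrderedAddMonoid H] (M : Mdl G) (N : Mdl H)
  (S : Set (M.V → ℚ)) (S' : Set (N.V → ℚ)), Pol S → S ⊆ Qset M → Pol S' → S' ⊆ Qset N →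
  ∀ (κ : Type) [Finite κ] (D : κ → Set (M.V → ℚ)) (D' : κ → Set (N.V → ℚ)),
  (∀ k, Pol (D k)) → (∀ k, D k ⊆ S) →
  ∀ (f : (M.V → ℚ) → (N.V → ℚ)) (g : (N.V → ℚ) → (M.V → ℚ)), PLInv f g S S' →
  (∀ k, ∀ x ∈ S, x ∈ D k ↔ f x ∈ D' k) →
  ∃ (f₁ : (M.V → ℚ) → (N.V → ℚ)) (g₁ : (N.V → ℚ) → (M.V → ℚ)) (b : N.V → (M.V → ℝ) → ℝ)
    (b' : M.V → (N.V → ℝ) → ℝ), PLInv f₁ g₁ S S' ∧ (∀ k, ∀ x ∈ S, x ∈ D k ↔ f₁ x ∈ D' k) ∧
    (∀ w, b w ∈ LP M.V) ∧ (∀ v, b' v ∈ LP N.V) ∧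
    (∀ x ∈ S, ∀ w, b w (castR x) = (f₁ x w : ℝ)) ∧ ∀ y ∈ S', ∀ v, b' v (castR y) = (g₁ y v : ℝ)

/-- Extension of integral PL isomorphisms to the real closures.  Proof: `rl` is a closure, the two
maps are continuous (`LP_cont`) and positively homogeneous (`LP_hom`), and everything holds at the
rational points (`rl S` is invariant under multiplication by reals `r ≥ 0`: limits of rational multiples).  Last
part: `z ∈ rl D` is a limit of points of `castE '' D`; for the converse use the inverse map. -/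
def S_X7 : Prop := ∀ (V W : Type) [Fintype V] [Fintype W] (S : Set (V → ℚ)) (S' : Set (W → ℚ)),
  Pol S → Pol S' → ∀ (f : (V → ℚ) → (W → ℚ)) (g : (W → ℚ) → (V → ℚ)) (b : W → (V → ℝ) → ℝ)
  (b' : V → (W → ℝ) → ℝ), PLInv f g S S' → (∀ w, b w ∈ LP V) → (∀ v, b' v ∈ LP W) →
  (∀ x ∈ S, ∀ w, b w (castR x) = (f x w : ℝ)) → (∀ y ∈ S', ∀ v, b' v (castR y) = (g y v : ℝ)) →
  HInv (fun z : EuclideanSpace ℝ V =>
      (WithLp.toLp 2 (fun w => b w (fun v => z v)) : EuclideanSpace ℝ W))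
    (fun z : EuclideanSpace ℝ W =>
      (WithLp.toLp 2 (fun v => b' v (fun w => z w)) : EuclideanSpace ℝ V)) (rl S) (rl S') ∧
  ∀ (D : Set (V → ℚ)) (D' : Set (W → ℚ)), D ⊆ S → D' ⊆ S' → (∀ x ∈ S, x ∈ D ↔ f x ∈ D') →
    ∀ z ∈ rl S, (z ∈ rl D ↔
      (WithLp.toLp 2 (fun w => b w (fun v => z v)) : EuclideanSpace ℝ W) ∈ rl D')

/-- Extension of a homogeneous homeomorphism from the lower part `L` to everything.  Proof: copy of
`assembleR` (HM/I_Q10.lean) with the index sets `s` of `key` containing `L`, starting with `s = L`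
(`I_H1`, `I_H2`, `I_H3` may be imported); `key` has the additional conclusion that the maps agree with `f` and
`g` on the union over `L` (`S_H2`, `S_H3` give it at each step). -/
def S_X8 : Prop := ∀ (F F' : Type) [NormedAddCommGroup F] [NormedSpace ℝ F]
  [NormedAddCommGroup F'] [NormedSpace ℝ F'] (ι : Type) [PartialOrder ι] [Finite ι]
  (c : ι → Set F) (c' : ι → Set F') (L : Set ι), IsLowerSet L →
  (∀ i, IsClosed (c i)) → (∀ i, IsClosed (c' i)) →
  (∀ i, ∀ x ∈ c i, ∀ r : ℝ, 0 ≤ r → r • x ∈ c i) →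
  (∀ i, ∀ x ∈ c' i, ∀ r : ℝ, 0 ≤ r → r • x ∈ c' i) →
  (∀ i j, c i ∩ c j = ⋃ k ∈ {k | k ≤ i ∧ k ≤ j}, c k) →
  (∀ i j, c' i ∩ c' j = ⋃ k ∈ {k | k ≤ i ∧ k ≤ j}, c' k) →
  (∀ i, i ∉ L → ∃ n, TB n (c i) (⋃ k ∈ {k | k < i}, c k) ∧
    TB n (c' i) (⋃ k ∈ {k | k < i}, c' k)) →
  ∀ (f : F → F') (g : F' → F), HInv f g (⋃ i ∈ L, c i) (⋃ i ∈ L, c' i) →
  (∀ i ∈ L, ∀ x ∈ ⋃ i ∈ L, c i, (x ∈ c i ↔ f x ∈ c' i)) →
  ∃ (f₁ : F → F') (g₁ : F' → F), HInv f₁ g₁ (⋃ i, c i) (⋃ i, c' i) ∧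
    (∀ i, ∀ x ∈ ⋃ i, c i, (x ∈ c i ↔ f₁ x ∈ c' i)) ∧ (∀ x ∈ ⋃ i ∈ L, c i, f₁ x = f x) ∧
    ∀ y ∈ ⋃ i ∈ L, c' i, g₁ y = g y

/-- The real closure of the rational zero set is the real zero set.  Proof: for `b ∈ LP V` there are finite
sets `A`, `Λ` of rational forms such that for `z` real and `y` rational with the same signs on `A` (signs
of `exR a z` and `a y`) there is `L ∈ Λ` with `b z = exR L z` and `b (castR y) = L y` (`LP_ind`; for the
maximum add the differences `L - L'` to `A`).  Given `z` with `b z = 0` take `y` close to `z` with the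
same signs on `A`, `Λ` and the coordinates (`S_Q1`, proved in I_Q1), so `y ∈ Zset M g`.  The converse is
continuity and `isClosed_Z` (PLS/Bey4.lean). -/
def S_X9 : Prop := ∀ (G : Type) [AddCommGroup G] [Lattice G] (M : Mdl G) (g : G)
  (z : EuclideanSpace ℝ M.V), z ∈ rl (Zset M g) ↔
    ((fun v => z v) ∈ M.Δ.Z ∧ M.ev g (fun v => z v) = 0)

/-- The dimension of zero sets.  Proof: `exists_refine` (PLS/Bey1.lean) for the PL function
`|value of ψ a|`: `N, T, ...`; then `QTracks f0 ψ N t'` with `t' v l = ∑ u, t u l * T e_v u` (by density, `mem_of_rat`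
in PLS/Bey4.lean, the formula for `N.ev` holds at the real points of `N.Δ.Z`).  `Zset N (ψ a)` is the set
of the `z ∈ Qset N` with support in `V0 = {v | value of ψ a at e_v is 0}`, and `Zset M (ψ a)` is its
image under `T`.  If `s ⊆ V0` is a face of `N.Δ` then `s.card ≤ d`: copy of `face_card` (PLS/Dimn.lean), the points
`L (moment point)` are zeros of `f0` and of `a`.  So `Zset M (ψ a)` is covered by the images under `T` of the
coordinate subspaces of these faces (as `cov_Qset`). -/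
def S_X10 : Prop := ∀ (G : Type) [AddCommGroup G] [Lattice G] [IsOrderedAddMonoid G] (n : ℕ)
  (f0 : (Fin n → ℝ) → ℝ), f0 ∈ LP (Fin n) → ∀ (ψ : ((Fin n → ℝ) → ℝ) → G), Pres n f0 G ψ →
  ∀ (M : Mdl G) (t : M.V → Fin n → ℤ), QTracks f0 ψ M t → ∀ a ∈ LP (Fin n), ∀ d : ℕ,
  (∃ F : Set (Submodule ℝ (Fin n → ℝ)), F.Finite ∧ (∀ W ∈ F, Module.finrank ℝ W ≤ d) ∧
    ∀ x, f0 x = 0 → a x = 0 → ∃ W ∈ F, x ∈ W) → CovLE (Zset M (ψ a)) d

/-- `S_Q13` with the formulas for the maps.  Proof: that of `pr_Q13` (HM/I_Q13.lean). -/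
def S_X11 : Prop := ∀ (G : Type) [AddCommGroup G] [Lattice G] [IsOrderedAddMonoid G] (n : ℕ)
  (f0 : (Fin n → ℝ) → ℝ), f0 ∈ LP (Fin n) → ∀ (ψ : ((Fin n → ℝ) → ℝ) → G), Pres n f0 G ψ →
  ∀ (M : Mdl G) (t : M.V → Fin n → ℤ), QTracks f0 ψ M t →
  ∃ a : M.V → (Fin n → ℝ) → ℝ, (∀ v, a v ∈ LP (Fin n)) ∧
    HInv (fun z : EuclideanSpace ℝ M.V => (fun l => ∑ v, (t v l : ℝ) * z v : Fin n → ℝ))
      (fun x => (WithLp.toLp 2 (fun v => a v x) : EuclideanSpace ℝ M.V))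
      {z : EuclideanSpace ℝ M.V | (fun v => z v) ∈ M.Δ.Z} {x | f0 x = 0}

/-- Models.  The conclusion of the relative theorem for models of `G` and `H`: `S`, `S'` are the unions
of the cells of dimension at most four.  Proof: cells by `S_X1` for the sets `Zset M a`, `a ∈ A`; `transfer` as in
`plinv_of_theory`; `L = {i | CovLE (c i) 4}`; `S_X2` on `L` with `schP_le_four`, then `S_X6` (`D` the cells of `L`),
`S_X7`, `S_X8`; `Zset N h` is the union of the `c' i` with `c i ⊆ Zset M a`. -/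
def S_X12 : Prop := ∀ (G H : Type) [AddCommGroup G] [Lattice G] [IsOrderedAddMonoid G]
  [AddCommGroup H] [Lattice H] [IsOrderedAddMonoid H] (M : Mdl G) (N : Mdl H),
  @FirstOrder.Language.completeTheory L2 G (str G) =
    @FirstOrder.Language.completeTheory L2 H (str H) → ∀ A : Set G, A.Finite →
  ∃ (f : EuclideanSpace ℝ M.V → EuclideanSpace ℝ N.V)
    (g : EuclideanSpace ℝ N.V → EuclideanSpace ℝ M.V) (S : Set (M.V → ℚ)) (S' : Set (N.V → ℚ))
    (b : N.V → (M.V → ℝ) → ℝ) (b' : M.V → (N.V → ℝ) → ℝ),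
    HInv f g (rl (Qset M)) (rl (Qset N)) ∧ (∀ w, b w ∈ LP M.V) ∧ (∀ v, b' v ∈ LP N.V) ∧
    (∀ z ∈ rl S, f z = WithLp.toLp 2 (fun w => b w (fun v => z v))) ∧
    (∀ z ∈ rl S', g z = WithLp.toLp 2 (fun v => b' v (fun w => z w))) ∧
    ∀ a ∈ A, ∃ h : H, (∀ z ∈ rl (Qset M), z ∈ rl (Zset M a) ↔ f z ∈ rl (Zset N h)) ∧
      (CovLE (Zset M a) 4 → Zset M a ⊆ S ∧ Zset N h ⊆ S')

end Pool.Agent.Work.MP_552024_lc.HM
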