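import Pool.Agent.Work.MP_552024_lc.HM.StmtsX
import Pool.Agent.Work.MP_552024_lc.HM.I_Q10

/-! The relative form of theorem HM for models (`S_X12`), from the other statements. -/

set_option autoImplicit false

namespace Pool.Agent.Work.MP_552024_lc.HM

open Metric Set Topology Pool.Agent.Work.MP_552024_lc.PLS Pool.Agent.MP552024

/-- Conclusion of `S_X6`. -/
def C_X6 : Prop := ∀ (G H : Type) [AddCommGroup G] [Lattice G] [IsOrderedAddMonoid G]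
  [AddCommGroup H] [Lattice H] [IsOrderedAddMonoid H] (M : Mdl G) (N : Mdl H)
  (S : Set (M.V → ℚ)) (S' : Set (N.V → ℚ)), Pol S → S ⊆ Qset M → Pol S' → S' ⊆ Qset N →
  ∀ (κ : Type) [Finite κ] (D : κ → Set (M.V → ℚ)) (D' : κ → Set (N.V → ℚ)),
  (∀ k, Pol (D k)) → (∀ k, D k ⊆ S) →
  ∀ (f : (M.V → ℚ) → (N.V → ℚ)) (g : (N.V → ℚ) → (M.V → ℚ)), PLInv f g S S' →
  (∀ k, ∀ x ∈ S, x ∈ D k ↔ f x ∈ D' k) →
  ∃ (f₁ : (M.V → ℚ) → (N.V → ℚ)) (g₁ : (N.V → ℚ) → (M.V → ℚ)) (b : N.V → (M.V → ℝ) → ℝ)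
    (b' : M.V → (N.V → ℝ) → ℝ), PLInv f₁ g₁ S S' ∧ (∀ k, ∀ x ∈ S, x ∈ D k ↔ f₁ x ∈ D' k) ∧
    (∀ w, b w ∈ LP M.V) ∧ (∀ v, b' v ∈ LP N.V) ∧
    (∀ x ∈ S, ∀ w, b w (castR x) = (f₁ x w : ℝ)) ∧ ∀ y ∈ S', ∀ v, b' v (castR y) = (g₁ y v : ℝ)

theorem pol_bi {E : Type*} [AddCommGroup E] [Module ℚ E] [FiniteDimensional ℚ E] {ι : Type} [Finite ι] {c : ι → Set E}
    (hc : ∀ i, Pol (c i)) (i0 : ι) (L : Set ι) (h0 : i0 ∈ L) : Pol (⋃ i ∈ L, c i) := by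
  have h1 := pol_sUnion (S := c '' L) (L.toFinite.image _) (by rintro _ ⟨i, _, rfl⟩; exact hc i)
  convert h1 using 1
  ext x
  simp only [Set.mem_iUnion, Set.mem_union, Set.mem_singleton_iff, Set.mem_sUnion, Set.mem_image,
    exists_prop]
  constructor
  · rintro ⟨i, hi, hx⟩; exact Or.inr ⟨c i, ⟨i, hi, rfl⟩, hx⟩
  · rintro (hx | ⟨_, ⟨i, hi, rfl⟩, hx⟩)
    · exact ⟨i0, h0, by rw [hx]; exact (hc i0).1⟩
    · exact ⟨i, hi, hx⟩

theorem covLE_zero {E : Type*} [AddCommGroup E] [Module ℚ E] (d : ℕ) : CovLE ({0} : Set E) d :=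
  ⟨{⊥}, Set.finite_singleton _, by
    rintro W hW
    rw [Set.mem_singleton_iff.1 hW, finrank_bot]
    exact Nat.zero_le _, fun x hx => ⟨⊥, rfl, by
      rw [Set.mem_singleton_iff.1 hx]; exact Submodule.zero_mem _⟩⟩

theorem x12_of (h1 : S_X1) (h2 : S_X2) (h6 : C_X6) (h7 : S_X7) (h8 : S_X8)
    (hB : ∀ (V : Type) [Fintype V] (k : ℕ) (C S : Set (V → ℚ)), BB (k + 1) C S → HB (k + 1) C S)
    (hq : C_Q2) : S_X12 := by
  intro G H _ _ _ _ _ _ M N hT A hA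
  obtain ⟨ι, _, _, i0, dd, c, hi0, hc, hcQ, hcD⟩ := h1 (M.V → ℚ) (Qset M) (pol_Qset M)
    (Zset M '' A) (hA.image _) (by
      rintro _ ⟨a, _, rfl⟩
      exact ⟨pol_Zset M a, Zset_sub M a⟩)
  have hcs : ∀ i, c i ⊆ Qset M := fun i => by rw [← hcQ]; exact Set.subset_iUnion c i
  have hBB : Cells i0 dd (fun k => BB k) c := by
    refine ⟨hc.pol, hc.zero, hc.inter, fun i hi => ?_⟩
    obtain ⟨h1, h2⟩ := hc.cell i hi
    refine ⟨h1, ?_⟩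
    obtain ⟨k, hk⟩ : ∃ k, dd i = k + 1 := ⟨dd i - 1, by omega⟩
    rw [hk] at h2 ⊢
    exact BB_of_ball k h2
  obtain ⟨c', hc', hC', hQ'⟩ := transfer hT M N (LD.cells i0 hi0 dd)
    ⟨c, ⟨pol_Qset M, fun i => ⟨hc.pol i, hcs i⟩⟩, hBB, hcQ.ge⟩
  have hH : Cells i0 dd (fun k => HB k) c := by
    refine ⟨hBB.pol, hBB.zero, hBB.inter, fun i hi => ?_⟩
    obtain ⟨h1, h2⟩ := hBB.cell i hi
    refine ⟨h1, ?_⟩
    obtain ⟨k, hk⟩ : ∃ k, dd i = k + 1 := ⟨dd i - 1, by omega⟩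
    rw [hk] at h2 ⊢
    exact hB _ _ _ _ h2
  have hH' : Cells i0 dd (fun k => HB k) c' := by
    refine ⟨hC'.pol, hC'.zero, hC'.inter, fun i hi => ?_⟩
    obtain ⟨h1, h2⟩ := hC'.cell i hi
    refine ⟨h1, ?_⟩
    obtain ⟨k, hk⟩ : ∃ k, dd i = k + 1 := ⟨dd i - 1, by omega⟩
    rw [hk] at h2 ⊢
    exact hB _ _ _ _ h2
  have hcs' : ∀ i, c' i ⊆ Qset N := fun i => (hc'.2 i).2
  have hU : ⋃ i, c' i = Qset N := subset_antisymm (Set.iUnion_subset hcs') hQ'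
  -- the lower part
  set L : Set ι := {i | CovLE (c i) 4} with hL
  have hLlow : IsLowerSet L := fun a b hba ha => CovLE.mono ha (hc.mono hba)
  have h0L : i0 ∈ L := by
    show CovLE (c i0) 4
    rw [hc.zero]; exact covLE_zero 4
  have hball : ∀ i ∈ L, i ≠ i0 → dd i ≠ 0 ∧ Ball (dd i) (c i) (⋃ k ∈ {k | k < i}, c k) ∧
      Ball (dd i) (c' i) (⋃ k ∈ {k | k < i}, c' k) := by
    intro i hiL hi
    obtain ⟨e1, e2⟩ := hc.cell i hi
    refine ⟨e1, e2, ?_⟩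
    have e3 : dd i ≤ 4 := Ball.le_of_covLE e2 hiL
    obtain ⟨_, e4⟩ := hC'.cell i hi
    obtain ⟨k, hk⟩ : ∃ k, dd i = k + 1 := ⟨dd i - 1, by omega⟩
    rw [hk] at e4 e3 ⊢
    exact ball_of_BB k (fun j hj hjk => schP_le_four j hj (hjk.trans e3)) e4
  obtain ⟨f0, g0, hfg0, hiff0⟩ := h2 (M.V → ℚ) (N.V → ℚ) ι i0 dd c c' L hi0 hLlow h0L hc.pol
    hC'.pol hc.zero hC'.zero hc.inter hC'.inter hball
  set S : Set (M.V → ℚ) := ⋃ i ∈ L, c i with hS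
  set S' : Set (N.V → ℚ) := ⋃ i ∈ L, c' i with hS'
  have hSp : Pol S := pol_bi hc.pol i0 L h0L
  have hSp' : Pol S' := pol_bi hC'.pol i0 L h0L
  have hSQ : S ⊆ Qset M := Set.iUnion₂_subset (fun i _ => hcs i)
  have hSQ' : S' ⊆ Qset N := Set.iUnion₂_subset (fun i _ => hcs' i)
  obtain ⟨f1, g1, b, b', hfg1, hD1, hb, hb', hbf, hbg⟩ := h6 G H M N S S' hSp hSQ hSp' hSQ' L
    (fun k => c k) (fun k => c' k) (fun k => hc.pol _)
    (fun k => Set.subset_biUnion_of_mem (u := c) k.2) f0 g0 hfg0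
    (fun k x hx => hiff0 k k.2 x hx)
  obtain ⟨hR, hRiff⟩ := h7 M.V N.V S S' hSp hSp' f1 g1 b b' hfg1 hb hb' hbf hbg
  set Φ : EuclideanSpace ℝ M.V → EuclideanSpace ℝ N.V :=
    fun z => WithLp.toLp 2 (fun w => b w (fun v => z v)) with hΦ
  set Ψ : EuclideanSpace ℝ N.V → EuclideanSpace ℝ M.V :=
    fun z => WithLp.toLp 2 (fun v => b' v (fun w => z w)) with hΨ
  have eS : rl S = ⋃ i ∈ L, rl (c i) := IQ10.rl_biUnion L c
  have eS' : rl S' = ⋃ i ∈ L, rl (c' i) := IQ10.rl_biUnion L c'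
  obtain ⟨a1, a2⟩ := IQ10.rc_of_cells hq hH
  obtain ⟨b1, b2⟩ := IQ10.rc_of_cells hq hH'
  obtain ⟨F, Gm, hFG, hFiff, hF, hGm⟩ := h8 (EuclideanSpace ℝ M.V) (EuclideanSpace ℝ N.V) ι
    (fun i => rl (c i)) (fun i => rl (c' i)) L hLlow a1.clo b1.clo a1.hom b1.hom a1.inter b1.inter
    (fun i hi => ⟨dd i - 1, a2 i (fun h => hi (h ▸ h0L)), b2 i (fun h => hi (h ▸ h0L))⟩) Φ Ψ
    (by
      show HInv Φ Ψ (⋃ i ∈ L, rl (c i)) (⋃ i ∈ L, rl (c' i))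
      rw [← eS, ← eS']; exact hR)
    (by
      intro i hi x hx
      have hx' : x ∈ rl S := by rw [eS]; exact hx
      exact hRiff (c i) (c' i) (Set.subset_biUnion_of_mem (u := c) hi)
        (Set.subset_biUnion_of_mem (u := c') hi) (fun y hy => hD1 ⟨i, hi⟩ y hy) x hx')
  have eQ : (⋃ i, rl (c i)) = rl (Qset M) := by rw [← IQ10.rl_iUnion, hcQ]
  have eQ' : (⋃ i, rl (c' i)) = rl (Qset N) := by rw [← IQ10.rl_iUnion, hU]
  refine ⟨F, Gm, S, S', b, b', ?_, hb, hb', ?_, ?_, ?_⟩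
  · rw [← eQ, ← eQ']; exact hFG
  · intro z hz
    rw [eS] at hz
    exact hF z hz
  · intro z hz
    rw [eS'] at hz
    exact hGm z hz
  · intro a ha
    set J : Set ι := {i | c i ⊆ Zset M a} with hJ
    have h0J : i0 ∈ J := by
      show c i0 ⊆ Zset M a
      rw [hc.zero]
      intro x hx
      rw [Set.mem_singleton_iff.1 hx]
      exact (pol_Zset M a).1
    have eD : Zset M a = ⋃ i ∈ J, c i := by
      refine subset_antisymm (fun x hx => ?_) (Set.iUnion₂_subset (fun i hi => hi))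
      obtain ⟨i, hxi, hi⟩ := hcD _ ⟨a, ha, rfl⟩ x hx
      exact Set.mem_biUnion (x := i) hi hxi
    obtain ⟨h, _, hh⟩ := exists_Zset N (pol_bi hC'.pol i0 J h0J)
      (Set.iUnion₂_subset (fun i _ => hcs' i))
    refine ⟨h, ?_, ?_⟩
    · intro z hz
      rw [← eQ] at hz
      rw [hh, eD, IQ10.rl_biUnion, IQ10.rl_biUnion]
      simp only [Set.mem_iUnion, exists_prop]
      exact exists_congr (fun i => and_congr_right (fun _ => hFiff i z hz))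
    · intro hcov
      have hJL : ∀ i ∈ J, i ∈ L := fun i hi => CovLE.mono hcov hi
      rw [hh, eD]
      exact ⟨Set.iUnion₂_subset (fun i hi => Set.subset_biUnion_of_mem (u := c) (hJL i hi)),
        Set.iUnion₂_subset (fun i hi => Set.subset_biUnion_of_mem (u := c') (hJL i hi))⟩

end Pool.Agent.Work.MP_552024_lc.HM
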